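import Pool.Agent.ZGap.Res.Defs

/-!
# Diagonal evaluation of weighted means of `‖Amp‖²`
-/

namespace Pool.Agent.ZGap.Res

open MeasureTheory Finset

/-- Pairs of disjoint finite sets of primes. -/
noncomputable def QQ (T : ℝ) : Finset (Finset ℕ × Finset ℕ) :=
  ((PP T).powerset ×ˢ (PP T).powerset).filter (fun q => Disjoint q.1 q.2)

/-- The two-sided coefficient. -/
noncomputable def al (R : ResData) (T : ℝ) (q : Finset ℕ × Finset ℕ) : ℝ :=
  aa R T q.1 * aa R T q.2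

/-- The frequency. -/
noncomputable def fr (q : Finset ℕ × Finset ℕ) : ℝ := ell q.1 - ell q.2

lemma mem_PP {T : ℝ} {p : ℕ} : p ∈ PP T ↔ p.Prime ∧ p ≤ ⌊T⌋₊ := by
  unfold PP
  rw [mem_filter, mem_Icc]
  exact ⟨fun h => ⟨h.2, h.1.2⟩, fun h => ⟨⟨h.1.one_lt.le, h.2⟩, h.1⟩⟩

lemma mem_QQ {T : ℝ} {q : Finset ℕ × Finset ℕ} :
    q ∈ QQ T ↔ q.1 ⊆ PP T ∧ q.2 ⊆ PP T ∧ Disjoint q.1 q.2 := by
  unfold QQ
  rw [mem_filter, mem_product, mem_powerset, mem_powerset]
  tauto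

lemma sum_QQ {M : Type*} [AddCommMonoid M] (T : ℝ) (g : Finset ℕ → Finset ℕ → M) :
    ∑ S ∈ (PP T).powerset, ∑ S' ∈ (PP T \ S).powerset, g S S' = ∑ q ∈ QQ T, g q.1 q.2 := by
  unfold QQ
  rw [sum_filter, sum_product]
  refine sum_congr rfl fun S hS => ?_
  rw [mem_powerset] at hS
  rw [← sum_filter]
  refine sum_congr ?_ fun _ _ => rfl
  ext S'
  simp only [mem_powerset, mem_filter, subset_sdiff]
  constructor
  · rintro ⟨h1, h2⟩; exact ⟨h1, h2.symm⟩
  · rintro ⟨h1, h2⟩; exact ⟨h1, h2.symm⟩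

lemma Amp_eq (R : ResData) (T t : ℝ) :
    Amp R T t = ∑ q ∈ QQ T, (al R T q : ℂ) * Complex.exp (((-(t * fr q) : ℝ) : ℂ) * Complex.I) := by
  unfold Amp
  rw [sum_QQ T (fun S S' => ((aa R T S * aa R T S' : ℝ) : ℂ) *
    Complex.exp (((-(t * (ell S - ell S')) : ℝ) : ℂ) * Complex.I))]
  rfl

/-- Expansion of the square. -/
lemma norm_sq_Amp (R : ResData) (T t : ℝ) :
    ‖Amp R T t‖ ^ 2 = ∑ q ∈ QQ T, ∑ q' ∈ QQ T, al R T q * al R T q' *
      Real.cos (t * (fr q - fr q')) := by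
  rw [Amp_eq, Complex.sq_norm]
  have h1 : Complex.normSq (∑ q ∈ QQ T, (al R T q : ℂ) *
      Complex.exp (((-(t * fr q) : ℝ) : ℂ) * Complex.I)) =
      ((∑ q ∈ QQ T, (al R T q : ℂ) * Complex.exp (((-(t * fr q) : ℝ) : ℂ) * Complex.I)) *
        (starRingEnd ℂ) (∑ q ∈ QQ T, (al R T q : ℂ) *
          Complex.exp (((-(t * fr q) : ℝ) : ℂ) * Complex.I))).re := by
    rw [Complex.mul_conj]; simp
  rw [h1, map_sum, sum_mul_sum, Complex.re_sum]
  refine sum_congr rfl fun q _ => ?_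
  rw [Complex.re_sum]
  refine sum_congr rfl fun q' _ => ?_
  rw [map_mul, Complex.conj_ofReal, ← Complex.exp_conj, map_mul, Complex.conj_ofReal, Complex.conj_I]
  have h2 : (al R T q : ℂ) * Complex.exp (((-(t * fr q) : ℝ) : ℂ) * Complex.I) *
      ((al R T q' : ℂ) * Complex.exp (((-(t * fr q') : ℝ) : ℂ) * -Complex.I)) =
      ((al R T q * al R T q' : ℝ) : ℂ) *
        Complex.exp (((-(t * (fr q - fr q')) : ℝ) : ℂ) * Complex.I) := by
    push_cast
    rw [mul_mul_mul_comm, ← Complex.exp_add]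
    congr 2
    ring
  rw [h2, Complex.re_ofReal_mul, Complex.exp_ofReal_mul_I_re, Real.cos_neg]

/-- The product of a finite set of primes. -/
def pr (S : Finset ℕ) : ℕ := ∏ p ∈ S, p

lemma pr_pos {T : ℝ} {S : Finset ℕ} (hS : S ⊆ PP T) : 0 < pr S :=
  prod_pos fun p hp => (mem_PP.mp (hS hp)).1.pos

lemma ell_eq {T : ℝ} {S : Finset ℕ} (hS : S ⊆ PP T) : ell S = Real.log (pr S) := by
  unfold ell pr
  push_cast
  rw [Real.log_prod]
  intro p hp
  have := (mem_PP.mp (hS hp)).1.pos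
  positivity

lemma ell_nonneg (S : Finset ℕ) : 0 ≤ ell S := sum_nonneg fun p _ => Real.log_natCast_nonneg p

/-- If the coefficient is nonzero then the product is `< T^θ`. -/
lemma ell_lt_of_aa_ne {R : ResData} {T : ℝ} (hT : 1 < T) {S : Finset ℕ} (h : aa R T S ≠ 0) :
    ell S < R.th * Real.log T := by
  have hL : 0 < Real.log T := Real.log_pos hT
  have hth : 0 < R.th := by linarith [R.ep_pos, R.ep_th]
  have h1 : R.F (ell S / (R.th * Real.log T)) ≠ 0 := fun h0 => h (by unfold aa; rw [h0, zero_mul])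
  have h2 : ell S / (R.th * Real.log T) < 1 := by
    by_contra hcon
    exact h1 (R.F_one _ (not_lt.mp hcon))
  rwa [div_lt_one (by positivity)] at h2

/-- `|log a - log b| ≥ 1/(2a)` for distinct positive integers. -/
lemma abs_log_sub_ge {a b : ℕ} (ha : 0 < a) (hb : 0 < b) (hab : a ≠ b) :
    1 / (2 * (a : ℝ)) ≤ |Real.log a - Real.log b| := by
  have ha' : (0 : ℝ) < a := by exact_mod_cast ha
  have hb' : (0 : ℝ) < b := by exact_mod_cast hb
  have ha1 : (1 : ℝ) ≤ a := by exact_mod_cast ha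
  rcases lt_or_gt_of_ne hab with h | h
  · -- a < b : log b - log a ≥ log ((a+1)/a) ≥ 1/(a+1)
    have h1 : (a : ℝ) + 1 ≤ b := by exact_mod_cast h
    have h2 : Real.log ((a : ℝ) / b) ≤ (a : ℝ) / b - 1 := Real.log_le_sub_one_of_pos (by positivity)
    rw [Real.log_div ha'.ne' hb'.ne'] at h2
    have h3 : (a : ℝ) / b ≤ a / (a + 1) := by gcongr
    have h4 : (a : ℝ) / (a + 1) - 1 = -(1 / (a + 1)) := by field_simp; ring
    have h5 : 1 / (2 * (a : ℝ)) ≤ 1 / (a + 1) := by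
      apply one_div_le_one_div_of_le (by positivity); linarith
    have h6 := neg_le_abs (Real.log a - Real.log b)
    linarith
  · have h1 : (b : ℝ) ≤ a - 1 := by
      have : b + 1 ≤ a := h
      have : (b : ℝ) + 1 ≤ a := by exact_mod_cast this
      linarith
    have h2 : Real.log ((b : ℝ) / a) ≤ (b : ℝ) / a - 1 := Real.log_le_sub_one_of_pos (by positivity)
    rw [Real.log_div hb'.ne' ha'.ne'] at h2
    have h3 : (b : ℝ) / a ≤ (a - 1) / a := by gcongr
    have h4 : ((a : ℝ) - 1) / a - 1 = -(1 / a) := by field_simp; ring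
    have h5 : 1 / (2 * (a : ℝ)) ≤ 1 / a := by
      apply one_div_le_one_div_of_le (by positivity); linarith
    have h6 := le_abs_self (Real.log a - Real.log b)
    linarith

/-- Spacing of the frequencies. -/
lemma spacing {R : ResData} {T : ℝ} (hT : 1 < T) {q q' : Finset ℕ × Finset ℕ} (hq : q ∈ QQ T)
    (hq' : q' ∈ QQ T) (h : al R T q ≠ 0) (h' : al R T q' ≠ 0) {n : ℕ} (hn : 0 < n)
    (hne : pr q.1 * pr q'.2 ≠ n * (pr q.2 * pr q'.1)) :
    T ^ (-(2 * R.th)) / 2 ≤ |fr q - fr q' - Real.log n| := by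
  obtain ⟨h1, h2, h3⟩ := mem_QQ.mp hq
  obtain ⟨h1', h2', h3'⟩ := mem_QQ.mp hq'
  have e1 : aa R T q.1 ≠ 0 := left_ne_zero_of_mul h
  have e2 : aa R T q'.2 ≠ 0 := right_ne_zero_of_mul h'
  have p1 := pr_pos h1
  have p2 := pr_pos h2
  have p1' := pr_pos h1'
  have p2' := pr_pos h2'
  have q1 : (0:ℝ) < pr q.1 := by exact_mod_cast p1
  have q2 : (0:ℝ) < pr q.2 := by exact_mod_cast p2
  have q1' : (0:ℝ) < pr q'.1 := by exact_mod_cast p1'
  have q2' : (0:ℝ) < pr q'.2 := by exact_mod_cast p2'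
  have qn : (0:ℝ) < n := by exact_mod_cast hn
  have key := abs_log_sub_ge (Nat.mul_pos p1 p2') (Nat.mul_pos hn (Nat.mul_pos p2 p1')) hne
  have e3 : Real.log ((pr q.1 * pr q'.2 : ℕ) : ℝ) - Real.log ((n * (pr q.2 * pr q'.1) : ℕ) : ℝ) =
      fr q - fr q' - Real.log n := by
    push_cast
    rw [Real.log_mul q1.ne' q2'.ne', Real.log_mul qn.ne' (by positivity),
      Real.log_mul q2.ne' q1'.ne']
    unfold fr
    rw [ell_eq h1, ell_eq h2, ell_eq h1', ell_eq h2']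
    ring
  rw [e3] at key
  refine le_trans ?_ key
  have hTp : 0 < T := by linarith
  have e4 : ((pr q.1 * pr q'.2 : ℕ) : ℝ) ≤ T ^ (2 * R.th) := by
    push_cast
    have l1 := ell_lt_of_aa_ne hT e1
    have l2 := ell_lt_of_aa_ne hT e2
    rw [ell_eq h1] at l1
    rw [ell_eq h2'] at l2
    rw [Real.rpow_def_of_pos hTp]
    rw [← Real.log_le_iff_le_exp (by positivity), Real.log_mul q1.ne' q2'.ne']
    linarith
  rw [Real.rpow_neg hTp.le, div_eq_mul_one_div, ← one_div, one_div_mul_one_div]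
  apply one_div_le_one_div_of_le
  · have : (0:ℝ) < ((pr q.1 * pr q'.2 : ℕ) : ℝ) := by exact_mod_cast Nat.mul_pos p1 p2'
    positivity
  · linarith

end Pool.Agent.ZGap.Res
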