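import Pool.Agent.ZGap.Res.Void

/-!
# A positive proportion of the normalised gaps is above `3.58` (RH)
-/

namespace Pool.Agent.ZGap.Res

open Pool.Agent.ZetaGaps

theorem num_large : |(35801 / 10000 : ℝ) - 1| * Den (5 / 64) (59 / 64) ((23 / 10) ^ 2) <
    2 / Real.pi * (|(23 / 10 : ℝ)| * Num (Real.pi * (35801 / 10000) * (49999 / 100000))
      (5 / 64) (59 / 64) ((23 / 10) ^ 2) 3) := by
  have hpi := Real.pi_pos
  have e : 2 / Real.pi * (|(23 / 10 : ℝ)| * Num (Real.pi * (35801 / 10000) * (49999 / 100000))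
      (5 / 64) (59 / 64) ((23 / 10) ^ 2) 3) = (23 / 10) *
      (4 * ((35801 / 10000) * (49999 / 100000)) * term (5 / 64) (59 / 64) 0 (rho ((23 / 10) ^ 2)) -
      2 / 3 * Real.pi ^ 2 * ((35801 / 10000) * (49999 / 100000)) ^ 3 *
        term (5 / 64) (59 / 64) 1 (rho ((23 / 10) ^ 2)) +
      1 / 30 * Real.pi ^ 4 * ((35801 / 10000) * (49999 / 100000)) ^ 5 *
        term (5 / 64) (59 / 64) 2 (rho ((23 / 10) ^ 2)) -
      1 / 1260 * Real.pi ^ 6 * ((35801 / 10000) * (49999 / 100000)) ^ 7 *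
        term (5 / 64) (59 / 64) 3 (rho ((23 / 10) ^ 2)) +
      1 / 90720 * Real.pi ^ 8 * ((35801 / 10000) * (49999 / 100000)) ^ 9 *
        term (5 / 64) (59 / 64) 4 (rho ((23 / 10) ^ 2)) -
      1 / 9979200 * Real.pi ^ 10 * ((35801 / 10000) * (49999 / 100000)) ^ 11 *
        term (5 / 64) (59 / 64) 5 (rho ((23 / 10) ^ 2))) := by
    have h1 : |(23 / 10 : ℝ)| = 23 / 10 := by norm_num [abs_of_pos]
    rw [h1]
    unfold Num sk
    simp only [Finset.sum_range_succ, Finset.sum_range_zero, Nat.factorial, show 2 * 3 = 6 from rfl]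
    field_simp
    ring
  rw [e]
  have b1 := Real.pi_gt_d6
  have b2 := Real.pi_lt_d6
  have p2 : Real.pi ^ 2 < 3.141593 ^ 2 := by gcongr
  have p4 : 3.141592 ^ 4 < Real.pi ^ 4 := by gcongr
  have p6 : Real.pi ^ 6 < 3.141593 ^ 6 := by gcongr
  have p8 : 3.141592 ^ 8 < Real.pi ^ 8 := by gcongr
  have p10 : Real.pi ^ 10 < 3.141593 ^ 10 := by gcongr
  have habs : |(35801 / 10000 : ℝ) - 1| = 35801 / 10000 - 1 := by
    rw [abs_of_pos (by norm_num)]
  rw [habs]
  unfold Den term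
  simp only [rho, Nat.cast_ofNat, Nat.cast_zero, Nat.cast_one, mul_zero, mul_one, zero_add]
  norm_num
  nlinarith [p2, p4, p6, p8, p10]

/-- **Positive proportion of large gaps** (RH). -/
theorem large_gaps (hRH : RiemannHypothesis) : ∃ κ : ℝ, 0 < κ ∧ ∃ N0 : ℕ, ∀ N : ℕ, N0 ≤ N →
    κ * N ≤ ({n ∈ Finset.Icc 1 N | 3.58 < gap n}.card : ℝ) :=
  large_gaps_of_num hRH (r := 23 / 10) (θ := 49999 / 100000) (c := 35801 / 10000)
    (a := 5 / 64) (b := 59 / 64) (m := 3) (by norm_num) (by norm_num) (by norm_num)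
    (by norm_num) (by norm_num) (by norm_num) (by norm_num) (by norm_num) (by norm_num)
    num_large (by norm_num)

end Pool.Agent.ZGap.Res
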