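import Pool.Agent.ZGap.Res.Bounds
import Pool.Agent.Lib.ANT.MertensE
import Pool.Agent.Lib.DirPoly.PrimeSums

/-!
# Sums over primes against Lipschitz functions, in the variable `log p / log T`
-/

namespace Pool.Agent.ZGap.Res

open MeasureTheory Finset ArithmeticFunction Filter Topology

lemma PP_eq {T : ℝ} : PP T = (Icc 1 ⌊T⌋₊).filter Nat.Prime := rfl

/-- Sums over primes of Lipschitz functions. -/
theorem prime_sum {e b : ℝ} (he : 0 < e) (heb : e ≤ b) (hb : b < 1) :
    ∃ C : ℝ, 0 < C ∧ ∃ T0 : ℝ, 3 ≤ T0 ∧ ∀ T : ℝ, T0 ≤ T → ∀ (g : ℝ → ℝ) (K M : ℝ), 0 ≤ K → 0 ≤ M →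
      (∀ x, x ∉ Set.Ioo e b → g x = 0) → (∀ x y, |g x - g y| ≤ K * |x - y|) → (∀ x, |g x| ≤ M) →
      |∑ p ∈ PP T, Real.log p / (p * Real.log T) * g (Real.log p / Real.log T) -
        ∫ x in (0:ℝ)..1, g x| ≤ C * (K + M) / Real.log T := by
  obtain ⟨C1, hC1, h1⟩ := Pool.Agent.ANTE.mertens_lip
  obtain ⟨C2, hC2, h2⟩ := Pool.Agent.DirPoly.exists_sum_nonprime_le
  have hb0 : 0 < b := lt_of_lt_of_le he heb
  -- large T
  have ev : ∀ᶠ T : ℝ in atTop, 3 ≤ T ∧ b * Real.log T ≤ Real.log T - Real.log 2 ∧
      T ^ (-(e / 2)) * (1 + Real.log T) ≤ 1 := by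
    have a1 : Tendsto (fun T : ℝ => Real.log T * (1 - b)) atTop atTop :=
      Real.tendsto_log_atTop.atTop_mul_const (by linarith)
    have a2 : Tendsto (fun T : ℝ => T ^ (-(e / 2)) * (1 + Real.log T)) atTop (𝓝 0) := by
      have b1 : Tendsto (fun T : ℝ => T ^ (-(e / 2))) atTop (𝓝 0) :=
        tendsto_rpow_neg_atTop (by positivity)
      have b2 : Tendsto (fun T : ℝ => Real.log T / T ^ (e / 2)) atTop (𝓝 0) :=
        (isLittleO_log_rpow_atTop (by positivity)).tendsto_div_nhds_zero
      have b3 := b1.add b2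
      rw [add_zero] at b3
      refine b3.congr' ?_
      filter_upwards [eventually_gt_atTop 0] with T hT
      rw [Real.rpow_neg hT.le]
      field_simp
    filter_upwards [eventually_ge_atTop 3, a1.eventually_ge_atTop (Real.log 2),
      a2.eventually (ge_mem_nhds one_pos)] with T t1 t2 t3
    exact ⟨t1, by linarith, t3⟩
  obtain ⟨T0, hT0⟩ := eventually_atTop.mp ev
  refine ⟨C1 + C2, by positivity, max T0 3, le_max_right _ _, fun T hT g K M hK hM hsupp hlip hbd => ?_⟩
  obtain ⟨hT3, hbT, hsm⟩ := hT0 T ((le_max_left _ _).trans hT)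
  have hT0' : 0 < T := by linarith
  set L := Real.log T with hL
  have hLpos : 0 < L := Real.log_pos (by linarith)
  set N := ⌊T⌋₊ with hN
  have hN3 : 3 ≤ N := Nat.le_floor (by exact_mod_cast hT3)
  have hNT : (N : ℝ) ≤ T := Nat.floor_le hT0'.le
  have hN0 : (0:ℝ) < N := by exact_mod_cast (by omega : 0 < N)
  have hTN : T ≤ 2 * N := by
    have := Nat.lt_floor_add_one T
    have h3 : (1:ℝ) ≤ N := by exact_mod_cast (by omega : 1 ≤ N)
    linarith
  have hlogN : Real.log T - Real.log 2 ≤ Real.log N := by
    rw [← Real.log_div hT0'.ne' (by norm_num)]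
    apply Real.log_le_log (by positivity)
    linarith
  set h : ℝ → ℝ := fun x => g (x / L) / L with hh
  have hsupp' : ∀ u, u ∉ Set.Ioo (e * L) (b * L) → h u = 0 := by
    intro u hu
    simp only [hh]
    rw [hsupp, zero_div]
    intro hx
    apply hu
    rw [Set.mem_Ioo, lt_div_iff₀ hLpos, div_lt_iff₀ hLpos] at hx
    exact hx
  have main := h1 h (K / L ^ 2) (e * L) (b * L) N (by gcongr) (by positivity) (by omega)
    (hbT.trans hlogN) (by
      intro u _ v _
      simp only [hh]
      rw [← sub_div, abs_div, abs_of_pos hLpos]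
      have := hlip (u / L) (v / L)
      rw [← sub_div, abs_div, abs_of_pos hLpos] at this
      calc _ ≤ (K * (|u - v| / L)) / L := by gcongr
        _ = _ := by field_simp) hsupp'
  -- the integral
  have eint : ∫ u in (0:ℝ)..(Real.log N), h u = ∫ x in (0:ℝ)..1, g x := by
    have c1 : ∫ u in (0:ℝ)..(Real.log N), h u = ∫ u in (0:ℝ)..L, h u := by
      have hc : Continuous h := by
        have : LipschitzWith (Real.toNNReal K) g := by
          refine LipschitzWith.of_dist_le_mul fun x y => ?_
          rw [Real.dist_eq, Real.dist_eq, Real.coe_toNNReal _ hK]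
          exact hlip x y
        have hgc := this.continuous
        simp only [hh]
        fun_prop
      have c2 : ∫ u in (Real.log N)..L, h u = 0 := by
        apply intervalIntegral.integral_zero_ae
        refine Filter.Eventually.of_forall fun u hu => ?_
        apply hsupp'
        intro hx
        have hle : Real.log N ≤ L := Real.log_le_log hN0 hNT
        rw [Set.uIoc_of_le hle] at hu
        have := hu.1
        have := hx.2
        linarith
      have := intervalIntegral.integral_add_adjacent_intervals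
        (hc.intervalIntegrable (μ := volume) 0 (Real.log N))
        (hc.intervalIntegrable (μ := volume) (Real.log N) L)
      rw [c2, add_zero] at this
      exact this
    rw [c1]
    have c3 := intervalIntegral.integral_comp_div (a := 0) (b := L) g hLpos.ne'
    rw [zero_div, div_self hLpos.ne', smul_eq_mul] at c3
    simp only [hh]
    rw [intervalIntegral.integral_div, c3]
    field_simp
  rw [eint] at main
  -- split off the nonprimes
  have esum : ∑ n ∈ Icc 1 N, vonMangoldt n / n * h (Real.log n) =
      ∑ p ∈ PP T, Real.log p / (p * L) * g (Real.log p / L) +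
      ∑ n ∈ (Icc 1 N).filter (fun n => ¬ n.Prime), vonMangoldt n / n * h (Real.log n) := by
    rw [← sum_filter_add_sum_filter_not (Icc 1 N) Nat.Prime]
    congr 1
    refine sum_congr rfl fun p hp => ?_
    have hp' := (mem_PP.mp hp).1
    rw [vonMangoldt_apply_prime hp']
    simp only [hh]
    have : (p:ℝ) ≠ 0 := by exact_mod_cast hp'.ne_zero
    field_simp
  have enp : |∑ n ∈ (Icc 1 N).filter (fun n => ¬ n.Prime), vonMangoldt n / n * h (Real.log n)| ≤
      C2 * M / L := by
    refine (abs_sum_le_sum_abs _ _).trans ?_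
    have hterm : ∀ n ∈ (Icc 1 N).filter (fun n => ¬ n.Prime),
        |vonMangoldt n / n * h (Real.log n)| ≤
          (M / L * T ^ (-(e / 2))) * (vonMangoldt n / Real.sqrt n) := by
      intro n hn
      rw [mem_filter, mem_Icc] at hn
      have hn0 : (0:ℝ) < n := by exact_mod_cast hn.1.1
      by_cases hz : Real.log n ∈ Set.Ioo (e * L) (b * L)
      · rw [abs_mul, abs_of_nonneg (div_nonneg vonMangoldt_nonneg hn0.le)]
        have k1 : |h (Real.log n)| ≤ M / L := by
          simp only [hh]
          rw [abs_div, abs_of_pos hLpos]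
          gcongr
          exact hbd _
        have k2 : 1 / (n:ℝ) ≤ T ^ (-(e / 2)) * (1 / Real.sqrt n) := by
          have k3 : T ^ (e / 2) ≤ Real.sqrt n := by
            rw [Real.rpow_def_of_pos hT0', Real.sqrt_eq_rpow, Real.rpow_def_of_pos hn0]
            apply Real.exp_le_exp.mpr
            have := hz.1
            linarith
          have k4 : 0 < T ^ (e / 2) := Real.rpow_pos_of_pos hT0' _
          have k5 : Real.sqrt n * Real.sqrt n = n := Real.mul_self_sqrt hn0.le
          have k6 : 0 < Real.sqrt n := Real.sqrt_pos.mpr hn0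
          rw [Real.rpow_neg hT0'.le, ← one_div, one_div_mul_one_div]
          apply one_div_le_one_div_of_le (by positivity)
          nlinarith
        calc vonMangoldt n / n * |h (Real.log n)| = vonMangoldt n * (1 / n) * |h (Real.log n)| := by
              ring
          _ ≤ vonMangoldt n * (T ^ (-(e / 2)) * (1 / Real.sqrt n)) * (M / L) := by
              gcongr
          _ = _ := by ring
      · rw [hsupp' _ hz, mul_zero, abs_zero]
        have := vonMangoldt_nonneg (n := n)
        positivity
    refine (sum_le_sum hterm).trans ?_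
    rw [← mul_sum]
    have k7 := h2 N (by omega)
    have k8 : Real.log N ≤ L := Real.log_le_log hN0 hNT
    have hTe : 0 < T ^ (-(e / 2)) := Real.rpow_pos_of_pos hT0' _
    calc _ ≤ (M / L * T ^ (-(e / 2))) * (C2 * (1 + L)) := by
          apply mul_le_mul_of_nonneg_left _ (by positivity)
          exact k7.trans (by gcongr)
      _ = C2 * M / L * (T ^ (-(e / 2)) * (1 + L)) := by ring
      _ ≤ C2 * M / L * 1 := by gcongr
      _ = _ := by ring
  rw [esum] at main
  have e5 : C1 * (K / L ^ 2) * (b * L - e * L) ≤ C1 * K / L := by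
    have : b * L - e * L ≤ L := by nlinarith
    calc _ ≤ C1 * (K / L ^ 2) * L := by gcongr
      _ = _ := by field_simp
  have e6 : ∑ p ∈ PP T, Real.log p / (p * L) * g (Real.log p / L) - ∫ x in (0:ℝ)..1, g x =
      (∑ p ∈ PP T, Real.log p / (p * L) * g (Real.log p / L) +
      ∑ n ∈ (Icc 1 N).filter (fun n => ¬ n.Prime), vonMangoldt n / n * h (Real.log n) -
      ∫ x in (0:ℝ)..1, g x) -
      ∑ n ∈ (Icc 1 N).filter (fun n => ¬ n.Prime), vonMangoldt n / n * h (Real.log n) := by ring
  rw [e6]
  calc _ ≤ C1 * (K / L ^ 2) * (b * L - e * L) + C2 * M / L := (abs_sub _ _).trans (add_le_add main enp)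
    _ ≤ C1 * K / L + C2 * M / L := by linarith
    _ ≤ (C1 + C2) * (K + M) / L := by
        rw [← add_div]
        gcongr
        nlinarith

end Pool.Agent.ZGap.Res
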