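import Pool.Agent.ZGap.Res.Star
import Pool.Agent.Lib.Hadamard.RvMSums

/-!
# Weighted means of the smoothed zero count
-/

open scoped ContDiff

namespace Pool.Agent.ZGap.Res

open MeasureTheory Real Set Pool.Agent.Hadamard Pool.Agent.DirPoly ArithmeticFunction

/-- The smoothed number of zeros near `t` at scale `1/log T`. -/
noncomputable def NC (g : ℝ → ℝ) (T t : ℝ) : ℝ :=
  ∑' ρ : ntz, (mult ρ : ℝ) * g ((t - (ρ : ℂ).im) * Real.log T)

/-- Admissible weights. -/
structure Wt (V : ℝ → ℝ) (M : ℝ) : Prop where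
  cont : Continuous V
  nonneg : ∀ t, 0 ≤ V t
  bound : ∀ t, V t ≤ M / (1 + t ^ 2) ^ 2

lemma scaled_bound {g : ℝ → ℝ} {K L : ℝ} (hg : ∀ x, |g x| ≤ K / (1 + x ^ 2)) (hL : 1 ≤ L) (y : ℝ) :
    |g (y * L)| ≤ K / (1 + y ^ 2) := by
  have hK : 0 ≤ K := by
    have := (abs_nonneg _).trans (hg 0)
    simpa using this
  refine (hg _).trans ?_
  apply div_le_div_of_nonneg_left hK (by positivity)
  have h1 : y ^ 2 ≤ (y * L) ^ 2 := by
    rw [mul_pow]
    exact le_mul_of_one_le_right (sq_nonneg y) (one_le_pow₀ hL)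
  linarith

lemma NC_summable {g : ℝ → ℝ} {K T : ℝ} (hg : ∀ x, |g x| ≤ K / (1 + x ^ 2))
    (hL : 1 ≤ Real.log T) (t : ℝ) :
    Summable (fun ρ : ntz => (mult ρ : ℝ) * g ((t - (ρ : ℂ).im) * Real.log T)) := by
  refine Summable.of_norm_bounded ((summable_weight t).mul_left K) fun ρ => ?_
  rw [norm_mul, Real.norm_natCast, Real.norm_eq_abs]
  calc _ ≤ (mult ρ : ℝ) * (K / (1 + (t - (ρ : ℂ).im) ^ 2)) := by
        have := scaled_bound hg hL (t - (ρ : ℂ).im)
        gcongr
    _ = _ := by ring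

lemma exists_NC_le : ∃ C : ℝ, 0 < C ∧ ∀ (g : ℝ → ℝ) (K T : ℝ), (∀ x, |g x| ≤ K / (1 + x ^ 2)) →
    1 ≤ Real.log T → ∀ t, |NC g T t| ≤ C * K * Real.log (|t| + 2) := by
  obtain ⟨C, hC, h⟩ := tsum_weight_le
  refine ⟨C, hC, fun g K T hg hL t => ?_⟩
  have hK : 0 ≤ K := by
    have := (abs_nonneg _).trans (hg 0)
    simpa using this
  unfold NC
  have h1 := NC_summable hg hL t
  calc |∑' ρ : ntz, (mult ρ : ℝ) * g ((t - (ρ : ℂ).im) * Real.log T)|
      ≤ ∑' ρ : ntz, ‖(mult ρ : ℝ) * g ((t - (ρ : ℂ).im) * Real.log T)‖ := by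
        rw [← Real.norm_eq_abs]
        exact norm_tsum_le_tsum_norm h1.norm
    _ ≤ ∑' ρ : ntz, K * ((mult ρ : ℝ) / (1 + (t - (ρ : ℂ).im) ^ 2)) := by
        refine h1.norm.tsum_le_tsum (fun ρ => ?_) ((summable_weight t).mul_left K)
        rw [norm_mul, Real.norm_natCast, Real.norm_eq_abs]
        calc _ ≤ (mult ρ : ℝ) * (K / (1 + (t - (ρ : ℂ).im) ^ 2)) := by
              have := scaled_bound hg hL (t - (ρ : ℂ).im)
              gcongr
          _ = _ := by ring
    _ ≤ K * (C * Real.log (|t| + 2)) := by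
        rw [tsum_mul_left]
        exact mul_le_mul_of_nonneg_left (h t) hK
    _ = _ := by ring

lemma inv_shift_le (t c : ℝ) : 1 / (1 + (t - c) ^ 2) ≤ 2 * (1 + t ^ 2) / (1 + c ^ 2) := by
  rw [div_le_div_iff₀ (by positivity) (by positivity)]
  nlinarith [sq_nonneg (2 * t - c), sq_nonneg (t * (t - c)), sq_nonneg t, sq_nonneg (t - c)]

lemma Wt.M_nonneg {V : ℝ → ℝ} {M : ℝ} (h : Wt V M) : 0 ≤ M := by
  have := (h.nonneg 0).trans (h.bound 0)
  simpa using this

lemma Wt.integrable_mul {V : ℝ → ℝ} {M : ℝ} (h : Wt V M) {G : ℝ → ℝ} {A : ℝ} (hG : Continuous G)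
    (hb : ∀ t, |G t| ≤ A * (1 + t ^ 2)) : Integrable (fun t => V t * G t) := by
  have hM := h.M_nonneg
  refine (integrable_inv_one_add_sq.const_mul (M * A)).mono' (h.cont.mul hG).aestronglyMeasurable
    (Filter.Eventually.of_forall fun t => ?_)
  rw [norm_mul, Real.norm_of_nonneg (h.nonneg t), Real.norm_eq_abs]
  calc V t * |G t| ≤ M / (1 + t ^ 2) ^ 2 * (A * (1 + t ^ 2)) := by
        have h1 := h.bound t
        have h2 := hb t
        have h3 := h.nonneg t
        gcongr
    _ = _ := by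
        have : (1 + t ^ 2) ≠ 0 := by positivity
        field_simp

lemma Wt.integrable {V : ℝ → ℝ} {M : ℝ} (h : Wt V M) : Integrable V := by
  have := h.integrable_mul (G := fun _ => 1) (A := 1) continuous_const (fun t => by
    rw [abs_one]; nlinarith [sq_nonneg t])
  simpa using this

lemma Wt.hasSum_NC {V : ℝ → ℝ} {M : ℝ} (h : Wt V M) {g : ℝ → ℝ} {K T : ℝ} (hgc : Continuous g)
    (hg : ∀ x, |g x| ≤ K / (1 + x ^ 2)) (hL : 1 ≤ Real.log T) :
    HasSum (fun ρ : ntz => (mult ρ : ℝ) * ∫ t : ℝ, V t * g ((t - (ρ : ℂ).im) * Real.log T))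
      (∫ t : ℝ, V t * NC g T t) := by
  have hM := h.M_nonneg
  have hK : 0 ≤ K := by
    have := (abs_nonneg _).trans (hg 0)
    simpa using this
  have hb : ∀ (c t : ℝ), ‖V t * g ((t - c) * Real.log T)‖ ≤
      2 * M * K / (1 + c ^ 2) * (1 + t ^ 2)⁻¹ := by
    intro c t
    rw [norm_mul, Real.norm_of_nonneg (h.nonneg t), Real.norm_eq_abs]
    calc V t * |g ((t - c) * Real.log T)| ≤
        M / (1 + t ^ 2) ^ 2 * (K * (2 * (1 + t ^ 2) / (1 + c ^ 2))) := by
          have h1 := h.bound t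
          have h2 := scaled_bound hg hL (t - c)
          have h3 := h.nonneg t
          have h4 := inv_shift_le t c
          have h5 : |g ((t - c) * Real.log T)| ≤ K * (2 * (1 + t ^ 2) / (1 + c ^ 2)) := by
            refine h2.trans ?_
            rw [div_eq_mul_one_div]
            gcongr
          gcongr
      _ = _ := by
          have : (1 + t ^ 2) ≠ 0 := by positivity
          field_simp
  have hi : ∀ c : ℝ, Integrable (fun t : ℝ => V t * g ((t - c) * Real.log T)) := by
    intro c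
    have h1 := h.cont
    exact (integrable_inv_one_add_sq.const_mul _).mono' (Continuous.aestronglyMeasurable
      (by fun_prop)) (Filter.Eventually.of_forall (hb c))
  have h2 := hasSum_integral_of_summable_integral_norm (μ := volume)
    (F := fun (ρ : ntz) (t : ℝ) => (mult ρ : ℝ) * (V t * g ((t - (ρ : ℂ).im) * Real.log T)))
    (fun ρ => (hi _).const_mul _) ?_
  · have e1 : ∀ ρ : ntz, ∫ t : ℝ, (mult ρ : ℝ) * (V t * g ((t - (ρ : ℂ).im) * Real.log T)) =
        (mult ρ : ℝ) * ∫ t : ℝ, V t * g ((t - (ρ : ℂ).im) * Real.log T) := fun ρ =>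
      MeasureTheory.integral_const_mul _ _
    have e2 : ∀ t : ℝ, ∑' ρ : ntz, (mult ρ : ℝ) * (V t * g ((t - (ρ : ℂ).im) * Real.log T)) =
        V t * NC g T t := by
      intro t
      unfold NC
      rw [← tsum_mul_left]
      refine tsum_congr fun ρ => ?_
      ring
    simp_rw [e1, e2] at h2
    exact h2
  · have h3 := (summable_weight 0).mul_left (2 * M * K * π)
    refine Summable.of_nonneg_of_le (fun ρ => integral_nonneg fun t => norm_nonneg _)
      (fun ρ => ?_) h3
    have e3 : ∀ t : ℝ, ‖(mult ρ : ℝ) * (V t * g ((t - (ρ : ℂ).im) * Real.log T))‖ =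
        (mult ρ : ℝ) * ‖V t * g ((t - (ρ : ℂ).im) * Real.log T)‖ := by
      intro t
      rw [norm_mul (mult (ρ : ℂ) : ℝ), Real.norm_natCast]
    simp_rw [e3]
    rw [MeasureTheory.integral_const_mul]
    calc _ ≤ (mult ρ : ℝ) * ∫ t : ℝ, 2 * M * K / (1 + (ρ : ℂ).im ^ 2) * (1 + t ^ 2)⁻¹ := by
          gcongr ?_ * ?_
          exact integral_mono (hi _).norm (integrable_inv_one_add_sq.const_mul _) (hb _)
      _ = _ := by
          rw [MeasureTheory.integral_const_mul, integral_univ_inv_one_add_sq, zero_sub, neg_sq]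
          ring

lemma NC_continuous {g : ℝ → ℝ} {K T : ℝ} (hgc : Continuous g)
    (hg : ∀ x, |g x| ≤ K / (1 + x ^ 2)) (hL : 1 ≤ Real.log T) : Continuous (NC g T) := by
  have hK : 0 ≤ K := by
    have := (abs_nonneg _).trans (hg 0)
    simpa using this
  rw [continuous_iff_continuousAt]
  intro t0
  -- local uniform bound
  have h1 : ContinuousOn (NC g T) (Icc (t0 - 1) (t0 + 1)) := by
    unfold NC
    refine continuousOn_tsum (u := fun ρ : ntz => (2 * K * (1 + (|t0| + 1) ^ 2)) *
      ((mult ρ : ℝ) / (1 + (0 - (ρ : ℂ).im) ^ 2))) (fun ρ => ?_)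
      ((summable_weight 0).mul_left _) fun ρ t ht => ?_
    · exact Continuous.continuousOn (by fun_prop)
    · rw [norm_mul, Real.norm_natCast, Real.norm_eq_abs]
      have h2 := scaled_bound hg hL (t - (ρ : ℂ).im)
      have h4 := inv_shift_le t (ρ : ℂ).im
      have h5 : t ^ 2 ≤ (|t0| + 1) ^ 2 := by
        rw [sq_le_sq, abs_of_nonneg (by positivity : 0 ≤ |t0| + 1)]
        have : |t - t0| ≤ 1 := abs_le.mpr ⟨by linarith [ht.1] , by linarith [ht.2]⟩
        calc |t| = |(t - t0) + t0| := by ring_nf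
          _ ≤ |t - t0| + |t0| := abs_add_le _ _
          _ ≤ _ := by linarith
      calc (mult ρ : ℝ) * |g ((t - (ρ : ℂ).im) * Real.log T)|
          ≤ (mult ρ : ℝ) * (K * (2 * (1 + (|t0| + 1) ^ 2) / (1 + (ρ : ℂ).im ^ 2))) := by
            gcongr
            refine h2.trans ?_
            rw [div_eq_mul_one_div]
            refine mul_le_mul_of_nonneg_left (h4.trans ?_) hK
            gcongr
        _ = _ := by rw [zero_sub, neg_sq]; ring
  exact h1.continuousAt (Icc_mem_nhds (by linarith) (by linarith))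

/-- Fubini for a cosine superposition. -/
lemma Wt.fubini {V : ℝ → ℝ} {M : ℝ} (h : Wt V M) {k : ℝ → ℝ} (hkc : Continuous k)
    (hki : Integrable k) (c L : ℝ) :
    ∫ t : ℝ, V t * (∫ ξ : ℝ, k ξ * Real.cos (ξ * ((t - c) * L))) =
      ∫ ξ : ℝ, k ξ * (∫ t : ℝ, V t * Real.cos (ξ * L * (t - c))) := by
  have e1 : ∀ t : ℝ, V t * (∫ ξ : ℝ, k ξ * Real.cos (ξ * ((t - c) * L))) =
      ∫ ξ : ℝ, V t * (k ξ * Real.cos (ξ * ((t - c) * L))) := fun t =>
    (MeasureTheory.integral_const_mul _ _).symm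
  have e2 : ∀ ξ : ℝ, k ξ * (∫ t : ℝ, V t * Real.cos (ξ * L * (t - c))) =
      ∫ t : ℝ, V t * (k ξ * Real.cos (ξ * ((t - c) * L))) := by
    intro ξ
    rw [← MeasureTheory.integral_const_mul]
    refine integral_congr_ae (Filter.Eventually.of_forall fun t => ?_)
    simp only
    have : ξ * L * (t - c) = ξ * ((t - c) * L) := by ring
    rw [this]
    ring
  simp_rw [e1, e2]
  rw [integral_integral_swap]
  have h3 := h.integrable.mul_prod hki
  have hVc := h.cont
  refine h3.norm.mono' ?_ (Filter.Eventually.of_forall fun z => ?_)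
  · apply Continuous.aestronglyMeasurable
    simp only [Function.uncurry_def]
    fun_prop
  · simp only [Function.uncurry_def]
    rw [norm_mul, norm_mul, norm_mul, Real.norm_eq_abs (Real.cos _)]
    have := Real.abs_cos_le_one (z.2 * ((z.1 - c) * L))
    calc ‖V z.1‖ * (‖k z.2‖ * |Real.cos (z.2 * ((z.1 - c) * L))|)
        ≤ ‖V z.1‖ * (‖k z.2‖ * 1) := by gcongr
      _ = _ := by rw [mul_one]

lemma Wt.integrable_cos {V : ℝ → ℝ} {M : ℝ} (h : Wt V M) (l c : ℝ) :
    Integrable (fun t => V t * Real.cos (l * (t - c))) := by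
  refine h.integrable_mul (A := 1) (by fun_prop) fun t => ?_
  have := Real.abs_cos_le_one (l * (t - c))
  nlinarith [sq_nonneg t]

/-- The weight sees only low frequencies. -/
def Band (V : ℝ → ℝ) (b : ℝ) : Prop :=
  ∀ l : ℝ, b ≤ l → ∫ t : ℝ, V t * Real.cos (l * t) = 0 ∧ ∫ t : ℝ, V t * Real.sin (l * t) = 0

lemma Band.shift {V : ℝ → ℝ} {M b : ℝ} (hV : Wt V M) (h : Band V b) {l : ℝ} (hl : b ≤ |l|) (c : ℝ) :
    ∫ t : ℝ, V t * Real.cos (l * (t - c)) = 0 := by
  have hpos : ∀ l : ℝ, b ≤ l → ∫ t : ℝ, V t * Real.cos (l * (t - c)) = 0 := by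
    intro l hl
    obtain ⟨h1, h2⟩ := h l hl
    have e : ∀ t : ℝ, V t * Real.cos (l * (t - c)) =
        Real.cos (l * c) * (V t * Real.cos (l * t)) +
          Real.sin (l * c) * (V t * Real.sin (l * t)) := by
      intro t
      rw [mul_sub, Real.cos_sub]
      ring
    simp_rw [e]
    have i1 : Integrable (fun t => V t * Real.cos (l * t)) := by
      refine hV.integrable_mul (A := 1) (by fun_prop) fun t => ?_
      have := Real.abs_cos_le_one (l * t)
      nlinarith [sq_nonneg t]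
    have i2 : Integrable (fun t => V t * Real.sin (l * t)) := by
      refine hV.integrable_mul (A := 1) (by fun_prop) fun t => ?_
      have := Real.abs_sin_le_one (l * t)
      nlinarith [sq_nonneg t]
    rw [integral_add (i1.const_mul _) (i2.const_mul _), MeasureTheory.integral_const_mul,
      MeasureTheory.integral_const_mul, h1, h2]
    ring
  rcases abs_cases l with ⟨he, _⟩ | ⟨he, _⟩
  · rw [he] at hl
    exact hpos l hl
  · rw [he] at hl
    have := hpos (-l) hl
    simpa [neg_mul, Real.cos_neg] using this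

/-- A smooth even cutoff: `1` on `[-b,b]`, `0` outside `(-b', b')`. -/
lemma exists_cutoff {b b' : ℝ} (hb : 0 < b) (hbb : b < b') : ∃ χ : ℝ → ℝ, ContDiff ℝ ∞ χ ∧
    HasCompactSupport χ ∧ (∀ x, χ (-x) = χ x) ∧ (∀ x, |x| ≤ b → χ x = 1) ∧
    (∀ x, b' ≤ |x| → χ x = 0) ∧ (∀ x, |χ x| ≤ 1) := by
  let f : ContDiffBump (0:ℝ) := ⟨b, b', hb, hbb⟩
  refine ⟨f, f.contDiff, f.hasCompactSupport, fun x => f.neg x, fun x hx => ?_, fun x hx => ?_,
    fun x => ?_⟩
  · apply f.one_of_mem_closedBall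
    simp only [Metric.mem_closedBall, dist_zero_right, Real.norm_eq_abs]
    exact hx
  · have : x ∉ Function.support f := by
      rw [f.support_eq]
      simp only [Metric.mem_ball, dist_zero_right, Real.norm_eq_abs, not_lt]
      exact hx
    simpa [Function.mem_support] using this
  · rw [abs_of_nonneg f.nonneg]
    exact f.le_one

lemma RS.mul_cutoff {g χ : ℝ → ℝ} (hg : RS g) (h1 : ContDiff ℝ ∞ χ) (h2 : HasCompactSupport χ)
    (h3 : ∀ x, χ (-x) = χ x) : RS (fun x => g x * χ x) :=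
  RS.of_compact (hg.smooth.mul h1) h2.mul_left (fun x => by rw [hg.even, h3])

/-- The weight does not distinguish `ψ` and its band-limited version. -/
lemma Wt.integral_star_eq {V : ℝ → ℝ} {M b L : ℝ} (hV : Wt V M) (hL : 0 < L)
    (hband : Band V (b * L)) {ψ χ : ℝ → ℝ} (hψ : RS ψ) (hχ : ContDiff ℝ ∞ χ)
    (hχs : HasCompactSupport χ) (hχe : ∀ x, χ (-x) = χ x) (hχ1 : ∀ x, |x| ≤ b → χ x = 1) (c : ℝ) :
    ∫ t : ℝ, V t * ψ ((t - c) * L) =
      ∫ t : ℝ, V t * star (fun ξ => chat ψ ξ * χ ξ) ((t - c) * L) := by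
  have hpi := Real.pi_pos
  have hc := hψ.chat
  have hcut := hc.mul_cutoff hχ hχs hχe
  have hcc := hc.continuous
  have hχc := hχ.continuous
  have hgen : ∀ k : ℝ → ℝ, Continuous k → Integrable k →
      (∀ ξ, |ξ| ≤ b → k ξ = 0) →
      ∫ t : ℝ, V t * (∫ ξ : ℝ, k ξ * Real.cos (ξ * ((t - c) * L))) = 0 := by
    intro k hk1 hk2 hk3
    rw [hV.fubini hk1 hk2]
    have : ∀ ξ : ℝ, k ξ * (∫ t : ℝ, V t * Real.cos (ξ * L * (t - c))) = 0 := by
      intro ξ
      rcases le_or_gt |ξ| b with h | h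
      · rw [hk3 ξ h, zero_mul]
      · rw [hband.shift hV, mul_zero]
        rw [abs_mul, abs_of_pos hL]
        gcongr
    simp_rw [this]
    simp
  have hk := hgen (fun ξ => chat ψ ξ * (1 - χ ξ)) (by fun_prop) (by
    have := hc.integrable.sub hcut.integrable
    refine this.congr (Filter.Eventually.of_forall fun ξ => ?_)
    simp only [Pi.sub_apply]
    ring) (fun ξ hξ => by rw [hχ1 ξ hξ]; ring)
  have hpt : ∀ x : ℝ, ψ x - star (fun ξ => chat ψ ξ * χ ξ) x =
      (2 * π)⁻¹ * ∫ ξ : ℝ, (chat ψ ξ * (1 - χ ξ)) * Real.cos (ξ * x) := by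
    intro x
    have h1 := hψ.chat_chat x
    have h2 : ψ x = (2 * π)⁻¹ * chat (chat ψ) x := by
      rw [h1]; field_simp
    rw [h2, star, ← mul_sub]
    congr 1
    have h3 : chat (chat ψ) x = ∫ ξ : ℝ, chat ψ ξ * Real.cos (ξ * x) := rfl
    have h4 : chat (fun ξ => chat ψ ξ * χ ξ) x = ∫ ξ : ℝ, (chat ψ ξ * χ ξ) * Real.cos (ξ * x) := rfl
    rw [h3, h4, ← integral_sub (hc.integrable_mul_cos x) (hcut.integrable_mul_cos x)]
    refine integral_congr_ae (Filter.Eventually.of_forall fun ξ => ?_)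
    simp only
    ring
  have hs := hcut.chat
  obtain ⟨C1, hC1, hb1⟩ := hψ.decay_two
  obtain ⟨C2, hC2, hb2⟩ := hs.decay_two
  have hsc : Continuous (star (fun ξ => chat ψ ξ * χ ξ)) := by
    unfold star
    have := hs.continuous
    fun_prop
  have hψc := hψ.continuous
  have i1 : Integrable (fun t => V t * ψ ((t - c) * L)) := by
    refine hV.integrable_mul (A := C1) (by fun_prop) fun t => ?_
    refine (hb1 _).trans ?_
    exact (div_le_self hC1.le (by linarith only [sq_nonneg ((t - c) * L)])).trans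
      (le_mul_of_one_le_right hC1.le (by linarith only [sq_nonneg t]))
  have i2 : Integrable (fun t => V t * star (fun ξ => chat ψ ξ * χ ξ) ((t - c) * L)) := by
    refine hV.integrable_mul (A := (2 * π)⁻¹ * C2) (by fun_prop) fun t => ?_
    unfold star
    rw [abs_mul, abs_of_pos (by positivity : 0 < (2 * π)⁻¹), mul_assoc]
    refine mul_le_mul_of_nonneg_left ?_ (by positivity)
    refine (hb2 _).trans ?_
    exact (div_le_self hC2.le (by linarith only [sq_nonneg ((t - c) * L)])).trans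
      (le_mul_of_one_le_right hC2.le (by linarith only [sq_nonneg t]))
  have hfin : ∫ t : ℝ, (V t * ψ ((t - c) * L) -
      V t * star (fun ξ => chat ψ ξ * χ ξ) ((t - c) * L)) = 0 := by
    have e : ∀ t : ℝ, V t * ψ ((t - c) * L) -
        V t * star (fun ξ => chat ψ ξ * χ ξ) ((t - c) * L) =
        (2 * π)⁻¹ * (V t * (∫ ξ : ℝ, (chat ψ ξ * (1 - χ ξ)) *
          Real.cos (ξ * ((t - c) * L)))) := by
      intro t
      rw [← mul_sub, hpt]
      ring
    simp_rw [e]
    rw [MeasureTheory.integral_const_mul, hk, mul_zero]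
  rw [integral_sub i1 i2] at hfin
  linarith

lemma star_RS {Ψ : ℝ → ℝ} (h : RS Ψ) : ∃ K : ℝ, 0 < K ∧ Continuous (star Ψ) ∧
    ∀ x, |star Ψ x| ≤ K / (1 + x ^ 2) := by
  have hs := h.chat
  obtain ⟨C2, hC2, hb2⟩ := hs.decay_two
  have hpi := Real.pi_pos
  refine ⟨(2 * π)⁻¹ * C2, by positivity, ?_, fun x => ?_⟩
  · unfold star
    have := hs.continuous
    fun_prop
  · unfold star
    rw [abs_mul, abs_of_pos (by positivity : 0 < (2 * π)⁻¹), mul_div_assoc]
    exact mul_le_mul_of_nonneg_left (hb2 x) (by positivity)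

lemma vmPoly_re (b : ℕ → ℝ) (x : ℕ) (t : ℝ) :
    (vmPoly (fun n => (b n : ℂ)) x t).re =
      ∑ n ∈ Finset.Icc 1 x, vonMangoldt n / Real.sqrt n * b n * Real.cos (t * Real.log n) := by
  unfold vmPoly
  rw [Complex.re_sum]
  refine Finset.sum_congr rfl fun n hn => ?_
  rw [Finset.mem_Icc] at hn
  have hn0 : (n : ℂ) ≠ 0 := by exact_mod_cast (by omega : n ≠ 0)
  have hnr : (0:ℝ) < n := by exact_mod_cast (by omega : 0 < n)
  have h1 : (n : ℂ) ^ (-(1 / 2 + t * Complex.I) : ℂ) =
      (((Real.sqrt n)⁻¹ : ℝ) : ℂ) * Complex.exp (((-(t * Real.log n) : ℝ) : ℂ) * Complex.I) := by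
    rw [Complex.cpow_def_of_ne_zero hn0, ← Complex.natCast_log]
    have h2 : (((Real.sqrt n)⁻¹ : ℝ) : ℂ) = Complex.exp (((-(Real.log n / 2) : ℝ)) : ℂ) := by
      rw [← Complex.ofReal_exp]
      congr 1
      rw [Real.exp_neg, Real.sqrt_eq_rpow, Real.rpow_def_of_pos hnr]
      congr 2
      ring
    rw [h2, ← Complex.exp_add]
    congr 1
    push_cast
    ring
  rw [h1, ← Complex.ofReal_mul, ← mul_assoc, ← Complex.ofReal_mul, Complex.re_ofReal_mul,
    Complex.exp_ofReal_mul_I_re, Real.cos_neg]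
  ring

lemma sum_weight_le {x : ℕ} {T : ℝ} (hT : 1 ≤ T) (hxT : (x : ℝ) ≤ T) {b : ℕ → ℝ} {K : ℝ}
    (hb : ∀ n, |b n| ≤ K) (t : ℝ) :
    |∑ n ∈ Finset.Icc 1 x, vonMangoldt n / Real.sqrt n * b n * Real.cos (t * Real.log n)| ≤
      K * T * Real.log T := by
  have hK : 0 ≤ K := (abs_nonneg _).trans (hb 0)
  calc _ ≤ ∑ n ∈ Finset.Icc 1 x,
        |vonMangoldt n / Real.sqrt n * b n * Real.cos (t * Real.log n)| :=
        Finset.abs_sum_le_sum_abs _ _
    _ ≤ ∑ n ∈ Finset.Icc 1 x, Real.log T * K := by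
        refine Finset.sum_le_sum fun n hn => ?_
        rw [Finset.mem_Icc] at hn
        have hn1 : (1:ℝ) ≤ n := by exact_mod_cast hn.1
        have h1 : (vonMangoldt n : ℝ) ≤ Real.log T := by
          refine vonMangoldt_le_log.trans ?_
          apply Real.log_le_log (by linarith)
          refine le_trans ?_ hxT
          exact_mod_cast hn.2
        have h2 : 1 ≤ Real.sqrt n := Real.one_le_sqrt.mpr hn1
        have h3 : (vonMangoldt n : ℝ) / Real.sqrt n ≤ Real.log T := by
          rw [div_le_iff₀ (by linarith)]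
          have h4 : 0 ≤ Real.log T := Real.log_nonneg hT
          exact h1.trans (le_mul_of_one_le_right h4 h2)
        have h5 : 0 ≤ (vonMangoldt n : ℝ) / Real.sqrt n :=
          div_nonneg vonMangoldt_nonneg (by linarith)
        rw [abs_mul, abs_mul, abs_of_nonneg h5]
        calc _ ≤ Real.log T * K * 1 := by
              have := hb n
              have := Real.abs_cos_le_one (t * Real.log n)
              have h4 : 0 ≤ Real.log T := Real.log_nonneg hT
              gcongr
          _ = _ := mul_one _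
    _ = x * (Real.log T * K) := by simp
    _ ≤ T * (Real.log T * K) := by
        have h4 : 0 ≤ Real.log T := Real.log_nonneg hT
        gcongr
    _ = _ := by ring

lemma log_abs_add_two_le (t : ℝ) : Real.log (|t| + 2) ≤ 2 * (1 + t ^ 2) := by
  have h1 := Real.log_le_sub_one_of_pos (show 0 < |t| + 2 by positivity)
  have h2 : |t| ≤ 1 + t ^ 2 := by nlinarith only [sq_abs t, sq_nonneg (|t| - 1), abs_nonneg t]
  nlinarith [sq_nonneg t]

/-- **Weighted mean of the smoothed zero count** (RH). -/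
theorem exists_count (hRH : RiemannHypothesis) {ψ : ℝ → ℝ} (hψ : RS ψ) {β : ℝ} (hβ0 : 0 < β)
    (hβ1 : β < 1) :
    ∃ C T0 : ℝ, 0 < C ∧ 8 ≤ T0 ∧ ∀ T : ℝ, T0 ≤ T → ∀ (V : ℝ → ℝ) (M : ℝ), Wt V M →
      (∀ t, t ∉ Icc (T / 2) (3 * T) → V t ≤ (T ^ 3)⁻¹ / (1 + t ^ 2) ^ 2) →
      Band V (β * Real.log T) → ∀ x : ℕ, Real.exp (β * Real.log T) ≤ x + 1 → (x : ℝ) ≤ T →
      |(∫ t : ℝ, V t * NC ψ T t) - (chat ψ 0 / (2 * π) * (∫ t : ℝ, V t) -
        (π * Real.log T)⁻¹ * ∑ n ∈ Finset.Icc 1 x, vonMangoldt n / Real.sqrt n *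
          chat ψ (Real.log n / Real.log T) * ∫ t : ℝ, V t * Real.cos (t * Real.log n))| ≤
        C / Real.log T * (∫ t : ℝ, V t) + C / T := by
  have hpi := Real.pi_pos
  set β' : ℝ := (1 + β) / 2 with hβ'
  have hββ' : β < β' := by rw [hβ']; linarith
  have hβ'1 : β' < 1 := by rw [hβ']; linarith
  obtain ⟨χ, hχ, hχs, hχe, hχ1, hχ0, hχb⟩ := exists_cutoff hβ0 hββ'
  set Ψ : ℝ → ℝ := fun ξ => chat ψ ξ * χ ξ with hΨ
  have hΨRS : RS Ψ := hψ.chat.mul_cutoff hχ hχs hχe
  obtain ⟨C1, hC1, hexp⟩ := exists_star_explicit hRH hΨRS (β := β') (by linarith)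
    (fun ξ hξ => by simp only [hΨ]; rw [hχ0 ξ hξ, mul_zero])
  obtain ⟨K, hK, hsc, hsb⟩ := star_RS hΨRS
  obtain ⟨Kψ, hKψ, hψb⟩ := hψ.decay_two
  obtain ⟨C2, hC2, hNN⟩ := exists_NC_le
  obtain ⟨K3, hK3, hΨb'⟩ := hΨRS.decay_two
  have hΨb : ∀ ξ, |Ψ ξ| ≤ K3 := fun ξ => (hΨb' ξ).trans (by
    apply div_le_self hK3.le
    nlinarith [sq_nonneg ξ])
  have hΨ0 : Ψ 0 = chat ψ 0 := by
    simp only [hΨ]
    rw [hχ1 0 (by rw [abs_zero]; exact hβ0.le), mul_one]
  -- `T` large: `T^(β'-1) + T^(-1/4) ≤ 2 / log T`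
  obtain ⟨T1, hT1⟩ : ∃ T1 : ℝ, ∀ T, T1 ≤ T → T ^ (β' - 1) + T ^ (-(1 / 4) : ℝ) ≤ 2 / Real.log T := by
    have h1 : ∀ s : ℝ, 0 < s → ∀ᶠ T : ℝ in Filter.atTop, T ^ (-s) ≤ 1 / Real.log T := by
      intro s hs
      have h2 := (isLittleO_log_rpow_atTop hs).bound (show (0:ℝ) < 1 by norm_num)
      filter_upwards [h2, Filter.eventually_gt_atTop 1] with T hT hT1
      have hT0 : 0 < T := by linarith
      have hl : 0 < Real.log T := Real.log_pos hT1
      rw [Real.norm_of_nonneg hl.le, Real.norm_of_nonneg (by positivity), one_mul] at hT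
      rw [Real.rpow_neg hT0.le, ← one_div]
      exact one_div_le_one_div_of_le hl hT
    have h3 := (h1 (1 - β') (by linarith)).and (h1 (1 / 4) (by norm_num))
    obtain ⟨T1, hT1⟩ := Filter.eventually_atTop.mp h3
    refine ⟨T1, fun T hT => ?_⟩
    obtain ⟨h4, h5⟩ := hT1 T hT
    have e1 : -(1 - β') = β' - 1 := by ring
    rw [e1] at h4
    have e2 : (2:ℝ) / Real.log T = 1 / Real.log T + 1 / Real.log T := by ring
    rw [e2]
    linarith
  refine ⟨(K3 + 2 * C1) + (2 * C2 * K + K3 + K3) * π * 2, max T1 8, by positivity,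
    le_max_right _ _, fun T hT V M hV hout hband x hx hxT => ?_⟩
  have hT8 : 8 ≤ T := (le_max_right _ _).trans hT
  have hTT1 : T1 ≤ T := (le_max_left _ _).trans hT
  have hT0 : 0 < T := by linarith
  set L := Real.log T with hL
  have hL1 : 1 ≤ L := by
    rw [hL, Real.le_log_iff_exp_le hT0]
    have := Real.exp_one_lt_d9
    linarith
  have hL0 : 0 < L := by linarith
  have hM := hV.M_nonneg
  have hVint := hV.integrable
  -- step 1 : replace `ψ` by `star Ψ`
  have hs1 := hV.hasSum_NC hψ.continuous hψb hL1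
  have hs2 := hV.hasSum_NC hsc hsb hL1
  have heq : (fun ρ : ntz => (mult ρ : ℝ) * ∫ t : ℝ, V t * ψ ((t - (ρ : ℂ).im) * L)) =
      fun ρ : ntz => (mult ρ : ℝ) * ∫ t : ℝ, V t * star Ψ ((t - (ρ : ℂ).im) * L) := by
    funext ρ
    rw [hV.integral_star_eq hL0 hband hψ hχ hχs hχe hχ1]
  have hkey : ∫ t : ℝ, V t * NC ψ T t = ∫ t : ℝ, V t * NC (star Ψ) T t := by
    rw [← hL] at hs1 hs2
    rw [heq] at hs1
    exact hs1.unique hs2
  rw [hkey]
  -- step 2 : the target as an integral
  set x' : ℕ := ⌊T⌋₊ with hx'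
  have hx'T : (x' : ℝ) ≤ T := Nat.floor_le hT0.le
  have hx'1 : Real.exp (β' * L) ≤ x' + 1 := by
    have h1 : Real.exp (β' * L) ≤ T := by
      calc Real.exp (β' * L) ≤ Real.exp L := by
            apply Real.exp_le_exp.mpr
            exact mul_le_of_le_one_left hL0.le hβ'1.le
        _ = T := Real.exp_log hT0
    exact h1.trans (Nat.lt_floor_add_one T).le
  have hxx' : x ≤ x' := Nat.le_floor hxT
  set R : ℝ → ℝ := fun t => ∑ n ∈ Finset.Icc 1 x', vonMangoldt n / Real.sqrt n *
    Ψ (Real.log n / L) * Real.cos (t * Real.log n) with hR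
  have hRc : Continuous R := by
    simp only [hR]
    refine continuous_finsetSum _ fun n _ => ?_
    fun_prop
  have hRb : ∀ t, |R t| ≤ K3 * T * L := fun t => sum_weight_le (by linarith) hx'T
    (b := fun n => Ψ (Real.log n / L)) (fun n => hΨb _) t
  have hsumeq : ∑ n ∈ Finset.Icc 1 x, vonMangoldt n / Real.sqrt n *
      chat ψ (Real.log n / L) * ∫ t : ℝ, V t * Real.cos (t * Real.log n) = ∫ t : ℝ, V t * R t := by
    have hcosint : ∀ l : ℝ, Integrable (fun t => V t * Real.cos (t * l)) := by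
      intro l
      refine hV.integrable_mul (A := 1) (by fun_prop) fun t => ?_
      have := Real.abs_cos_le_one (t * l)
      linarith [sq_nonneg t]
    have e1 : ∀ t, V t * R t = ∑ n ∈ Finset.Icc 1 x', (vonMangoldt n / Real.sqrt n *
        Ψ (Real.log n / L)) * (V t * Real.cos (t * Real.log n)) := by
      intro t
      simp only [hR]
      rw [Finset.mul_sum]
      refine Finset.sum_congr rfl fun n _ => ?_
      ring
    simp_rw [e1]
    rw [integral_finsetSum _ fun n _ => (hcosint _).const_mul _]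
    simp_rw [MeasureTheory.integral_const_mul]
    have hz : ∀ n : ℕ, 1 ≤ n → β * L ≤ Real.log n →
        ∫ t : ℝ, V t * Real.cos (t * Real.log n) = 0 := by
      intro n hn hl
      have := (hband _ hl).1
      simpa [mul_comm] using this
    have hterm : ∀ n ∈ Finset.Icc 1 x', (vonMangoldt n / Real.sqrt n * Ψ (Real.log n / L)) *
        (∫ t : ℝ, V t * Real.cos (t * Real.log n)) = vonMangoldt n / Real.sqrt n *
        chat ψ (Real.log n / L) * ∫ t : ℝ, V t * Real.cos (t * Real.log n) := by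
      intro n hn
      rw [Finset.mem_Icc] at hn
      rcases le_or_gt (β * L) (Real.log n) with h | h
      · rw [hz n hn.1 h, mul_zero, mul_zero]
      · simp only [hΨ]
        have hln : 0 ≤ Real.log n := Real.log_natCast_nonneg n
        rw [hχ1, mul_one]
        rw [abs_of_nonneg (by positivity), div_le_iff₀ hL0]
        exact h.le
    rw [Finset.sum_congr rfl hterm]
    refine Finset.sum_subset (Finset.Icc_subset_Icc_right hxx') fun n hn hn' => ?_
    rw [Finset.mem_Icc] at hn
    rw [Finset.mem_Icc, not_and, not_le] at hn'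
    have hn2 := hn' hn.1
    have hlog : β * L ≤ Real.log n := by
      rw [Real.le_log_iff_exp_le (by exact_mod_cast hn.1)]
      refine hx.trans ?_
      exact_mod_cast hn2
    rw [hz n hn.1 hlog, mul_zero]
  rw [hsumeq]
  -- step 3 : difference
  set G : ℝ → ℝ := NC (star Ψ) T with hG
  have hGc : Continuous G := NC_continuous hsc hsb hL1
  have hGb : ∀ t, |G t| ≤ C2 * K * Real.log (|t| + 2) := hNN (star Ψ) K T hsb hL1
  have hGb2 : ∀ t, |G t| ≤ (2 * C2 * K) * (1 + t ^ 2) := by
    intro t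
    refine (hGb t).trans ?_
    have := log_abs_add_two_le t
    calc C2 * K * Real.log (|t| + 2) ≤ C2 * K * (2 * (1 + t ^ 2)) := by gcongr
      _ = _ := by ring
  set W : ℝ → ℝ := fun t => G t - (Ψ 0 / (2 * π) - (π * L)⁻¹ * R t) with hW
  have hWc : Continuous W := by fun_prop
  have hpL : (π * L)⁻¹ ≤ 1 := by
    apply inv_le_one_of_one_le₀
    have := Real.pi_gt_three
    exact one_le_mul_of_one_le_of_one_le (by linarith) hL1
  have hpL0 : 0 < (π * L)⁻¹ := by positivity
  have hWb : ∀ t, |W t| ≤ (2 * C2 * K + K3 + K3) * T * (1 + t ^ 2) := by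
    intro t
    have h1 := hGb2 t
    have h2 := hRb t
    have h3 : |Ψ 0 / (2 * π)| ≤ K3 := by
      rw [abs_div, abs_of_pos (by positivity : 0 < 2 * π)]
      calc |Ψ 0| / (2 * π) ≤ |Ψ 0| := by
            apply div_le_self (abs_nonneg _)
            have := Real.pi_gt_three
            linarith
        _ ≤ K3 := hΨb 0
    have h4 : |(π * L)⁻¹ * R t| ≤ K3 * T := by
      rw [abs_mul, abs_of_pos hpL0]
      calc (π * L)⁻¹ * |R t| ≤ (π * L)⁻¹ * (K3 * T * L) := by gcongr
        _ = K3 * T * π⁻¹ := by field_simp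
        _ ≤ K3 * T * 1 := by
            gcongr
            apply inv_le_one_of_one_le₀
            linarith [Real.pi_gt_three]
        _ = _ := mul_one _
    have h5 : |W t| ≤ |G t| + (|Ψ 0 / (2 * π)| + |(π * L)⁻¹ * R t|) := by
      simp only [hW]
      exact (abs_sub _ _).trans (by gcongr; exact abs_sub _ _)
    have h6 : 0 ≤ t ^ 2 := sq_nonneg t
    have e : (2 * C2 * K + K3 + K3) * T * (1 + t ^ 2) =
        (2 * C2 * K) * (1 + t ^ 2) * T + K3 * (T * (1 + t ^ 2)) + K3 * T * (1 + t ^ 2) := by ring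
    rw [e]
    have h7 : (2 * C2 * K) * (1 + t ^ 2) ≤ (2 * C2 * K) * (1 + t ^ 2) * T :=
      le_mul_of_one_le_right (by positivity) (by linarith)
    have h8 : K3 ≤ K3 * (T * (1 + t ^ 2)) := by
      apply le_mul_of_one_le_right hK3.le
      exact one_le_mul_of_one_le_of_one_le (by linarith) (by linarith)
    have h9 : K3 * T ≤ K3 * T * (1 + t ^ 2) :=
      le_mul_of_one_le_right (by positivity) (by linarith)
    linarith
  have hWi : Integrable (fun t => V t * W t) :=
    hV.integrable_mul hWc hWb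
  have hdiff : (∫ t : ℝ, V t * G t) - (chat ψ 0 / (2 * π) * (∫ t : ℝ, V t) -
      (π * L)⁻¹ * ∫ t : ℝ, V t * R t) = ∫ t : ℝ, V t * W t := by
    have iG : Integrable (fun t => V t * G t) := hV.integrable_mul hGc hGb2
    have iR : Integrable (fun t => V t * R t) := by
      refine hV.integrable_mul (A := K3 * T * L) hRc fun t => (hRb t).trans ?_
      apply le_mul_of_one_le_right (by positivity)
      linarith [sq_nonneg t]
    have e1 : ∀ t, V t * W t = V t * G t - (Ψ 0 / (2 * π) * V t - (π * L)⁻¹ * (V t * R t)) := by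
      intro t
      simp only [hW]
      ring
    have i3 : Integrable (fun t => Ψ 0 / (2 * π) * V t - (π * L)⁻¹ * (V t * R t)) :=
      (hVint.const_mul _).sub (iR.const_mul _)
    simp_rw [e1]
    rw [integral_sub iG i3,
      integral_sub (hVint.const_mul _) (iR.const_mul _), MeasureTheory.integral_const_mul,
      MeasureTheory.integral_const_mul, hΨ0]
  rw [hdiff]
  -- pointwise bound
  have hpt : ∀ t, |V t * W t| ≤ (K3 + 2 * C1) / L * V t +
      (2 * C2 * K + K3 + K3) * (T ^ 2)⁻¹ * (1 + t ^ 2)⁻¹ := by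
    intro t
    rw [abs_mul, abs_of_nonneg (hV.nonneg t)]
    have hVt := hV.nonneg t
    by_cases ht : t ∈ Icc (T / 2) (3 * T)
    · obtain ⟨S, hS, hSb⟩ := hexp T hT8 x' hx'1 t ht.1
      have hSG : S = G t := by
        simp only [hG, NC]
        exact hS.tsum_eq.symm
      rw [hSG, vmPoly_re (fun n => Ψ (Real.log n / L))] at hSb
      have hRt : ∑ n ∈ Finset.Icc 1 x', vonMangoldt n / Real.sqrt n * Ψ (Real.log n / L) *
          Real.cos (t * Real.log n) = R t := rfl
      rw [hRt] at hSb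
      have ht0 : 0 < t := by linarith [ht.1]
      have hlog : |Real.log (t / (2 * π)) - L| ≤ 3 := by
        have e1 : Real.log (t / (2 * π)) - L = Real.log (t / (2 * π * T)) := by
          rw [hL, ← Real.log_div (by positivity) hT0.ne']
          congr 1
          field_simp
        rw [e1, abs_le]
        have hpi4 := Real.pi_lt_d2
        have hpi3 := Real.pi_gt_three
        constructor
        · rw [← Real.log_exp (-3)]
          apply Real.log_le_log (Real.exp_pos _)
          have h1 : Real.exp (-3) ≤ 1 / 16 := by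
            rw [Real.exp_neg, one_div]
            apply inv_anti₀ (by norm_num)
            have := Real.exp_one_gt_d9
            have h2 : Real.exp 3 = Real.exp 1 ^ 3 := by rw [← Real.exp_nat_mul]; norm_num
            rw [h2]
            exact le_trans (by norm_num : (16:ℝ) ≤ 2.7 ^ 3) (pow_le_pow_left₀ (by norm_num) (by linarith only [this]) 3)
          refine h1.trans ?_
          rw [div_le_div_iff₀ (by norm_num) (by positivity)]
          linarith only [ht.1, mul_lt_mul_of_pos_right hpi4 hT0, hT0]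
        · rw [← Real.log_exp 3]
          apply Real.log_le_log (by positivity)
          have h1 : (1:ℝ) ≤ Real.exp 3 := Real.one_le_exp (by norm_num)
          refine le_trans ?_ h1
          rw [div_le_one (by positivity)]
          linarith only [ht.2, mul_lt_mul_of_pos_right hpi3 hT0, hT0]
      have hWt : |W t| ≤ (K3 + 2 * C1) / L := by
        have e1 : W t = (G t - (Ψ 0 / (2 * π * L) * Real.log (t / (2 * π)) - (π * L)⁻¹ * R t)) +
            Ψ 0 / (2 * π * L) * (Real.log (t / (2 * π)) - L) := by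
          simp only [hW]
          field_simp
          ring
        rw [e1]
        refine (abs_add_le _ _).trans ?_
        have h1 : |Ψ 0 / (2 * π * L) * (Real.log (t / (2 * π)) - L)| ≤ K3 / L := by
          rw [abs_mul, abs_div, abs_of_pos (by positivity : 0 < 2 * π * L)]
          calc |Ψ 0| / (2 * π * L) * |Real.log (t / (2 * π)) - L| ≤ K3 / (2 * π * L) * 3 := by
                have := hΨb 0
                gcongr
            _ = K3 / L * (3 / (2 * π)) := by field_simp
            _ ≤ K3 / L * 1 := by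
                gcongr
                rw [div_le_one (by positivity)]
                linarith [Real.pi_gt_three]
            _ = _ := mul_one _
        have h2 : C1 * (T ^ (β' - 1) + T ^ (-(1 / 4) : ℝ)) ≤ C1 * (2 / L) := by
          have := hT1 T hTT1
          gcongr
        have e2 : (K3 + 2 * C1) / L = C1 * (2 / L) + K3 / L := by field_simp; ring
        rw [e2]
        linarith
      have h3 : 0 ≤ (2 * C2 * K + K3 + K3) * (T ^ 2)⁻¹ * (1 + t ^ 2)⁻¹ := by positivity
      calc V t * |W t| ≤ V t * ((K3 + 2 * C1) / L) := by gcongr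
        _ = (K3 + 2 * C1) / L * V t := by ring
        _ ≤ _ := by linarith
    · have h1 := hout t ht
      have h2 := hWb t
      have h3 : 0 ≤ (K3 + 2 * C1) / L * V t := by positivity
      calc V t * |W t| ≤ ((T ^ 3)⁻¹ / (1 + t ^ 2) ^ 2) *
            ((2 * C2 * K + K3 + K3) * T * (1 + t ^ 2)) := by gcongr
        _ = (2 * C2 * K + K3 + K3) * (T ^ 2)⁻¹ * (1 + t ^ 2)⁻¹ := by
            have : (1 + t ^ 2) ≠ 0 := by positivity
            field_simp
        _ ≤ _ := by linarith
  calc |∫ t : ℝ, V t * W t| ≤ ∫ t : ℝ, ((K3 + 2 * C1) / L * V t +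
        (2 * C2 * K + K3 + K3) * (T ^ 2)⁻¹ * (1 + t ^ 2)⁻¹) := by
        rw [← Real.norm_eq_abs]
        refine norm_integral_le_of_norm_le ((hVint.const_mul _).add
          (integrable_inv_one_add_sq.const_mul _)) (Filter.Eventually.of_forall fun t => ?_)
        rw [Real.norm_eq_abs]
        exact hpt t
    _ = (K3 + 2 * C1) / L * (∫ t : ℝ, V t) + (2 * C2 * K + K3 + K3) * (T ^ 2)⁻¹ * π := by
        rw [integral_add (hVint.const_mul _) (integrable_inv_one_add_sq.const_mul _),
          MeasureTheory.integral_const_mul, MeasureTheory.integral_const_mul,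
          integral_univ_inv_one_add_sq]
    _ ≤ _ := by
        have hVi : 0 ≤ ∫ t : ℝ, V t := integral_nonneg hV.nonneg
        have h1 : (K3 + 2 * C1) / L * (∫ t : ℝ, V t) ≤
            ((K3 + 2 * C1) + (2 * C2 * K + K3 + K3) * π * 2) / L * (∫ t : ℝ, V t) := by
          have h0 : 0 ≤ (2 * C2 * K + K3 + K3) * π * 2 := by positivity
          exact mul_le_mul_of_nonneg_right
            (div_le_div_of_nonneg_right (by linarith) hL0.le) hVi
        have h2 : (2 * C2 * K + K3 + K3) * (T ^ 2)⁻¹ * π ≤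
            ((K3 + 2 * C1) + (2 * C2 * K + K3 + K3) * π * 2) / T := by
          rw [le_div_iff₀ hT0]
          have h3 : (T ^ 2)⁻¹ * T ≤ 1 := by
            rw [inv_mul_le_iff₀ (by positivity)]
            linarith only [mul_le_mul_of_nonneg_right (le_trans (by norm_num) hT8 : (1:ℝ) ≤ T) hT0.le]
          have h4 : 0 ≤ (2 * C2 * K + K3 + K3) * π := by positivity
          calc (2 * C2 * K + K3 + K3) * (T ^ 2)⁻¹ * π * T =
              ((2 * C2 * K + K3 + K3) * π) * ((T ^ 2)⁻¹ * T) := by ring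
            _ ≤ ((2 * C2 * K + K3 + K3) * π) * 1 := by gcongr
            _ ≤ _ := by
              have : 0 < K3 + 2 * C1 := by positivity
              linarith
        linarith

end Pool.Agent.ZGap.Res
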