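import Pool.Agent.ZGap.Res.PrimeSum

/-!
# Reduction of the arithmetic sum to a weighted sum over finite sets of primes
-/

namespace Pool.Agent.ZGap.Res

open MeasureTheory Finset ArithmeticFunction Filter Topology

variable {R : ResData} {T : ℝ}

/-- The normalised weight `log p / (p log T)`. -/
noncomputable def wt (T : ℝ) (p : ℕ) : ℝ := Real.log p / (p * Real.log T)

lemma wt_nonneg (hT : 1 < T) (p : ℕ) : 0 ≤ wt T p :=
  div_nonneg (Real.log_natCast_nonneg p) (mul_nonneg (Nat.cast_nonneg p) (Real.log_pos hT).le)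

lemma sum_wt_le {T : ℝ} (hT : Real.exp 3 ≤ T) : ∑ p ∈ PP T, wt T p ≤ 3 := by
  have h1T : 1 < T := lt_of_lt_of_le (Real.one_lt_exp_iff.mpr (by norm_num)) hT
  have hL3 : 3 ≤ Real.log T := by
    rw [Real.le_log_iff_exp_le (by linarith)]; exact hT
  have hN : 1 ≤ ⌊T⌋₊ := Nat.le_floor (by exact_mod_cast h1T.le)
  have h1 := Pool.Agent.DirPoly.sum_log_div_le hN
  have hlogN : Real.log ⌊T⌋₊ ≤ Real.log T := by
    apply Real.log_le_log (by exact_mod_cast (by omega : 0 < ⌊T⌋₊))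
    exact Nat.floor_le (by linarith)
  have hl4 : Real.log 4 ≤ 1.4 := by
    have : Real.log 4 = 2 * Real.log 2 := by
      rw [show (4 : ℝ) = 2 ^ 2 by norm_num, Real.log_pow]; norm_num
    have := Real.log_two_lt_d9
    linarith
  have e1 : ∑ p ∈ PP T, wt T p = (∑ p ∈ PP T, Real.log p / p) / Real.log T := by
    rw [sum_div]
    refine sum_congr rfl fun p _ => ?_
    unfold wt
    rw [div_div]
  rw [e1, div_le_iff₀ (by linarith)]
  calc _ ≤ Real.log 4 * (1 + Real.log ⌊T⌋₊) := h1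
    _ ≤ 1.4 * (1 + Real.log T) := by
        apply mul_le_mul hl4 (by linarith) _ (by norm_num)
        have := Real.log_natCast_nonneg ⌊T⌋₊
        linarith
    _ ≤ 3 * Real.log T := by linarith

/-- If the cutoff is nonzero then the prime is large. -/
lemma large_of_f_ne (hT : 1 < T) {p : ℕ} (h : R.f (Real.log p / Real.log T) ≠ 0) :
    R.ep < Real.log p / Real.log T := by
  by_contra hcon
  exact h (R.f_low _ (not_lt.mp hcon))

lemma inv_le_of_large (hT : 1 < T) {p : ℕ} (hp : 0 < p) (h : R.ep < Real.log p / Real.log T) :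
    1 / (p : ℝ) ≤ T ^ (-R.ep) := by
  have hL : 0 < Real.log T := Real.log_pos hT
  have hT0 : 0 < T := by linarith
  have hp' : (0:ℝ) < p := by exact_mod_cast hp
  rw [lt_div_iff₀ hL] at h
  rw [Real.rpow_neg hT0.le, ← one_div]
  apply one_div_le_one_div_of_le (Real.rpow_pos_of_pos hT0 _)
  rw [Real.rpow_def_of_pos hT0, ← Real.le_log_iff_exp_le hp']
  linarith

lemma f_sq_le (R : ResData) (x : ℝ) : R.f x ^ 2 ≤ 1 := by
  have h1 := R.f_nonneg x
  have h2 := R.f_le x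
  nlinarith

lemma cc_sq (p : ℕ) : cc R T p ^ 2 = R.r ^ 2 * R.f (Real.log p / Real.log T) ^ 2 / p := by
  unfold cc
  rw [div_pow, mul_pow, Real.sq_sqrt (Nat.cast_nonneg p)]

lemma cc_sq_le_wt (hT : 1 < T) {p : ℕ} (hp : 0 < p) :
    cc R T p ^ 2 ≤ R.r ^ 2 / R.ep * wt T p := by
  have hL : 0 < Real.log T := Real.log_pos hT
  have hp' : (0:ℝ) < p := by exact_mod_cast hp
  have hep := R.ep_pos
  rw [cc_sq]
  by_cases h : R.f (Real.log p / Real.log T) = 0
  · rw [h]
    have := wt_nonneg hT p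
    have : 0 ≤ R.r ^ 2 / R.ep * wt T p := by positivity
    simpa using this
  · have h1 := large_of_f_ne hT h
    have h2 := f_sq_le R (Real.log p / Real.log T)
    calc R.r ^ 2 * R.f (Real.log p / Real.log T) ^ 2 / p ≤ R.r ^ 2 * 1 / p := by gcongr
      _ = R.r ^ 2 / R.ep * (R.ep / p) := by field_simp
      _ ≤ R.r ^ 2 / R.ep * wt T p := by
          apply mul_le_mul_of_nonneg_left _ (by positivity)
          unfold wt
          calc R.ep / p ≤ (Real.log p / Real.log T) / p := by gcongr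
            _ = _ := by field_simp

lemma cc_sq_le_pow (hT : 1 < T) {p : ℕ} (hp : 0 < p) :
    cc R T p ^ 2 ≤ R.r ^ 2 * T ^ (-R.ep) := by
  have hp' : (0:ℝ) < p := by exact_mod_cast hp
  have hT0 : 0 < T := by linarith
  rw [cc_sq]
  by_cases h : R.f (Real.log p / Real.log T) = 0
  · rw [h]
    have := Real.rpow_pos_of_pos hT0 (-R.ep)
    have : 0 ≤ R.r ^ 2 * T ^ (-R.ep) := by positivity
    simpa using this
  · have h1 := inv_le_of_large hT hp (large_of_f_ne hT h)
    have h2 := f_sq_le R (Real.log p / Real.log T)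
    calc R.r ^ 2 * R.f (Real.log p / Real.log T) ^ 2 / p ≤ R.r ^ 2 * 1 / p := by gcongr
      _ = R.r ^ 2 * (1 / p) := by ring
      _ ≤ _ := by gcongr

lemma sum_cc_sq_le (hT : Real.exp 3 ≤ T) : ∑ p ∈ PP T, cc R T p ^ 2 ≤ 3 * (R.r ^ 2 / R.ep) := by
  have h1T : 1 < T := lt_of_lt_of_le (Real.one_lt_exp_iff.mpr (by norm_num)) hT
  have hep := R.ep_pos
  calc ∑ p ∈ PP T, cc R T p ^ 2 ≤ ∑ p ∈ PP T, R.r ^ 2 / R.ep * wt T p :=
        sum_le_sum fun p hp => cc_sq_le_wt h1T (mem_PP.mp hp).1.pos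
    _ = R.r ^ 2 / R.ep * ∑ p ∈ PP T, wt T p := by rw [mul_sum]
    _ ≤ R.r ^ 2 / R.ep * 3 := by
        apply mul_le_mul_of_nonneg_left (sum_wt_le hT) (by positivity)
    _ = _ := by ring

/-- The uniform bound of `E0`. -/
noncomputable def E1 (R : ResData) : ℝ := Real.exp (3 * (R.r ^ 2 / R.ep))

lemma E0_le_E1 (hT : Real.exp 3 ≤ T) : E0 R T ≤ E1 R :=
  E0_le_exp.trans (Real.exp_le_exp.mpr (sum_cc_sq_le hT))

lemma E1_pos : 0 < E1 R := Real.exp_pos _

lemma sum_cc_four_le (hT : Real.exp 3 ≤ T) :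
    ∑ p ∈ PP T, cc R T p ^ 4 ≤ R.r ^ 2 * T ^ (-R.ep) * (3 * (R.r ^ 2 / R.ep)) := by
  have h1T : 1 < T := lt_of_lt_of_le (Real.one_lt_exp_iff.mpr (by norm_num)) hT
  have hT0 : 0 < T := by linarith
  have hpow := Real.rpow_pos_of_pos hT0 (-R.ep)
  calc ∑ p ∈ PP T, cc R T p ^ 4 ≤ ∑ p ∈ PP T, R.r ^ 2 * T ^ (-R.ep) * cc R T p ^ 2 := by
        refine sum_le_sum fun p hp => ?_
        have := cc_sq_le_pow (R := R) h1T (mem_PP.mp hp).1.pos
        calc cc R T p ^ 4 = cc R T p ^ 2 * cc R T p ^ 2 := by ring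
          _ ≤ _ := mul_le_mul_of_nonneg_right this (sq_nonneg _)
    _ = R.r ^ 2 * T ^ (-R.ep) * ∑ p ∈ PP T, cc R T p ^ 2 := by rw [mul_sum]
    _ ≤ _ := mul_le_mul_of_nonneg_left (sum_cc_sq_le hT) (by positivity)

lemma abs_cc_div_le (p : ℕ) : |cc R T p| / Real.sqrt p ≤ |R.r| / p := by
  unfold cc
  rw [abs_div, abs_mul, abs_of_nonneg (R.f_nonneg _), abs_of_nonneg (Real.sqrt_nonneg _), div_div,
    Real.mul_self_sqrt (Nat.cast_nonneg p)]
  apply div_le_div_of_nonneg_right _ (Nat.cast_nonneg p)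
  exact mul_le_of_le_one_right (abs_nonneg _) (R.f_le _)

/-- The prime-square contribution. -/
lemma nonprime_part (hT : Real.exp 3 ≤ T) (hF : ∀ x, 0 ≤ x → R.F x ≤ 1) {k : ℝ → ℝ} {K0 : ℝ}
    (hk : ∀ x, |k x| ≤ K0) (N : ℕ) :
    |∑ n ∈ (Icc 1 N).filter (fun n => ¬ n.Prime), vonMangoldt n / Real.sqrt n *
      k (Real.log n / Real.log T) * CC R T n| ≤
      K0 * (R.r ^ 2 * T ^ (-R.ep)) * E1 R ^ 2 * (3 * Real.log T) := by
  classical
  have h1T : 1 < T := lt_of_lt_of_le (Real.one_lt_exp_iff.mpr (by norm_num)) hT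
  have hT0 : 0 < T := by linarith
  have hL : 0 < Real.log T := Real.log_pos h1T
  have hK0 : 0 ≤ K0 := (abs_nonneg _).trans (hk 0)
  have hpow := Real.rpow_pos_of_pos hT0 (-R.ep)
  set G : ℕ → ℝ := fun n => |vonMangoldt n / Real.sqrt n * k (Real.log n / Real.log T) * CC R T n| with hG
  have hGnn : ∀ n, 0 ≤ G n := fun n => abs_nonneg _
  refine (abs_sum_le_sum_abs _ _).trans ?_
  -- the support
  have hsub : ∑ n ∈ (Icc 1 N).filter (fun n => ¬ n.Prime), G n ≤
      ∑ n ∈ (PP T).image (fun p => p ^ 2), G n := by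
    rw [← sum_filter_ne_zero (s := (Icc 1 N).filter (fun n => ¬ n.Prime))]
    refine sum_le_sum_of_subset_of_nonneg ?_ fun n _ _ => hGnn n
    intro n hn
    rw [mem_filter, mem_filter] at hn
    obtain ⟨⟨hn1, hn2⟩, hn3⟩ := hn
    have hL0 : vonMangoldt n ≠ 0 := fun h => hn3 (by simp only [hG]; rw [h]; simp)
    have hC0 : CC R T n ≠ 0 := fun h => hn3 (by simp only [hG]; rw [h]; simp)
    rw [vonMangoldt_ne_zero_iff, isPrimePow_nat_iff] at hL0
    obtain ⟨p, j, hp, hj, rfl⟩ := hL0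
    have hj1 : j ≠ 1 := fun h => hn2 (by rw [h, pow_one]; exact hp)
    have hj2 : j = 2 := by
      by_contra h
      exact hC0 (CC_pow R hp (by omega))
    subst hj2
    rw [mem_image]
    refine ⟨p, ?_, rfl⟩
    by_contra hpm
    apply hC0
    rw [CC_sq R hp]
    apply sum_eq_zero
    intro q hq
    rw [mem_filter, mem_QQ] at hq
    exact absurd (hq.1.1 hq.2) hpm
  refine hsub.trans ?_
  rw [sum_image (fun a _ b _ h => Nat.pow_left_injective two_ne_zero h)]
  have hterm : ∀ p ∈ PP T, G (p ^ 2) ≤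
      (K0 * (R.r ^ 2 * T ^ (-R.ep)) * E1 R ^ 2) * (Real.log T * wt T p) := by
    intro p hp
    have hpp := (mem_PP.mp hp).1
    have hp0 : (0:ℝ) < p := by exact_mod_cast hpp.pos
    simp only [hG]
    rw [abs_mul, abs_mul]
    have e1 : |vonMangoldt (p ^ 2) / Real.sqrt ((p ^ 2 : ℕ) : ℝ)| = Real.log T * wt T p := by
      rw [vonMangoldt_apply_pow two_ne_zero, vonMangoldt_apply_prime hpp]
      push_cast
      rw [Real.sqrt_sq hp0.le, abs_of_nonneg (div_nonneg (Real.log_natCast_nonneg p) hp0.le)]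
      unfold wt
      field_simp
    rw [e1]
    have e2 := abs_CC_sq_le h1T hF hp
    have e3 := cc_sq_le_pow (R := R) h1T hpp.pos
    have e4 := E0_le_E1 (R := R) hT
    have e5 := one_le_E0 (R := R) (T := T)
    have e6 : |CC R T (p ^ 2)| ≤ (R.r ^ 2 * T ^ (-R.ep)) * E1 R ^ 2 := by
      refine e2.trans (mul_le_mul e3 (pow_le_pow_left₀ (by linarith) e4 2) (sq_nonneg _)
        (by positivity))
    have hw := wt_nonneg h1T p
    calc Real.log T * wt T p * |k _| * |CC R T (p ^ 2)| ≤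
        Real.log T * wt T p * K0 * ((R.r ^ 2 * T ^ (-R.ep)) * E1 R ^ 2) :=
          mul_le_mul (mul_le_mul_of_nonneg_left (hk _) (mul_nonneg hL.le hw)) e6 (abs_nonneg _)
            (mul_nonneg (mul_nonneg hL.le hw) hK0)
      _ = _ := by ring
  refine (sum_le_sum hterm).trans ?_
  rw [← mul_sum, ← mul_sum]
  have hE := E1_pos (R := R)
  have := sum_wt_le hT
  calc _ ≤ (K0 * (R.r ^ 2 * T ^ (-R.ep)) * E1 R ^ 2) * (Real.log T * 3) := by gcongr
    _ = _ := by ring

/-- The main sum over primes. -/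
noncomputable def S1 (R : ResData) (T : ℝ) (k : ℝ → ℝ) : ℝ :=
  ∑ p ∈ PP T, Real.log p / (Real.sqrt p * Real.log T) * k (Real.log p / Real.log T) * NN R T p

lemma prime_part (hT : Real.exp 3 ≤ T) (hF : ∀ x, 0 ≤ x → R.F x ≤ 1) {k : ℝ → ℝ} {K0 : ℝ}
    (hk : ∀ x, |k x| ≤ K0) {N : ℕ} (hN : ⌊T⌋₊ ≤ N) :
    |∑ n ∈ (Icc 1 N).filter Nat.Prime, vonMangoldt n / Real.sqrt n *
      k (Real.log n / Real.log T) * CC R T n - 2 * Real.log T * (DD R T * S1 R T k)| ≤
      2 * K0 * |R.r| * E1 R ^ 2 * (R.r ^ 2 * T ^ (-R.ep) * (3 * (R.r ^ 2 / R.ep)) +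
        R.r ^ 2 * T ^ (-R.ep)) * (3 * Real.log T) := by
  classical
  have h1T : 1 < T := lt_of_lt_of_le (Real.one_lt_exp_iff.mpr (by norm_num)) hT
  have hT0 : 0 < T := by linarith
  have hL : 0 < Real.log T := Real.log_pos h1T
  have hK0 : 0 ≤ K0 := (abs_nonneg _).trans (hk 0)
  have hep := R.ep_pos
  have hpow := Real.rpow_pos_of_pos hT0 (-R.ep)
  have e1 : ∑ n ∈ (Icc 1 N).filter Nat.Prime, vonMangoldt n / Real.sqrt n *
      k (Real.log n / Real.log T) * CC R T n =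
      ∑ p ∈ PP T, Real.log p / Real.sqrt p * k (Real.log p / Real.log T) * (2 * BB R T p) := by
    have h1 : ∑ n ∈ PP T, vonMangoldt n / Real.sqrt n *
      k (Real.log n / Real.log T) * CC R T n = ∑ n ∈ (Icc 1 N).filter Nat.Prime,
        vonMangoldt n / Real.sqrt n * k (Real.log n / Real.log T) * CC R T n := by
      apply sum_subset
      · intro p hp
        have := mem_PP.mp hp
        rw [mem_filter, mem_Icc]
        exact ⟨⟨this.1.one_lt.le, this.2.trans hN⟩, this.1⟩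
      · intro p hp hpm
        rw [mem_filter] at hp
        rw [CC_prime_of_notMem R hp.2 hpm, mul_zero]
    rw [← h1]
    refine sum_congr rfl fun p hp => ?_
    rw [vonMangoldt_apply_prime (mem_PP.mp hp).1, CC_prime R hp]
  have e2 : 2 * Real.log T * (DD R T * S1 R T k) =
      ∑ p ∈ PP T, Real.log p / Real.sqrt p * k (Real.log p / Real.log T) *
        (2 * (NN R T p * DD R T)) := by
    unfold S1
    rw [mul_sum, mul_sum]
    refine sum_congr rfl fun p hp => ?_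
    have hp0 : (0:ℝ) < p := by exact_mod_cast (mem_PP.mp hp).1.pos
    have : 0 < Real.sqrt p := Real.sqrt_pos.mpr hp0
    field_simp
  rw [e1, e2, ← sum_sub_distrib]
  refine (abs_sum_le_sum_abs _ _).trans ?_
  have hterm : ∀ p ∈ PP T, |Real.log p / Real.sqrt p * k (Real.log p / Real.log T) *
      (2 * BB R T p) - Real.log p / Real.sqrt p * k (Real.log p / Real.log T) *
        (2 * (NN R T p * DD R T))| ≤
      (2 * K0 * |R.r| * E1 R ^ 2 * (R.r ^ 2 * T ^ (-R.ep) * (3 * (R.r ^ 2 / R.ep)) +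
        R.r ^ 2 * T ^ (-R.ep))) * (Real.log T * wt T p) := by
    intro p hp
    have hpp := (mem_PP.mp hp).1
    have hp0 : (0:ℝ) < p := by exact_mod_cast hpp.pos
    have hs : 0 < Real.sqrt p := Real.sqrt_pos.mpr hp0
    have a1 := abs_BB_sub_le h1T hF hp
    have a2 := sum_cc_four_le (R := R) hT
    have a3 := cc_sq_le_pow (R := R) h1T hpp.pos
    have a4 := E0_le_E1 (R := R) hT
    have a5 := one_le_E0 (R := R) (T := T)
    have a6 := abs_cc_div_le (R := R) (T := T) p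
    have a7 := Real.log_natCast_nonneg p
    have e3 : Real.log p / Real.sqrt p * k (Real.log p / Real.log T) *
      (2 * BB R T p) - Real.log p / Real.sqrt p * k (Real.log p / Real.log T) *
        (2 * (NN R T p * DD R T)) = -(2 * (Real.log p / Real.sqrt p *
          k (Real.log p / Real.log T)) * (NN R T p * DD R T - BB R T p)) := by ring
    rw [e3, abs_neg, abs_mul, abs_mul, abs_mul, abs_of_pos (by norm_num : (0:ℝ) < 2),
      abs_of_nonneg (div_nonneg a7 hs.le)]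
    have a8 : |NN R T p * DD R T - BB R T p| ≤ |cc R T p| * (E1 R ^ 2 *
        (R.r ^ 2 * T ^ (-R.ep) * (3 * (R.r ^ 2 / R.ep)) + R.r ^ 2 * T ^ (-R.ep))) := by
      refine a1.trans ?_
      rw [mul_assoc]
      apply mul_le_mul_of_nonneg_left _ (abs_nonneg _)
      apply mul_le_mul (pow_le_pow_left₀ (by linarith) a4 2) (add_le_add a2 a3)
      · exact add_nonneg (sum_nonneg fun _ _ => by positivity) (sq_nonneg _)
      · exact sq_nonneg _
    have hE := E1_pos (R := R)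
    calc 2 * (Real.log p / Real.sqrt p * |k (Real.log p / Real.log T)|) *
          |NN R T p * DD R T - BB R T p|
        ≤ 2 * (Real.log p / Real.sqrt p * K0) * (|cc R T p| * (E1 R ^ 2 *
        (R.r ^ 2 * T ^ (-R.ep) * (3 * (R.r ^ 2 / R.ep)) + R.r ^ 2 * T ^ (-R.ep)))) :=
          mul_le_mul (mul_le_mul_of_nonneg_left (mul_le_mul_of_nonneg_left (hk _)
            (div_nonneg a7 hs.le)) zero_le_two) a8 (abs_nonneg _)
            (mul_nonneg zero_le_two (mul_nonneg (div_nonneg a7 hs.le) hK0))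
      _ = 2 * K0 * E1 R ^ 2 * (R.r ^ 2 * T ^ (-R.ep) * (3 * (R.r ^ 2 / R.ep)) +
          R.r ^ 2 * T ^ (-R.ep)) * Real.log p * (|cc R T p| / Real.sqrt p) := by
          field_simp
      _ ≤ 2 * K0 * E1 R ^ 2 * (R.r ^ 2 * T ^ (-R.ep) * (3 * (R.r ^ 2 / R.ep)) +
          R.r ^ 2 * T ^ (-R.ep)) * Real.log p * (|R.r| / p) :=
          mul_le_mul_of_nonneg_left a6 (by positivity)
      _ = _ := by
          unfold wt
          field_simp
  refine (sum_le_sum hterm).trans ?_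
  rw [← mul_sum, ← mul_sum]
  have hE := E1_pos (R := R)
  have := sum_wt_le hT
  have hc : 0 ≤ 2 * K0 * |R.r| * E1 R ^ 2 * (R.r ^ 2 * T ^ (-R.ep) * (3 * (R.r ^ 2 / R.ep)) +
        R.r ^ 2 * T ^ (-R.ep)) := by positivity
  calc _ ≤ (2 * K0 * |R.r| * E1 R ^ 2 * (R.r ^ 2 * T ^ (-R.ep) * (3 * (R.r ^ 2 / R.ep)) +
        R.r ^ 2 * T ^ (-R.ep))) * (Real.log T * 3) := by gcongr
    _ = _ := by ring

end Pool.Agent.ZGap.Res
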