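import Pool.Agent.ZGap.Res.Om
import Pool.Agent.ZGap.Res.Reduce
import Pool.Agent.ZGap.Res.Count

/-!
# The resonated weight `V = Om ‖Amp‖²` and the weighted mean of the smoothed zero count
-/

open scoped ContDiff

namespace Pool.Agent.ZGap.Res

open MeasureTheory Real Set ArithmeticFunction

/-- The exponent of the localisation. -/
noncomputable def etaR (R : ResData) : ℝ := (1 - 2 * R.th) / 2

lemma etaR_pos (R : ResData) : 0 < etaR R := by
  unfold etaR; linarith [R.th_lt]

lemma etaR_le (R : ResData) : etaR R ≤ 1 := by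
  have : 0 < R.th := by linarith [R.ep_pos, R.ep_th]
  unfold etaR; linarith

/-- The resonated weight. -/
noncomputable def VV (R : ResData) (T t : ℝ) : ℝ :=
  Om (T ^ (1 - etaR R)) T t * ‖Amp R T t‖ ^ 2

lemma Amp_continuous (R : ResData) (T : ℝ) : Continuous (Amp R T) := by
  unfold Amp; fun_prop

lemma VV_continuous (R : ResData) (T : ℝ) : Continuous (VV R T) := by
  have h1 := Om_continuous (T ^ (1 - etaR R)) T
  have h2 := Amp_continuous R T
  unfold VV
  fun_prop

lemma VV_nonneg (R : ResData) {T : ℝ} (hT : 0 < T) (t : ℝ) : 0 ≤ VV R T t :=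
  mul_nonneg (Om_nonneg (by positivity) hT t) (by positivity)

lemma pr_le_of_aa_ne {R : ResData} {T : ℝ} (hT : 1 < T) {S : Finset ℕ} (hS : S ⊆ PP T)
    (h : aa R T S ≠ 0) : pr S ≤ ⌊T⌋₊ := by
  have h1 := ell_lt_of_aa_ne hT h
  have hL : 0 < Real.log T := Real.log_pos hT
  have hth := R.th_lt
  have hpos : (0:ℝ) < pr S := by exact_mod_cast pr_pos hS
  apply Nat.le_floor
  rw [← Real.log_le_log_iff hpos (by linarith), ← ell_eq hS]
  nlinarith

/-- Number of sets with nonzero coefficient. -/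
lemma card_support_le {R : ResData} {T : ℝ} (hT : 1 < T) :
    (((PP T).powerset.filter (fun S => aa R T S ≠ 0)).card : ℝ) ≤ T := by
  classical
  have h1 : ((PP T).powerset.filter (fun S => aa R T S ≠ 0)).card ≤ (Finset.Icc 1 ⌊T⌋₊).card := by
    apply Finset.card_le_card_of_injOn pr
    · intro S hS
      rw [Finset.mem_coe, Finset.mem_filter, Finset.mem_powerset] at hS
      rw [Finset.coe_Icc, Set.mem_Icc]
      exact ⟨pr_pos hS.1, pr_le_of_aa_ne hT hS.1 hS.2⟩
    · intro S hS S' hS' he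
      rw [Finset.mem_coe, Finset.mem_filter, Finset.mem_powerset] at hS hS'
      have e1 := Nat.primeFactors_prod (s := S) (fun p hp => (mem_PP.mp (hS.1 hp)).1)
      have e2 := Nat.primeFactors_prod (s := S') (fun p hp => (mem_PP.mp (hS'.1 hp)).1)
      rw [← e1, ← e2]
      exact congrArg Nat.primeFactors he
  rw [Nat.card_Icc, Nat.add_sub_cancel] at h1
  calc _ ≤ ((⌊T⌋₊ : ℕ) : ℝ) := by exact_mod_cast h1
    _ ≤ T := Nat.floor_le (by linarith)

lemma sum_abs_aa_sq_le {R : ResData} {T : ℝ} (hT : 1 < T) (hF : ∀ x, 0 ≤ x → R.F x ≤ 1) :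
    (∑ S ∈ (PP T).powerset, |aa R T S|) ^ 2 ≤ T * E0 R T := by
  classical
  have e1 : ∑ S ∈ (PP T).powerset, |aa R T S| =
      ∑ S ∈ (PP T).powerset.filter (fun S => aa R T S ≠ 0), |aa R T S| := by
    rw [Finset.sum_filter]
    refine Finset.sum_congr rfl fun S _ => ?_
    split_ifs with h
    · rfl
    · rw [not_not.mp h, abs_zero]
  rw [e1]
  have h1 := sq_sum_le_card_mul_sum_sq (s := (PP T).powerset.filter (fun S => aa R T S ≠ 0))
    (f := fun S => |aa R T S|)
  refine h1.trans ?_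
  have h2 : ∑ S ∈ (PP T).powerset.filter (fun S => aa R T S ≠ 0), |aa R T S| ^ 2 ≤ E0 R T := by
    unfold E0
    calc _ ≤ ∑ S ∈ (PP T).powerset, |aa R T S| ^ 2 :=
          Finset.sum_le_sum_of_subset_of_nonneg (Finset.filter_subset _ _)
            fun _ _ _ => sq_nonneg _
      _ ≤ _ := by
          refine Finset.sum_le_sum fun S _ => ?_
          rw [sq_abs]
          exact aa_sq_le hT hF S
  exact mul_le_mul (card_support_le hT) h2 (Finset.sum_nonneg fun _ _ => sq_nonneg _)
    (by linarith)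

/-- The trivial bound of the resonator. -/
lemma norm_Amp_le {R : ResData} {T : ℝ} (hT : 1 < T) (hF : ∀ x, 0 ≤ x → R.F x ≤ 1) (t : ℝ) :
    ‖Amp R T t‖ ≤ T * E0 R T := by
  classical
  refine le_trans ?_ (sum_abs_aa_sq_le hT hF)
  unfold Amp
  rw [sq, Finset.sum_mul_sum]
  refine (norm_sum_le _ _).trans (Finset.sum_le_sum fun S _ => ?_)
  refine (norm_sum_le _ _).trans ?_
  calc ∑ S' ∈ (PP T \ S).powerset, ‖((aa R T S * aa R T S' : ℝ) : ℂ) *
        Complex.exp (((-(t * (ell S - ell S')) : ℝ) : ℂ) * Complex.I)‖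
      = ∑ S' ∈ (PP T \ S).powerset, |aa R T S| * |aa R T S'| := by
        refine Finset.sum_congr rfl fun S' _ => ?_
        rw [norm_mul, Complex.norm_exp_ofReal_mul_I, mul_one, Complex.norm_real,
          Real.norm_eq_abs, abs_mul]
    _ ≤ ∑ S' ∈ (PP T).powerset, |aa R T S| * |aa R T S'| := by
        apply Finset.sum_le_sum_of_subset_of_nonneg
        · exact Finset.powerset_mono.mpr Finset.sdiff_subset
        · intro _ _ _; positivity

/-- `Sig` is bounded. -/
lemma Sig_le_E1 {R : ResData} {T : ℝ} (hT : Real.exp 3 ≤ T) (hF : ∀ x, 0 ≤ x → R.F x ≤ 1) :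
    Sig R T ≤ E1 R ^ 2 := by
  have h1T : 1 < T := lt_of_lt_of_le (Real.one_lt_exp_iff.mpr (by norm_num)) hT
  refine Sig_le.trans ?_
  exact pow_le_pow_left₀ DD_nonneg ((DD_le_E0 h1T hF).trans (E0_le_E1 hT)) 2

lemma abs_fr_le {R : ResData} {T : ℝ} (hT : 1 < T) {q : Finset ℕ × Finset ℕ}
    (h : al R T q ≠ 0) : |fr q| ≤ R.th * Real.log T := by
  have h1 := ell_lt_of_aa_ne hT (left_ne_zero_of_mul h)
  have h2 := ell_lt_of_aa_ne hT (right_ne_zero_of_mul h)
  have h3 := ell_nonneg q.1
  have h4 := ell_nonneg q.2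
  unfold fr
  rw [abs_le]
  constructor <;> linarith

/-- **All facts on the resonated weight.** -/
theorem exists_VV (R : ResData) (hF : ∀ x, 0 ≤ x → R.F x ≤ 1) : ∃ T0 : ℝ, Real.exp 3 ≤ T0 ∧
    ∀ T : ℝ, T0 ≤ T →
      (∃ M : ℝ, Wt (VV R T) M) ∧
      (∀ t, t ∉ Icc (T / 2) (3 * T) → VV R T t ≤ (T ^ 3)⁻¹ / (1 + t ^ 2) ^ 2) ∧
      Band (VV R T) ((1 + 2 * R.th) / 2 * Real.log T) ∧
      (∫ t : ℝ, VV R T t = T * Sig R T) ∧
      (∀ n : ℕ, 0 < n → ∫ t : ℝ, VV R T t * Real.cos (t * Real.log n) = T * CC R T n) := by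
  have hη := etaR_pos R
  have hη1 := etaR_le R
  have hth0 : 0 < R.th := by linarith [R.ep_pos, R.ep_th]
  have hth := R.th_lt
  obtain ⟨C, hC, hdec⟩ := Om_decay hη hη1 6
  have hE1 := E1_pos (R := R)
  -- `T` large
  have ev : ∀ᶠ T : ℝ in Filter.atTop, 2 ≤ T ^ (etaR R) ∧ 1 ≤ (1 - 2 * R.th) / 2 * Real.log T := by
    have e1 := tendsto_rpow_atTop hη
    have e2 : Filter.Tendsto (fun T : ℝ => (1 - 2 * R.th) / 2 * Real.log T) Filter.atTop
        Filter.atTop := Real.tendsto_log_atTop.const_mul_atTop (by linarith)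
    exact (e1.eventually_ge_atTop 2).and (e2.eventually_ge_atTop 1)
  obtain ⟨T1, hT1⟩ := Filter.eventually_atTop.mp ev
  refine ⟨max (max T1 (Real.exp 3)) (C * E1 R ^ 2), (le_max_right _ _).trans (le_max_left _ _),
    fun T hT => ?_⟩
  have hTT1 : T1 ≤ T := (le_max_left _ _).trans ((le_max_left _ _).trans hT)
  have hTe : Real.exp 3 ≤ T := (le_max_right _ _).trans ((le_max_left _ _).trans hT)
  have hTC : C * E1 R ^ 2 ≤ T := (le_max_right _ _).trans hT
  have h1T : 1 < T := lt_of_lt_of_le (Real.one_lt_exp_iff.mpr (by norm_num)) hTe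
  have h8 : 8 ≤ T := by
    have := Real.quadratic_le_exp_of_nonneg (x := 3) (by norm_num)
    linarith
  have hT0 : 0 < T := by linarith
  have hL : 0 < Real.log T := Real.log_pos h1T
  obtain ⟨hpow, hlog⟩ := hT1 T hTT1
  set H := T ^ (1 - etaR R) with hH
  have hH0 : 0 < H := Real.rpow_pos_of_pos hT0 _
  have hH1 : 1 ≤ H := Real.one_le_rpow h1T.le (by linarith)
  -- the spectral gap
  have hint : Integrable (Om H T) := by
    obtain ⟨M, hM, hb⟩ := Om_bound hη hη1 h8
    exact Wt.integrable (V := Om H T) (M := M) ⟨Om_continuous H T, fun t => Om_nonneg hH0 hT0 t, hb⟩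
  have hMW : MW (Om H T) (1 / H) := by
    refine ⟨hint, fun la hla => ?_⟩
    have := Om_cos (l := la) hH0 hT0 (by
      rw [abs_mul, abs_of_pos hH0]
      rwa [div_le_iff₀ hH0] at hla)
    simpa [mul_comm] using this
  have hδ : 1 / H ≤ T ^ (-(2 * R.th)) / 2 := by
    have e1 : T ^ (-(2 * R.th)) * H = T ^ (etaR R) := by
      rw [hH, ← Real.rpow_add hT0]
      congr 1
      unfold etaR; ring
    rw [div_le_iff₀ hH0, div_mul_eq_mul_div, e1]
    linarith
  have hAE : ∀ t, ‖Amp R T t‖ ^ 2 ≤ T ^ 2 * E1 R ^ 2 := by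
    intro t
    rw [← mul_pow]
    apply pow_le_pow_left₀ (norm_nonneg _)
    exact (norm_Amp_le h1T hF t).trans (mul_le_mul_of_nonneg_left (E0_le_E1 hTe) hT0.le)
  have hWt : ∃ M : ℝ, Wt (VV R T) M := by
    obtain ⟨M, hM, hb⟩ := Om_bound hη hη1 h8
    refine ⟨M * (T ^ 2 * E1 R ^ 2), VV_continuous R T, VV_nonneg R hT0, fun t => ?_⟩
    unfold VV
    calc _ ≤ M / (1 + t ^ 2) ^ 2 * (T ^ 2 * E1 R ^ 2) :=
          mul_le_mul (hb t) (hAE t) (by positivity) (by positivity)
      _ = _ := by ring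
  have hcos := fun (n : ℕ) (hn : 0 < n) => mean_cos (R := R) h1T hMW hδ hn
  have hOm := Om_integral hH0 hT0
  refine ⟨hWt, fun t ht => ?_, ?_, ?_, fun n hn => ?_⟩
  · have h1 := hdec T h8 t ht
    unfold VV
    calc _ ≤ C * (T ^ 6)⁻¹ / (1 + t ^ 2) ^ 2 * (T ^ 2 * E1 R ^ 2) :=
          mul_le_mul h1 (hAE t) (by positivity) (by positivity)
      _ = (C * E1 R ^ 2) * (T ^ 4)⁻¹ / (1 + t ^ 2) ^ 2 := by
          field_simp
      _ ≤ T * (T ^ 4)⁻¹ / (1 + t ^ 2) ^ 2 := by gcongr
      _ = _ := by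
          congr 1
          field_simp
  · -- the band
    have hVeq : ∀ t, VV R T t = ∑ q ∈ QQ T, ∑ q' ∈ QQ T, al R T q * al R T q' *
        (Om H T t * Real.cos (t * (fr q - fr q'))) := by
      intro t
      unfold VV
      rw [norm_sq_Amp, Finset.mul_sum]
      refine Finset.sum_congr rfl fun q _ => ?_
      rw [Finset.mul_sum]
      refine Finset.sum_congr rfl fun q' _ => ?_
      ring
    have hicos : ∀ la : ℝ, Integrable (fun t => Om H T t * Real.cos (t * la)) :=
      fun la => hMW.integrable_cos la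
    have hisin : ∀ la : ℝ, Integrable (fun t => Om H T t * Real.sin (t * la)) := by
      intro la
      refine hint.norm.mono' (hint.aestronglyMeasurable.mul
        (Continuous.aestronglyMeasurable (by fun_prop))) (Filter.Eventually.of_forall fun t => ?_)
      rw [norm_mul]
      exact mul_le_of_le_one_right (norm_nonneg _) (Real.abs_sin_le_one _)
    have hsin : ∀ la : ℝ, 1 / H ≤ |la| → ∫ t : ℝ, Om H T t * Real.sin (t * la) = 0 := by
      intro la hla
      have := Om_sin (l := la) hH0 hT0 (by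
        rw [abs_mul, abs_of_pos hH0]
        rwa [div_le_iff₀ hH0] at hla)
      simpa [mul_comm] using this
    have hlarge : ∀ q q' : Finset ℕ × Finset ℕ, al R T q ≠ 0 → al R T q' ≠ 0 → ∀ l : ℝ,
        (1 + 2 * R.th) / 2 * Real.log T ≤ l →
        1 / H ≤ |l + (fr q - fr q')| ∧ 1 / H ≤ |l - (fr q - fr q')| := by
      intro q q' h h' l hl
      have a1 := abs_le.mp (abs_fr_le h1T h)
      have a2 := abs_le.mp (abs_fr_le h1T h')
      have a3 : 1 / H ≤ 1 := by rw [div_le_one hH0]; exact hH1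
      constructor
      · refine a3.trans (le_trans ?_ (le_abs_self _))
        linarith [a1.1, a1.2, a2.1, a2.2]
      · refine a3.trans (le_trans ?_ (le_abs_self _))
        linarith [a1.1, a1.2, a2.1, a2.2]
    intro l hl
    constructor
    · have e1 : ∀ t, VV R T t * Real.cos (l * t) = ∑ q ∈ QQ T, ∑ q' ∈ QQ T,
          (al R T q * al R T q' / 2) * (Om H T t * Real.cos (t * (l + (fr q - fr q'))) +
            Om H T t * Real.cos (t * (l - (fr q - fr q')))) := by
        intro t
        rw [hVeq, Finset.sum_mul]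
        refine Finset.sum_congr rfl fun q _ => ?_
        rw [Finset.sum_mul]
        refine Finset.sum_congr rfl fun q' _ => ?_
        rw [mul_add t, mul_sub t l, Real.cos_add, Real.cos_sub, mul_comm l t]
        ring
      simp_rw [e1]
      have hi : ∀ q ∈ QQ T, ∀ q' ∈ QQ T, Integrable (fun t =>
          (al R T q * al R T q' / 2) * (Om H T t * Real.cos (t * (l + (fr q - fr q'))) +
            Om H T t * Real.cos (t * (l - (fr q - fr q'))))) := fun q _ q' _ =>
        ((hicos _).add (hicos _)).const_mul _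
      rw [integral_finsetSum _ fun q hq => integrable_finsetSum _ fun q' hq' => hi q hq q' hq']
      refine Finset.sum_eq_zero fun q hq => ?_
      rw [integral_finsetSum _ fun q' hq' => hi q hq q' hq']
      refine Finset.sum_eq_zero fun q' hq' => ?_
      by_cases hz : al R T q = 0
      · rw [hz]; simp
      by_cases hz' : al R T q' = 0
      · rw [hz']; simp
      obtain ⟨b1, b2⟩ := hlarge q q' hz hz' l hl
      rw [integral_const_mul, integral_add (hicos _) (hicos _), hMW.van _ b1, hMW.van _ b2]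
      simp
    · have e1 : ∀ t, VV R T t * Real.sin (l * t) = ∑ q ∈ QQ T, ∑ q' ∈ QQ T,
          (al R T q * al R T q' / 2) * (Om H T t * Real.sin (t * (l + (fr q - fr q'))) +
            Om H T t * Real.sin (t * (l - (fr q - fr q')))) := by
        intro t
        rw [hVeq, Finset.sum_mul]
        refine Finset.sum_congr rfl fun q _ => ?_
        rw [Finset.sum_mul]
        refine Finset.sum_congr rfl fun q' _ => ?_
        rw [mul_add t, mul_sub t l, Real.sin_add, Real.sin_sub, mul_comm l t]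
        ring
      simp_rw [e1]
      have hi : ∀ q ∈ QQ T, ∀ q' ∈ QQ T, Integrable (fun t =>
          (al R T q * al R T q' / 2) * (Om H T t * Real.sin (t * (l + (fr q - fr q'))) +
            Om H T t * Real.sin (t * (l - (fr q - fr q'))))) := fun q _ q' _ =>
        ((hisin _).add (hisin _)).const_mul _
      rw [integral_finsetSum _ fun q hq => integrable_finsetSum _ fun q' hq' => hi q hq q' hq']
      refine Finset.sum_eq_zero fun q hq => ?_
      rw [integral_finsetSum _ fun q' hq' => hi q hq q' hq']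
      refine Finset.sum_eq_zero fun q' hq' => ?_
      by_cases hz : al R T q = 0
      · rw [hz]; simp
      by_cases hz' : al R T q' = 0
      · rw [hz']; simp
      obtain ⟨b1, b2⟩ := hlarge q q' hz hz' l hl
      rw [integral_const_mul, integral_add (hisin _) (hisin _), hsin _ b1, hsin _ b2]
      simp
  · have := mean_sq (R := R) h1T hMW hδ
    rw [hOm] at this
    exact this
  · have := hcos n hn
    rw [hOm] at this
    rw [← this]
    refine integral_congr_ae (Filter.Eventually.of_forall fun t => ?_)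
    simp only [VV]
    ring

/-- **The weighted mean of the smoothed zero count**, under RH. -/
theorem exists_VV_count (hRH : RiemannHypothesis) (R : ResData) (hF : ∀ x, 0 ≤ x → R.F x ≤ 1)
    {ψ : ℝ → ℝ} (hψ : RS ψ) : ∃ C T0 : ℝ, 0 < C ∧ Real.exp 3 ≤ T0 ∧ ∀ T : ℝ, T0 ≤ T →
      |(∫ t : ℝ, VV R T t * NC ψ T t) - T * (chat ψ 0 / (2 * π) * Sig R T -
        (π * Real.log T)⁻¹ * ∑ n ∈ Finset.Icc 1 ⌊T⌋₊, vonMangoldt n / Real.sqrt n *
          chat ψ (Real.log n / Real.log T) * CC R T n)| ≤ C * T / Real.log T := by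
  have hth0 : 0 < R.th := by linarith [R.ep_pos, R.ep_th]
  have hth := R.th_lt
  obtain ⟨C, T0, hC, hT0, h⟩ := exists_count hRH hψ (β := (1 + 2 * R.th) / 2) (by linarith)
    (by linarith)
  obtain ⟨T1, hT1, hV⟩ := exists_VV R hF
  have hE1 := E1_pos (R := R)
  refine ⟨C * E1 R ^ 2 + C, max T0 T1, by positivity, hT1.trans (le_max_right _ _), fun T hT => ?_⟩
  have hTT0 : T0 ≤ T := (le_max_left _ _).trans hT
  have hTT1 : T1 ≤ T := (le_max_right _ _).trans hT
  have hTe : Real.exp 3 ≤ T := hT1.trans hTT1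
  have h1T : 1 < T := lt_of_lt_of_le (Real.one_lt_exp_iff.mpr (by norm_num)) hTe
  have hTp : 0 < T := by linarith
  have hL : 0 < Real.log T := Real.log_pos h1T
  obtain ⟨⟨M, hWt⟩, hdec, hband, hint, hcos⟩ := hV T hTT1
  have h1 := h T hTT0 (VV R T) M hWt hdec hband ⌊T⌋₊ (by
    have e1 : Real.exp ((1 + 2 * R.th) / 2 * Real.log T) ≤ T := by
      calc _ ≤ Real.exp (1 * Real.log T) := Real.exp_le_exp.mpr (by nlinarith)
        _ = T := by rw [one_mul, Real.exp_log hTp]
    exact e1.trans (Nat.lt_floor_add_one T).le) (Nat.floor_le hTp.le)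
  have e2 : ∑ n ∈ Finset.Icc 1 ⌊T⌋₊, vonMangoldt n / Real.sqrt n *
      chat ψ (Real.log n / Real.log T) * ∫ t : ℝ, VV R T t * Real.cos (t * Real.log n) =
      T * ∑ n ∈ Finset.Icc 1 ⌊T⌋₊, vonMangoldt n / Real.sqrt n *
          chat ψ (Real.log n / Real.log T) * CC R T n := by
    rw [Finset.mul_sum]
    refine Finset.sum_congr rfl fun n hn => ?_
    rw [hcos n (Finset.mem_Icc.mp hn).1]
    ring
  rw [e2, hint] at h1
  have e3 : chat ψ 0 / (2 * π) * (T * Sig R T) - (π * Real.log T)⁻¹ *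
      (T * ∑ n ∈ Finset.Icc 1 ⌊T⌋₊, vonMangoldt n / Real.sqrt n *
          chat ψ (Real.log n / Real.log T) * CC R T n) =
      T * (chat ψ 0 / (2 * π) * Sig R T - (π * Real.log T)⁻¹ *
        ∑ n ∈ Finset.Icc 1 ⌊T⌋₊, vonMangoldt n / Real.sqrt n *
          chat ψ (Real.log n / Real.log T) * CC R T n) := by ring
  rw [e3] at h1
  refine h1.trans ?_
  have hS := Sig_le_E1 hTe hF
  have hlogT : Real.log T ≤ T := (Real.log_le_sub_one_of_pos hTp).trans (by linarith)
  have e4 : C / T ≤ C * T / Real.log T := by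
    rw [div_le_div_iff₀ hTp hL]
    have e6 : Real.log T ≤ T * T := by nlinarith
    calc C * Real.log T ≤ C * (T * T) := mul_le_mul_of_nonneg_left e6 hC.le
      _ = _ := by ring
  have e5 : C / Real.log T * (T * Sig R T) ≤ C * E1 R ^ 2 * T / Real.log T := by
    calc _ ≤ C / Real.log T * (T * E1 R ^ 2) := by gcongr
      _ = _ := by ring
  calc _ ≤ C * E1 R ^ 2 * T / Real.log T + C * T / Real.log T := add_le_add e5 e4
    _ = _ := by ring

end Pool.Agent.ZGap.Res
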