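import Mathlib

/-!
# Alternating Taylor bounds for the sine, and the kernel `2 sin (π c x) / x`
-/

namespace Pool.Agent.ZGap.Res

open MeasureTheory Finset

/-- Taylor polynomial of the sine. -/
noncomputable def sT (n : ℕ) (x : ℝ) : ℝ := ∑ k ∈ range n, (-1) ^ k * x ^ (2 * k + 1) / (2 * k + 1).factorial

/-- Taylor polynomial of the cosine. -/
noncomputable def cT (n : ℕ) (x : ℝ) : ℝ := ∑ k ∈ range n, (-1) ^ k * x ^ (2 * k) / (2 * k).factorial

lemma hasDerivAt_sT (n : ℕ) (x : ℝ) : HasDerivAt (sT n) (cT n x) x := by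
  unfold sT cT
  apply HasDerivAt.fun_sum
  intro k _
  have h1 : HasDerivAt (fun x : ℝ => x ^ (2 * k + 1)) (((2 * k + 1 : ℕ) : ℝ) * x ^ (2 * k)) x := by
    simpa using hasDerivAt_pow (2 * k + 1) x
  have h2 := (h1.const_mul ((-1:ℝ) ^ k)).div_const (((2 * k + 1).factorial : ℕ) : ℝ)
  have h5 : (-1:ℝ) ^ k * (((2 * k + 1 : ℕ) : ℝ) * x ^ (2 * k)) / (((2 * k + 1).factorial : ℕ) : ℝ) =
      (-1:ℝ) ^ k * x ^ (2 * k) / (((2 * k).factorial : ℕ) : ℝ) := by
    rw [Nat.factorial_succ]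
    have h3 : (((2 * k).factorial : ℕ) : ℝ) ≠ 0 := by exact_mod_cast (Nat.factorial_pos _).ne'
    push_cast
    have h4 : (2 * (k:ℝ) + 1) ≠ 0 := by positivity
    field_simp
  rwa [h5] at h2

lemma hasDerivAt_cT (n : ℕ) (x : ℝ) : HasDerivAt (cT (n + 1)) (-(sT n x)) x := by
  have e : cT (n + 1) = fun x : ℝ => (∑ k ∈ range n, (-1:ℝ) ^ (k + 1) * x ^ (2 * (k + 1)) /
      (((2 * (k + 1)).factorial : ℕ) : ℝ)) + 1 := by
    funext y
    unfold cT
    rw [sum_range_succ']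
    simp
  rw [e]
  unfold sT
  rw [← sum_neg_distrib]
  apply HasDerivAt.add_const
  apply HasDerivAt.fun_sum
  intro k _
  have h1 : HasDerivAt (fun x : ℝ => x ^ (2 * (k + 1))) (((2 * (k + 1) : ℕ) : ℝ) * x ^ (2 * k + 1)) x := by
    have := hasDerivAt_pow (2 * (k + 1)) x
    have e2 : 2 * (k + 1) - 1 = 2 * k + 1 := by omega
    rwa [e2] at this
  have h2 := (h1.const_mul ((-1:ℝ) ^ (k + 1))).div_const (((2 * (k + 1)).factorial : ℕ) : ℝ)
  have h5 : (-1:ℝ) ^ (k + 1) * (((2 * (k + 1) : ℕ) : ℝ) * x ^ (2 * k + 1)) /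
      (((2 * (k + 1)).factorial : ℕ) : ℝ) =
      -((-1:ℝ) ^ k * x ^ (2 * k + 1) / (((2 * k + 1).factorial : ℕ) : ℝ)) := by
    have e3 : 2 * (k + 1) = (2 * k + 1) + 1 := by ring
    rw [e3, Nat.factorial_succ]
    have h3 : (((2 * k + 1).factorial : ℕ) : ℝ) ≠ 0 := by exact_mod_cast (Nat.factorial_pos _).ne'
    push_cast
    have h4 : (2 * (k:ℝ) + 1 + 1) ≠ 0 := by positivity
    field_simp
    ring
  rwa [h5] at h2

lemma alt_aux {g g' : ℝ → ℝ} (h : ∀ x, HasDerivAt g (g' x) x) (h0 : 0 ≤ g 0)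
    (hg' : ∀ x, 0 ≤ x → 0 ≤ g' x) {x : ℝ} (hx : 0 ≤ x) : 0 ≤ g x := by
  have hm : MonotoneOn g (Set.Ici 0) := by
    apply monotoneOn_of_deriv_nonneg (convex_Ici 0)
    · exact fun y _ => (h y).continuousAt.continuousWithinAt
    · exact fun y _ => (h y).differentiableAt.differentiableWithinAt
    · intro y hy
      rw [interior_Ici] at hy
      rw [(h y).deriv]
      exact hg' y (le_of_lt hy)
  exact h0.trans (hm Set.self_mem_Ici hx hx)

lemma alt_bounds (n : ℕ) : (∀ x : ℝ, 0 ≤ x → 0 ≤ (-1) ^ (n + 1) * (Real.sin x - sT (n + 1) x)) ∧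
    (∀ x : ℝ, 0 ≤ x → 0 ≤ (-1) ^ (n + 1) * (Real.cos x - cT (n + 1) x)) := by
  have step : ∀ n : ℕ, (∀ x : ℝ, 0 ≤ x → 0 ≤ (-1) ^ (n + 1) * (Real.cos x - cT (n + 1) x)) →
      (∀ x : ℝ, 0 ≤ x → 0 ≤ (-1) ^ (n + 1) * (Real.sin x - sT (n + 1) x)) := by
    intro n h x hx
    refine alt_aux (g := fun x => (-1) ^ (n + 1) * (Real.sin x - sT (n + 1) x))
      (g' := fun x => (-1) ^ (n + 1) * (Real.cos x - cT (n + 1) x)) (fun y => ?_) ?_ h hx
    · exact ((Real.hasDerivAt_sin y).sub (hasDerivAt_sT (n + 1) y)).const_mul _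
    · have : sT (n + 1) 0 = 0 := by
        unfold sT
        apply sum_eq_zero
        intro k _
        simp
      simp [this]
  induction n with
  | zero =>
    have h1 : ∀ x : ℝ, 0 ≤ x → 0 ≤ (-1) ^ (0 + 1) * (Real.cos x - cT (0 + 1) x) := by
      intro x _
      have := Real.cos_le_one x
      simp [cT]
      linarith
    exact ⟨step 0 h1, h1⟩
  | succ n ih =>
    have h1 : ∀ x : ℝ, 0 ≤ x → 0 ≤ (-1) ^ (n + 1 + 1) * (Real.cos x - cT (n + 1 + 1) x) := by
      intro x hx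
      refine alt_aux (g := fun x => (-1) ^ (n + 1 + 1) * (Real.cos x - cT (n + 1 + 1) x))
        (g' := fun x => (-1) ^ (n + 1 + 1) * (-Real.sin x - -(sT (n + 1) x))) (fun y => ?_) ?_
        (fun y hy => ?_) hx
      · exact ((Real.hasDerivAt_cos y).sub (hasDerivAt_cT (n + 1) y)).const_mul _
      · have : cT (n + 1 + 1) 0 = 1 := by
          unfold cT
          rw [sum_range_succ']
          simp
        simp [this]
      · have := ih.1 y hy
        rw [pow_succ]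
        linarith
    exact ⟨step (n + 1) h1, h1⟩

/-- The lower Taylor bound. -/
theorem sT_le_sin (m : ℕ) {x : ℝ} (hx : 0 ≤ x) : sT (2 * m) x ≤ Real.sin x ∨ m = 0 := by
  rcases m with _ | m
  · right; rfl
  · left
    have h := (alt_bounds (2 * m + 1)).1 x hx
    have e : 2 * m + 1 + 1 = 2 * (m + 1) := by ring
    rw [e, pow_mul, neg_one_sq, one_pow, one_mul] at h
    linarith

/-- The kernel. -/
noncomputable def k0 (c x : ℝ) : ℝ := 2 * (Real.pi * c) * Real.sinc (Real.pi * c * x)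

lemma k0_mul {c x : ℝ} : k0 c x * x = 2 * Real.sin (Real.pi * c * x) := by
  unfold k0
  by_cases h : Real.pi * c * x = 0
  · rw [h, Real.sin_zero, Real.sinc_zero]
    linarith
  · rw [Real.sinc_of_ne_zero h]
    have : x ≠ 0 := right_ne_zero_of_mul h
    have : c ≠ 0 := right_ne_zero_of_mul (left_ne_zero_of_mul h)
    have := Real.pi_ne_zero
    field_simp

lemma continuous_k0 (c : ℝ) : Continuous (k0 c) := by
  unfold k0
  have := Real.continuous_sinc
  fun_prop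

lemma abs_k0_le {c : ℝ} (hc : 0 ≤ c) (x : ℝ) : |k0 c x| ≤ 2 * (Real.pi * c) := by
  unfold k0
  have hp := Real.pi_pos
  have : 0 ≤ Real.pi * c := by positivity
  rw [abs_mul, abs_of_nonneg (by positivity : 0 ≤ 2 * (Real.pi * c))]
  have h := Real.abs_sinc_le_one (Real.pi * c * x)
  calc _ ≤ 2 * (Real.pi * c) * 1 := by gcongr
    _ = _ := mul_one _

/-- The polynomial minorant of the kernel. -/
theorem k0_ge {c x : ℝ} (hc : 0 ≤ c) (hx : 0 ≤ x) {m : ℕ} (hm : m ≠ 0) :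
    ∑ k ∈ range (2 * m), 2 * ((-1) ^ k * (Real.pi * c) ^ (2 * k + 1) / (2 * k + 1).factorial) *
      x ^ (2 * k) ≤ k0 c x := by
  have hp := Real.pi_pos
  rcases hx.eq_or_lt with rfl | hx0
  · obtain ⟨n, rfl⟩ := Nat.exists_eq_succ_of_ne_zero hm
    have e : 2 * (n + 1) = (2 * n + 1) + 1 := by ring
    rw [Nat.succ_eq_add_one, e, sum_range_succ']
    have h1 : ∑ k ∈ range (2 * n + 1), 2 * ((-1) ^ (k + 1) * (Real.pi * c) ^ (2 * (k + 1) + 1) /
        (2 * (k + 1) + 1).factorial) * (0:ℝ) ^ (2 * (k + 1)) = 0 := by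
      apply sum_eq_zero
      intro k _
      simp
    rw [h1]
    unfold k0
    simp
  · have h := (sT_le_sin m (x := Real.pi * c * x) (by positivity)).resolve_right hm
    have h2 := k0_mul (c := c) (x := x)
    have h3 : (∑ k ∈ range (2 * m), 2 * ((-1) ^ k * (Real.pi * c) ^ (2 * k + 1) /
        (2 * k + 1).factorial) * x ^ (2 * k)) * x = 2 * sT (2 * m) (Real.pi * c * x) := by
      unfold sT
      rw [sum_mul, mul_sum]
      refine sum_congr rfl fun k _ => ?_
      rw [mul_pow]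
      ring
    by_contra hcon
    rw [not_le] at hcon
    have := mul_lt_mul_of_pos_right hcon hx0
    rw [h2, h3] at this
    linarith

end Pool.Agent.ZGap.Res
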