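import Pool.Agent.ZGap.Res.Hat
import Pool.Agent.ZGap.Res.Taylor

/-!
# Smooth approximations of the indicator of `[-πc, πc]` and their cosine transforms
-/

open scoped ContDiff

namespace Pool.Agent.ZGap.Res

open MeasureTheory Real Set

lemma integral_cos_k0 {c : ℝ} (_hc : 0 < c) (ξ : ℝ) :
    ∫ x in (-(π * c))..(π * c), Real.cos (x * ξ) = k0 c ξ := by
  unfold k0
  by_cases h : ξ = 0
  · rw [h]; simp; ring
  · rw [intervalIntegral.integral_comp_mul_right (fun x => Real.cos x) h, integral_cos]
    rw [neg_mul, Real.sin_neg]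
    by_cases h2 : π * c * ξ = 0
    · rw [h2]; simp
      rcases mul_eq_zero.mp h2 with h3 | h3
      · rcases mul_eq_zero.mp h3 with h4 | h4
        · exact absurd h4 Real.pi_ne_zero
        · exact h4
      · exact absurd h3 h
    · rw [Real.sinc_of_ne_zero h2, smul_eq_mul]
      have h3 : π * c ≠ 0 := left_ne_zero_of_mul h2
      field_simp
      ring

/-- The cosine transform of a bump which is `1` on `[-b,b]` and `0` outside `[-b',b']`. -/
lemma chat_bump_close {g : ℝ → ℝ} (hg : Continuous g) (h0 : ∀ x, 0 ≤ g x) (h1 : ∀ x, g x ≤ 1)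
    {b b' c : ℝ} (hb : 0 < b) (hbc : b ≤ π * c) (hcb : π * c ≤ b')
    (hg1 : ∀ x, |x| ≤ b → g x = 1) (hg0 : ∀ x, b' ≤ |x| → g x = 0) (ξ : ℝ) :
    |chat g ξ - k0 c ξ| ≤ 2 * (b' - b) := by
  have hπc : 0 < π * c := by linarith
  have hc : 0 < c := by
    by_contra hcon
    have := mul_nonpos_of_nonneg_of_nonpos Real.pi_pos.le (not_lt.mp hcon)
    linarith
  -- indicator form
  have e1 : k0 c ξ = ∫ x : ℝ, (Ioc (-(π * c)) (π * c)).indicator (fun _ => (1:ℝ)) x * Real.cos (x * ξ) := by
    rw [← integral_cos_k0 hc, intervalIntegral.integral_of_le (by linarith),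
      ← integral_indicator measurableSet_Ioc]
    refine integral_congr_ae (Filter.Eventually.of_forall fun x => ?_)
    simp only [Set.indicator]
    split_ifs <;> simp
  have hcs : HasCompactSupport g := by
    refine HasCompactSupport.intro (isCompact_Icc (a := -b') (b := b')) fun x hx => ?_
    apply hg0
    by_contra hcon
    exact hx (abs_le.mp (not_le.mp hcon).le)
  have i1 : Integrable (fun x => g x * Real.cos (x * ξ)) := by
    apply Continuous.integrable_of_hasCompactSupport (by fun_prop)
    exact hcs.mul_right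
  have i2 : Integrable (fun x => (Ioc (-(π * c)) (π * c)).indicator (fun _ => (1:ℝ)) x *
      Real.cos (x * ξ)) := by
    have : (fun x => (Ioc (-(π * c)) (π * c)).indicator (fun _ => (1:ℝ)) x * Real.cos (x * ξ)) =
        (Ioc (-(π * c)) (π * c)).indicator (fun x => Real.cos (x * ξ)) := by
      funext x
      simp only [Set.indicator]
      split_ifs <;> simp
    rw [this, integrable_indicator_iff measurableSet_Ioc]
    exact (Continuous.integrableOn_Icc (by fun_prop)).mono_set Ioc_subset_Icc_self
  rw [e1, chat, ← integral_sub i1 i2]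
  -- the difference is supported on `b ≤ |x| ≤ b'`
  have hpt : ∀ x, ‖g x * Real.cos (x * ξ) -
      (Ioc (-(π * c)) (π * c)).indicator (fun _ => (1:ℝ)) x * Real.cos (x * ξ)‖ ≤
      (Icc (-b') (-b)).indicator (fun _ => (1:ℝ)) x + (Icc b b').indicator (fun _ => (1:ℝ)) x := by
    intro x
    have hn1 : 0 ≤ (Icc (-b') (-b)).indicator (fun _ => (1:ℝ)) x :=
      Set.indicator_nonneg (fun _ _ => zero_le_one) x
    have hn2 : 0 ≤ (Icc b b').indicator (fun _ => (1:ℝ)) x :=
      Set.indicator_nonneg (fun _ _ => zero_le_one) x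
    rw [← sub_mul, norm_mul, Real.norm_eq_abs, Real.norm_eq_abs]
    by_cases hx1 : |x| < b
    · have h2 := abs_lt.mp hx1
      rw [hg1 x hx1.le, Set.indicator_of_mem (show x ∈ Ioc (-(π * c)) (π * c) from
        ⟨by linarith [h2.1], by linarith [h2.2]⟩), sub_self, abs_zero, zero_mul]
      linarith
    · by_cases hx2 : b' < |x|
      · have hnm : x ∉ Ioc (-(π * c)) (π * c) := by
          intro h
          have : |x| ≤ π * c := abs_le.mpr ⟨h.1.le, h.2⟩
          linarith
        rw [hg0 x hx2.le, Set.indicator_of_notMem hnm, sub_self, abs_zero, zero_mul]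
        linarith
      · have hle : |g x - (Ioc (-(π * c)) (π * c)).indicator (fun _ => (1:ℝ)) x| *
            |Real.cos (x * ξ)| ≤ 1 := by
          have a1 : |g x - (Ioc (-(π * c)) (π * c)).indicator (fun _ => (1:ℝ)) x| ≤ 1 := by
            have := h0 x
            have := h1 x
            by_cases hm : x ∈ Ioc (-(π * c)) (π * c)
            · rw [Set.indicator_of_mem hm, abs_le]
              constructor <;> linarith
            · rw [Set.indicator_of_notMem hm, abs_le]
              constructor <;> linarith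
          exact mul_le_one₀ a1 (abs_nonneg _) (Real.abs_cos_le_one _)
        refine hle.trans ?_
        rcases le_total 0 x with hx0 | hx0
        · rw [abs_of_nonneg hx0] at hx1 hx2
          rw [Set.indicator_of_mem (s := Icc b b') (show x ∈ Icc b b' from
            ⟨not_lt.mp hx1, not_lt.mp hx2⟩)]
          linarith
        · rw [abs_of_nonpos hx0] at hx1 hx2
          rw [Set.indicator_of_mem (s := Icc (-b') (-b)) (show x ∈ Icc (-b') (-b) from
            ⟨by linarith [not_lt.mp hx2], by linarith [not_lt.mp hx1]⟩)]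
          linarith
  have i3 : Integrable ((Icc (-b') (-b)).indicator (fun _ => (1:ℝ))) :=
    (integrable_indicator_iff measurableSet_Icc).mpr (integrableOn_const (by
      rw [Real.volume_Icc]; exact ENNReal.ofReal_ne_top))
  have i4 : Integrable ((Icc b b').indicator (fun _ => (1:ℝ))) :=
    (integrable_indicator_iff measurableSet_Icc).mpr (integrableOn_const (by
      rw [Real.volume_Icc]; exact ENNReal.ofReal_ne_top))
  rw [← Real.norm_eq_abs]
  refine (norm_integral_le_integral_norm _).trans ?_
  calc _ ≤ ∫ x : ℝ, ((Icc (-b') (-b)).indicator (fun _ => (1:ℝ)) x +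
        (Icc b b').indicator (fun _ => (1:ℝ)) x) :=
        integral_mono_of_nonneg (Filter.Eventually.of_forall fun x => norm_nonneg _) (i3.add i4)
          (Filter.Eventually.of_forall hpt)
    _ = 2 * (b' - b) := by
        rw [integral_add i3 i4, integral_indicator measurableSet_Icc,
          integral_indicator measurableSet_Icc, setIntegral_const, setIntegral_const,
          Real.volume_real_Icc, Real.volume_real_Icc, max_eq_left (by linarith),
          max_eq_left (by linarith)]
        simp only [smul_eq_mul]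
        ring

/-- Lipschitz bound and size of the cosine transform of a bump. -/
lemma chat_bump_lip {g : ℝ → ℝ} (hg : Continuous g) (h0 : ∀ x, 0 ≤ g x) (h1 : ∀ x, g x ≤ 1)
    {b' : ℝ} (hb' : 0 < b') (hg0 : ∀ x, b' ≤ |x| → g x = 0) :
    (∀ x y, |chat g x - chat g y| ≤ 2 * b' ^ 2 * |x - y|) ∧ ∀ x, |chat g x| ≤ 2 * b' := by
  have hcs : HasCompactSupport g := by
    refine HasCompactSupport.intro (isCompact_Icc (a := -b') (b := b')) fun x hx => ?_
    apply hg0
    by_contra hcon
    exact hx (abs_le.mp (not_le.mp hcon).le)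
  have i1 : ∀ ξ, Integrable (fun x => g x * Real.cos (x * ξ)) := fun ξ => by
    apply Continuous.integrable_of_hasCompactSupport (by fun_prop)
    exact hcs.mul_right
  have i4 : Integrable ((Icc (-b') b').indicator (fun _ => (1:ℝ))) :=
    (integrable_indicator_iff measurableSet_Icc).mpr (integrableOn_const (by
      rw [Real.volume_Icc]; exact ENNReal.ofReal_ne_top))
  have hval : ∫ x : ℝ, (Icc (-b') b').indicator (fun _ => (1:ℝ)) x = 2 * b' := by
    rw [integral_indicator measurableSet_Icc, setIntegral_const, Real.volume_real_Icc,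
      max_eq_left (by linarith)]
    simp only [smul_eq_mul]
    ring
  have hgi : ∀ x, g x ≤ (Icc (-b') b').indicator (fun _ => (1:ℝ)) x := by
    intro x
    by_cases hx : x ∈ Icc (-b') b'
    · rw [Set.indicator_of_mem hx]; exact h1 x
    · rw [Set.indicator_of_notMem hx, hg0]
      by_contra hcon
      exact hx (abs_le.mp (not_le.mp hcon).le)
  constructor
  · intro ξ η
    unfold chat
    rw [← integral_sub (i1 ξ) (i1 η), ← Real.norm_eq_abs]
    refine (norm_integral_le_integral_norm _).trans ?_
    calc _ ≤ ∫ x : ℝ, (b' * |ξ - η|) * (Icc (-b') b').indicator (fun _ => (1:ℝ)) x := by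
          apply integral_mono_of_nonneg (Filter.Eventually.of_forall fun x => norm_nonneg _)
            (i4.const_mul _)
          refine Filter.Eventually.of_forall fun x => ?_
          simp only
          rw [← mul_sub, norm_mul, Real.norm_eq_abs, Real.norm_eq_abs, abs_of_nonneg (h0 x)]
          by_cases hx : |x| < b'
          · have e1 : |Real.cos (x * ξ) - Real.cos (x * η)| ≤ b' * |ξ - η| := by
              have e2 : |Real.cos (x * ξ) - Real.cos (x * η)| ≤ |x * ξ - x * η| := by
                have := Real.abs_cos_sub_cos_le (x * ξ) (x * η)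
                exact this
              refine e2.trans ?_
              rw [← mul_sub, abs_mul]
              exact mul_le_mul_of_nonneg_right hx.le (abs_nonneg _)
            calc g x * _ ≤ g x * (b' * |ξ - η|) := mul_le_mul_of_nonneg_left e1 (h0 x)
              _ ≤ _ := by
                rw [mul_comm]
                exact mul_le_mul_of_nonneg_left (hgi x) (by positivity)
          · rw [hg0 x (not_lt.mp hx), zero_mul]
            exact mul_nonneg (by positivity) (Set.indicator_nonneg (fun _ _ => zero_le_one) x)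
      _ = _ := by
          rw [integral_const_mul, hval]; ring
  · intro ξ
    unfold chat
    rw [← Real.norm_eq_abs]
    refine (norm_integral_le_integral_norm _).trans ?_
    calc _ ≤ ∫ x : ℝ, (Icc (-b') b').indicator (fun _ => (1:ℝ)) x := by
          apply integral_mono_of_nonneg (Filter.Eventually.of_forall fun x => norm_nonneg _) i4
          refine Filter.Eventually.of_forall fun x => ?_
          simp only
          rw [norm_mul, Real.norm_eq_abs, Real.norm_eq_abs, abs_of_nonneg (h0 x)]
          exact (mul_le_of_le_one_right (h0 x) (Real.abs_cos_le_one _)).trans (hgi x)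
      _ = _ := hval

/-- **Minorant bump.** -/
theorem exists_minorant {c e : ℝ} (hc : 0 < c) (he : 0 < e) : ∃ ψ : ℝ → ℝ, RS ψ ∧
    (∀ x, 0 ≤ ψ x) ∧ (∀ x, ψ x ≤ 1) ∧ (∀ x, π * c ≤ |x| → ψ x = 0) ∧
    (∃ K M : ℝ, 0 ≤ K ∧ (∀ x y, |chat ψ x - chat ψ y| ≤ K * |x - y|) ∧ ∀ x, |chat ψ x| ≤ M) ∧
    ∀ x, |chat ψ x - k0 c x| ≤ e := by
  have hpi := Real.pi_pos
  have hπc : 0 < π * c := by positivity
  set b := max (π * c - e / 2) (π * c / 2) with hb
  have hb0 : 0 < b := lt_of_lt_of_le (by positivity) (le_max_right _ _)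
  have hb1 : b < π * c := max_lt (by linarith) (by linarith)
  let χ : ContDiffBump (0:ℝ) := ⟨b, π * c, hb0, hb1⟩
  have h1 : ∀ x, |x| ≤ b → χ x = 1 := fun x hx => by
    apply χ.one_of_mem_closedBall
    simp only [Metric.mem_closedBall, dist_zero_right, Real.norm_eq_abs]
    exact hx
  have h0 : ∀ x, π * c ≤ |x| → χ x = 0 := fun x hx => by
    have : x ∉ Function.support χ := by
      rw [χ.support_eq]
      simp only [Metric.mem_ball, dist_zero_right, Real.norm_eq_abs, not_lt]
      exact hx
    simpa [Function.mem_support] using this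
  have hχc : Continuous χ := χ.continuous
  obtain ⟨hl, hM⟩ := chat_bump_lip hχc (fun x => χ.nonneg) (fun x => χ.le_one) hπc h0
  refine ⟨χ, RS.of_compact χ.contDiff χ.hasCompactSupport (fun x => χ.neg x), fun x => χ.nonneg,
    fun x => χ.le_one, h0, ⟨_, _, by positivity, hl, hM⟩, fun x => ?_⟩
  refine (chat_bump_close hχc (fun x => χ.nonneg) (fun x => χ.le_one) hb0 hb1.le le_rfl h1 h0
    x).trans ?_
  have := le_max_left (π * c - e / 2) (π * c / 2)
  rw [← hb] at this
  linarith

/-- **Majorant bump.** -/
theorem exists_majorant {c e : ℝ} (hc : 0 < c) (he : 0 < e) : ∃ ψ : ℝ → ℝ, RS ψ ∧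
    (∀ x, 0 ≤ ψ x) ∧ (∀ x, ψ x ≤ 1) ∧ (∀ x, |x| ≤ π * c → ψ x = 1) ∧
    (∀ x, π * c + e / 2 ≤ |x| → ψ x = 0) ∧
    (∃ K M : ℝ, 0 ≤ K ∧ (∀ x y, |chat ψ x - chat ψ y| ≤ K * |x - y|) ∧ ∀ x, |chat ψ x| ≤ M) ∧
    ∀ x, |chat ψ x - k0 c x| ≤ e := by
  have hpi := Real.pi_pos
  have hπc : 0 < π * c := by positivity
  set b := π * c + e / 2 with hb
  have hb1 : π * c < b := by rw [hb]; linarith
  let χ : ContDiffBump (0:ℝ) := ⟨π * c, b, hπc, hb1⟩
  have h1 : ∀ x, |x| ≤ π * c → χ x = 1 := fun x hx => by
    apply χ.one_of_mem_closedBall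
    simp only [Metric.mem_closedBall, dist_zero_right, Real.norm_eq_abs]
    exact hx
  have h0 : ∀ x, b ≤ |x| → χ x = 0 := fun x hx => by
    have : x ∉ Function.support χ := by
      rw [χ.support_eq]
      simp only [Metric.mem_ball, dist_zero_right, Real.norm_eq_abs, not_lt]
      exact hx
    simpa [Function.mem_support] using this
  have hχc : Continuous χ := χ.continuous
  obtain ⟨hl, hM⟩ := chat_bump_lip hχc (fun x => χ.nonneg) (fun x => χ.le_one) (by linarith) h0
  refine ⟨χ, RS.of_compact χ.contDiff χ.hasCompactSupport (fun x => χ.neg x), fun x => χ.nonneg,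
    fun x => χ.le_one, h1, h0, ⟨_, _, by positivity, hl, hM⟩, fun x => ?_⟩
  refine (chat_bump_close hχc (fun x => χ.nonneg) (fun x => χ.le_one) hπc le_rfl hb1.le h1 h0
    x).trans ?_
  rw [hb]
  linarith

end Pool.Agent.ZGap.Res
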