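import Pool.Agent.ZGap.Res.Prime

/-!
# Bounds for the off-diagonal corrections
-/

namespace Pool.Agent.ZGap.Res

open MeasureTheory Finset

variable {R : ResData} {T : ℝ}

/-- The weight `∏ c_p²`. -/
noncomputable def mu (R : ResData) (T : ℝ) (S : Finset ℕ) : ℝ := ∏ p ∈ S, cc R T p ^ 2

/-- The total weight. -/
noncomputable def E0 (R : ResData) (T : ℝ) : ℝ := ∑ S ∈ (PP T).powerset, mu R T S

lemma mu_nonneg (S : Finset ℕ) : 0 ≤ mu R T S := prod_nonneg fun _ _ => sq_nonneg _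

lemma mu_empty : mu R T ∅ = 1 := prod_empty

lemma mu_insert {p : ℕ} {S : Finset ℕ} (h : p ∉ S) : mu R T (insert p S) = cc R T p ^ 2 * mu R T S :=
  prod_insert h

lemma E0_nonneg : 0 ≤ E0 R T := sum_nonneg fun _ _ => mu_nonneg _

lemma one_le_E0 : 1 ≤ E0 R T := by
  unfold E0
  calc (1:ℝ) = mu R T ∅ := mu_empty.symm
    _ ≤ _ := single_le_sum (f := fun S => mu R T S) (fun _ _ => mu_nonneg _) (empty_mem_powerset _)

lemma E0_le_exp : E0 R T ≤ Real.exp (∑ p ∈ PP T, cc R T p ^ 2) := by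
  unfold E0 mu
  rw [← prod_one_add, Real.exp_sum]
  refine prod_le_prod (fun p _ => by positivity) fun p _ => ?_
  have := Real.add_one_le_exp (cc R T p ^ 2)
  linarith

lemma arg_nonneg (hT : 1 < T) (S : Finset ℕ) : 0 ≤ ell S / (R.th * Real.log T) := by
  have hL : 0 < Real.log T := Real.log_pos hT
  have hth : 0 < R.th := by linarith [R.ep_pos, R.ep_th]
  exact div_nonneg (ell_nonneg S) (by positivity)

lemma abs_aa_le (hT : 1 < T) (hF : ∀ x, 0 ≤ x → R.F x ≤ 1) (S : Finset ℕ) :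
    |aa R T S| ≤ ∏ p ∈ S, |cc R T p| := by
  unfold aa
  rw [abs_mul, abs_prod, abs_of_nonneg (R.F_nonneg _)]
  exact mul_le_of_le_one_left (prod_nonneg fun _ _ => abs_nonneg _) (hF _ (arg_nonneg hT S))

lemma prod_abs_sq (S : Finset ℕ) : (∏ p ∈ S, |cc R T p|) ^ 2 = mu R T S := by
  unfold mu
  rw [← prod_pow]
  exact prod_congr rfl fun p _ => sq_abs _

lemma aa_sq_le (hT : 1 < T) (hF : ∀ x, 0 ≤ x → R.F x ≤ 1) (S : Finset ℕ) :
    aa R T S ^ 2 ≤ mu R T S := by
  rw [← prod_abs_sq, ← sq_abs]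
  exact pow_le_pow_left₀ (abs_nonneg _) (abs_aa_le hT hF S) 2

lemma aa_insert_mul_le (hT : 1 < T) (hF : ∀ x, 0 ≤ x → R.F x ≤ 1) {p : ℕ} {S : Finset ℕ}
    (h : p ∉ S) : |aa R T (insert p S) * aa R T S| ≤ |cc R T p| * mu R T S := by
  rw [abs_mul]
  calc _ ≤ (∏ q ∈ insert p S, |cc R T q|) * ∏ q ∈ S, |cc R T q| :=
        mul_le_mul (abs_aa_le hT hF _) (abs_aa_le hT hF _) (abs_nonneg _)
          (prod_nonneg fun _ _ => abs_nonneg _)
    _ = _ := by rw [prod_insert h, mul_assoc, ← sq, prod_abs_sq]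

/-- Summing `mu` over the sets containing `q`. -/
lemma sum_mu_mem_le {q : ℕ} (hq : q ∈ PP T) :
    ∑ S ∈ (PP T).powerset, (if q ∈ S then mu R T S else 0) ≤ cc R T q ^ 2 * E0 R T := by
  classical
  rw [← sum_filter]
  have h1 : ∑ S ∈ (PP T).powerset.filter (fun S => q ∈ S), mu R T S =
      ∑ S ∈ (PP T).powerset.filter (fun S => q ∉ S), cc R T q ^ 2 * mu R T S := by
    refine sum_bij' (fun S _ => S.erase q) (fun S _ => insert q S) ?_ ?_ ?_ ?_ ?_
    · intro S hS
      rw [mem_filter, mem_powerset] at hS ⊢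
      exact ⟨(erase_subset _ _).trans hS.1, notMem_erase _ _⟩
    · intro S hS
      rw [mem_filter, mem_powerset] at hS ⊢
      refine ⟨?_, mem_insert_self _ _⟩
      intro x hx
      rcases mem_insert.mp hx with h | h
      · rw [h]; exact hq
      · exact hS.1 h
    · intro S hS
      rw [mem_filter] at hS
      exact insert_erase hS.2
    · intro S hS
      rw [mem_filter] at hS
      exact erase_insert hS.2
    · intro S hS
      rw [mem_filter] at hS
      rw [← mu_insert (notMem_erase q S), insert_erase hS.2]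
  rw [h1, ← mul_sum]
  apply mul_le_mul_of_nonneg_left _ (sq_nonneg _)
  exact sum_le_sum_of_subset_of_nonneg (filter_subset _ _) fun _ _ _ => mu_nonneg _

/-- `D = ∑ a_U²`. -/
noncomputable def DD (R : ResData) (T : ℝ) : ℝ := ∑ U ∈ (PP T).powerset, aa R T U ^ 2

/-- `N_p = ∑_{U ∌ p} a_{U ∪ p} a_U`. -/
noncomputable def NN (R : ResData) (T : ℝ) (p : ℕ) : ℝ :=
  ∑ U ∈ (PP T).powerset.filter (fun U => p ∉ U), aa R T (insert p U) * aa R T U

lemma DD_nonneg : 0 ≤ DD R T := sum_nonneg fun _ _ => sq_nonneg _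

lemma DD_le_E0 (hT : 1 < T) (hF : ∀ x, 0 ≤ x → R.F x ≤ 1) : DD R T ≤ E0 R T :=
  sum_le_sum fun _ _ => aa_sq_le hT hF _

lemma aa_empty : aa R T ∅ = R.F 0 := by
  unfold aa ell
  simp

lemma sum_filter_QQ (P : Finset ℕ × Finset ℕ → Prop) [DecidablePred P]
    (g : Finset ℕ × Finset ℕ → ℝ) :
    ∑ q ∈ (QQ T).filter P, g q = ∑ q ∈ (PP T).powerset ×ˢ (PP T).powerset,
      if Disjoint q.1 q.2 ∧ P q then g q else 0 := by
  unfold QQ
  rw [filter_filter, sum_filter]

/-- The product approximation. -/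
lemma abs_BB_sub_le (hT : 1 < T) (hF : ∀ x, 0 ≤ x → R.F x ≤ 1) {p : ℕ} (hp : p ∈ PP T) :
    |NN R T p * DD R T - BB R T p| ≤
      |cc R T p| * E0 R T ^ 2 * (∑ q ∈ PP T, cc R T q ^ 4 + cc R T p ^ 2) := by
  classical
  set pw := (PP T).powerset with hpw
  have e1 : NN R T p * DD R T = ∑ q ∈ pw ×ˢ pw,
      if p ∉ q.1 then aa R T (insert p q.1) * aa R T q.1 * aa R T q.2 ^ 2 else 0 := by
    unfold NN DD
    rw [sum_filter, sum_product, sum_mul_sum]
    refine sum_congr rfl fun U _ => sum_congr rfl fun U' _ => ?_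
    split_ifs <;> ring
  have e2 : BB R T p = ∑ q ∈ pw ×ˢ pw, if Disjoint q.1 q.2 ∧ (p ∉ q.1 ∧ p ∉ q.2) then
      aa R T (insert p q.1) * aa R T q.1 * aa R T q.2 ^ 2 else 0 := by
    unfold BB
    rw [sum_filter_QQ]
  rw [e1, e2, ← sum_sub_distrib]
  have key : ∀ q ∈ pw ×ˢ pw,
      |(if p ∉ q.1 then aa R T (insert p q.1) * aa R T q.1 * aa R T q.2 ^ 2 else 0) -
        (if Disjoint q.1 q.2 ∧ (p ∉ q.1 ∧ p ∉ q.2) then
      aa R T (insert p q.1) * aa R T q.1 * aa R T q.2 ^ 2 else 0)| ≤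
      |cc R T p| * (∑ l ∈ PP T, (if l ∈ q.1 then mu R T q.1 else 0) *
        (if l ∈ q.2 then mu R T q.2 else 0) + mu R T q.1 * (if p ∈ q.2 then mu R T q.2 else 0)) := by
    intro q hq
    rw [mem_product, hpw, mem_powerset, mem_powerset] at hq
    have hnn : 0 ≤ ∑ l ∈ PP T, (if l ∈ q.1 then mu R T q.1 else 0) *
        (if l ∈ q.2 then mu R T q.2 else 0) := by
      refine sum_nonneg fun l _ => mul_nonneg ?_ ?_
      · split_ifs; exacts [mu_nonneg _, le_rfl]
      · split_ifs; exacts [mu_nonneg _, le_rfl]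
    have hnn2 : 0 ≤ mu R T q.1 * (if p ∈ q.2 then mu R T q.2 else 0) := by
      refine mul_nonneg (mu_nonneg _) ?_
      split_ifs; exacts [mu_nonneg _, le_rfl]
    have hrhs : 0 ≤ |cc R T p| * (∑ l ∈ PP T, (if l ∈ q.1 then mu R T q.1 else 0) *
        (if l ∈ q.2 then mu R T q.2 else 0) +
        mu R T q.1 * (if p ∈ q.2 then mu R T q.2 else 0)) :=
      mul_nonneg (abs_nonneg _) (by linarith)
    by_cases c1 : p ∉ q.1
    · rw [if_pos c1]
      by_cases c2 : Disjoint q.1 q.2 ∧ (p ∉ q.1 ∧ p ∉ q.2)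
      · rw [if_pos c2, sub_self, abs_zero]; exact hrhs
      · rw [if_neg c2, sub_zero, abs_mul]
        have h1 := aa_insert_mul_le hT hF c1
        have h2 : |aa R T q.2 ^ 2| ≤ mu R T q.2 := by
          rw [abs_of_nonneg (sq_nonneg _)]; exact aa_sq_le hT hF _
        have h3 : |aa R T (insert p q.1) * aa R T q.1| * |aa R T q.2 ^ 2| ≤
            |cc R T p| * mu R T q.1 * mu R T q.2 :=
          mul_le_mul h1 h2 (abs_nonneg _) (mul_nonneg (abs_nonneg _) (mu_nonneg _))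
        refine h3.trans ?_
        rw [mul_assoc]
        apply mul_le_mul_of_nonneg_left _ (abs_nonneg _)
        by_cases c3 : p ∈ q.2
        · rw [if_pos c3]; linarith
        · have c4 : ¬ Disjoint q.1 q.2 := fun h => c2 ⟨h, c1, c3⟩
          rw [not_disjoint_iff] at c4
          obtain ⟨l, hl1, hl2⟩ := c4
          have h4 : (if l ∈ q.1 then mu R T q.1 else 0) * (if l ∈ q.2 then mu R T q.2 else 0) ≤
              ∑ l ∈ PP T, (if l ∈ q.1 then mu R T q.1 else 0) *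
              (if l ∈ q.2 then mu R T q.2 else 0) := by
            apply single_le_sum (f := fun l => (if l ∈ q.1 then mu R T q.1 else 0) *
              (if l ∈ q.2 then mu R T q.2 else 0)) _ (hq.1 hl1)
            intro l _
            refine mul_nonneg ?_ ?_
            · split_ifs; exacts [mu_nonneg _, le_rfl]
            · split_ifs; exacts [mu_nonneg _, le_rfl]
          rw [if_pos hl1, if_pos hl2] at h4
          linarith
    · have c2 : ¬ (Disjoint q.1 q.2 ∧ (p ∉ q.1 ∧ p ∉ q.2)) := fun h => c1 h.2.1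
      rw [if_neg c1, if_neg c2, sub_self, abs_zero]; exact hrhs
  refine (abs_sum_le_sum_abs _ _).trans ((sum_le_sum key).trans ?_)
  rw [← mul_sum, mul_assoc]
  apply mul_le_mul_of_nonneg_left _ (abs_nonneg _)
  rw [sum_add_distrib]
  have b1 : ∑ q ∈ pw ×ˢ pw, ∑ l ∈ PP T, (if l ∈ q.1 then mu R T q.1 else 0) *
        (if l ∈ q.2 then mu R T q.2 else 0) ≤ E0 R T ^ 2 * ∑ q ∈ PP T, cc R T q ^ 4 := by
    rw [sum_comm, mul_sum]
    refine sum_le_sum fun l hl => ?_
    rw [sum_product]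
    have := sum_mul_sum pw pw (fun U => if l ∈ U then mu R T U else 0)
      (fun U => if l ∈ U then mu R T U else 0)
    rw [← this]
    have h1 := sum_mu_mem_le (R := R) hl
    have h0 : 0 ≤ ∑ S ∈ (PP T).powerset, (if l ∈ S then mu R T S else 0) :=
      sum_nonneg fun S _ => by split_ifs; exacts [mu_nonneg _, le_rfl]
    calc _ ≤ (cc R T l ^ 2 * E0 R T) * (cc R T l ^ 2 * E0 R T) :=
          mul_le_mul h1 h1 h0 (mul_nonneg (sq_nonneg _) E0_nonneg)
      _ = _ := by ring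
  have b2 : ∑ q ∈ pw ×ˢ pw, mu R T q.1 * (if p ∈ q.2 then mu R T q.2 else 0) ≤
      E0 R T ^ 2 * cc R T p ^ 2 := by
    rw [sum_product]
    have := sum_mul_sum pw pw (fun U => mu R T U) (fun U => if p ∈ U then mu R T U else 0)
    rw [← this]
    have h1 := sum_mu_mem_le (R := R) hp
    calc _ ≤ E0 R T * (cc R T p ^ 2 * E0 R T) := mul_le_mul_of_nonneg_left h1 E0_nonneg
      _ = _ := by ring
  calc _ ≤ E0 R T ^ 2 * ∑ q ∈ PP T, cc R T q ^ 4 + E0 R T ^ 2 * cc R T p ^ 2 := add_le_add b1 b2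
    _ = _ := by ring

/-- `Sig ≤ D²`. -/
lemma Sig_le : Sig R T ≤ DD R T ^ 2 := by
  unfold Sig
  have : DD R T ^ 2 = ∑ q ∈ (PP T).powerset ×ˢ (PP T).powerset, al R T q ^ 2 := by
    unfold DD al
    rw [sq, sum_mul_sum, sum_product]
    exact sum_congr rfl fun _ _ => sum_congr rfl fun _ _ => by ring
  rw [this]
  unfold QQ
  exact sum_le_sum_of_subset_of_nonneg (filter_subset _ _) fun _ _ _ => sq_nonneg _

lemma le_Sig : R.F 0 ^ 4 ≤ Sig R T := by
  unfold Sig
  have hm : ((∅ : Finset ℕ), (∅ : Finset ℕ)) ∈ QQ T := by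
    rw [mem_QQ]
    exact ⟨empty_subset _, empty_subset _, disjoint_empty_left _⟩
  have h := single_le_sum (f := fun q => al R T q ^ 2) (fun _ _ => sq_nonneg _) hm
  have e : al R T ((∅ : Finset ℕ), (∅ : Finset ℕ)) ^ 2 = R.F 0 ^ 4 := by
    unfold al
    simp only [aa_empty]
    ring
  rw [← e]
  exact h

/-- The coefficient at `p²`. -/
lemma abs_CC_sq_le (hT : 1 < T) (hF : ∀ x, 0 ≤ x → R.F x ≤ 1) {p : ℕ} (hp : p ∈ PP T) :
    |CC R T (p ^ 2)| ≤ cc R T p ^ 2 * E0 R T ^ 2 := by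
  classical
  have hpp := (mem_PP.mp hp).1
  rw [CC_sq R hpp]
  refine (abs_sum_le_sum_abs _ _).trans ?_
  have key : ∀ q ∈ (QQ T).filter (fun q => p ∈ q.1),
      |al R T q * al R T (q.1.erase p, insert p q.2)| ≤
        (if p ∈ q.1 then mu R T q.1 else 0) * mu R T q.2 := by
    intro q hq
    rw [mem_filter, mem_QQ] at hq
    obtain ⟨⟨h1, h2, h3⟩, h4⟩ := hq
    have h5 : p ∉ q.2 := disjoint_left.mp h3 h4
    rw [if_pos h4]
    have e1 : al R T q * al R T (q.1.erase p, insert p q.2) =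
        (aa R T (insert p (q.1.erase p)) * aa R T (q.1.erase p)) *
          (aa R T (insert p q.2) * aa R T q.2) := by
      rw [insert_erase h4]
      simp only [al]
      ring
    rw [e1, abs_mul]
    have h6 := aa_insert_mul_le hT hF (notMem_erase p q.1)
    have h7 := aa_insert_mul_le hT hF h5
    calc _ ≤ (|cc R T p| * mu R T (q.1.erase p)) * (|cc R T p| * mu R T q.2) :=
          mul_le_mul h6 h7 (abs_nonneg _) (mul_nonneg (abs_nonneg _) (mu_nonneg _))
      _ = (|cc R T p| ^ 2 * mu R T (q.1.erase p)) * mu R T q.2 := by ring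
      _ = _ := by rw [sq_abs, ← mu_insert (notMem_erase p q.1), insert_erase h4]
  refine (sum_le_sum key).trans ?_
  have h8 : ∑ q ∈ (QQ T).filter (fun q => p ∈ q.1), (if p ∈ q.1 then mu R T q.1 else 0) * mu R T q.2 ≤
      ∑ q ∈ (PP T).powerset ×ˢ (PP T).powerset, (if p ∈ q.1 then mu R T q.1 else 0) * mu R T q.2 := by
    refine sum_le_sum_of_subset_of_nonneg ?_ fun q _ _ => ?_
    · exact (filter_subset _ _).trans (filter_subset _ _)
    · refine mul_nonneg ?_ (mu_nonneg _)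
      split_ifs; exacts [mu_nonneg _, le_rfl]
  refine h8.trans ?_
  rw [sum_product]
  have := sum_mul_sum (PP T).powerset (PP T).powerset (fun U => if p ∈ U then mu R T U else 0)
    (fun U => mu R T U)
  rw [← this]
  have h1 := sum_mu_mem_le (R := R) hp
  calc _ ≤ (cc R T p ^ 2 * E0 R T) * E0 R T := mul_le_mul_of_nonneg_right h1 E0_nonneg
    _ = _ := by ring

end Pool.Agent.ZGap.Res
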