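import Pool.Agent.ZGap.Res.D2
import Pool.Agent.ZGap.Res.Defs
import Pool.Agent.ZGap.CEF.Laplace
import Pool.Agent.ZGap.CEF.Arch

/-!
# (d3) The prime sum of the resonator is controlled by the local count
-/

open scoped ContDiff

namespace Pool.Agent.ZGap.Res.FM

open MeasureTheory Real Set ArithmeticFunction Pool.Agent.Hadamard Pool.Agent.DirPoly
open Pool.Agent.ZGap.CEF

/-- The prime sum `∑ cc p p^{-it}`. -/
noncomputable def Pr (R : ResData) (T t : ℝ) : ℂ :=
  ∑ p ∈ PP T, (cc R T p : ℂ) * Complex.exp (((-(t * Real.log p) : ℝ) : ℂ) * Complex.I)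

/-- `f(u)/u`. -/
noncomputable def b1 (R : ResData) (u : ℝ) : ℝ := R.f u * u⁻¹

lemma b1_zero_of_neg (R : ResData) {v : ℝ} (hv : v ≤ R.ep) : b1 R v = 0 := by
  unfold b1
  rw [R.f_low v hv, zero_mul]

/-- upper end of the support. -/
noncomputable def hi (R : ResData) : ℝ := (R.th + 1 / 2) / 2

lemma hi_lt (R : ResData) : hi R < 1 / 2 := by unfold hi; linarith [R.th_lt]

lemma hi_pos (R : ResData) : 0 < hi R := by
  unfold hi; linarith [R.ep_pos, R.ep_th]

lemma b1_zero_of_hi (R : ResData) {v : ℝ} (hv : hi R ≤ v) : b1 R v = 0 := by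
  unfold b1
  rw [R.f_high v hv, zero_mul]

lemma b1_smooth (R : ResData) : ContDiff ℝ 4 (b1 R) := by
  rw [contDiff_iff_contDiffAt]
  intro u
  rcases lt_or_ge u R.ep with h | h
  · have hev : b1 R =ᶠ[nhds u] fun _ => (0:ℝ) := by
      filter_upwards [isOpen_Iio.mem_nhds h] with x hx
      exact b1_zero_of_neg R (le_of_lt hx)
    exact contDiffAt_const.congr_of_eventuallyEq hev
  · have hu : u ≠ 0 := by linarith [R.ep_pos]
    have h0 : ContDiff ℝ 4 R.f := by exact_mod_cast contDiff_infty.mp R.f_smooth 4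
    have h1 : ContDiffAt ℝ 4 R.f u := h0.contDiffAt
    exact h1.mul (contDiffAt_inv ℝ hu)

/-- The test function. -/
noncomputable def gg (R : ResData) (L : ℝ) (y : ℝ) : ℂ := ((b1 R (y / L) * Real.exp y : ℝ) : ℂ)

lemma gg_continuous (R : ResData) (L : ℝ) : Continuous (gg R L) := by
  have h := (b1_smooth R).continuous
  unfold gg
  fun_prop

lemma hh_gg (R : ResData) {L : ℝ} (hL : 0 < L) (u : ℝ) :
    hh (gg R L) u = L * bt (b1 R) ((L : ℂ) * (1 - u * Complex.I)) := by
  have h := Measure.integral_comp_div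
    (fun v : ℝ => (b1 R v : ℂ) * Complex.exp (((L : ℂ) * (1 - u * Complex.I)) * v)) L
  rw [abs_of_pos hL, Complex.real_smul] at h
  rw [bt, ← h, hh]
  refine integral_congr_ae (Filter.Eventually.of_forall fun y => ?_)
  simp only [gg]
  have hL' : (L : ℂ) ≠ 0 := by exact_mod_cast hL.ne'
  have e1 : (L : ℂ) * (1 - u * Complex.I) * ((y / L : ℝ) : ℂ) = (y : ℂ) + ((-(u * y) : ℝ) : ℂ) * Complex.I := by
    push_cast
    field_simp
    ring
  rw [e1, Complex.exp_add]
  push_cast
  ring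

lemma ff_gg (R : ResData) {L : ℝ} (hL : 0 < L) (x : ℝ) :
    ff (gg R L) x = L * bt (b1 R) (-((L * x : ℝ) : ℂ) * Complex.I) := by
  have h := Measure.integral_comp_div
    (fun v : ℝ => (b1 R v : ℂ) * Complex.exp ((-((L * x : ℝ) : ℂ) * Complex.I) * v)) L
  rw [abs_of_pos hL, Complex.real_smul] at h
  rw [bt, ← h, ff]
  refine integral_congr_ae (Filter.Eventually.of_forall fun y => ?_)
  simp only [gg]
  have hL' : (L : ℂ) ≠ 0 := by exact_mod_cast hL.ne'
  have e1 : (-((L * x : ℝ) : ℂ) * Complex.I) * ((y / L : ℝ) : ℂ) = (y : ℂ) + (-(1 + x * Complex.I) * y) := by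
    push_cast
    field_simp
    ring
  rw [e1, Complex.exp_add]
  push_cast
  ring

theorem exists_TF (R : ResData) : ∃ C : ℝ, 0 < C ∧ ∀ L : ℝ, 1 ≤ L →
    TF (gg R L) (C * L * Real.exp (hi R * L)) ∧
    ∀ x : ℝ, ‖ff (gg R L) x‖ ≤ C * L * (1 / (1 + (L * x) ^ 2)) := by
  obtain ⟨C, hC, h⟩ := exists_bt_decay_right (b1_smooth R) (hi_pos R).le
    (by linarith [hi_lt R]) (fun v hv => b1_zero_of_neg R (by linarith [R.ep_pos]))
    (fun v hv => b1_zero_of_hi R hv.le)
  refine ⟨C, hC, fun L hL => ⟨⟨gg_continuous R L, ?_, ?_, ?_⟩, ?_⟩⟩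
  · refine HasCompactSupport.of_support_subset_isCompact (isCompact_Icc (a := 0) (b := L)) ?_
    intro y hy
    by_contra hy'
    apply hy
    rw [Set.mem_Icc, not_and_or, not_le, not_le] at hy'
    unfold gg
    rcases hy' with hy' | hy'
    · rw [b1_zero_of_neg R, zero_mul, Complex.ofReal_zero]
      have : y / L < 0 := div_neg_of_neg_of_pos hy' (by linarith)
      linarith [R.ep_pos]
    · rw [b1_zero_of_hi R, zero_mul, Complex.ofReal_zero]
      have : 1 ≤ y / L := by rw [le_div_iff₀ (by linarith)]; linarith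
      linarith [hi_lt R]
  · intro y hy
    unfold gg
    rw [b1_zero_of_neg R, zero_mul, Complex.ofReal_zero]
    have : y / L ≤ 0 := div_nonpos_of_nonpos_of_nonneg hy (by linarith)
    linarith [R.ep_pos]
  · intro u
    rw [hh_gg R (by linarith)]
    have hre : ((L : ℂ) * (1 - u * Complex.I)).re = L := by simp
    have h1 := h ((L : ℂ) * (1 - u * Complex.I)) (by rw [hre]; linarith)
    rw [hre] at h1
    have hn : ‖(L : ℂ) * (1 - u * Complex.I)‖ ^ 2 = L ^ 2 * (1 + u ^ 2) := by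
      rw [norm_mul, mul_pow, Complex.sq_norm (1 - u * Complex.I), Complex.normSq_apply,
        Complex.norm_real, Real.norm_eq_abs, sq_abs]
      simp
      left
      ring
    rw [hn] at h1
    rw [norm_mul, Complex.norm_real, Real.norm_of_nonneg (by linarith)]
    have h2 : (1 + u ^ 2) ^ 2 ≤ (1 + L ^ 2 * (1 + u ^ 2)) ^ 2 := by
      have : 1 ≤ L ^ 2 := by nlinarith
      gcongr
      nlinarith [sq_nonneg u]
    calc _ ≤ L * (C * Real.exp (hi R * L) / (1 + L ^ 2 * (1 + u ^ 2)) ^ 2) := by gcongr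
      _ ≤ L * (C * Real.exp (hi R * L) / (1 + u ^ 2) ^ 2) := by gcongr
      _ = _ := by ring
  · intro x
    rw [ff_gg R (by linarith)]
    have hre : (-((L * x : ℝ) : ℂ) * Complex.I).re = 0 := by simp
    have h1 := h (-((L * x : ℝ) : ℂ) * Complex.I) (by rw [hre])
    rw [hre, mul_zero, Real.exp_zero, mul_one] at h1
    have hn : ‖-((L * x : ℝ) : ℂ) * Complex.I‖ ^ 2 = (L * x) ^ 2 := by
      rw [norm_mul, norm_neg, Complex.norm_I, mul_one, Complex.norm_real, Real.norm_eq_abs, sq_abs]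
    rw [hn] at h1
    rw [norm_mul, Complex.norm_real, Real.norm_of_nonneg (by linarith)]
    have h2 : (1 + (L * x) ^ 2) ≤ (1 + (L * x) ^ 2) ^ 2 := by
      nlinarith [sq_nonneg (L * x), sq_nonneg ((L * x) ^ 2)]
    calc _ ≤ L * (C / (1 + (L * x) ^ 2) ^ 2) := by gcongr
      _ ≤ L * (C / (1 + (L * x) ^ 2)) := by gcongr
      _ = _ := by ring

/-- The prime sum is controlled by the local count of zeros. -/
theorem Pr_le (hRH : RiemannHypothesis) (R : ResData) : ∃ C T0 : ℝ, 0 < C ∧ 1 ≤ T0 ∧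
    ∀ T : ℝ, T0 ≤ T → ∀ t : ℝ, T / 4 ≤ t → ‖Pr R T t‖ ≤ C * (1 + W1 T t) := by
  obtain ⟨C1, hC1, hTF⟩ := exists_TF R
  obtain ⟨C2, hC2, hnp⟩ := exists_sum_nonprime_le
  obtain ⟨B, hB⟩ : ∃ B : ℝ, ∀ v, |b1 R v| ≤ B := by
    have hcs : HasCompactSupport (b1 R) := by
      refine hasCompactSupport_of_zero fun v hv => ?_
      rcases lt_or_ge v 0 with h | h
      · exact b1_zero_of_neg R (by linarith [R.ep_pos])
      · rw [abs_of_nonneg h] at hv
        exact b1_zero_of_hi R (by linarith [hi_lt R])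
    exact hcs.exists_bound_of_continuous (b1_smooth R).continuous
  have hB0 : 0 ≤ B := (abs_nonneg _).trans (hB 0)
  refine ⟨(|R.r| + 1) * (C1 + 240 * C1 + 2 * B * C2 + 1), Real.exp 2, by positivity,
    Real.one_le_exp (by norm_num), fun T hT t ht => ?_⟩
  have hT0 : 0 < T := (Real.exp_pos _).trans_le hT
  set L := Real.log T with hL
  have hL2 : 2 ≤ L := by rw [hL, Real.le_log_iff_exp_le hT0]; exact hT
  have hL0 : 0 < L := by linarith
  have hT4 : 4 ≤ T := by
    have h1 : Real.exp 2 = Real.exp 1 * Real.exp 1 := by rw [← Real.exp_add]; norm_num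
    have h2 := Real.exp_one_gt_d9
    nlinarith
  have ht1 : 1 ≤ t := by linarith
  have ht0 : 0 < t := by linarith
  obtain ⟨hg, hff⟩ := hTF L (by linarith)
  obtain ⟨hs1, hs2, hex⟩ := explicit hRH hg ht1
  set Z := ∑' ρ : ntz, (mult ρ : ℂ) * ff (gg R L) (t - (ρ : ℂ).im) with hZ
  set Sp := ∑' n : ℕ, ((Λ n * (n : ℝ) ^ (-(3 / 2) : ℝ) : ℝ) : ℂ) *
        (gg R L (Real.log n) * Complex.exp ((-(t * Real.log n) : ℝ) * Complex.I)) with hSp
  have hZb : ‖Z‖ ≤ C1 * L * W1 T t := by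
    have h1 := (W1_summable hRH (T := T) (by linarith) t).hasSum.mul_left (C1 * L)
    refine tsum_of_norm_bounded h1 fun ρ => ?_
    rw [norm_mul, Complex.norm_natCast]
    calc (mult ρ : ℝ) * ‖ff (gg R L) (t - (ρ : ℂ).im)‖ ≤
        (mult ρ : ℝ) * (C1 * L * (1 / (1 + (L * (t - (ρ : ℂ).im)) ^ 2))) := by
          gcongr
          exact hff _
      _ = _ := by ring
  have hW := W1_nonneg T t
  have hexp : Real.exp (hi R * L) ≤ Real.sqrt T := by
    have e4 : Real.sqrt T = Real.exp (L / 2) := by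
      rw [Real.sqrt_eq_iff_mul_self_eq hT0.le (Real.exp_pos _).le, ← Real.exp_add]
      rw [add_halves, hL, Real.exp_log hT0]
    rw [e4]
    apply Real.exp_le_exp.mpr
    have := hi_lt R
    nlinarith
  have hsT : Real.sqrt T ^ 2 = T := Real.sq_sqrt hT0.le
  have hsT0 : 0 < Real.sqrt T := Real.sqrt_pos.mpr hT0
  have hLs : L ≤ 2 * Real.sqrt T := by
    have h6 : L = 2 * Real.log (Real.sqrt T) := by
      rw [Real.log_sqrt hT0.le, hL]; ring
    have h7 := Real.log_le_sub_one_of_pos hsT0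
    linarith
  have herr : 30 * (C1 * L * Real.exp (hi R * L)) / t ≤ 240 * C1 := by
    rw [div_le_iff₀ ht0]
    calc 30 * (C1 * L * Real.exp (hi R * L)) ≤ 30 * (C1 * (2 * Real.sqrt T) * Real.sqrt T) := by
          gcongr
      _ = 60 * C1 * (Real.sqrt T ^ 2) := by ring
      _ = 60 * C1 * T := by rw [hsT]
      _ ≤ _ := by nlinarith
  have hSpb : ‖Sp‖ ≤ C1 * L * W1 T t + 240 * C1 := by
    have h1 : Sp = (Z + Sp) - Z := by ring
    rw [h1]
    refine (norm_sub_le _ _).trans ?_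
    linarith [hex.trans herr]
  -- finite sum
  have hfin : Sp = ∑ n ∈ Finset.Icc 1 ⌊T⌋₊, ((Λ n * (n : ℝ) ^ (-(3 / 2) : ℝ) : ℝ) : ℂ) *
        (gg R L (Real.log n) * Complex.exp ((-(t * Real.log n) : ℝ) * Complex.I)) := by
    rw [hSp]
    apply tsum_eq_sum
    intro n hn
    rw [Finset.mem_Icc, not_and_or, not_le, not_le] at hn
    rcases hn with hn | hn
    · have : n = 0 := by omega
      rw [this]; simp
    · have h2 : T < n := by
        have := (Nat.floor_lt hT0.le).mp hn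
        exact this
      have h3 : L ≤ Real.log n := Real.log_le_log hT0 h2.le
      have h4 : gg R L (Real.log n) = 0 := by
        unfold gg
        rw [b1_zero_of_hi R, zero_mul, Complex.ofReal_zero]
        have : 1 ≤ Real.log n / L := by rw [le_div_iff₀ hL0]; linarith
        linarith [hi_lt R]
      rw [h4]; ring
  have hsplit : (L : ℂ) * Pr R T t = (R.r : ℂ) * Sp - (R.r : ℂ) *
      ∑ n ∈ (Finset.Icc 1 ⌊T⌋₊).filter (fun n => ¬ n.Prime),
        ((Λ n * (n : ℝ) ^ (-(3 / 2) : ℝ) : ℝ) : ℂ) *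
        (gg R L (Real.log n) * Complex.exp ((-(t * Real.log n) : ℝ) * Complex.I)) := by
    rw [hfin, ← Finset.sum_filter_add_sum_filter_not (Finset.Icc 1 ⌊T⌋₊) Nat.Prime, mul_add,
      add_sub_cancel_right, Pr, PP, Finset.mul_sum, Finset.mul_sum]
    refine Finset.sum_congr rfl fun p hp => ?_
    rw [Finset.mem_filter] at hp
    have hp0 : (0:ℝ) < p := by exact_mod_cast hp.2.pos
    have hlp : 0 < Real.log p := Real.log_pos (by exact_mod_cast hp.2.one_lt)
    rw [vonMangoldt_apply_prime hp.2]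
    unfold cc gg b1
    rw [Real.exp_log hp0]
    have e1 : (p : ℝ) ^ (-(3 / 2) : ℝ) = (p * Real.sqrt p)⁻¹ := by
      rw [Real.rpow_neg hp0.le, show (3 / 2 : ℝ) = 1 + 1 / 2 by norm_num, Real.rpow_add hp0,
        Real.rpow_one, Real.sqrt_eq_rpow]
    rw [e1]
    have hsp : 0 < Real.sqrt p := Real.sqrt_pos.mpr hp0
    have e2 : R.r * ((Real.log p * (p * Real.sqrt p)⁻¹) *
        (R.f (Real.log p / L) * (Real.log p / L)⁻¹ * p)) =
        L * (R.r * R.f (Real.log p / L) / Real.sqrt p) := by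
      field_simp
    have e3 := congrArg (fun z : ℝ => (z : ℂ)) e2
    simp only [Complex.ofReal_mul] at e3 ⊢
    rw [← mul_assoc, ← e3]
    ring
  have hnpb : ‖∑ n ∈ (Finset.Icc 1 ⌊T⌋₊).filter (fun n => ¬ n.Prime),
        ((Λ n * (n : ℝ) ^ (-(3 / 2) : ℝ) : ℝ) : ℂ) *
        (gg R L (Real.log n) * Complex.exp ((-(t * Real.log n) : ℝ) * Complex.I))‖ ≤
      B * (C2 * (1 + L)) := by
    have hfl : 1 ≤ ⌊T⌋₊ := Nat.le_floor (by push_cast; linarith)
    calc _ ≤ ∑ n ∈ (Finset.Icc 1 ⌊T⌋₊).filter (fun n => ¬ n.Prime), B * (Λ n / Real.sqrt n) := by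
          refine (norm_sum_le _ _).trans (Finset.sum_le_sum fun n hn => ?_)
          rw [Finset.mem_filter, Finset.mem_Icc] at hn
          have hn0 : (0:ℝ) < n := by exact_mod_cast (by omega : 0 < n)
          have hsn : 0 < Real.sqrt n := Real.sqrt_pos.mpr hn0
          rw [norm_mul, norm_mul, Complex.norm_exp_ofReal_mul_I, mul_one, Complex.norm_real,
            Real.norm_of_nonneg (vM_term_nonneg n)]
          unfold gg
          rw [Complex.norm_real, Real.exp_log hn0, Real.norm_eq_abs, abs_mul, abs_of_pos hn0]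
          have e1 : (n : ℝ) ^ (-(3 / 2) : ℝ) = (n * Real.sqrt n)⁻¹ := by
            rw [Real.rpow_neg hn0.le, show (3 / 2 : ℝ) = 1 + 1 / 2 by norm_num, Real.rpow_add hn0,
              Real.rpow_one, Real.sqrt_eq_rpow]
          rw [e1]
          have h3 : 0 ≤ (Λ n : ℝ) := vonMangoldt_nonneg
          calc Λ n * (n * Real.sqrt n)⁻¹ * (|b1 R (Real.log n / L)| * n) ≤
              Λ n * (n * Real.sqrt n)⁻¹ * (B * n) := by
                gcongr
                exact hB _
            _ = _ := by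
                field_simp
      _ ≤ B * (C2 * (1 + Real.log ⌊T⌋₊)) := by
          rw [← Finset.mul_sum]
          exact mul_le_mul_of_nonneg_left (hnp _ hfl) hB0
      _ ≤ _ := by
          gcongr
          exact Real.log_le_log (by exact_mod_cast hfl) (Nat.floor_le hT0.le)
  have hfinal : L * ‖Pr R T t‖ ≤ |R.r| * (C1 * L * W1 T t + 240 * C1) + |R.r| * (B * (C2 * (1 + L))) := by
    have h1 : ‖(L : ℂ) * Pr R T t‖ = L * ‖Pr R T t‖ := by
      rw [norm_mul, Complex.norm_real, Real.norm_of_nonneg hL0.le]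
    rw [← h1, hsplit]
    refine (norm_sub_le _ _).trans ?_
    rw [norm_mul, norm_mul, Complex.norm_real, Real.norm_eq_abs]
    gcongr
  have h2 : ‖Pr R T t‖ ≤ |R.r| * (C1 * W1 T t + 240 * C1 + 2 * B * C2) := by
    have h3 : L * ‖Pr R T t‖ ≤ L * (|R.r| * (C1 * W1 T t + 240 * C1 + 2 * B * C2)) := by
      refine hfinal.trans ?_
      have e1 : 240 * C1 ≤ L * (240 * C1) := by nlinarith
      have e2 : B * (C2 * (1 + L)) ≤ L * (2 * B * C2) := by
        have : 0 ≤ B * C2 := by positivity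
        nlinarith
      have h0 := abs_nonneg R.r
      calc |R.r| * (C1 * L * W1 T t + 240 * C1) + |R.r| * (B * (C2 * (1 + L))) ≤
          |R.r| * (C1 * L * W1 T t + L * (240 * C1)) + |R.r| * (L * (2 * B * C2)) := by gcongr
        _ = _ := by ring
    exact le_of_mul_le_mul_left h3 hL0
  refine h2.trans ?_
  have h0 := abs_nonneg R.r
  have h4 : C1 * W1 T t + 240 * C1 + 2 * B * C2 ≤ (C1 + 240 * C1 + 2 * B * C2 + 1) * (1 + W1 T t) := by
    have : 0 ≤ B * C2 := by positivity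
    nlinarith [mul_nonneg hC1.le hW, mul_nonneg this hW]
  calc |R.r| * (C1 * W1 T t + 240 * C1 + 2 * B * C2) ≤
      (|R.r| + 1) * ((C1 + 240 * C1 + 2 * B * C2 + 1) * (1 + W1 T t)) := by
        gcongr
        linarith
    _ = _ := by ring

end Pool.Agent.ZGap.Res.FM
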