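import Mathlib

/-!
# (d4) Elementary symmetric sums and Newton's identities
-/

namespace Pool.Agent.ZGap.Res.FM

open Finset

/-- Elementary symmetric sum over a finite set. -/
noncomputable def es (s : Finset ℕ) (z : ℕ → ℂ) (m : ℕ) : ℂ :=
  ∑ U ∈ s.powersetCard m, ∏ p ∈ U, z p

lemma aeval_esymm (s : Finset ℕ) (z : ℕ → ℂ) (m : ℕ) :
    MvPolynomial.aeval (fun i : {x // x ∈ s} => z i) (MvPolynomial.esymm {x // x ∈ s} ℂ m) =
      es s z m := by
  rw [MvPolynomial.aeval_esymm_eq_multiset_esymm, es, ← Finset.esymm_map_val]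
  congr 1
  exact Multiset.attach_map_val' s.val z

lemma aeval_psum (s : Finset ℕ) (z : ℕ → ℂ) (m : ℕ) :
    MvPolynomial.aeval (fun i : {x // x ∈ s} => z i) (MvPolynomial.psum {x // x ∈ s} ℂ m) =
      ∑ p ∈ s, z p ^ m := by
  rw [MvPolynomial.psum]
  simp only [map_sum, map_pow, MvPolynomial.aeval_X]
  exact Finset.sum_coe_sort s (fun p => z p ^ m)

lemma newton (s : Finset ℕ) (z : ℕ → ℂ) (m : ℕ) :
    (m : ℂ) * es s z m = (-1) ^ (m + 1) *
      ∑ a ∈ (antidiagonal m).filter (fun a => a.1 < m),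
        (-1) ^ a.1 * es s z a.1 * ∑ p ∈ s, z p ^ a.2 := by
  have h := congrArg (MvPolynomial.aeval (fun i : {x // x ∈ s} => z i))
    (MvPolynomial.mul_esymm_eq_sum {x // x ∈ s} ℂ m)
  simp only [map_mul, map_sum, map_pow, map_neg, map_one, map_natCast, aeval_esymm,
    aeval_psum] at h
  exact h

lemma card_filter_antidiagonal (m : ℕ) :
    ((antidiagonal m).filter (fun a => a.1 < m)).card = m := by
  have h : (antidiagonal m).filter (fun a => a.1 < m) =
      (range m).image (fun i => (i, m - i)) := by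
    ext ⟨a, b⟩
    simp only [mem_filter, HasAntidiagonal.mem_antidiagonal, mem_image, mem_range, Prod.mk.injEq]
    constructor
    · rintro ⟨h1, h2⟩
      exact ⟨a, h2, rfl, by omega⟩
    · rintro ⟨i, hi, rfl, rfl⟩
      omega
  rw [h, Finset.card_image_of_injective, card_range]
  intro i j hij
  simpa using congrArg Prod.fst hij

/-- Bound for elementary symmetric sums from bounds for power sums. -/
theorem norm_es_le {s : Finset ℕ} {z : ℕ → ℂ} {Y : ℝ} (hY : 0 ≤ Y)
    (h : ∀ l, 1 ≤ l → ‖∑ p ∈ s, z p ^ l‖ ≤ Y ^ l) (m : ℕ) : ‖es s z m‖ ≤ Y ^ m := by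
  induction m using Nat.strong_induction_on with
  | _ m ih =>
    rcases Nat.eq_zero_or_pos m with h0 | h0
    · subst h0
      simp [es]
    · have h1 := newton s z m
      have h2 : ‖(m : ℂ) * es s z m‖ ≤ m * Y ^ m := by
        rw [h1, norm_mul]
        have e1 : ‖((-1 : ℂ)) ^ (m + 1)‖ = 1 := by simp
        rw [e1, one_mul]
        calc _ ≤ ∑ a ∈ (antidiagonal m).filter (fun a => a.1 < m),
              ‖(-1) ^ a.1 * es s z a.1 * ∑ p ∈ s, z p ^ a.2‖ := norm_sum_le _ _
          _ ≤ ∑ a ∈ (antidiagonal m).filter (fun a => a.1 < m), Y ^ m := by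
              refine Finset.sum_le_sum fun a ha => ?_
              rw [mem_filter, HasAntidiagonal.mem_antidiagonal] at ha
              rw [norm_mul, norm_mul]
              have e2 : ‖((-1 : ℂ)) ^ a.1‖ = 1 := by simp
              rw [e2, one_mul, ← ha.1, pow_add]
              gcongr
              · exact ih a.1 ha.2
              · exact h a.2 (by omega)
          _ = _ := by
              rw [Finset.sum_const, card_filter_antidiagonal, nsmul_eq_mul]
      rw [norm_mul, Complex.norm_natCast] at h2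
      exact le_of_mul_le_mul_left h2 (by exact_mod_cast h0)

/-- The sum over pairs of disjoint sets with total size `m`. -/
lemma sum_disjoint_pairs (A : Finset ℕ) (X Y : ℕ → ℂ) (m : ℕ) :
    ∑ S ∈ A.powerset, ∑ S' ∈ (A \ S).powerset,
      (if S.card + S'.card = m then (∏ p ∈ S, X p) * ∏ p ∈ S', Y p else 0) =
    es A (fun p => X p + Y p) m := by
  unfold es
  simp_rw [Finset.prod_add]
  rw [Finset.sum_sigma', Finset.sum_sigma', ← Finset.sum_filter]
  refine Finset.sum_bij' (fun x _ => ⟨x.1 ∪ x.2, x.1⟩) (fun y _ => ⟨y.2, y.1 \ y.2⟩) ?_ ?_ ?_ ?_ ?_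
  · rintro ⟨S, S'⟩ h
    simp only [mem_filter, mem_sigma, mem_powerset, mem_powersetCard] at h ⊢
    obtain ⟨⟨h1, h2⟩, h3⟩ := h
    refine ⟨⟨union_subset h1 (h2.trans sdiff_subset), ?_⟩, subset_union_left⟩
    rw [card_union_of_disjoint]
    · exact h3
    · exact (disjoint_sdiff.mono_right h2)
  · rintro ⟨U, S⟩ h
    simp only [mem_filter, mem_sigma, mem_powerset, mem_powersetCard] at h ⊢
    obtain ⟨⟨h1, h2⟩, h3⟩ := h
    refine ⟨⟨h3.trans h1, sdiff_subset_sdiff h1 le_rfl⟩, ?_⟩
    rw [card_sdiff_of_subset h3]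
    have := card_le_card h3
    omega
  · rintro ⟨S, S'⟩ h
    simp only [mem_filter, mem_sigma, mem_powerset] at h
    obtain ⟨⟨h1, h2⟩, h3⟩ := h
    have hd : Disjoint S S' := disjoint_sdiff.mono_right h2
    simp only [Sigma.mk.injEq, true_and]
    rw [union_sdiff_left, sdiff_eq_self_of_disjoint hd.symm]
  · rintro ⟨U, S⟩ h
    simp only [mem_sigma, mem_powerset, mem_powersetCard] at h
    simp only [Sigma.mk.injEq]
    refine ⟨union_sdiff_of_subset h.2, ?_⟩
    rfl
  · rintro ⟨S, S'⟩ h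
    simp only [mem_filter, mem_sigma, mem_powerset] at h
    obtain ⟨⟨h1, h2⟩, h3⟩ := h
    have hd : Disjoint S S' := disjoint_sdiff.mono_right h2
    simp only
    rw [union_sdiff_left, sdiff_eq_self_of_disjoint hd.symm]

end Pool.Agent.ZGap.Res.FM
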