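import Pool.Agent.ZGap.Res.D3
import Pool.Agent.ZGap.Res.D4

/-!
# (d5) Fourier representation of the resonator
-/

open scoped ContDiff FourierTransform SchwartzMap

namespace Pool.Agent.ZGap.Res.FM

open MeasureTheory Real Set

/-- Fourier representation of a smooth compactly supported function. -/
lemma exists_Phi {F : ℝ → ℝ} (hF : ContDiff ℝ ∞ F) (hc : HasCompactSupport F) :
    ∃ Φ : ℝ → ℂ, Continuous Φ ∧ (∀ K : ℕ, Integrable fun x => ‖Φ x‖ * (1 + |x|) ^ K) ∧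
      ∀ u : ℝ, ∫ x : ℝ, Φ x * Complex.exp (((2 * π * x * u : ℝ) : ℂ) * Complex.I) = (F u : ℂ) := by
  have hFc : HasCompactSupport (fun x => (F x : ℂ)) :=
    hc.comp_left (g := Complex.ofReal) Complex.ofReal_zero
  have hFs : ContDiff ℝ ∞ (fun x => (F x : ℂ)) := Complex.ofRealCLM.contDiff.comp hF
  set g : 𝓢(ℝ, ℂ) := hFc.toSchwartzMap hFs with hg
  have hgF : (g : ℝ → ℂ) = fun x => (F x : ℂ) := rfl
  refine ⟨⇑(𝓕 g : 𝓢(ℝ, ℂ)), (𝓕 g : 𝓢(ℝ, ℂ)).continuous, fun K => ?_, fun u => ?_⟩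
  · -- decay
    obtain ⟨C0, hC0⟩ := (𝓕 g : 𝓢(ℝ, ℂ)).decay' 0 0
    obtain ⟨C1, hC1⟩ := (𝓕 g : 𝓢(ℝ, ℂ)).decay' (K + 2) 0
    have hint : Integrable (fun x : ℝ => 2 ^ (K + 2) * (C0 + C1) * (1 + x ^ 2)⁻¹) :=
      integrable_inv_one_add_sq.const_mul _
    refine hint.mono' ?_ (Filter.Eventually.of_forall fun x => ?_)
    · have := (𝓕 g : 𝓢(ℝ, ℂ)).continuous
      exact Continuous.aestronglyMeasurable (by fun_prop)
    · have h0 := hC0 x
      have h1 := hC1 x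
      simp only [pow_zero, one_mul, norm_iteratedFDeriv_zero] at h0 h1
      have h0' : ‖(𝓕 g : 𝓢(ℝ, ℂ)) x‖ ≤ C0 := h0
      have h1' : |x| ^ (K + 2) * ‖(𝓕 g : 𝓢(ℝ, ℂ)) x‖ ≤ C1 := by
        rw [← Real.norm_eq_abs]; exact h1
      rw [Real.norm_of_nonneg (by positivity), ← div_eq_mul_inv, le_div_iff₀ (by positivity)]
      have h2 : 1 + x ^ 2 ≤ (1 + |x|) ^ 2 := by nlinarith [abs_nonneg x, sq_abs x]
      have h3 : (1 + |x|) ^ (K + 2) ≤ 2 ^ (K + 2) * (1 + |x| ^ (K + 2)) := by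
        have h4 := add_pow_le (zero_le_one) (abs_nonneg x) (K + 2)
        rw [one_pow] at h4
        refine h4.trans ?_
        gcongr
        · norm_num
        · omega
      calc ‖(𝓕 g : 𝓢(ℝ, ℂ)) x‖ * (1 + |x|) ^ K * (1 + x ^ 2) ≤ ‖(𝓕 g : 𝓢(ℝ, ℂ)) x‖ * (1 + |x|) ^ K * (1 + |x|) ^ 2 := by
            gcongr
        _ = ‖(𝓕 g : 𝓢(ℝ, ℂ)) x‖ * (1 + |x|) ^ (K + 2) := by rw [pow_add]; ring
        _ ≤ ‖(𝓕 g : 𝓢(ℝ, ℂ)) x‖ * (2 ^ (K + 2) * (1 + |x| ^ (K + 2))) := by gcongr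
        _ = 2 ^ (K + 2) * (‖(𝓕 g : 𝓢(ℝ, ℂ)) x‖ + |x| ^ (K + 2) * ‖(𝓕 g : 𝓢(ℝ, ℂ)) x‖) := by ring
        _ ≤ _ := by gcongr
  · have h := congrFun (g.continuous.fourierInv_fourier_eq g.integrable (𝓕 g : 𝓢(ℝ, ℂ)).integrable) u
    rw [Real.fourierInv_eq'] at h
    have h2 : (g : ℝ → ℂ) u = (F u : ℂ) := rfl
    rw [h2] at h
    rw [← h]
    refine integral_congr_ae (Filter.Eventually.of_forall fun x => ?_)
    simp only [smul_eq_mul]
    rw [mul_comm]
    congr 3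
    simp only [RCLike.inner_apply, conj_trivial]
    push_cast
    ring

/-! ### Elementary bounds -/

lemma cc_nonneg (R : ResData) (hr : 0 ≤ R.r) (T : ℝ) (p : ℕ) : 0 ≤ cc R T p := by
  unfold cc
  have := R.f_nonneg (Real.log p / Real.log T)
  positivity

lemma abs_cc_le (R : ResData) (T : ℝ) {p : ℕ} (hp : 1 ≤ p) : |cc R T p| ≤ |R.r| := by
  unfold cc
  have h0 := R.f_nonneg (Real.log p / Real.log T)
  have h1 := R.f_le (Real.log p / Real.log T)
  have hs : 1 ≤ Real.sqrt p := by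
    rw [Real.one_le_sqrt]; exact_mod_cast hp
  rw [abs_div, abs_mul, abs_of_nonneg h0, abs_of_pos (by linarith : 0 < Real.sqrt p),
    div_le_iff₀ (by linarith)]
  have h2 := abs_nonneg R.r
  nlinarith [mul_nonneg h2 h0]

lemma cc_sq_le (R : ResData) {T : ℝ} (hT : 1 < T) {p : ℕ} (hp : 1 ≤ p) :
    cc R T p ^ 2 ≤ R.r ^ 2 / (R.ep * Real.log T) * (Real.log p / p) := by
  have hL : 0 < Real.log T := Real.log_pos hT
  have hp0 : (0:ℝ) < p := by exact_mod_cast hp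
  have hep := R.ep_pos
  have hlp : 0 ≤ Real.log p := Real.log_natCast_nonneg p
  rcases le_or_gt (Real.log p / Real.log T) R.ep with h | h
  · unfold cc
    rw [R.f_low _ h]
    have : (R.r * 0 / Real.sqrt p) ^ 2 = 0 := by simp
    rw [this]
    positivity
  · have h0 := R.f_nonneg (Real.log p / Real.log T)
    have h1 := R.f_le (Real.log p / Real.log T)
    rw [lt_div_iff₀ hL] at h
    unfold cc
    rw [div_pow, mul_pow, Real.sq_sqrt hp0.le]
    have h2 : R.f (Real.log p / Real.log T) ^ 2 ≤ 1 := pow_le_one₀ h0 h1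
    have h3 : 1 ≤ Real.log p / (R.ep * Real.log T) := by
      rw [le_div_iff₀ (by positivity)]; linarith
    calc R.r ^ 2 * R.f (Real.log p / Real.log T) ^ 2 / p ≤ R.r ^ 2 * 1 / p := by gcongr
      _ ≤ R.r ^ 2 * (Real.log p / (R.ep * Real.log T)) / p := by gcongr
      _ = _ := by field_simp

/-- `∑ (2 cc p)² ≤ C2²`. -/
lemma sum_cc_sq_le (R : ResData) {T : ℝ} (hT : Real.exp 2 ≤ T) :
    ∑ p ∈ PP T, (2 * cc R T p) ^ 2 ≤ 16 * R.r ^ 2 / R.ep := by
  have hT0 : 0 < T := (Real.exp_pos _).trans_le hT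
  have hL2 : 2 ≤ Real.log T := by rw [Real.le_log_iff_exp_le hT0]; exact hT
  have hT1 : 1 < T := by
    have := Real.add_one_le_exp (2:ℝ); linarith
  have hfl : 1 ≤ ⌊T⌋₊ := Nat.le_floor (by push_cast; linarith)
  have h1 := Pool.Agent.DirPoly.sum_log_div_le hfl
  have hlog : Real.log ⌊T⌋₊ ≤ Real.log T :=
    Real.log_le_log (by exact_mod_cast hfl) (Nat.floor_le hT0.le)
  have hl4 : Real.log 4 ≤ 2 := by
    have : Real.log 4 = 2 * Real.log 2 := by
      rw [show (4 : ℝ) = 2 ^ 2 by norm_num, Real.log_pow]; norm_num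
    have := Real.log_two_lt_d9
    linarith
  have hl40 : 0 ≤ Real.log 4 := Real.log_nonneg (by norm_num)
  have hep := R.ep_pos
  calc _ ≤ ∑ p ∈ PP T, 4 * (R.r ^ 2 / (R.ep * Real.log T)) * (Real.log p / p) := by
        refine Finset.sum_le_sum fun p hp => ?_
        rw [PP, Finset.mem_filter, Finset.mem_Icc] at hp
        have := cc_sq_le R hT1 hp.1.1
        calc (2 * cc R T p) ^ 2 = 4 * cc R T p ^ 2 := by ring
          _ ≤ 4 * (R.r ^ 2 / (R.ep * Real.log T) * (Real.log p / p)) := by gcongr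
          _ = _ := by ring
    _ = 4 * (R.r ^ 2 / (R.ep * Real.log T)) * ∑ p ∈ PP T, (Real.log p / p) := by
        rw [Finset.mul_sum]
    _ ≤ 4 * (R.r ^ 2 / (R.ep * Real.log T)) * (2 * (2 * Real.log T)) := by
        have hLp : 0 < Real.log T := by linarith
        gcongr
        refine h1.trans ?_
        gcongr
        linarith
    _ = _ := by
        have hLp : Real.log T ≠ 0 := by linarith
        field_simp
        ring

lemma Pr_continuous (R : ResData) (T : ℝ) : Continuous (Pr R T) := by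
  unfold Pr; fun_prop

lemma norm_Pr_le (R : ResData) {T : ℝ} (hT : 0 ≤ T) (t : ℝ) : ‖Pr R T t‖ ≤ |R.r| * T := by
  unfold Pr
  calc _ ≤ ∑ p ∈ PP T, |R.r| := by
        refine (norm_sum_le _ _).trans (Finset.sum_le_sum fun p hp => ?_)
        rw [PP, Finset.mem_filter, Finset.mem_Icc] at hp
        rw [norm_mul, Complex.norm_exp_ofReal_mul_I, mul_one, Complex.norm_real, Real.norm_eq_abs]
        exact abs_cc_le R T hp.1.1
    _ = (PP T).card * |R.r| := by rw [Finset.sum_const, nsmul_eq_mul]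
    _ ≤ T * |R.r| := by
        gcongr
        have h1 : (PP T).card ≤ ⌊T⌋₊ := by
          refine (Finset.card_filter_le _ _).trans ?_
          simp
        exact (by exact_mod_cast h1 : ((PP T).card : ℝ) ≤ ⌊T⌋₊).trans (Nat.floor_le hT)
    _ = _ := mul_comm _ _

end Pool.Agent.ZGap.Res.FM
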