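import Pool.Agent.ZGap.Res.D6

/-!
# (d7) The fourth moment of the resonator
-/

open scoped ContDiff

namespace Pool.Agent.ZGap.Res.FM

open MeasureTheory Real Set

variable {R : ResData} {Φ : ℝ → ℂ}

/-! ### Integral inequalities -/

lemma sq_integral_le {α : Type*} [MeasurableSpace α] {μ : Measure α} {w B : α → ℝ}
    (hw : ∀ x, 0 ≤ w x) (i0 : Integrable w μ) (i1 : Integrable (fun x => w x * B x) μ)
    (i2 : Integrable (fun x => w x * B x ^ 2) μ) :
    (∫ x, w x * B x ∂μ) ^ 2 ≤ (∫ x, w x ∂μ) * ∫ x, w x * B x ^ 2 ∂μ := by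
  have h : ∀ c : ℝ, 0 ≤ (∫ x, w x ∂μ) * (c * c) + (-2 * ∫ x, w x * B x ∂μ) * c +
      ∫ x, w x * B x ^ 2 ∂μ := by
    intro c
    have h1 : 0 ≤ ∫ x, w x * (B x - c) ^ 2 ∂μ :=
      integral_nonneg fun x => mul_nonneg (hw x) (sq_nonneg _)
    have h2 : ∀ x, w x * (B x - c) ^ 2 =
        (c * c) * w x + (-2 * c) * (w x * B x) + w x * B x ^ 2 := by intro x; ring
    simp_rw [h2] at h1
    have i3 : Integrable (fun x => (c * c) * w x + (-2 * c) * (w x * B x)) μ :=
      (i0.const_mul _).add (i1.const_mul _)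
    rw [integral_add i3 i2, integral_add (i0.const_mul _) (i1.const_mul _), integral_const_mul,
      integral_const_mul] at h1
    linarith
  have h3 := discrim_le_zero h
  unfold discrim at h3
  linarith

lemma pow_four_integral_le {α : Type*} [MeasurableSpace α] {μ : Measure α} {w B : α → ℝ}
    (hw : ∀ x, 0 ≤ w x) (i0 : Integrable w μ) (i1 : Integrable (fun x => w x * B x) μ)
    (i2 : Integrable (fun x => w x * B x ^ 2) μ) (i4 : Integrable (fun x => w x * B x ^ 4) μ) :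
    (∫ x, w x * B x ∂μ) ^ 4 ≤ (∫ x, w x ∂μ) ^ 3 * ∫ x, w x * B x ^ 4 ∂μ := by
  have h1 := sq_integral_le hw i0 i1 i2
  have e : ∀ x, w x * (B x ^ 2) ^ 2 = w x * B x ^ 4 := by intro x; ring
  have h2 := sq_integral_le (B := fun x => B x ^ 2) hw i0 i2 (by simp_rw [e]; exact i4)
  simp_rw [e] at h2
  have h0 : 0 ≤ ∫ x, w x ∂μ := integral_nonneg hw
  calc (∫ x, w x * B x ∂μ) ^ 4 = ((∫ x, w x * B x ∂μ) ^ 2) ^ 2 := by ring
    _ ≤ ((∫ x, w x ∂μ) * ∫ x, w x * B x ^ 2 ∂μ) ^ 2 := by gcongr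
    _ = (∫ x, w x ∂μ) ^ 2 * (∫ x, w x * B x ^ 2 ∂μ) ^ 2 := by ring
    _ ≤ (∫ x, w x ∂μ) ^ 2 * ((∫ x, w x ∂μ) * ∫ x, w x * B x ^ 4 ∂μ) := by gcongr
    _ = _ := by ring

lemma add_three_pow_le {a b c : ℝ} (ha : 0 ≤ a) (hb : 0 ≤ b) (hc : 0 ≤ c) (n : ℕ) :
    (a + b + c) ^ n ≤ 3 ^ n * (a ^ n + b ^ n + c ^ n) := by
  have hm : a + b + c ≤ 3 * max a (max b c) := by
    have h1 := le_max_left a (max b c)
    have h2 := (le_max_left b c).trans (le_max_right a (max b c))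
    have h3 := (le_max_right b c).trans (le_max_right a (max b c))
    linarith
  have h2 : (max a (max b c)) ^ n ≤ a ^ n + b ^ n + c ^ n := by
    have pa := pow_nonneg ha n
    have pb := pow_nonneg hb n
    have pc := pow_nonneg hc n
    rcases max_cases a (max b c) with ⟨h, _⟩ | ⟨h, _⟩
    · rw [h]; linarith
    · rw [h]
      rcases max_cases b c with ⟨h', _⟩ | ⟨h', _⟩
      · rw [h']; linarith
      · rw [h']; linarith
  calc (a + b + c) ^ n ≤ (3 * max a (max b c)) ^ n := by gcongr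
    _ = 3 ^ n * (max a (max b c)) ^ n := mul_pow _ _ _
    _ ≤ _ := by gcongr

/-! ### Pointwise bound of the integrand -/

/-- The constant. -/
noncomputable def c2 (R : ResData) : ℝ := Real.sqrt (16 * R.r ^ 2 / R.ep) + 1

lemma one_le_c2 (R : ResData) : 1 ≤ c2 R := by
  unfold c2
  have := Real.sqrt_nonneg (16 * R.r ^ 2 / R.ep)
  linarith

lemma le_c2_sq (R : ResData) : 16 * R.r ^ 2 / R.ep ≤ c2 R ^ 2 := by
  unfold c2
  have h0 : 0 ≤ 16 * R.r ^ 2 / R.ep := by
    have := R.ep_pos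
    positivity
  have h1 := Real.sqrt_nonneg (16 * R.r ^ 2 / R.ep)
  have h2 := Real.sq_sqrt h0
  nlinarith

lemma sum_Xp (R : ResData) (T t x : ℝ) : ∑ p ∈ PP T, Xp R T t x p = Pr R T (t - sh R T x) := rfl

lemma norm_sum_Yp (R : ResData) (T t y : ℝ) :
    ‖∑ p ∈ PP T, Yp R T t y p‖ = ‖Pr R T (t + sh R T y)‖ := by
  have h : ∑ p ∈ PP T, Yp R T t y p = (starRingEnd ℂ) (Pr R T (t + sh R T y)) := by
    unfold Pr Yp
    rw [map_sum]
    refine Finset.sum_congr rfl fun p _ => ?_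
    rw [map_mul, Complex.conj_ofReal, ← Complex.exp_conj, map_mul, Complex.conj_ofReal,
      Complex.conj_I]
    congr 2
    push_cast
    ring
  rw [h, RCLike.norm_conj]

lemma norm_power_sum_le {T : ℝ} (hT : Real.exp 2 ≤ T) (t x y : ℝ) (l : ℕ) (hl : 1 ≤ l) :
    ‖∑ p ∈ PP T, (Xp R T t x p + Yp R T t y p) ^ l‖ ≤
      (‖Pr R T (t - sh R T x)‖ + ‖Pr R T (t + sh R T y)‖ + c2 R) ^ l := by
  have hc2 := one_le_c2 R
  rcases Nat.eq_or_lt_of_le hl with h1 | h1
  · rw [← h1]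
    simp only [pow_one]
    rw [Finset.sum_add_distrib, sum_Xp]
    refine (norm_add_le _ _).trans ?_
    rw [norm_sum_Yp]
    linarith
  · have hsum := (sum_cc_sq_le R hT).trans (le_c2_sq R)
    have hle : ∀ p ∈ PP T, 2 * |cc R T p| ≤ c2 R := by
      intro p hp
      have h3 : (2 * cc R T p) ^ 2 ≤ c2 R ^ 2 :=
        (Finset.single_le_sum (f := fun p => (2 * cc R T p) ^ 2) (fun q _ => sq_nonneg _) hp).trans
          hsum
      have h4 := abs_le_of_sq_le_sq h3 (by linarith)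
      rw [abs_le] at h4
      rcases abs_cases (cc R T p) with ⟨h5, _⟩ | ⟨h5, _⟩ <;> rw [h5] <;> linarith [h4.1, h4.2]
    have h2 : ‖∑ p ∈ PP T, (Xp R T t x p + Yp R T t y p) ^ l‖ ≤ c2 R ^ l := by
      obtain ⟨j, rfl⟩ : ∃ j, l = j + 2 := ⟨l - 2, by omega⟩
      calc _ ≤ ∑ p ∈ PP T, c2 R ^ j * (2 * cc R T p) ^ 2 := by
            refine (norm_sum_le _ _).trans (Finset.sum_le_sum fun p hp => ?_)
            rw [norm_pow]
            have h3 : ‖Xp R T t x p + Yp R T t y p‖ ≤ 2 * |cc R T p| := by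
              refine (norm_add_le _ _).trans ?_
              rw [norm_Xp, norm_Yp]
              linarith
            calc ‖Xp R T t x p + Yp R T t y p‖ ^ (j + 2) ≤ (2 * |cc R T p|) ^ (j + 2) := by gcongr
              _ = (2 * |cc R T p|) ^ j * (2 * |cc R T p|) ^ 2 := pow_add _ _ _
              _ ≤ c2 R ^ j * (2 * |cc R T p|) ^ 2 := by
                  gcongr
                  exact hle p hp
              _ = _ := by rw [mul_pow 2 |cc R T p|, sq_abs, mul_pow 2 (cc R T p)]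
        _ = c2 R ^ j * ∑ p ∈ PP T, (2 * cc R T p) ^ 2 := by rw [Finset.mul_sum]
        _ ≤ c2 R ^ j * c2 R ^ 2 := by gcongr
        _ = _ := (pow_add _ _ _).symm
    refine h2.trans ?_
    have := norm_nonneg (Pr R T (t - sh R T x))
    have := norm_nonneg (Pr R T (t + sh R T y))
    gcongr
    linarith

/-- The exponent. -/
noncomputable def NN (R : ResData) : ℕ := 2 * M0 R

lemma norm_EE_le {T : ℝ} (hT : Real.exp 2 ≤ T) (t : ℝ) (z : ℝ × ℝ) :
    ‖EE R T t z‖ ≤ (NN R + 1) *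
      (‖Pr R T (t - sh R T z.1)‖ + ‖Pr R T (t + sh R T z.2)‖ + c2 R) ^ NN R := by
  have hc2 := one_le_c2 R
  set Y := ‖Pr R T (t - sh R T z.1)‖ + ‖Pr R T (t + sh R T z.2)‖ + c2 R with hY
  have hY1 : 1 ≤ Y := by
    have := norm_nonneg (Pr R T (t - sh R T z.1))
    have := norm_nonneg (Pr R T (t + sh R T z.2))
    linarith
  unfold EE
  calc _ ≤ ∑ m ∈ Finset.range (2 * M0 R + 1), Y ^ NN R := by
        refine (norm_sum_le _ _).trans (Finset.sum_le_sum fun m hm => ?_)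
        rw [Finset.mem_range] at hm
        refine (norm_es_le (by linarith) (fun l hl => norm_power_sum_le hT t z.1 z.2 l hl) m).trans ?_
        exact pow_le_pow_right₀ hY1 (by unfold NN; omega)
    _ = _ := by
        rw [Finset.sum_const, Finset.card_range, nsmul_eq_mul]
        unfold NN
        push_cast
        ring

/-- `J_-` and `J_+`. -/
noncomputable def Jm (R : ResData) (Φ : ℝ → ℂ) (T t : ℝ) : ℝ :=
  ∫ x : ℝ, ‖Φ x‖ * ‖Pr R T (t - sh R T x)‖ ^ (4 * NN R)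

noncomputable def Jp (R : ResData) (Φ : ℝ → ℂ) (T t : ℝ) : ℝ :=
  ∫ x : ℝ, ‖Φ x‖ * ‖Pr R T (t + sh R T x)‖ ^ (4 * NN R)

lemma integrable_bdd (h : PhiOK R Φ) {b : ℝ → ℝ} (hb : Continuous b) {C : ℝ}
    (hC : ∀ x, |b x| ≤ C) : Integrable fun x => ‖Φ x‖ * b x := by
  refine (h.norm_int.mul_const C).mono' ?_ (Filter.Eventually.of_forall fun x => ?_)
  · exact (h.cont.norm.mul hb).aestronglyMeasurable
  · rw [norm_mul, norm_norm, Real.norm_eq_abs]
    gcongr
    exact hC x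

lemma integrable_bdd2 (h : PhiOK R Φ) {b : ℝ × ℝ → ℝ} (hb : Continuous b) {C : ℝ}
    (hC : ∀ x, |b x| ≤ C) : Integrable fun z : ℝ × ℝ => (‖Φ z.1‖ * ‖Φ z.2‖) * b z := by
  have h1 : Integrable (fun z : ℝ × ℝ => ‖Φ z.1‖ * ‖Φ z.2‖) := h.norm_int.mul_prod h.norm_int
  refine (h1.mul_const C).mono' ?_ (Filter.Eventually.of_forall fun x => ?_)
  · have := h.cont
    exact Continuous.aestronglyMeasurable (by fun_prop)
  · rw [norm_mul, norm_mul, norm_norm, norm_norm, Real.norm_eq_abs]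
    gcongr
    exact hC x

/-- Pointwise bound for the fourth power. -/
theorem norm_Amp_pow_le (h : PhiOK R Φ) {T : ℝ} (hT : Real.exp 2 ≤ T) (t : ℝ) :
    ‖Amp R T t‖ ^ 4 ≤ ((∫ x, ‖Φ x‖) ^ 2) ^ 3 * ((NN R + 1) ^ 4 * 3 ^ (4 * NN R) *
      ((∫ x, ‖Φ x‖) * Jm R Φ T t + (∫ x, ‖Φ x‖) * Jp R Φ T t +
        (∫ x, ‖Φ x‖) ^ 2 * c2 R ^ (4 * NN R))) := by
  have hT1 : 1 < T := by
    have := Real.add_one_le_exp (2:ℝ); linarith
  have hT0 : 0 ≤ T := by linarith
  have hc2 := one_le_c2 R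
  set W := ∫ x, ‖Φ x‖ with hW
  have hW0 : 0 ≤ W := integral_nonneg fun x => norm_nonneg _
  set w : ℝ × ℝ → ℝ := fun z => ‖Φ z.1‖ * ‖Φ z.2‖ with hw
  set Y : ℝ × ℝ → ℝ := fun z => ‖Pr R T (t - sh R T z.1)‖ + ‖Pr R T (t + sh R T z.2)‖ + c2 R
    with hY
  set B : ℝ × ℝ → ℝ := fun z => (NN R + 1) * Y z ^ NN R with hB
  have hPc := Pr_continuous R T
  have hsh := sh_continuous R T
  have hYc : Continuous Y := by
    simp only [hY]; fun_prop
  have hY0 : ∀ z, 0 ≤ Y z := fun z => by simp only [hY]; positivity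
  have hBc : Continuous B := by simp only [hB]; fun_prop
  have hYb : ∀ z, Y z ≤ 2 * (|R.r| * T) + c2 R := by
    intro z
    have h1 := norm_Pr_le R hT0 (t - sh R T z.1)
    have h2 := norm_Pr_le R hT0 (t + sh R T z.2)
    simp only [hY]
    linarith
  have hB0 : ∀ z, 0 ≤ B z := fun z => by
    have := hY0 z
    simp only [hB]; positivity
  have hBb : ∀ z, |B z| ≤ (NN R + 1) * (2 * (|R.r| * T) + c2 R) ^ NN R := by
    intro z
    rw [abs_of_nonneg (hB0 z)]
    simp only [hB]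
    have h3 := hY0 z
    have h4 := hYb z
    gcongr
  set Cb := (NN R + 1) * (2 * (|R.r| * T) + c2 R) ^ NN R with hCb
  have hw0 : ∀ z, 0 ≤ w z := fun z => by simp only [hw]; positivity
  have i0 : Integrable w := h.norm_int.mul_prod h.norm_int
  have i1 : Integrable (fun z => w z * B z) := integrable_bdd2 h hBc hBb
  have i2 : Integrable (fun z => w z * B z ^ 2) :=
    integrable_bdd2 h (hBc.pow 2) (C := Cb ^ 2) fun z => by
      rw [abs_pow]; gcongr; exact hBb z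
  have i4 : Integrable (fun z => w z * B z ^ 4) :=
    integrable_bdd2 h (hBc.pow 4) (C := Cb ^ 4) fun z => by
      rw [abs_pow]; gcongr; exact hBb z
  have h1 : ‖Amp R T t‖ ≤ ∫ z, w z * B z := by
    rw [Amp_eq h hT1]
    refine norm_integral_le_of_norm_le i1 (Filter.Eventually.of_forall fun z => ?_)
    rw [norm_mul, norm_mul]
    simp only [hw]
    exact mul_le_mul_of_nonneg_left (norm_EE_le hT t z) (by positivity)
  have h2 := pow_four_integral_le hw0 i0 i1 i2 i4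
  have hwint : ∫ z, w z = W ^ 2 := by
    have := integral_prod_mul (μ := volume) (ν := volume) (fun x : ℝ => ‖Φ x‖) (fun x : ℝ => ‖Φ x‖)
    rw [← Measure.volume_eq_prod] at this
    rw [this]; ring
  -- the fourth power
  set p1 : ℝ → ℝ := fun x => ‖Pr R T (t - sh R T x)‖ ^ (4 * NN R) with hp1
  set p2 : ℝ → ℝ := fun x => ‖Pr R T (t + sh R T x)‖ ^ (4 * NN R) with hp2
  have hp1c : Continuous p1 := by simp only [hp1]; fun_prop
  have hp2c : Continuous p2 := by simp only [hp2]; fun_prop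
  have hp1b : ∀ x, |p1 x| ≤ (|R.r| * T) ^ (4 * NN R) := by
    intro x
    simp only [hp1]
    rw [abs_of_nonneg (by positivity)]
    gcongr
    exact norm_Pr_le R hT0 _
  have hp2b : ∀ x, |p2 x| ≤ (|R.r| * T) ^ (4 * NN R) := by
    intro x
    simp only [hp2]
    rw [abs_of_nonneg (by positivity)]
    gcongr
    exact norm_Pr_le R hT0 _
  have i5 : Integrable (fun z : ℝ × ℝ => w z * p1 z.1) :=
    integrable_bdd2 h (hp1c.comp continuous_fst) fun z => hp1b z.1
  have i6 : Integrable (fun z : ℝ × ℝ => w z * p2 z.2) :=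
    integrable_bdd2 h (hp2c.comp continuous_snd) fun z => hp2b z.2
  have i7 : Integrable (fun z : ℝ × ℝ => w z * c2 R ^ (4 * NN R)) := i0.mul_const _
  have h3 : ∫ z, w z * B z ^ 4 ≤ (NN R + 1) ^ 4 * 3 ^ (4 * NN R) *
      (W * Jm R Φ T t + W * Jp R Φ T t + W ^ 2 * c2 R ^ (4 * NN R)) := by
    have e1 : ∀ z, w z * B z ^ 4 ≤ (NN R + 1) ^ 4 * 3 ^ (4 * NN R) *
        ((w z * p1 z.1 + w z * p2 z.2) + w z * c2 R ^ (4 * NN R)) := by
      intro z
      have h4 := add_three_pow_le (norm_nonneg (Pr R T (t - sh R T z.1)))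
        (norm_nonneg (Pr R T (t + sh R T z.2))) (by linarith : 0 ≤ c2 R) (4 * NN R)
      have e2 : B z ^ 4 = (NN R + 1) ^ 4 * Y z ^ (4 * NN R) := by
        simp only [hB]
        rw [mul_pow, ← pow_mul, mul_comm (NN R) 4]
      rw [e2]
      calc w z * ((NN R + 1) ^ 4 * Y z ^ (4 * NN R)) ≤
          w z * ((NN R + 1) ^ 4 * (3 ^ (4 * NN R) * (p1 z.1 + p2 z.2 + c2 R ^ (4 * NN R)))) := by
            have := hw0 z
            gcongr
        _ = _ := by ring
    have i56 : Integrable (fun z : ℝ × ℝ => w z * p1 z.1 + w z * p2 z.2) := i5.add i6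
    have i567 : Integrable (fun z : ℝ × ℝ => (w z * p1 z.1 + w z * p2 z.2) +
      w z * c2 R ^ (4 * NN R)) := i56.add i7
    refine (integral_mono i4 (i567.const_mul _) e1).trans (le_of_eq ?_)
    rw [integral_const_mul]
    congr 1
    rw [integral_add i56 i7, integral_add i5 i6]
    congr 1
    · congr 1
      · have e3 := integral_prod_mul (μ := volume) (ν := volume) (fun x : ℝ => ‖Φ x‖ * p1 x)
          (fun x : ℝ => ‖Φ x‖)
        rw [← Measure.volume_eq_prod] at e3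
        have e4 : ∀ z : ℝ × ℝ, w z * p1 z.1 = ‖Φ z.1‖ * p1 z.1 * ‖Φ z.2‖ := by
          intro z; simp only [hw]; ring
        simp_rw [e4]
        rw [e3, mul_comm]
        rfl
      · have e3 := integral_prod_mul (μ := volume) (ν := volume) (fun x : ℝ => ‖Φ x‖)
          (fun x : ℝ => ‖Φ x‖ * p2 x)
        rw [← Measure.volume_eq_prod] at e3
        have e4 : ∀ z : ℝ × ℝ, w z * p2 z.2 = ‖Φ z.1‖ * (‖Φ z.2‖ * p2 z.2) := by
          intro z; simp only [hw]; ring
        simp_rw [e4]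
        rw [e3]
        rfl
    · rw [integral_mul_const, hwint]
  have h0 : 0 ≤ ‖Amp R T t‖ := norm_nonneg _
  calc ‖Amp R T t‖ ^ 4 ≤ (∫ z, w z * B z) ^ 4 := by gcongr
    _ ≤ (∫ z, w z) ^ 3 * ∫ z, w z * B z ^ 4 := h2
    _ ≤ _ := by
        rw [hwint]
        gcongr

end Pool.Agent.ZGap.Res.FM
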