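import Pool.Agent.ZGap.Res.Diag

/-!
# Weighted means of `‖Amp‖²` and `‖Amp‖² cos (t log n)`
-/

namespace Pool.Agent.ZGap.Res

open MeasureTheory Finset

/-- A weight whose Fourier transform vanishes outside `(-δ, δ)`. -/
structure MW (Om : ℝ → ℝ) (δ : ℝ) : Prop where
  int : Integrable Om
  van : ∀ la : ℝ, δ ≤ |la| → ∫ t : ℝ, Om t * Real.cos (t * la) = 0

/-- The diagonal coefficient. -/
noncomputable def CC (R : ResData) (T : ℝ) (n : ℕ) : ℝ :=
  ∑ q ∈ QQ T, ∑ q' ∈ QQ T,
    if pr q.1 * pr q'.2 = n * (pr q.2 * pr q'.1) then al R T q * al R T q' else 0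

/-- The sum of the squares of the coefficients. -/
noncomputable def Sig (R : ResData) (T : ℝ) : ℝ := ∑ q ∈ QQ T, al R T q ^ 2

lemma MW.integrable_cos {Om : ℝ → ℝ} {δ : ℝ} (h : MW Om δ) (la : ℝ) :
    Integrable (fun t => Om t * Real.cos (t * la)) := by
  refine h.int.norm.mono' (h.int.aestronglyMeasurable.mul
    (Continuous.aestronglyMeasurable (by fun_prop))) (Filter.Eventually.of_forall fun t => ?_)
  rw [norm_mul]
  exact mul_le_of_le_one_right (norm_nonneg _) (Real.abs_cos_le_one _)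

lemma pr_inj {T : ℝ} {q q' : Finset ℕ × Finset ℕ} (hq : q ∈ QQ T) (hq' : q' ∈ QQ T)
    (h : pr q.1 * pr q'.2 = pr q.2 * pr q'.1) : q = q' := by
  obtain ⟨h1, h2, h3⟩ := mem_QQ.mp hq
  obtain ⟨h1', h2', h3'⟩ := mem_QQ.mp hq'
  have key : ∀ (A B C D : Finset ℕ), A ⊆ PP T → B ⊆ PP T → C ⊆ PP T → D ⊆ PP T →
      Disjoint A B → pr A * pr D = pr B * pr C → A ⊆ C := by
    intro A B C D hA hB hC _ hAB he p hp
    have hpp := (mem_PP.mp (hA hp)).1
    have hdvd : p ∣ pr B * pr C := by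
      rw [← he]
      exact Dvd.dvd.mul_right (dvd_prod_of_mem _ hp) _
    rcases hpp.dvd_mul.mp hdvd with hd | hd
    · obtain ⟨x, hx, hpx⟩ := (hpp.prime.dvd_finsetProd_iff _).mp hd
      have := ((Nat.prime_dvd_prime_iff_eq hpp (mem_PP.mp (hB hx)).1).mp hpx)
      subst this
      exact absurd hx (disjoint_left.mp hAB hp)
    · obtain ⟨x, hx, hpx⟩ := (hpp.prime.dvd_finsetProd_iff _).mp hd
      have := ((Nat.prime_dvd_prime_iff_eq hpp (mem_PP.mp (hC hx)).1).mp hpx)
      subst this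
      exact hx
  have e1 : q.1 ⊆ q'.1 := key q.1 q.2 q'.1 q'.2 h1 h2 h1' h2' h3 h
  have e2 : q'.1 ⊆ q.1 := key q'.1 q'.2 q.1 q.2 h1' h2' h1 h2 h3' (by rw [mul_comm, ← h, mul_comm])
  have e3 : q.2 ⊆ q'.2 := key q.2 q.1 q'.2 q'.1 h2 h1 h2' h1' h3.symm h.symm
  have e4 : q'.2 ⊆ q.2 := key q'.2 q'.1 q.2 q.1 h2' h1' h2 h1 h3'.symm (by
    rw [mul_comm, h, mul_comm])
  exact Prod.ext (e1.antisymm e2) (e3.antisymm e4)

/-- The mean against a cosine. -/
theorem mean_cos {R : ResData} {T : ℝ} (hT : 1 < T) {Om : ℝ → ℝ} {δ : ℝ} (h : MW Om δ)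
    (hδ : δ ≤ T ^ (-(2 * R.th)) / 2) {n : ℕ} (hn : 0 < n) :
    ∫ t : ℝ, Om t * (‖Amp R T t‖ ^ 2 * Real.cos (t * Real.log n)) = (∫ t : ℝ, Om t) * CC R T n := by
  have e1 : ∀ t : ℝ, Om t * (‖Amp R T t‖ ^ 2 * Real.cos (t * Real.log n)) =
      ∑ q ∈ QQ T, ∑ q' ∈ QQ T, (al R T q * al R T q' / 2) *
        (Om t * Real.cos (t * (fr q - fr q' - Real.log n)) +
          Om t * Real.cos (t * (fr q' - fr q - Real.log n))) := by
    intro t
    rw [norm_sq_Amp, sum_mul, mul_sum]
    refine sum_congr rfl fun q _ => ?_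
    rw [sum_mul, mul_sum]
    refine sum_congr rfl fun q' _ => ?_
    have h1 : Real.cos (t * (fr q - fr q')) * Real.cos (t * Real.log n) =
        (Real.cos (t * (fr q - fr q' - Real.log n)) +
          Real.cos (t * (fr q' - fr q - Real.log n))) / 2 := by
      have a1 : t * (fr q - fr q' - Real.log n) = t * (fr q - fr q') - t * Real.log n := by ring
      have a2 : t * (fr q' - fr q - Real.log n) = -(t * (fr q - fr q') + t * Real.log n) := by ring
      rw [a1, a2, Real.cos_neg, Real.cos_sub, Real.cos_add]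
      ring
    calc _ = (al R T q * al R T q') * Om t *
        (Real.cos (t * (fr q - fr q')) * Real.cos (t * Real.log n)) := by ring
      _ = _ := by rw [h1]; ring
  have e2 : ∀ q ∈ QQ T, ∀ q' ∈ QQ T, al R T q * al R T q' *
      (∫ t : ℝ, Om t * Real.cos (t * (fr q - fr q' - Real.log n))) =
      (∫ t : ℝ, Om t) * if pr q.1 * pr q'.2 = n * (pr q.2 * pr q'.1) then
        al R T q * al R T q' else 0 := by
    intro q hq q' hq'
    by_cases hz : al R T q = 0
    · rw [hz]; simp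
    by_cases hz' : al R T q' = 0
    · rw [hz']; simp
    split_ifs with hc
    · have h0 : fr q - fr q' - Real.log n = 0 := by
        obtain ⟨h1, h2, h3⟩ := mem_QQ.mp hq
        obtain ⟨h1', h2', h3'⟩ := mem_QQ.mp hq'
        have q1 : (0:ℝ) < pr q.1 := by exact_mod_cast pr_pos h1
        have q2 : (0:ℝ) < pr q.2 := by exact_mod_cast pr_pos h2
        have q1' : (0:ℝ) < pr q'.1 := by exact_mod_cast pr_pos h1'
        have q2' : (0:ℝ) < pr q'.2 := by exact_mod_cast pr_pos h2'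
        have qn : (0:ℝ) < n := by exact_mod_cast hn
        have h4 : Real.log ((pr q.1 : ℝ) * pr q'.2) = Real.log (n * (pr q.2 * pr q'.1)) := by
          congr 1
          exact_mod_cast hc
        rw [Real.log_mul q1.ne' q2'.ne', Real.log_mul qn.ne' (by positivity),
          Real.log_mul q2.ne' q1'.ne'] at h4
        unfold fr
        rw [ell_eq h1, ell_eq h2, ell_eq h1', ell_eq h2']
        linarith
      rw [h0]
      simp only [mul_zero, Real.cos_zero, mul_one]
      ring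
    · rw [h.van _ (hδ.trans (spacing hT hq hq' hz hz' hn hc))]
      simp
  have hi : ∀ q ∈ QQ T, ∀ q' ∈ QQ T, Integrable (fun t => (al R T q * al R T q' / 2) *
        (Om t * Real.cos (t * (fr q - fr q' - Real.log n)) +
          Om t * Real.cos (t * (fr q' - fr q - Real.log n)))) := fun q _ q' _ =>
    ((h.integrable_cos _).add (h.integrable_cos _)).const_mul _
  simp_rw [e1]
  rw [integral_finsetSum _ fun q hq => integrable_finsetSum _ fun q' hq' => hi q hq q' hq']
  have e3 : ∀ q ∈ QQ T, ∫ t : ℝ, ∑ q' ∈ QQ T, (al R T q * al R T q' / 2) *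
        (Om t * Real.cos (t * (fr q - fr q' - Real.log n)) +
          Om t * Real.cos (t * (fr q' - fr q - Real.log n))) =
      ∑ q' ∈ QQ T, ((1 / 2) * (al R T q * al R T q' *
        ∫ t : ℝ, Om t * Real.cos (t * (fr q - fr q' - Real.log n))) +
        (1 / 2) * (al R T q' * al R T q *
          ∫ t : ℝ, Om t * Real.cos (t * (fr q' - fr q - Real.log n)))) := by
    intro q hq
    rw [integral_finsetSum _ fun q' hq' => hi q hq q' hq']
    refine sum_congr rfl fun q' _ => ?_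
    rw [integral_const_mul, integral_add (h.integrable_cos _) (h.integrable_cos _)]
    ring
  rw [sum_congr rfl e3]
  simp_rw [sum_add_distrib]
  have e4 : ∑ q ∈ QQ T, ∑ q' ∈ QQ T, (1 / 2) * (al R T q' * al R T q *
          ∫ t : ℝ, Om t * Real.cos (t * (fr q' - fr q - Real.log n))) =
      ∑ q ∈ QQ T, ∑ q' ∈ QQ T, ((1 / 2) * (al R T q * al R T q' *
        ∫ t : ℝ, Om t * Real.cos (t * (fr q - fr q' - Real.log n)))) := by
    rw [sum_comm]
  rw [e4, ← two_mul, CC, mul_sum, mul_sum]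
  refine sum_congr rfl fun q hq => ?_
  rw [mul_sum, mul_sum]
  refine sum_congr rfl fun q' hq' => ?_
  rw [e2 q hq q' hq']
  ring

lemma CC_one (R : ResData) (T : ℝ) : CC R T 1 = Sig R T := by
  unfold CC Sig
  refine sum_congr rfl fun q hq => ?_
  rw [sum_eq_single_of_mem q hq]
  · rw [if_pos (by rw [one_mul, mul_comm]), sq]
  · intro q' hq' hne
    rw [if_neg]
    rw [one_mul]
    exact fun h => hne (pr_inj hq hq' h).symm

/-- The mean square. -/
theorem mean_sq {R : ResData} {T : ℝ} (hT : 1 < T) {Om : ℝ → ℝ} {δ : ℝ} (h : MW Om δ)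
    (hδ : δ ≤ T ^ (-(2 * R.th)) / 2) :
    ∫ t : ℝ, Om t * ‖Amp R T t‖ ^ 2 = (∫ t : ℝ, Om t) * Sig R T := by
  have := mean_cos hT h hδ (n := 1) one_pos
  simpa [CC_one] using this

end Pool.Agent.ZGap.Res
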