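import Pool.Agent.ZGap.Res.Mean

/-!
# The diagonal coefficients at primes and prime powers
-/

namespace Pool.Agent.ZGap.Res

open MeasureTheory Finset

lemma pr_insert {p : ℕ} {S : Finset ℕ} (h : p ∉ S) : pr (insert p S) = p * pr S := prod_insert h

lemma pr_erase {p : ℕ} {S : Finset ℕ} (h : p ∈ S) : p * pr (S.erase p) = pr S := mul_prod_erase S (fun x => x) h

lemma factorization_pr {T : ℝ} {S : Finset ℕ} (hS : S ⊆ PP T) (l : ℕ) :
    (pr S).factorization l = if l ∈ S then 1 else 0 := by
  classical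
  induction S using Finset.induction_on with
  | empty => simp [pr]
  | insert p S hp ih =>
    have hpp := (mem_PP.mp (hS (mem_insert_self p S))).1
    have hS' : S ⊆ PP T := fun x hx => hS (mem_insert_of_mem hx)
    rw [pr_insert hp, Nat.factorization_mul hpp.ne_zero (pr_pos hS').ne', Finsupp.add_apply, ih hS',
      hpp.factorization]
    by_cases h : l = p
    · subst h
      simp [hp]
    · rw [Finsupp.single_apply, if_neg (Ne.symm h), zero_add]
      simp [mem_insert, h]

lemma rel_unique {T : ℝ} {n : ℕ} (hn : 0 < n) {q q' q'' : Finset ℕ × Finset ℕ} (hq : q ∈ QQ T)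
    (hq' : q' ∈ QQ T) (hq'' : q'' ∈ QQ T)
    (h' : pr q.1 * pr q'.2 = n * (pr q.2 * pr q'.1))
    (h'' : pr q.1 * pr q''.2 = n * (pr q.2 * pr q''.1)) : q' = q'' := by
  obtain ⟨h1, h2, h3⟩ := mem_QQ.mp hq
  apply pr_inj hq' hq''
  have hc : 0 < pr q.1 * (n * pr q.2) := Nat.mul_pos (pr_pos h1) (Nat.mul_pos hn (pr_pos h2))
  apply Nat.eq_of_mul_eq_mul_left hc
  calc pr q.1 * (n * pr q.2) * (pr q'.1 * pr q''.2)
      = (n * (pr q.2 * pr q'.1)) * (pr q.1 * pr q''.2) := by ring
    _ = (pr q.1 * pr q'.2) * (n * (pr q.2 * pr q''.1)) := by rw [← h', h'']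
    _ = pr q.1 * (n * pr q.2) * (pr q'.2 * pr q''.1) := by ring

/-- The relation in terms of factorizations. -/
lemma rel_fact {T : ℝ} {q q' : Finset ℕ × Finset ℕ} (hq : q ∈ QQ T) (hq' : q' ∈ QQ T) {p j : ℕ}
    (hp : p.Prime) (h : pr q.1 * pr q'.2 = p ^ j * (pr q.2 * pr q'.1)) :
    (if p ∈ q.1 then 1 else 0) + (if p ∈ q'.2 then 1 else 0) =
      j + ((if p ∈ q.2 then 1 else 0) + (if p ∈ q'.1 then 1 else 0)) := by
  obtain ⟨h1, h2, h3⟩ := mem_QQ.mp hq
  obtain ⟨h1', h2', h3'⟩ := mem_QQ.mp hq'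
  have e : (pr q.1 * pr q'.2).factorization p = (p ^ j * (pr q.2 * pr q'.1)).factorization p := by
    rw [h]
  rw [Nat.factorization_mul (pr_pos h1).ne' (pr_pos h2').ne',
    Nat.factorization_mul (pow_pos hp.pos j).ne' (Nat.mul_pos (pr_pos h2) (pr_pos h1')).ne',
    Nat.factorization_mul (pr_pos h2).ne' (pr_pos h1').ne', hp.factorization_pow] at e
  simp only [Finsupp.add_apply, Finsupp.single_eq_same] at e
  rw [factorization_pr h1 p, factorization_pr h2' p, factorization_pr h2 p,
    factorization_pr h1' p] at e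
  exact e

/-- `B_p = ∑ a_{U ∪ p} a_U a_{U'}^2` over disjoint `U, U'` avoiding `p`. -/
noncomputable def BB (R : ResData) (T : ℝ) (p : ℕ) : ℝ :=
  ∑ q ∈ (QQ T).filter (fun q => p ∉ q.1 ∧ p ∉ q.2),
    aa R T (insert p q.1) * aa R T q.1 * aa R T q.2 ^ 2

lemma QQ_swap {T : ℝ} {q : Finset ℕ × Finset ℕ} (h : q ∈ QQ T) : (q.2, q.1) ∈ QQ T := by
  rw [mem_QQ] at h ⊢
  exact ⟨h.2.1, h.1, h.2.2.symm⟩

lemma CC_prime (R : ResData) {T : ℝ} {p : ℕ} (hp : p ∈ PP T) : CC R T p = 2 * BB R T p := by
  classical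
  have hpp := (mem_PP.mp hp).1
  -- evaluate the inner sum
  have inner : ∀ q ∈ QQ T, (∑ q' ∈ QQ T,
      if pr q.1 * pr q'.2 = p * (pr q.2 * pr q'.1) then al R T q * al R T q' else 0) =
      (if p ∈ q.1 then al R T q * al R T (q.1.erase p, q.2) else 0) +
      (if p ∉ q.1 ∧ p ∉ q.2 then al R T q * al R T (q.1, insert p q.2) else 0) := by
    intro q hq
    obtain ⟨h1, h2, h3⟩ := mem_QQ.mp hq
    by_cases c1 : p ∈ q.1
    · have c2 : ¬ (p ∉ q.1 ∧ p ∉ q.2) := fun h => h.1 c1
      rw [if_pos c1, if_neg c2, add_zero]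
      have hm : (q.1.erase p, q.2) ∈ QQ T := by
        rw [mem_QQ]
        exact ⟨(erase_subset _ _).trans h1, h2, h3.mono_left (erase_subset _ _)⟩
      have hr : pr q.1 * pr (q.1.erase p, q.2).2 = p * (pr q.2 * pr (q.1.erase p, q.2).1) := by
        simp only
        rw [← pr_erase c1]; ring
      rw [sum_eq_single_of_mem _ hm]
      · rw [if_pos hr]
      · intro q' hq' hne
        rw [if_neg]
        exact fun h => hne (rel_unique hpp.pos hq hq' hm h hr)
    · by_cases c2 : p ∈ q.2
      · have c3 : ¬ (p ∉ q.1 ∧ p ∉ q.2) := fun h => h.2 c2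
        rw [if_neg c1, if_neg c3, add_zero]
        apply sum_eq_zero
        intro q' hq'
        rw [if_neg]
        intro h
        have := rel_fact hq hq' (j := 1) hpp (by rw [pow_one]; exact h)
        rw [if_neg c1, if_pos c2] at this
        split_ifs at this <;> omega
      · rw [if_neg c1, if_pos ⟨c1, c2⟩, zero_add]
        have hm : (q.1, insert p q.2) ∈ QQ T := by
          rw [mem_QQ]
          refine ⟨h1, ?_, ?_⟩
          · intro x hx
            rcases mem_insert.mp hx with h | h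
            · rw [h]; exact hp
            · exact h2 h
          · rw [disjoint_insert_right]
            exact ⟨c1, h3⟩
        have hr : pr q.1 * pr (q.1, insert p q.2).2 = p * (pr q.2 * pr (q.1, insert p q.2).1) := by
          simp only
          rw [pr_insert c2]; ring
        rw [sum_eq_single_of_mem _ hm]
        · rw [if_pos hr]
        · intro q' hq' hne
          rw [if_neg]
          exact fun h => hne (rel_unique hpp.pos hq hq' hm h hr)
  unfold CC
  rw [sum_congr rfl inner, sum_add_distrib, ← sum_filter, ← sum_filter, two_mul]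
  congr 1
  · -- bijection `q ↦ (erase p q.1, q.2)`
    unfold BB
    refine sum_bij' (fun q _ => (q.1.erase p, q.2)) (fun q _ => (insert p q.1, q.2)) ?_ ?_ ?_ ?_ ?_
    · intro q hq
      rw [mem_filter, mem_QQ] at hq ⊢
      obtain ⟨⟨h1, h2, h3⟩, h4⟩ := hq
      exact ⟨⟨(erase_subset _ _).trans h1, h2, h3.mono_left (erase_subset _ _)⟩,
        notMem_erase _ _, disjoint_left.mp h3 h4⟩
    · intro q hq
      rw [mem_filter, mem_QQ] at hq ⊢
      obtain ⟨⟨h1, h2, h3⟩, h4, h5⟩ := hq
      refine ⟨⟨?_, h2, ?_⟩, mem_insert_self _ _⟩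
      · intro x hx
        rcases mem_insert.mp hx with h | h
        · rw [h]; exact hp
        · exact h1 h
      · simp only
        rw [disjoint_insert_left]
        exact ⟨h5, h3⟩
    · intro q hq
      rw [mem_filter] at hq
      ext1
      · exact insert_erase hq.2
      · rfl
    · intro q hq
      rw [mem_filter] at hq
      ext1
      · exact erase_insert hq.2.1
      · rfl
    · intro q hq
      rw [mem_filter] at hq
      simp only [al]
      rw [insert_erase hq.2]
      ring
  · -- swap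
    unfold BB
    refine sum_bij' (fun q _ => (q.2, q.1)) (fun q _ => (q.2, q.1)) ?_ ?_ ?_ ?_ ?_
    · intro q hq
      rw [mem_filter] at hq ⊢
      exact ⟨QQ_swap hq.1, hq.2.2, hq.2.1⟩
    · intro q hq
      rw [mem_filter] at hq ⊢
      exact ⟨QQ_swap hq.1, hq.2.2, hq.2.1⟩
    · intro q _; rfl
    · intro q _; rfl
    · intro q _
      simp only [al]
      ring

lemma CC_prime_of_notMem (R : ResData) {T : ℝ} {p : ℕ} (hpp : p.Prime) (hp : p ∉ PP T) :
    CC R T p = 0 := by
  unfold CC
  apply sum_eq_zero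
  intro q hq
  apply sum_eq_zero
  intro q' hq'
  rw [if_neg]
  intro h
  obtain ⟨h1, h2, h3⟩ := mem_QQ.mp hq
  obtain ⟨h1', h2', h3'⟩ := mem_QQ.mp hq'
  have := rel_fact hq hq' (j := 1) hpp (by rw [pow_one]; exact h)
  rw [if_neg (fun h => hp (h1 h)), if_neg (fun h => hp (h2' h))] at this
  omega

/-- The coefficient at squares of primes. -/
lemma CC_sq (R : ResData) {T : ℝ} {p : ℕ} (hpp : p.Prime) :
    CC R T (p ^ 2) = ∑ q ∈ (QQ T).filter (fun q => p ∈ q.1),
      al R T q * al R T (q.1.erase p, insert p q.2) := by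
  classical
  have inner : ∀ q ∈ QQ T, (∑ q' ∈ QQ T,
      if pr q.1 * pr q'.2 = p ^ 2 * (pr q.2 * pr q'.1) then al R T q * al R T q' else 0) =
      (if p ∈ q.1 then al R T q * al R T (q.1.erase p, insert p q.2) else 0) := by
    intro q hq
    obtain ⟨h1, h2, h3⟩ := mem_QQ.mp hq
    by_cases c1 : p ∈ q.1
    · have c2 : p ∉ q.2 := disjoint_left.mp h3 c1
      rw [if_pos c1]
      have hm : (q.1.erase p, insert p q.2) ∈ QQ T := by
        rw [mem_QQ]
        refine ⟨(erase_subset _ _).trans h1, ?_, ?_⟩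
        · intro x hx
          rcases mem_insert.mp hx with h | h
          · rw [h]; exact h1 c1
          · exact h2 h
        · simp only
          rw [disjoint_insert_right]
          exact ⟨notMem_erase _ _, h3.mono_left (erase_subset _ _)⟩
      have hr : pr q.1 * pr (q.1.erase p, insert p q.2).2 =
          p ^ 2 * (pr q.2 * pr (q.1.erase p, insert p q.2).1) := by
        simp only
        rw [← pr_erase c1, pr_insert c2]; ring
      rw [sum_eq_single_of_mem _ hm]
      · rw [if_pos hr]
      · intro q' hq' hne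
        rw [if_neg]
        exact fun h => hne (rel_unique (pow_pos hpp.pos 2) hq hq' hm h hr)
    · rw [if_neg c1]
      apply sum_eq_zero
      intro q' hq'
      rw [if_neg]
      intro h
      have := rel_fact hq hq' (j := 2) hpp h
      rw [if_neg c1] at this
      split_ifs at this <;> omega
  unfold CC
  rw [sum_congr rfl inner, ← sum_filter]

lemma CC_pow (R : ResData) {T : ℝ} {p : ℕ} (hpp : p.Prime) {j : ℕ} (hj : 3 ≤ j) :
    CC R T (p ^ j) = 0 := by
  unfold CC
  apply sum_eq_zero
  intro q hq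
  apply sum_eq_zero
  intro q' hq'
  rw [if_neg]
  intro h
  have := rel_fact hq hq' hpp h
  split_ifs at this <;> omega

end Pool.Agent.ZGap.Res
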