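import Pool.Agent.ZGap.Res.Crowd

/-!
# Positive proportion of small gaps, from the numerical inequality
-/

namespace Pool.Agent.ZGap.Res

open MeasureTheory Real Set Pool.Agent.Hadamard Pool.Agent.ZetaGaps

/-- **Positive proportion of small gaps**, given the numerical inequality. -/
theorem small_gaps_of_num (hRH : RiemannHypothesis) {r θ c a b : ℝ} {m : ℕ} (hm : m ≠ 0)
    (hθ : 0 < θ) (hθ' : θ < 1 / 2) (hc : 0 < c) (hc1 : c ≤ 1) (ha : 0 ≤ a) (hb : 0 ≤ b)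
    (hab : a + b ≤ 1) (h0 : 0 < a + b) (hr : r ≤ 0)
    (hgap : |c - 1| * Den a b (r ^ 2) < 2 / Real.pi * (|r| * Num (Real.pi * c * θ) a b (r ^ 2) m))
    {d : ℝ} (hd : c < d) :
    ∃ κ : ℝ, 0 < κ ∧ ∃ N0 : ℕ, ∀ N : ℕ, N0 ≤ N →
      κ * N ≤ ({n ∈ Finset.Icc 1 N | gap n < d}.card : ℝ) := by
  have hpi := Real.pi_pos
  obtain ⟨κ, hκ, e, he, main⟩ := arith_sum hm hθ hθ'.le hc.le ha hb hab h0 hgap
  set ep := min e (θ / 4) with hep
  have hep0 : 0 < ep := lt_min he (by linarith)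
  have hep1 : ep ≤ θ / 4 := min_le_right _ _
  set δ := min e (1 / 2) with hδ
  have hδ0 : 0 < δ := lt_min he (by norm_num)
  obtain ⟨R, hRth, hRep, hRr, hLP⟩ := exists_linProf (th := θ) (ep := ep) (δ := δ) r hep0
    (by linarith) hθ' ha hb hab hδ0 (min_le_right _ _)
  set e' := min e (π * κ) with he'
  have he'0 : 0 < e' := lt_min he (by positivity)
  obtain ⟨ψ, hψ, hψ00, hψ1, hψ0, ⟨K, M, hK, hlip, hbd⟩, hclose⟩ := exists_minorant hc he'0
  obtain ⟨T1, hT1, harith⟩ := main R hRr hRth (by rw [hRep]; exact min_le_left _ _) δ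
    (min_le_left _ _) hLP (chat ψ) K M e' (-1) hK hlip hbd he'0.le (min_le_left _ _)
    (fun x _ _ => hclose x) (by norm_num) (by rw [abs_of_nonpos hr]; ring)
  have hF : ∀ x, 0 ≤ x → R.F x ≤ 1 := fun x hx => hLP.F_le_one hx
  have hF0 : 0 < R.F 0 := by
    rw [hLP.eq 0 le_rfl (by linarith [hLP.hδ'])]
    linarith
  have hψc : c - κ / 2 ≤ chat ψ 0 / (2 * π) := by
    have h1 := (abs_le.mp (hclose 0)).1
    have h2 : k0 c 0 = 2 * (π * c) := by unfold k0; simp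
    have h3 : e' ≤ π * κ := min_le_right _ _
    rw [le_div_iff₀ (by positivity)]
    rw [h2] at h1
    nlinarith
  obtain ⟨c0, T0, hc0, hvol⟩ := crowd_of_arith hRH R hF hF0 hc hκ hψ hψ00 hψ1 hψ0 hψc
    (T1 := T1) (fun T hT => by
      have h1 := harith T hT ⌊T⌋₊ le_rfl
      rw [abs_of_nonpos (by linarith)] at h1
      linarith)
  exact count_of_crowd hRH hc hd hc0 hvol

end Pool.Agent.ZGap.Res
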