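import Pool.Agent.ZGap.Res.Gap

/-!
# The arithmetic sum of the explicit formula
-/

namespace Pool.Agent.ZGap.Res

open MeasureTheory Finset ArithmeticFunction Filter Topology

/-- The sum over prime powers is at least `(|c - 1| + κ) Sig`, up to the sign. -/
theorem arith_sum {r θ c a b : ℝ} {m : ℕ} (hm : m ≠ 0) (hθ : 0 < θ) (hθ' : θ ≤ 1 / 2) (hc : 0 ≤ c)
    (ha : 0 ≤ a) (hb : 0 ≤ b) (hab : a + b ≤ 1) (h0 : 0 < a + b)
    (hgap : |c - 1| * Den a b (r ^ 2) < 2 / Real.pi * (|r| * Num (Real.pi * c * θ) a b (r ^ 2) m)) :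
    ∃ κ : ℝ, 0 < κ ∧ ∃ e : ℝ, 0 < e ∧ ∀ R : ResData, R.r = r → R.th = θ → R.ep ≤ e → ∀ δ ≤ e,
      LinProf R a b δ → ∀ (k : ℝ → ℝ) (Kk Mk δk σ : ℝ), 0 ≤ Kk →
      (∀ x y, |k x - k y| ≤ Kk * |x - y|) → (∀ x, |k x| ≤ Mk) → 0 ≤ δk → δk ≤ e →
      (∀ x, 0 ≤ x → x ≤ 1 → |k x - k0 c x| ≤ δk) → |σ| ≤ 1 → σ * r = |r| →
      ∃ T0 : ℝ, Real.exp 3 ≤ T0 ∧ ∀ T : ℝ, T0 ≤ T → ∀ N : ℕ, ⌊T⌋₊ ≤ N →
        (|c - 1| + κ) * Sig R T ≤ σ * ((Real.pi * Real.log T)⁻¹ *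
          ∑ n ∈ Finset.Icc 1 N, vonMangoldt n / Real.sqrt n * k (Real.log n / Real.log T) *
            CC R T n) := by
  obtain ⟨κ, hκ, e, he, main⟩ := main_ineq hm hθ hθ' hc ha hb hab hgap
  refine ⟨κ / 2, half_pos hκ, e, he, fun R hRr hRth hep δ hδ hLP k Kk Mk δk σ hKk hkl hkb hδk hδk'
    hk hσ hσr => ?_⟩
  obtain ⟨T1, hT1, h1⟩ := main R hRr hRth hep δ hδ hLP k Kk Mk δk σ hKk hkl hkb hδk hδk' hk hσ hσr
  have hp := Real.pi_pos
  have hep0 := R.ep_pos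
  have hMk : 0 ≤ Mk := (abs_nonneg _).trans (hkb 0)
  have hF : ∀ x, 0 ≤ x → R.F x ≤ 1 := fun x hx => hLP.F_le_one hx
  have hF0 : R.F 0 = a + b := by
    have := hLP.eq 0 le_rfl (by linarith [hLP.hδ'])
    rw [this]; ring
  -- the error constant
  set X : ℝ := (Mk * R.r ^ 2 * E1 R ^ 2 * 3 + 2 * Mk * |R.r| * E1 R ^ 2 *
    (R.r ^ 2 * (3 * (R.r ^ 2 / R.ep)) + R.r ^ 2) * 3) / Real.pi with hX
  have hE1 := E1_pos (R := R)
  have hX0 : 0 ≤ X := by positivity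
  have ev : ∀ᶠ T : ℝ in atTop, X * T ^ (-R.ep) ≤ κ / 2 * R.F 0 ^ 4 := by
    have b1 : Tendsto (fun T : ℝ => T ^ (-R.ep)) atTop (𝓝 0) := tendsto_rpow_neg_atTop hep0
    have b2 := b1.const_mul X
    rw [mul_zero] at b2
    exact b2.eventually (ge_mem_nhds (by rw [hF0]; positivity))
  obtain ⟨T2, hT2⟩ := eventually_atTop.mp ev
  refine ⟨max T1 T2, hT1.trans (le_max_left _ _), fun T hT N hN => ?_⟩
  have t1 : T1 ≤ T := (le_max_left _ _).trans hT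
  have t2 := hT2 T ((le_max_right _ _).trans hT)
  have hTe : Real.exp 3 ≤ T := hT1.trans t1
  have h1T : 1 < T := lt_of_lt_of_le (Real.one_lt_exp_iff.mpr (by norm_num)) hTe
  have hL : 0 < Real.log T := Real.log_pos h1T
  have a1 := h1 T t1
  have a2 := nonprime_part hTe hF hkb N
  have a3 := prime_part hTe hF hkb hN
  have a4 := Sig_le (R := R) (T := T)
  have a5 := le_Sig (R := R) (T := T)
  have a6 := DD_nonneg (R := R) (T := T)
  set Sp := ∑ n ∈ (Icc 1 N).filter Nat.Prime, vonMangoldt n / Real.sqrt n *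
      k (Real.log n / Real.log T) * CC R T n with hSp
  set Sn := ∑ n ∈ (Icc 1 N).filter (fun n => ¬ n.Prime), vonMangoldt n / Real.sqrt n *
      k (Real.log n / Real.log T) * CC R T n with hSn
  have e1 : ∑ n ∈ Finset.Icc 1 N, vonMangoldt n / Real.sqrt n * k (Real.log n / Real.log T) *
      CC R T n = Sp + Sn := (sum_filter_add_sum_filter_not _ _ _).symm
  rw [e1]
  have e2 : (Real.pi * Real.log T)⁻¹ * (Mk * (R.r ^ 2 * T ^ (-R.ep)) * E1 R ^ 2 *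
      (3 * Real.log T) + 2 * Mk * |R.r| * E1 R ^ 2 * (R.r ^ 2 * T ^ (-R.ep) *
        (3 * (R.r ^ 2 / R.ep)) + R.r ^ 2 * T ^ (-R.ep)) * (3 * Real.log T)) =
      X * T ^ (-R.ep) := by
    rw [hX]
    field_simp
  have a7 : |Sp + Sn - 2 * Real.log T * (DD R T * S1 R T k)| ≤
      Mk * (R.r ^ 2 * T ^ (-R.ep)) * E1 R ^ 2 *
      (3 * Real.log T) + 2 * Mk * |R.r| * E1 R ^ 2 * (R.r ^ 2 * T ^ (-R.ep) *
        (3 * (R.r ^ 2 / R.ep)) + R.r ^ 2 * T ^ (-R.ep)) * (3 * Real.log T) := by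
    have e3 : Sp + Sn - 2 * Real.log T * (DD R T * S1 R T k) =
      Sn + (Sp - 2 * Real.log T * (DD R T * S1 R T k)) := by ring
    rw [e3]
    exact (abs_add_le _ _).trans (add_le_add a2 a3)
  have a8 : |σ * ((Real.pi * Real.log T)⁻¹ * (Sp + Sn)) -
      DD R T * (2 / Real.pi * (σ * S1 R T k))| ≤ X * T ^ (-R.ep) := by
    have e4 : σ * ((Real.pi * Real.log T)⁻¹ * (Sp + Sn)) -
        DD R T * (2 / Real.pi * (σ * S1 R T k)) =
        σ * ((Real.pi * Real.log T)⁻¹ *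
          (Sp + Sn - 2 * Real.log T * (DD R T * S1 R T k))) := by
      field_simp
    rw [e4, abs_mul, abs_mul, abs_of_nonneg (by positivity : 0 ≤ (Real.pi * Real.log T)⁻¹), ← e2]
    refine (mul_le_of_le_one_left (by positivity) hσ).trans ?_
    exact mul_le_mul_of_nonneg_left a7 (by positivity)
  have a9 : (|c - 1| + κ) * DD R T ^ 2 ≤ DD R T * (2 / Real.pi * (σ * S1 R T k)) := by
    have := mul_le_mul_of_nonneg_left a1 a6
    calc _ = DD R T * ((|c - 1| + κ) * DD R T) := by ring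
      _ ≤ _ := this
  have a10 : (|c - 1| + κ) * Sig R T ≤ (|c - 1| + κ) * DD R T ^ 2 :=
    mul_le_mul_of_nonneg_left a4 (by positivity)
  have a11 : κ / 2 * R.F 0 ^ 4 ≤ κ / 2 * Sig R T := mul_le_mul_of_nonneg_left a5 (by positivity)
  rw [abs_le] at a8
  linarith [a8.1]

end Pool.Agent.ZGap.Res
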