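import Pool.Agent.ZGap.Res.VV
import Pool.Agent.ZGap.Res.BumpK
import Pool.Agent.ZGap.Res.Arith
import Pool.Agent.ZGap.Res.D8
import Pool.Agent.ZetaGaps.VoidCount

/-!
# Crowded windows have positive measure (R7)
-/

open scoped ContDiff

namespace Pool.Agent.ZGap.Res

open MeasureTheory Real Set Pool.Agent.Hadamard Pool.Agent.ZetaGaps

/-- Existence of resonator data with a linear profile. -/
theorem exists_linProf {th ep δ a b : ℝ} (r : ℝ) (hep : 0 < ep) (hth : 2 * ep < th)
    (hth1 : th < 1 / 2) (ha : 0 ≤ a) (hb : 0 ≤ b) (hab : a + b ≤ 1) (hδ : 0 < δ)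
    (hδ1 : δ ≤ 1 / 2) : ∃ R : ResData, R.th = th ∧ R.ep = ep ∧ R.r = r ∧ LinProf R a b δ := by
  let χ : ContDiffBump (0:ℝ) := ⟨1 - δ, 1, by linarith, by linarith⟩
  have hχ0 : ∀ x, 1 ≤ |x| → χ x = 0 := fun x hx => by
    have : x ∉ Function.support χ := by
      rw [χ.support_eq]
      simp only [Metric.mem_ball, dist_zero_right, Real.norm_eq_abs, not_lt]
      exact hx
    simpa [Function.mem_support] using this
  refine ⟨{
    th := th
    ep := ep
    r := r
    f := fun x => Real.smoothTransition ((x - ep) / ep) *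
      Real.smoothTransition (((th + 1 / 2) / 2 - x) / ((th + 1 / 2) / 2 - th))
    F := fun u => (a + b * (1 - u)) * χ u
    ep_pos := hep
    ep_th := hth
    th_lt := hth1
    f_smooth := ?_
    f_nonneg := fun x => mul_nonneg (Real.smoothTransition.nonneg _) (Real.smoothTransition.nonneg _)
    f_le := fun x => mul_le_one₀ (Real.smoothTransition.le_one _)
      (Real.smoothTransition.nonneg _) (Real.smoothTransition.le_one _)
    f_low := fun x hx => ?_
    f_mid := fun x h1 h2 => ?_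
    f_high := fun x hx => ?_
    F_smooth := ?_
    F_supp := χ.hasCompactSupport.mul_left
    F_nonneg := fun x => ?_
    F_one := fun x hx => ?_ }, rfl, rfl, rfl, ?_⟩
  · apply ContDiff.mul
    · exact Real.smoothTransition.contDiff.comp (by fun_prop)
    · exact Real.smoothTransition.contDiff.comp (by fun_prop)
  · rw [Real.smoothTransition.zero_of_nonpos, zero_mul]
    exact div_nonpos_of_nonpos_of_nonneg (by linarith) hep.le
  · rw [Real.smoothTransition.one_of_one_le, Real.smoothTransition.one_of_one_le, one_mul]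
    · rw [le_div_iff₀ (by linarith)]; linarith
    · rw [le_div_iff₀ hep]; linarith
  · rw [Real.smoothTransition.zero_of_nonpos (x := ((th + 1 / 2) / 2 - x) / _), mul_zero]
    exact div_nonpos_of_nonpos_of_nonneg (by linarith) (by linarith)
  · exact ContDiff.mul (by fun_prop) χ.contDiff
  · by_cases hx : 1 ≤ x
    · rw [hχ0 x (hx.trans (le_abs_self x)), mul_zero]
    · apply mul_nonneg _ χ.nonneg
      have : 0 ≤ b * (1 - x) := mul_nonneg hb (by linarith [not_le.mp hx])
      linarith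
  · rw [hχ0 x (hx.trans (le_abs_self x)), mul_zero]
  · refine ⟨ha, hb, hab, hδ.le, hδ1, fun u h0 h1 => ?_, fun u h0 => ?_⟩
    · show (a + b * (1 - u)) * χ u = _
      rw [χ.one_of_mem_closedBall, mul_one]
      simp only [Metric.mem_closedBall, dist_zero_right, Real.norm_eq_abs]
      rw [abs_of_nonneg h0]
      exact h1
    · show (a + b * (1 - u)) * χ u ≤ _
      by_cases hx : 1 ≤ u
      · rw [hχ0 u (hx.trans (le_abs_self u)), mul_zero]
        linarith
      · have h2 : 0 ≤ b * (1 - u) := mul_nonneg hb (by linarith [not_le.mp hx])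
        have h3 : b * (1 - u) ≤ b := by linarith only [mul_nonneg hb h0]
        have h4 := χ.le_one (x := u)
        have h5 := χ.nonneg (x := u)
        exact (mul_le_of_le_one_right (by linarith only [ha, h2]) h4).trans (by linarith only [h3])

/-- The smoothed count is at most the true count. -/
lemma NC_le_count {ψ : ℝ → ℝ} {c T t : ℝ} (hL : 1 ≤ Real.log T) (hψ1 : ∀ x, ψ x ≤ 1)
    {K : ℝ} (hK : ∀ x, |ψ x| ≤ K / (1 + x ^ 2))
    (hψ0 : ∀ x, π * c ≤ |x| → ψ x = 0) (ht : π * c / Real.log T < t) (hc : 0 < c) :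
    NC ψ T t ≤ (zeroCount (t + π * c / Real.log T) : ℝ) - zeroCount (t - π * c / Real.log T) := by
  classical
  have hL0 : 0 < Real.log T := by linarith
  set r := π * c / Real.log T with hr
  have hr0 : 0 < r := by positivity
  have hsub := zeroCount_sub (S := t - r) (T := t + r) (by linarith)
  have hsum := NC_summable hK hL t
  unfold NC
  refine hsum.tsum_le_of_sum_le fun s => ?_
  set s' : Finset ntz := s.filter (fun ρ : ntz => |t - (ρ : ℂ).im| < r) with hs'
  have h1 : ∑ ρ ∈ s, (mult ρ : ℝ) * ψ ((t - (ρ : ℂ).im) * Real.log T) ≤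
      ∑ ρ ∈ s', (mult (ρ : ℂ) : ℝ) := by
    rw [hs', Finset.sum_filter]
    refine Finset.sum_le_sum fun ρ _ => ?_
    split_ifs with h
    · exact mul_le_of_le_one_right (Nat.cast_nonneg _) (hψ1 _)
    · rw [hψ0, mul_zero]
      rw [abs_mul, abs_of_pos hL0]
      have := not_lt.mp h
      rw [hr, div_le_iff₀ hL0] at this
      exact this
  refine h1.trans ?_
  have h2 : ∑ ρ ∈ s', (mult (ρ : ℂ)) ≤
      ∑ ρ ∈ (finite_zerosUpTo (t + r)).toFinset.filter (fun ρ => t - r < ρ.im), mult ρ := by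
    have e1 : ∑ ρ ∈ s', (mult (ρ : ℂ)) =
        ∑ ρ ∈ s'.map (Function.Embedding.subtype (fun x => x ∈ ntz)), mult ρ := by
      rw [Finset.sum_map]
      rfl
    rw [e1]
    apply Finset.sum_le_sum_of_subset
    intro ρ hρ
    rw [Finset.mem_map] at hρ
    obtain ⟨ρ', hρ', rfl⟩ := hρ
    rw [hs', Finset.mem_filter] at hρ'
    have h3 := abs_lt.mp hρ'.2
    rw [Finset.mem_filter, Set.Finite.mem_toFinset, mem_zerosUpTo]
    refine ⟨⟨ρ'.2, ?_, ?_⟩, ?_⟩
    · show 0 < (ρ' : ℂ).im
      linarith [h3.2]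
    · show (ρ' : ℂ).im ≤ t + r
      linarith [h3.1]
    · show t - r < (ρ' : ℂ).im
      linarith [h3.2]
  have h3 : (∑ ρ ∈ s', (mult (ρ : ℂ) : ℝ)) ≤
      ((∑ ρ ∈ (finite_zerosUpTo (t + r)).toFinset.filter (fun ρ => t - r < ρ.im), mult ρ : ℕ) : ℝ) := by
    exact_mod_cast h2
  refine h3.trans ?_
  rw [hsub]
  push_cast
  linarith

lemma measurable_zeroCount : Measurable fun t : ℝ => zeroCount t := zeroCount_mono.measurable

/-- The set of centres of crowded windows is measurable. -/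
lemma measurableSet_crowd (r : ℝ) : MeasurableSet {t : ℝ | zeroCount (t - r) + 2 ≤ zeroCount (t + r)} := by
  have h1 : Measurable fun t : ℝ => zeroCount (t - r) + 2 :=
    (measurable_zeroCount.comp (measurable_id.sub_const r)).add_const 2
  have h2 : Measurable fun t : ℝ => zeroCount (t + r) :=
    measurable_zeroCount.comp (measurable_id.add_const r)
  exact measurableSet_le h1 h2

/-- `x y ≤ μ/2 x² + y²/(2μ)`, twice. -/
lemma young {μ ν A N : ℝ} (hμ : 0 < μ) (hν : 0 < ν) :
    A ^ 2 * N ≤ μ / 2 * A ^ 4 + ν / (4 * μ) * N ^ 4 + 1 / (4 * μ * ν) := by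
  have h1 : A ^ 2 * N ≤ μ / 2 * A ^ 4 + 1 / (2 * μ) * N ^ 2 := by
    have h2 : 0 ≤ (μ * A ^ 2 - N) ^ 2 / (2 * μ) := by positivity
    have h3 : (μ * A ^ 2 - N) ^ 2 / (2 * μ) = μ / 2 * A ^ 4 + 1 / (2 * μ) * N ^ 2 - A ^ 2 * N := by
      field_simp
      ring
    linarith
  have h2 : 1 / (2 * μ) * N ^ 2 ≤ ν / (4 * μ) * N ^ 4 + 1 / (4 * μ * ν) := by
    have h3 : 0 ≤ (ν * N ^ 2 - 1) ^ 2 / (4 * μ * ν) := by positivity
    have h4 : (ν * N ^ 2 - 1) ^ 2 / (4 * μ * ν) =
        ν / (4 * μ) * N ^ 4 + 1 / (4 * μ * ν) - 1 / (2 * μ) * N ^ 2 := by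
      field_simp
      ring
    linarith
  linarith

/-- **Crowded windows**, from the arithmetic inequality. -/
theorem crowd_of_arith (hRH : RiemannHypothesis) (R : ResData) (hF : ∀ x, 0 ≤ x → R.F x ≤ 1)
    (hF0 : 0 < R.F 0) {c κ : ℝ} (hc : 0 < c) (hκ : 0 < κ) {ψ : ℝ → ℝ} (hψ : RS ψ)
    (hψ00 : ∀ x, 0 ≤ ψ x) (hψ1 : ∀ x, ψ x ≤ 1) (hψ0 : ∀ x, π * c ≤ |x| → ψ x = 0)
    (hψc : c - κ / 2 ≤ chat ψ 0 / (2 * π)) {T1 : ℝ}
    (harith : ∀ T : ℝ, T1 ≤ T → (1 - c + κ) * Sig R T ≤ -((π * Real.log T)⁻¹ *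
      ∑ n ∈ Finset.Icc 1 ⌊T⌋₊, ArithmeticFunction.vonMangoldt n / Real.sqrt n *
        chat ψ (Real.log n / Real.log T) * CC R T n)) :
    ∃ c0 T0 : ℝ, 0 < c0 ∧ ∀ T : ℝ, T0 ≤ T → c0 * T ≤ volume.real {t : ℝ |
      t ∈ Set.Icc (T / 2) (3 * T) ∧ zeroCount (t - π * c / Real.log T) + 2 ≤
        zeroCount (t + π * c / Real.log T)} := by
  have hpi := Real.pi_pos
  obtain ⟨C2, T2, hC2, hT2, hcount⟩ := exists_VV_count hRH R hF hψ
  obtain ⟨T3, hT3, hV⟩ := exists_VV R hF
  obtain ⟨K1, T4, hK1, hT4, hfour⟩ := FM.fourth_moment hRH R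
  obtain ⟨C5, T5, hC5, hT5, hW1⟩ := FM.W1_le hRH (k := 4) le_rfl
  obtain ⟨K2, hK2, hQ⟩ := FM.QQ_moment (k := 4) le_rfl
  obtain ⟨C6, hC6, hNCle⟩ := exists_NC_le
  set K : ℝ := 1 + (π * c) ^ 2 with hK
  have hK0 : 0 < K := by positivity
  have hψK : ∀ x, |ψ x| ≤ K / (1 + x ^ 2) := by
    intro x
    rw [abs_of_nonneg (hψ00 x), le_div_iff₀ (by positivity)]
    by_cases hx : π * c ≤ |x|
    · rw [hψ0 x hx, zero_mul]; exact hK0.le
    · have h1 : x ^ 2 ≤ (π * c) ^ 2 := by
        rw [← sq_abs x]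
        exact pow_le_pow_left₀ (abs_nonneg _) (not_le.mp hx).le 2
      calc ψ x * (1 + x ^ 2) ≤ 1 * (1 + (π * c) ^ 2) :=
            mul_le_mul (hψ1 x) (by linarith) (by positivity) zero_le_one
        _ = K := by rw [hK, one_mul]
  set s0 : ℝ := R.F 0 ^ 4 with hs0
  have hs0p : 0 < s0 := by positivity
  -- the parameters
  set μ : ℝ := s0 * κ / (8 * K1) with hμ
  have hμ0 : 0 < μ := by positivity
  set ν : ℝ := s0 * κ * μ / (4 * ((K * C5) ^ 4 * K2)) with hν
  have hν0 : 0 < ν := by positivity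
  refine ⟨4 * μ * ν * (s0 * κ / 4), max (max (max T1 T2) (max T3 T4)) (max (max T5 (4 * π * c + 8))
    (max (Real.exp (16 * C2 / (s0 * κ))) (32 * C6 * K * π / (s0 * κ)))), by positivity,
    fun T hT => ?_⟩
  have hTT1 : T1 ≤ T := (le_max_left _ _).trans ((le_max_left _ _).trans ((le_max_left _ _).trans hT))
  have hTT2 : T2 ≤ T := (le_max_right _ _).trans ((le_max_left _ _).trans ((le_max_left _ _).trans hT))
  have hTT3 : T3 ≤ T := (le_max_left _ _).trans ((le_max_right _ _).trans ((le_max_left _ _).trans hT))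
  have hTT4 : T4 ≤ T := (le_max_right _ _).trans ((le_max_right _ _).trans ((le_max_left _ _).trans hT))
  have hTT5 : T5 ≤ T := (le_max_left _ _).trans ((le_max_left _ _).trans ((le_max_right _ _).trans hT))
  have hTT6 : 4 * π * c + 8 ≤ T :=
    (le_max_right _ _).trans ((le_max_left _ _).trans ((le_max_right _ _).trans hT))
  have hTT7 : Real.exp (16 * C2 / (s0 * κ)) ≤ T :=
    (le_max_left _ _).trans ((le_max_right _ _).trans ((le_max_right _ _).trans hT))
  have hTT8 : 32 * C6 * K * π / (s0 * κ) ≤ T :=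
    (le_max_right _ _).trans ((le_max_right _ _).trans ((le_max_right _ _).trans hT))
  have hTe : Real.exp 3 ≤ T := hT2.trans hTT2
  have h1T : 1 < T := lt_of_lt_of_le (Real.one_lt_exp_iff.mpr (by norm_num)) hTe
  have hTp : 0 < T := by linarith
  have hL3 : 3 ≤ Real.log T := by rw [Real.le_log_iff_exp_le hTp]; exact hTe
  have hL1 : 1 ≤ Real.log T := by linarith
  have hL : 0 < Real.log T := by linarith
  set r := π * c / Real.log T with hr
  have hr0 : 0 < r := by positivity
  have hrT : r < T / 2 := by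
    have : r ≤ π * c := div_le_self (by positivity) hL1
    linarith only [this, hTT6, mul_pos hpi hc]
  set E : Set ℝ := {t : ℝ | t ∈ Set.Icc (T / 2) (3 * T) ∧ zeroCount (t - r) + 2 ≤
        zeroCount (t + r)} with hE
  have hEmeas : MeasurableSet E := measurableSet_Icc.inter (measurableSet_crowd r)
  have hEfin : volume E ≠ ⊤ := by
    refine ne_top_of_le_ne_top ?_ (measure_mono (show E ⊆ Set.Icc (T / 2) (3 * T) from
      fun t ht => ht.1))
    rw [Real.volume_Icc]; exact ENNReal.ofReal_ne_top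
  obtain ⟨⟨M, hWt⟩, hdec, -, hint, -⟩ := hV T hTT3
  obtain ⟨h2k, hW1T⟩ := hW1 T hTT5
  -- lower bound of the mean
  have hlow : T * (Sig R T * (1 + κ / 2)) - C2 * T / Real.log T ≤ ∫ t : ℝ, VV R T t * NC ψ T t := by
    have h1 := (abs_le.mp (hcount T hTT2)).1
    have h2 := harith T hTT1
    have hS : 0 ≤ Sig R T := Finset.sum_nonneg fun _ _ => sq_nonneg _
    have h3 : Sig R T * (1 + κ / 2) ≤ chat ψ 0 / (2 * π) * Sig R T - (π * Real.log T)⁻¹ *
        ∑ n ∈ Finset.Icc 1 ⌊T⌋₊, ArithmeticFunction.vonMangoldt n / Real.sqrt n *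
          chat ψ (Real.log n / Real.log T) * CC R T n := by
      have h4 : (c - κ / 2) * Sig R T ≤ chat ψ 0 / (2 * π) * Sig R T :=
        mul_le_mul_of_nonneg_right hψc hS
      linarith
    have h5 := mul_le_mul_of_nonneg_left h3 hTp.le
    linarith
  have hSig : s0 ≤ Sig R T := le_Sig
  -- pointwise bound
  set B : ℝ → ℝ := fun t => (T ^ 3)⁻¹ * (2 * C6 * K) * (1 + t ^ 2)⁻¹ with hB
  set Q : ℝ → ℝ := fun t => μ / 2 * ‖Amp R T t‖ ^ 4 + ν / (4 * μ) *
    ((K * C5) ^ 4 * FM.QQ 4 T t ^ (2 * 4)) with hQdef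
  have hNCnn : ∀ t, 0 ≤ NC ψ T t := fun t =>
    tsum_nonneg fun ρ => mul_nonneg (Nat.cast_nonneg _) (hψ00 _)
  have hpt : ∀ t, VV R T t * NC ψ T t ≤ VV R T t + (Icc (T / 2) (3 * T)).indicator Q t +
      E.indicator (fun _ => 1 / (4 * μ * ν)) t + B t := by
    intro t
    have hVnn := VV_nonneg R hTp t
    have hBnn : 0 ≤ B t := by simp only [hB]; positivity
    have hQnn : 0 ≤ Q t := by
      simp only [hQdef]
      have := FM.one_le_QQ (k := 4) h1T.le t
      positivity
    have hnn1 : 0 ≤ (Icc (T / 2) (3 * T)).indicator Q t := by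
      by_cases h : t ∈ Icc (T / 2) (3 * T)
      · rw [Set.indicator_of_mem h]; exact hQnn
      · rw [Set.indicator_of_notMem h]
    have hnn2 : 0 ≤ E.indicator (fun _ => 1 / (4 * μ * ν)) t :=
      Set.indicator_nonneg (fun _ _ => by positivity) t
    by_cases htI : t ∈ Icc (T / 2) (3 * T)
    · by_cases htE : zeroCount (t - r) + 2 ≤ zeroCount (t + r)
      · rw [Set.indicator_of_mem htI, Set.indicator_of_mem (show t ∈ E from ⟨htI, htE⟩)]
        have h1 : VV R T t * NC ψ T t ≤ ‖Amp R T t‖ ^ 2 * NC ψ T t := by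
          apply mul_le_mul_of_nonneg_right _ (hNCnn t)
          unfold VV
          exact mul_le_of_le_one_left (by positivity) (Om_le_one (by positivity) hTp t)
        have h2 := young (A := ‖Amp R T t‖) (N := NC ψ T t) hμ0 hν0
        have h3 : NC ψ T t ^ 4 ≤ (K * C5) ^ 4 * FM.QQ 4 T t ^ (2 * 4) := by
          have h4 : NC ψ T t ≤ K * FM.W1 T t := by
            unfold NC FM.W1
            rw [← tsum_mul_left]
            apply (NC_summable hψK hL1 t).tsum_le_tsum _ ((FM.W1_summable hRH hL1 t).mul_left K)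
            intro ρ
            have h5 := (le_abs_self _).trans (hψK ((t - (ρ : ℂ).im) * Real.log T))
            calc (mult ρ : ℝ) * ψ ((t - (ρ : ℂ).im) * Real.log T) ≤ (mult ρ : ℝ) *
                  (K / (1 + ((t - (ρ : ℂ).im) * Real.log T) ^ 2)) :=
                  mul_le_mul_of_nonneg_left h5 (Nat.cast_nonneg _)
              _ = _ := by rw [mul_comm (t - (ρ : ℂ).im)]; ring
          have h5 : FM.W1 T t ≤ C5 * FM.QQ 4 T t := hW1T t (by linarith [htI.1]) (by linarith [htI.2])
          have h6 := FM.one_le_QQ (k := 4) h1T.le t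
          have h7 : NC ψ T t ≤ K * C5 * FM.QQ 4 T t := by
            refine h4.trans ?_
            rw [mul_assoc]
            exact mul_le_mul_of_nonneg_left h5 hK0.le
          calc NC ψ T t ^ 4 ≤ (K * C5 * FM.QQ 4 T t) ^ 4 := pow_le_pow_left₀ (hNCnn t) h7 4
            _ = (K * C5) ^ 4 * FM.QQ 4 T t ^ 4 := mul_pow _ _ _
            _ ≤ _ := by
                apply mul_le_mul_of_nonneg_left _ (by positivity)
                exact pow_le_pow_right₀ h6 (by norm_num)
        have h8 : ν / (4 * μ) * NC ψ T t ^ 4 ≤ ν / (4 * μ) *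
            ((K * C5) ^ 4 * FM.QQ 4 T t ^ (2 * 4)) := mul_le_mul_of_nonneg_left h3 (by positivity)
        simp only [hQdef]
        linarith
      · have h1 : NC ψ T t ≤ 1 := by
          have h2 := NC_le_count (T := T) hL1 hψ1 hψK hψ0 (t := t)
            (by linarith [htI.1]) hc
          have h3 : zeroCount (t + r) ≤ zeroCount (t - r) + 1 := by omega
          have h4 : (zeroCount (t + r) : ℝ) ≤ zeroCount (t - r) + 1 := by exact_mod_cast h3
          rw [← hr] at h2
          linarith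
        have h2 : VV R T t * NC ψ T t ≤ VV R T t := mul_le_of_le_one_right hVnn h1
        linarith
    · have h1 : VV R T t * NC ψ T t ≤ B t := by
        have h2 := hdec t htI
        have h3 := (le_abs_self _).trans (hNCle ψ K T hψK hL1 t)
        have h4 := log_abs_add_two_le t
        simp only [hB]
        calc VV R T t * NC ψ T t ≤ (T ^ 3)⁻¹ / (1 + t ^ 2) ^ 2 * (C6 * K * (2 * (1 + t ^ 2))) := by
              apply mul_le_mul h2 _ (hNCnn t) (by positivity)
              refine h3.trans ?_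
              exact mul_le_mul_of_nonneg_left h4 (by positivity)
          _ = _ := by
              field_simp
      linarith
  -- integrability
  have hiV : Integrable (VV R T) := hWt.integrable
  have hiQ : Integrable ((Icc (T / 2) (3 * T)).indicator Q) := by
    rw [integrable_indicator_iff measurableSet_Icc]
    have h1 := Amp_continuous R T
    have h2 := FM.QQ_continuous 4 T
    have h3 : Continuous Q := by simp only [hQdef]; fun_prop
    exact h3.integrableOn_Icc
  have hiE : Integrable (E.indicator (fun _ => 1 / (4 * μ * ν))) :=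
    (integrable_indicator_iff hEmeas).mpr (integrableOn_const hEfin)
  have hiB : Integrable B := integrable_inv_one_add_sq.const_mul _
  have hiVN : Integrable (fun t => VV R T t * NC ψ T t) := by
    have hcont : Continuous (NC ψ T) := NC_continuous hψ.continuous hψK hL1
    refine hWt.integrable_mul (A := C6 * K * 2) hcont fun t => ?_
    refine (hNCle ψ K T hψK hL1 t).trans ?_
    have := log_abs_add_two_le t
    calc C6 * K * Real.log (|t| + 2) ≤ C6 * K * (2 * (1 + t ^ 2)) :=
          mul_le_mul_of_nonneg_left this (by positivity)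
      _ = _ := by ring
  have hi1 : Integrable (fun t => VV R T t + (Icc (T / 2) (3 * T)).indicator Q t) := hiV.add hiQ
  have hi2 : Integrable (fun t => VV R T t + (Icc (T / 2) (3 * T)).indicator Q t +
      E.indicator (fun _ => 1 / (4 * μ * ν)) t) := hi1.add hiE
  have hi3 : Integrable (fun t => VV R T t + (Icc (T / 2) (3 * T)).indicator Q t +
      E.indicator (fun _ => 1 / (4 * μ * ν)) t + B t) := hi2.add hiB
  have hup : ∫ t : ℝ, VV R T t * NC ψ T t ≤ T * Sig R T + (s0 * κ / 16 * T + s0 * κ / 16 * T) +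
      1 / (4 * μ * ν) * volume.real E + (T ^ 3)⁻¹ * (2 * C6 * K) * π := by
    have h1 : ∫ t : ℝ, VV R T t * NC ψ T t ≤ ∫ t : ℝ, (VV R T t +
        (Icc (T / 2) (3 * T)).indicator Q t + E.indicator (fun _ => 1 / (4 * μ * ν)) t + B t) :=
      integral_mono hiVN hi3 hpt
    have e1 : ∫ t : ℝ, (VV R T t + (Icc (T / 2) (3 * T)).indicator Q t +
        E.indicator (fun _ => 1 / (4 * μ * ν)) t + B t) =
        (∫ t : ℝ, VV R T t) + (∫ t : ℝ, (Icc (T / 2) (3 * T)).indicator Q t) +
        (∫ t : ℝ, E.indicator (fun _ => 1 / (4 * μ * ν)) t) + ∫ t : ℝ, B t := by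
      rw [integral_add hi2 hiB, integral_add hi1 hiE, integral_add hiV hiQ]
    have e2 : ∫ t : ℝ, E.indicator (fun _ => 1 / (4 * μ * ν)) t =
        1 / (4 * μ * ν) * volume.real E := by
      rw [integral_indicator hEmeas, setIntegral_const, smul_eq_mul, mul_comm]
    have e3 : ∫ t : ℝ, B t = (T ^ 3)⁻¹ * (2 * C6 * K) * π := by
      simp only [hB]
      rw [integral_const_mul, integral_univ_inv_one_add_sq]
    have e4 : ∫ t : ℝ, (Icc (T / 2) (3 * T)).indicator Q t ≤
        s0 * κ / 16 * T + s0 * κ / 16 * T := by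
      rw [integral_indicator measurableSet_Icc]
      have c1 := Amp_continuous R T
      have c2 := FM.QQ_continuous 4 T
      have i1 : IntegrableOn (fun t => μ / 2 * ‖Amp R T t‖ ^ 4) (Icc (T / 2) (3 * T)) :=
        (by fun_prop : Continuous fun t => μ / 2 * ‖Amp R T t‖ ^ 4).integrableOn_Icc
      have i2 : IntegrableOn (fun t => ν / (4 * μ) * ((K * C5) ^ 4 * FM.QQ 4 T t ^ (2 * 4)))
          (Icc (T / 2) (3 * T)) :=
        (by fun_prop : Continuous fun t => ν / (4 * μ) * ((K * C5) ^ 4 *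
          FM.QQ 4 T t ^ (2 * 4))).integrableOn_Icc
      simp only [hQdef]
      rw [integral_add i1 i2, integral_const_mul, integral_const_mul, integral_const_mul]
      have f1 : ∫ t in Icc (T / 2) (3 * T), ‖Amp R T t‖ ^ 4 ≤ K1 * T := by
        have := hfour T hTT4
        rwa [intervalIntegral.integral_of_le (by linarith), ← integral_Icc_eq_integral_Ioc] at this
      have f2 : ∫ t in Icc (T / 2) (3 * T), FM.QQ 4 T t ^ (2 * 4) ≤ K2 * T := by
        refine le_trans ?_ (hQ T h2k)
        apply setIntegral_mono_set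
        · exact (by fun_prop : Continuous fun t => FM.QQ 4 T t ^ (2 * 4)).integrableOn_Icc
        · exact Filter.Eventually.of_forall fun t =>
            pow_nonneg (by linarith [FM.one_le_QQ (k := 4) h1T.le t]) _
        · exact (Icc_subset_Icc (by linarith) (by linarith)).eventuallyLE
      have f3 : μ / 2 * ∫ t in Icc (T / 2) (3 * T), ‖Amp R T t‖ ^ 4 ≤ s0 * κ / 16 * T := by
        calc _ ≤ μ / 2 * (K1 * T) := mul_le_mul_of_nonneg_left f1 (by positivity)
          _ = _ := by rw [hμ]; field_simp; ring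
      have f4 : ν / (4 * μ) * ((K * C5) ^ 4 * ∫ t in Icc (T / 2) (3 * T), FM.QQ 4 T t ^ (2 * 4)) ≤
          s0 * κ / 16 * T := by
        calc _ ≤ ν / (4 * μ) * ((K * C5) ^ 4 * (K2 * T)) := by gcongr
          _ = _ := by rw [hν]; field_simp; ring
      linarith
    rw [e1, hint, e2, e3] at h1
    linarith
  -- the two small terms
  have hsm1 : C2 * T / Real.log T ≤ s0 * κ / 16 * T := by
    have h1 : 16 * C2 / (s0 * κ) ≤ Real.log T := by
      rw [Real.le_log_iff_exp_le hTp]; exact hTT7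
    rw [div_le_iff₀ (by positivity)] at h1
    rw [div_le_iff₀ hL]
    linarith only [mul_le_mul_of_nonneg_right h1 hTp.le]
  have hsm2 : (T ^ 3)⁻¹ * (2 * C6 * K) * π ≤ s0 * κ / 16 * T := by
    have h1 : (T ^ 3)⁻¹ ≤ 1 := inv_le_one_of_one_le₀ (one_le_pow₀ h1T.le)
    have h2 : 32 * C6 * K * π ≤ s0 * κ * T := by
      rw [div_le_iff₀ (by positivity)] at hTT8
      linarith
    calc (T ^ 3)⁻¹ * (2 * C6 * K) * π ≤ 1 * (2 * C6 * K) * π := by gcongr
      _ ≤ _ := by linarith
  have hmain : s0 * κ / 4 * T ≤ 1 / (4 * μ * ν) * volume.real E := by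
    have h1 : T * (s0 * (κ / 2)) ≤ T * (Sig R T * (κ / 2)) := by gcongr
    linarith only [h1, hlow, hup, hsm1, hsm2]
  have hfin : 4 * μ * ν * (s0 * κ / 4 * T) ≤ volume.real E := by
    have h1 := mul_le_mul_of_nonneg_left hmain (show 0 ≤ 4 * μ * ν by positivity)
    have h2 : 4 * μ * ν * (1 / (4 * μ * ν) * volume.real E) = volume.real E := by
      field_simp
    linarith
  calc 4 * μ * ν * (s0 * κ / 4) * T = 4 * μ * ν * (s0 * κ / 4 * T) := by ring
    _ ≤ _ := hfin

end Pool.Agent.ZGap.Res
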