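import Pool.Agent.ZGap.ClusterMeasure

/-!
# (d1) A positive band-limited kernel and the local count of zeros
-/

namespace Pool.Agent.ZGap.Res.FM

open MeasureTheory Real Set ArithmeticFunction Pool.Agent.Hadamard Pool.Agent.DirPoly

lemma aux_f1 {v : ℝ} (h0 : 0 ≤ v) (h1 : v ≤ 1) :
    |-(1 + Real.cos (π * v)) - (1 - v) * (π * Real.sin (π * v))| ≤ 5 := by
  have hpi := Real.pi_gt_three
  have hpi2 := Real.pi_lt_d2
  have hs0 : 0 ≤ Real.sin (π * v) :=
    Real.sin_nonneg_of_nonneg_of_le_pi (by positivity) (by nlinarith)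
  have hs1 := Real.sin_le_one (π * v)
  have hc0 := Real.neg_one_le_cos (π * v)
  have hc1 := Real.cos_le_one (π * v)
  have h2 : (1 - v) * (π * Real.sin (π * v)) ≤ 3 := by
    rcases le_total v (1 / 10) with hv | hv
    · have h3 : Real.sin (π * v) ≤ π * v := Real.sin_le (by positivity)
      have h4 : π * Real.sin (π * v) ≤ π * (π * v) := by gcongr
      have h5 : π * (π * v) ≤ 3 := by nlinarith
      have h6 : 0 ≤ π * Real.sin (π * v) := by positivity
      nlinarith
    · have h3 : π * Real.sin (π * v) ≤ 3.15 := by nlinarith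
      have h6 : 0 ≤ π * Real.sin (π * v) := by positivity
      nlinarith
  have h3 : 0 ≤ (1 - v) * (π * Real.sin (π * v)) :=
    mul_nonneg (by linarith) (by positivity)
  rw [abs_le]
  constructor <;> linarith

/-- Positive kernel data: `(1-v)(1+cos πv)`. -/
noncomputable def posData : Gen.PhiData where
  f0 := fun v => (1 - v) * (1 + Real.cos (π * v))
  f1 := fun v => -(1 + Real.cos (π * v)) - (1 - v) * (π * Real.sin (π * v))
  f2 := fun v => 2 * (π * Real.sin (π * v)) - (1 - v) * (π ^ 2 * Real.cos (π * v))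
  c0 := by fun_prop
  c1 := by fun_prop
  c2 := by fun_prop
  d0 := fun v => by
    have h1 : HasDerivAt (fun v : ℝ => π * v) π v := by
      simpa using (hasDerivAt_id v).const_mul π
    have h2 : HasDerivAt (fun v : ℝ => 1 - v) (-1) v := by
      simpa using (hasDerivAt_id v).const_sub 1
    refine (h2.mul (h1.cos.const_add 1)).congr_deriv ?_
    ring
  d1 := fun v => by
    have h1 : HasDerivAt (fun v : ℝ => π * v) π v := by
      simpa using (hasDerivAt_id v).const_mul π
    have h2 : HasDerivAt (fun v : ℝ => 1 - v) (-1) v := by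
      simpa using (hasDerivAt_id v).const_sub 1
    refine (((h1.cos.const_add 1).neg).sub (h2.mul (h1.sin.const_mul π))).congr_deriv ?_
    ring
  one := by norm_num
  b0 := fun v h0 h1 => by
    have h2 := Real.neg_one_le_cos (π * v)
    have h3 := Real.cos_le_one (π * v)
    rw [abs_of_nonneg (mul_nonneg (by linarith) (by linarith))]
    nlinarith
  b1 := fun v h0 h1 => aux_f1 h0 h1
  b2 := fun v h0 h1 => by
    have hpi := Real.pi_gt_three
    have hpi2 := Real.pi_lt_d2
    have hs := abs_le.mpr ⟨Real.neg_one_le_sin (π * v), Real.sin_le_one (π * v)⟩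
    have hc := abs_le.mpr ⟨Real.neg_one_le_cos (π * v), Real.cos_le_one (π * v)⟩
    calc _ ≤ |2 * (π * Real.sin (π * v))| + |(1 - v) * (π ^ 2 * Real.cos (π * v))| := abs_sub _ _
      _ = 2 * π * |Real.sin (π * v)| + (1 - v) * π ^ 2 * |Real.cos (π * v)| := by
          rw [abs_mul, abs_mul, abs_mul, abs_mul, abs_of_pos (by norm_num : (0:ℝ) < 2),
            abs_of_pos Real.pi_pos, abs_of_nonneg (by linarith : 0 ≤ 1 - v),
            abs_of_pos (by positivity : 0 < π ^ 2)]
          ring
      _ ≤ 2 * π * 1 + 1 * π ^ 2 * 1 := by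
          gcongr
          linarith
      _ ≤ 24 := by nlinarith

lemma fejer_ge {D x Y : ℝ} (hD : 0 < D) (hY : 0 < Y) (hx : |D * x| ≤ Y) :
    D * (1 - Real.cos (D * x)) / Y ^ 2 ≤ Gen.FF fejerData D x := by
  by_cases h0 : x = 0
  · rw [h0]
    simp only [mul_zero, Real.cos_zero, sub_self, zero_div]
    exact fejer_nonneg hD 0
  · rw [fejer_closed hD h0]
    have h1 : 0 ≤ 1 - Real.cos (D * x) := by linarith [Real.cos_le_one (D * x)]
    have h2 : (D * x) ^ 2 ≤ Y ^ 2 := by rw [← sq_abs]; gcongr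
    have h3 : 0 < (D * x) ^ 2 := by positivity
    calc D * (1 - Real.cos (D * x)) / Y ^ 2 ≤ D * (1 - Real.cos (D * x)) / (D * x) ^ 2 := by
          gcongr
      _ = _ := by
          field_simp

lemma posData_FF {D x : ℝ} (hD : 0 < D) : Gen.FF posData D x =
    Gen.FF fejerData D x + (Gen.FF fejerData D (x + π / D) + Gen.FF fejerData D (x - π / D)) / 2 := by
  have e1 : ∀ y, Gen.FF fejerData D y = ∫ η in (0:ℝ)..D, (1 - η / D) * Real.cos (y * η) :=
    fun y => rfl
  have e2 : Gen.FF posData D x =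
      ∫ η in (0:ℝ)..D, ((1 - η / D) * (1 + Real.cos (π * (η / D)))) * Real.cos (x * η) := rfl
  rw [e1, e1, e1, e2, ← intervalIntegral.integral_add (Continuous.intervalIntegrable (by fun_prop) _ _)
    (Continuous.intervalIntegrable (by fun_prop) _ _), ← intervalIntegral.integral_div,
    ← intervalIntegral.integral_add (Continuous.intervalIntegrable (by fun_prop) _ _)
    (Continuous.intervalIntegrable (by fun_prop) _ _)]
  refine intervalIntegral.integral_congr fun η _ => ?_
  have h1 : (x + π / D) * η = x * η + π * (η / D) := by ring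
  have h2 : (x - π / D) * η = x * η - π * (η / D) := by ring
  rw [h1, h2, Real.cos_add, Real.cos_sub]
  ring

lemma posData_lower {D x : ℝ} (hD : 0 < D) : 2 * D / (|D * x| + π) ^ 2 ≤ Gen.FF posData D x := by
  rw [posData_FF hD]
  have hpi := Real.pi_pos
  have hY : 0 < |D * x| + π := by positivity
  have h1 := fejer_ge (x := x) hD hY (by linarith)
  have e1 : D * (x + π / D) = D * x + π := by field_simp
  have e2 : D * (x - π / D) = D * x - π := by field_simp
  have h2 := fejer_ge (x := x + π / D) hD hY (by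
    rw [e1]; exact (abs_add_le _ _).trans (by rw [abs_of_pos hpi]))
  have h3 := fejer_ge (x := x - π / D) hD hY (by
    rw [e2]; exact (abs_sub _ _).trans (by rw [abs_of_pos hpi]))
  rw [e1, Real.cos_add_pi] at h2
  rw [e2, Real.cos_sub_pi] at h3
  have e3 : 2 * D / (|D * x| + π) ^ 2 = D * (1 - Real.cos (D * x)) / (|D * x| + π) ^ 2 +
      (D * (1 - -Real.cos (D * x)) / (|D * x| + π) ^ 2 +
        D * (1 - -Real.cos (D * x)) / (|D * x| + π) ^ 2) / 2 := by
    rw [← add_div, div_div, ← sub_eq_zero]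
    field_simp
    ring
  rw [e3]
  linarith

lemma posData_lower' {D L x : ℝ} (hD : 0 < D) (hDL : D ≤ L) :
    D / 10 * (1 / (1 + (L * x) ^ 2)) ≤ Gen.FF posData D x := by
  refine le_trans ?_ (posData_lower hD)
  have hpi := Real.pi_pos
  have hpi2 := Real.pi_lt_d2
  have h1 : |D * x| ≤ |L * x| := by
    have hL0 : 0 < L := by linarith
    rw [abs_mul, abs_mul, abs_of_pos hD, abs_of_pos hL0]
    gcongr
  have h2 : (|D * x| + π) ^ 2 ≤ 20 * (1 + (L * x) ^ 2) := by
    calc (|D * x| + π) ^ 2 ≤ (|L * x| + π) ^ 2 := by gcongr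
      _ ≤ 2 * |L * x| ^ 2 + 2 * π ^ 2 := by nlinarith [sq_nonneg (|L * x| - π)]
      _ ≤ _ := by rw [sq_abs]; nlinarith [sq_nonneg (L * x)]
  have h3 : D / 10 * (1 / (1 + (L * x) ^ 2)) = 2 * D / (20 * (1 + (L * x) ^ 2)) := by
    field_simp
    norm_num
  rw [h3]
  gcongr

/-- The local count of zeros at height `t` on the scale `1/log T`. -/
noncomputable def W1 (T t : ℝ) : ℝ :=
  ∑' ρ : ntz, (mult ρ : ℝ) * (1 / (1 + (Real.log T * (t - (ρ : ℂ).im)) ^ 2))

lemma W1_summable (hRH : RiemannHypothesis) {T : ℝ} (hT : 1 ≤ Real.log T) (t : ℝ) :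
    Summable (fun ρ : ntz => (mult ρ : ℝ) * (1 / (1 + (Real.log T * (t - (ρ : ℂ).im)) ^ 2))) := by
  refine Summable.of_nonneg_of_le (fun ρ => by positivity) (fun ρ => ?_)
    (hasSum_poisson hRH t).summable
  have h1 : 1 ≤ Real.log T ^ 2 := by nlinarith
  have h2 : (t - (ρ : ℂ).im) ^ 2 ≤ (Real.log T * (t - (ρ : ℂ).im)) ^ 2 := by
    rw [mul_pow]
    nlinarith [sq_nonneg (t - (ρ : ℂ).im)]
  gcongr

lemma W1_nonneg (T t : ℝ) : 0 ≤ W1 T t := tsum_nonneg fun ρ => by positivity

/-- The local count is controlled by a short prime polynomial. -/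
theorem W1_le (hRH : RiemannHypothesis) {k : ℕ} (hk : 4 ≤ k) : ∃ C T0 : ℝ, 0 < C ∧ 1 ≤ T0 ∧
    ∀ T : ℝ, T0 ≤ T → (2 : ℝ) ^ k ≤ T ∧ ∀ t : ℝ, T / 4 ≤ t → t ≤ 4 * T →
      W1 T t ≤ C * (1 + ‖primePoly (Gen.bb posData (Real.log T / k))
        ⌊Real.exp (Real.log T / k)⌋₊ t‖ / (Real.log T / k)) := by
  obtain ⟨C1, hC1, hex⟩ := Gen.exists_explicit hRH
  obtain ⟨C2, hC2, hpp⟩ := exists_vmPoly_sub_primePoly_le
  have hk0 : (0 : ℝ) < k := by exact_mod_cast (by omega : 0 < k)
  have hkr : (4 : ℝ) ≤ k := by exact_mod_cast hk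
  refine ⟨10 * (2 * k + 2 * C2 + 8 * C1 + 1), max (Real.exp (8 * k)) 1, by positivity,
    le_max_right _ _, fun T hT => ?_⟩
  have hT8 : Real.exp (8 * k) ≤ T := (le_max_left _ _).trans hT
  have hT0 : 0 < T := (Real.exp_pos _).trans_le hT8
  set L := Real.log T with hL
  have hLk : 8 * k ≤ L := by rw [hL, Real.le_log_iff_exp_le hT0]; exact hT8
  have hL0 : 0 < L := by linarith
  set D := L / k with hD
  have hD8 : 8 ≤ D := by rw [hD, le_div_iff₀ hk0]; linarith
  have hD0 : 0 < D := by linarith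
  have hDL : D ≤ L / 4 := by rw [hD]; gcongr
  have h2k : (2 : ℝ) ^ k ≤ T := by
    rw [← Real.log_le_log_iff (by positivity) hT0, Real.log_pow]
    have := Real.log_two_lt_d9
    linarith only [mul_le_mul_of_nonneg_left this.le hk0.le, hLk, hk0]
  refine ⟨h2k, fun t ht1 ht2 => ?_⟩
  set x := ⌊Real.exp D⌋₊ with hx
  have hexpD : 2 ≤ Real.exp D := by
    have := Real.add_one_le_exp D; linarith
  have hx2 : 2 ≤ x := by rw [hx]; exact Nat.le_floor (by exact_mod_cast hexpD)
  have hxle : (x : ℝ) ≤ Real.exp D := Nat.floor_le (Real.exp_pos D).le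
  have hxlt : Real.exp D ≤ x + 1 := (Nat.lt_floor_add_one _).le
  have hlogx : Real.log x ≤ D := by
    rw [Real.log_le_iff_le_exp (by exact_mod_cast (by omega : 0 < x))]
    exact hxle
  have ht0 : 1 ≤ t := by
    have : 4 ≤ T := by
      have := Real.add_one_le_exp (8 * (k:ℝ)); linarith
    linarith
  have ht00 : 0 < t := by linarith
  obtain ⟨S, hS, hSb⟩ := hex posData D x t (by linarith) hxlt ht0
  -- lower bound
  have h1 : D / 10 * W1 T t ≤ S := by
    have h2 := (W1_summable hRH (T := T) (by linarith) t).hasSum.mul_left (D / 10)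
    refine hasSum_le (fun ρ => ?_) h2 hS
    calc D / 10 * ((mult ρ : ℝ) * (1 / (1 + (Real.log T * (t - (ρ : ℂ).im)) ^ 2))) =
        (mult ρ : ℝ) * (D / 10 * (1 / (1 + (L * (t - (ρ : ℂ).im)) ^ 2))) := by ring
      _ ≤ _ := by
          gcongr
          exact posData_lower' hD0 (by linarith)
  -- upper bound
  have h3 := (abs_le.mp hSb).2
  have hf0 : posData.f0 0 = 2 := by
    show (1 - (0:ℝ)) * (1 + Real.cos (π * 0)) = 2
    norm_num
  rw [hf0] at h3
  have h4 := Complex.re_le_norm (-(vmPoly (Gen.bb posData D) x t))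
  rw [norm_neg, Complex.neg_re] at h4
  have h5 := hpp x 2 (Gen.bb posData D) t hx2 (fun n => Gen.norm_bb_le hD0 n)
  have h6 : ‖vmPoly (Gen.bb posData D) x t‖ ≤
      ‖primePoly (Gen.bb posData D) x t‖ + C2 * 2 * Real.log x := by
    have := norm_sub_norm_le (vmPoly (Gen.bb posData D) x t)
      (primePoly (Gen.bb posData D) x t)
    linarith
  have hlt : Real.log t ≤ 2 * L := by
    have e1 : Real.log t ≤ Real.log (4 * T) := Real.log_le_log ht00 ht2
    rw [Real.log_mul (by norm_num) hT0.ne'] at e1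
    have e2 : Real.log 4 ≤ 3 := by
      have := Real.log_le_sub_one_of_pos (x := 4) (by norm_num); linarith
    linarith
  have hlt0 : 0 ≤ Real.log t := Real.log_nonneg ht0
  have h7 : Real.log (t / (2 * π)) ≤ 2 * L := by
    refine le_trans ?_ hlt
    apply Real.log_le_log (by positivity)
    rw [div_le_iff₀ (by positivity)]
    have := Real.pi_gt_three
    linarith only [mul_lt_mul_of_pos_left this ht00, ht00]
  have h8 : C1 * Real.exp D * (1 + Real.log t) / Real.sqrt t ≤ 8 * C1 * D := by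
    have e3 : Real.exp D ≤ Real.exp (L / 4) := Real.exp_le_exp.mpr hDL
    have e4 : Real.sqrt T = Real.exp (L / 2) := by
      rw [Real.sqrt_eq_iff_mul_self_eq hT0.le (Real.exp_pos _).le, ← Real.exp_add]
      rw [add_halves, hL, Real.exp_log hT0]
    have e5 : Real.exp (L / 2) / 2 ≤ Real.sqrt t := by
      rw [← e4]
      have : Real.sqrt (T / 4) ≤ Real.sqrt t := Real.sqrt_le_sqrt ht1
      rw [Real.sqrt_div hT0.le] at this
      have h4 : Real.sqrt 4 = 2 := by
        rw [show (4:ℝ) = 2 ^ 2 by norm_num, Real.sqrt_sq (by norm_num)]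
      rwa [h4] at this
    have e6 : 1 + Real.log t ≤ 4 * Real.exp (L / 4) := by
      have := Real.add_one_le_exp (L / 4)
      have h9 : L / 4 * (L/4) ≤ 2 * Real.exp (L / 4) := by
        have := Real.quadratic_le_exp_of_nonneg (x := L / 4) (by positivity)
        linarith only [this, hL0]
      linarith only [hlt, h9, mul_le_mul_of_nonneg_right (by linarith only [hLk, hkr] : (8:ℝ) ≤ L / 4)
        (by linarith only [hL0] : 0 ≤ L / 4), hLk, hkr]
    have e7 : 0 < Real.exp (L / 2) / 2 := by positivity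
    have e8 : Real.exp (L / 2) = Real.exp (L / 4) * Real.exp (L / 4) := by
      rw [← Real.exp_add]; congr 1; ring
    calc C1 * Real.exp D * (1 + Real.log t) / Real.sqrt t
        ≤ C1 * Real.exp (L / 4) * (4 * Real.exp (L / 4)) / (Real.exp (L / 2) / 2) := by
          gcongr
      _ = 8 * C1 := by
          rw [e8]
          field_simp
          norm_num
      _ ≤ 8 * C1 * D := le_mul_of_one_le_right (by positivity) (by linarith only [hD8])
  have h9 : C2 * 2 * Real.log x ≤ 2 * C2 * D := by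
    linarith only [mul_le_mul_of_nonneg_left hlogx (by positivity : 0 ≤ 2 * C2)]
  have h10 : S ≤ 2 * L + ‖primePoly (Gen.bb posData D) x t‖ + 2 * C2 * D + 8 * C1 * D := by
    linarith
  have h11 : L = k * D := by rw [hD]; field_simp
  have h12 : W1 T t ≤ 10 / D * S := by
    rw [div_mul_eq_mul_div, le_div_iff₀ hD0]
    linarith
  refine h12.trans ?_
  have hQ : 0 ≤ ‖primePoly (Gen.bb posData D) x t‖ := norm_nonneg _
  calc 10 / D * S ≤ 10 / D * (2 * (k * D) + ‖primePoly (Gen.bb posData D) x t‖ + 2 * C2 * D +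
        8 * C1 * D) := by
        rw [← h11]; gcongr
    _ = 10 * (2 * k + 2 * C2 + 8 * C1 + ‖primePoly (Gen.bb posData D) x t‖ / D) := by
        field_simp
        ring
    _ ≤ _ := by
        have hq : 0 ≤ ‖primePoly (Gen.bb posData D) x t‖ / D := by positivity
        have : 0 ≤ 2 * (k:ℝ) + 2 * C2 + 8 * C1 := by positivity
        nlinarith only [mul_nonneg this hq, hq, this]

end Pool.Agent.ZGap.Res.FM
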