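import Pool.Agent.ZGap.Res.Layer
import Pool.Agent.ZGap.Res.Taylor

/-!
# The main terms for a linear profile
-/

namespace Pool.Agent.ZGap.Res

open MeasureTheory Finset ArithmeticFunction Filter Topology

variable {R : ResData} {T : ℝ}

/-- The profile of `R` is close to `a + b (1 - u)` on `[0, 1)`. -/
structure LinProf (R : ResData) (a b δ : ℝ) : Prop where
  ha : 0 ≤ a
  hb : 0 ≤ b
  hab : a + b ≤ 1
  hδ : 0 ≤ δ
  hδ' : δ ≤ 1 / 2
  eq : ∀ u, 0 ≤ u → u ≤ 1 - δ → R.F u = a + b * (1 - u)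
  le : ∀ u, 0 ≤ u → R.F u ≤ a + b

lemma LinProf.F_le_one {a b δ : ℝ} (h : LinProf R a b δ) {x : ℝ} (hx : 0 ≤ x) : R.F x ≤ 1 :=
  (h.le x hx).trans h.hab

/-- The ideal profile. -/
noncomputable def pf (a b u : ℝ) : ℝ := if u < 1 then a + b * (1 - u) else 0

lemma pf_nonneg {a b : ℝ} (ha : 0 ≤ a) (hb : 0 ≤ b) (u : ℝ) : 0 ≤ pf a b u := by
  unfold pf
  split_ifs with h
  · have : 0 ≤ 1 - u := by linarith
    positivity
  · exact le_rfl

lemma pf_le {a b : ℝ} (ha : 0 ≤ a) (hb : 0 ≤ b) {u : ℝ} (hu : 0 ≤ u) : pf a b u ≤ a + b := by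
  unfold pf
  split_ifs with h
  · nlinarith
  · positivity

lemma ly_eq {δ u : ℝ} (h1 : 1 - δ ≤ u) (h2 : u < 1) : ly δ u = 1 := if_pos ⟨h1, h2⟩

/-- The profile and the ideal profile. -/
lemma LinProf.abs_sub_le {a b δ : ℝ} (h : LinProf R a b δ) {u : ℝ} (hu : 0 ≤ u) :
    |R.F u - pf a b u| ≤ ly δ u := by
  by_cases h1 : u < 1
  · by_cases h2 : 1 - δ ≤ u
    · rw [ly_eq h2 h1, abs_le]
      have a1 := h.F_le_one hu
      have a2 := R.F_nonneg u
      have a3 := pf_nonneg h.ha h.hb u
      have a4 := (pf_le h.ha h.hb hu).trans h.hab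
      constructor <;> linarith
    · rw [h.eq u hu (not_le.mp h2).le]
      unfold pf
      rw [if_pos h1, sub_self, abs_zero]
      exact ly_nonneg _ _
  · rw [R.F_one u (not_lt.mp h1)]
    unfold pf
    rw [if_neg h1, sub_self, abs_zero]
    exact ly_nonneg _ _

lemma DD_eq : DD R T = br R T (fun u => R.F u ^ 2) := by
  unfold DD br
  refine sum_congr rfl fun U _ => ?_
  have h3 : mu R T U = (∏ q ∈ U, cc R T q) ^ 2 := by
    unfold mu
    rw [prod_pow]
  rw [h3]
  unfold aa uu
  ring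

lemma pf_sq (a b u : ℝ) : pf a b u ^ 2 = a ^ 2 * tp 0 u + (2 * a * b * tp 1 u + b ^ 2 * tp 2 u) := by
  unfold pf tp
  split_ifs <;> ring

/-- The sum of the squares of the coefficients. -/
theorem DD_le {a b δ : ℝ} (h : LinProf R a b δ) (hT : 1 < T) :
    |DD R T - (a ^ 2 * mom R T 0 + (2 * a * b * mom R T 1 + b ^ 2 * mom R T 2))| ≤
      2 * br R T (ly δ) := by
  have e1 : a ^ 2 * mom R T 0 + (2 * a * b * mom R T 1 + b ^ 2 * mom R T 2) =
      br R T (fun u => pf a b u ^ 2) := by
    have : (fun u => pf a b u ^ 2) = fun u => a ^ 2 * tp 0 u + (2 * a * b * tp 1 u + b ^ 2 * tp 2 u) :=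
      funext fun u => pf_sq a b u
    rw [this, br_add, br_add, br_mul, br_mul, br_mul]
    rfl
  rw [e1, DD_eq, ← br_sub, ← br_mul]
  apply abs_br_le hT
  intro u hu
  have a1 := h.F_le_one hu
  have a2 := R.F_nonneg u
  have a3 := pf_nonneg h.ha h.hb u
  have a4 := (pf_le h.ha h.hb hu).trans h.hab
  have e2 : R.F u ^ 2 - pf a b u ^ 2 = (R.F u + pf a b u) * (R.F u - pf a b u) := by ring
  rw [e2, abs_mul, abs_of_nonneg (by positivity)]
  exact mul_le_mul (by linarith) (h.abs_sub_le hu) (abs_nonneg _) (by norm_num)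

/-- The ideal inner integral. -/
noncomputable def J0 (θ c a b x : ℝ) : ℝ :=
  ∫ ξ in (0:ℝ)..(θ * x), k0 c ξ * (a + b * (x - ξ / θ))

/-- The inner integral. -/
noncomputable def JJ (R : ResData) (k : ℝ → ℝ) (u : ℝ) : ℝ :=
  ∫ ξ in (0:ℝ)..1, k ξ * R.f ξ * R.F (u + ξ / R.th)

lemma abs_J0_le {θ c a b x : ℝ} (hθ : 0 < θ) (hθ' : θ ≤ 1 / 2) (hc : 0 ≤ c) (ha : 0 ≤ a)
    (hb : 0 ≤ b) (hab : a + b ≤ 1) (hx : 0 ≤ x) (hx' : x ≤ 1) : |J0 θ c a b x| ≤ Real.pi * c := by
  have hp := Real.pi_pos
  have h1 : |J0 θ c a b x| ≤ (2 * (Real.pi * c)) * |θ * x - 0| := by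
    unfold J0
    rw [← Real.norm_eq_abs]
    apply intervalIntegral.norm_integral_le_of_norm_le_const
    intro ξ hξ
    rw [Set.uIoc_of_le (by positivity)] at hξ
    rw [Real.norm_eq_abs, abs_mul]
    have h2 : 0 ≤ x - ξ / θ := by
      rw [sub_nonneg, div_le_iff₀ hθ]; linarith [hξ.2]
    have h3 : 0 ≤ ξ / θ := div_nonneg hξ.1.le hθ.le
    calc _ ≤ (2 * (Real.pi * c)) * 1 := by
          apply mul_le_mul (abs_k0_le hc ξ) _ (abs_nonneg _) (by positivity)
          rw [abs_of_nonneg (by positivity)]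
          nlinarith
      _ = _ := mul_one _
  refine h1.trans ?_
  rw [sub_zero, abs_of_nonneg (by positivity)]
  have : θ * x ≤ 1 / 2 * 1 := mul_le_mul hθ' hx' hx (by norm_num)
  have h4 : 0 ≤ 2 * (Real.pi * c) := by positivity
  nlinarith

/-- Comparison of the inner integrals. -/
theorem JJ_sub_le {a b δ : ℝ} (h : LinProf R a b δ) {k : ℝ → ℝ} {c δk : ℝ} (hc : 0 ≤ c)
    (hkc : Continuous k) (hδk : 0 ≤ δk) (hk : ∀ x, 0 ≤ x → x ≤ 1 → |k x - k0 c x| ≤ δk) {u : ℝ}
    (hu : 0 ≤ u) (hu' : u < 1) :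
    |JJ R k u - J0 R.th c a b (1 - u)| ≤ δk + 4 * (Real.pi * c) * R.ep + Real.pi * c * δ := by
  have hp := Real.pi_pos
  have hth := th_pos R
  have hth2 := R.th_lt
  have hep := R.ep_pos
  have hpc : 0 ≤ Real.pi * c := by positivity
  set x := 1 - u with hx
  have hx0 : 0 < x := by linarith
  have hx1 : x ≤ 1 := by linarith
  set β := R.th * x with hβ
  have hβ0 : 0 ≤ β := by positivity
  have hβ1 : β ≤ 1 := by nlinarith
  have hβth : β ≤ R.th := by nlinarith
  have hFc : Continuous fun ξ => R.F (u + ξ / R.th) := (continuous_F R).comp (by fun_prop)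
  have hfc := continuous_f R
  have hkc0 := continuous_k0 c
  have hkfF : Continuous fun ξ => k ξ * R.f ξ * R.F (u + ξ / R.th) := (hkc.mul hfc).mul hFc
  have hF01 : ∀ ξ, 0 ≤ ξ → |R.F (u + ξ / R.th)| ≤ 1 := fun ξ hξ => by
    rw [abs_of_nonneg (R.F_nonneg _)]
    exact h.F_le_one (by positivity)
  -- restrict to [0, β]
  have e1 : JJ R k u = ∫ ξ in (0:ℝ)..β, k ξ * R.f ξ * R.F (u + ξ / R.th) := by
    unfold JJ
    rw [← intervalIntegral.integral_add_adjacent_intervals (hkfF.intervalIntegrable 0 β)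
      (hkfF.intervalIntegrable β 1)]
    have h2 : ∫ ξ in β..1, k ξ * R.f ξ * R.F (u + ξ / R.th) = 0 := by
      rw [intervalIntegral.integral_congr (g := fun _ => (0:ℝ))]
      · simp
      · intro ξ hξ
        rw [Set.uIcc_of_le hβ1] at hξ
        have h3 : 1 ≤ u + ξ / R.th := by
          have : x ≤ ξ / R.th := by
            rw [le_div_iff₀ hth]; linarith [hξ.1]
          linarith
        simp only [R.F_one _ h3, mul_zero]
    rw [h2, add_zero]
  -- step 1 : k → k0
  have s1 : |(∫ ξ in (0:ℝ)..β, k ξ * R.f ξ * R.F (u + ξ / R.th)) -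
      ∫ ξ in (0:ℝ)..β, R.f ξ * (k0 c ξ * R.F (u + ξ / R.th))| ≤ δk := by
    have hc2 : Continuous fun ξ => R.f ξ * (k0 c ξ * R.F (u + ξ / R.th)) := hfc.mul (hkc0.mul hFc)
    rw [← intervalIntegral.integral_sub (hkfF.intervalIntegrable _ _) (hc2.intervalIntegrable _ _)]
    have h2 : ‖∫ ξ in (0:ℝ)..β, (k ξ * R.f ξ * R.F (u + ξ / R.th) -
        R.f ξ * (k0 c ξ * R.F (u + ξ / R.th)))‖ ≤ δk * |β - 0| := by
      apply intervalIntegral.norm_integral_le_of_norm_le_const
      intro ξ hξ
      rw [Set.uIoc_of_le hβ0] at hξ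
      have e2 : k ξ * R.f ξ * R.F (u + ξ / R.th) - R.f ξ * (k0 c ξ * R.F (u + ξ / R.th)) =
        (k ξ - k0 c ξ) * (R.f ξ * R.F (u + ξ / R.th)) := by ring
      rw [Real.norm_eq_abs, e2, abs_mul, abs_mul]
      calc _ ≤ δk * (1 * 1) := by
            apply mul_le_mul (hk ξ hξ.1.le (hξ.2.trans hβ1)) _ (by positivity) hδk
            exact mul_le_mul (abs_f_le R ξ) (hF01 ξ hξ.1.le) (abs_nonneg _) zero_le_one
        _ = δk := by ring
    rw [← Real.norm_eq_abs]
    refine h2.trans ?_
    rw [sub_zero, abs_of_nonneg hβ0]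
    nlinarith
  -- step 2 : remove f
  have s2 : |(∫ ξ in (0:ℝ)..β, R.f ξ * (k0 c ξ * R.F (u + ξ / R.th))) -
      ∫ ξ in (0:ℝ)..β, k0 c ξ * R.F (u + ξ / R.th)| ≤ 2 * R.ep * (2 * (Real.pi * c)) := by
    apply cut_le R hfc (hkc0.mul hFc) (fun x _ => ?_) R.f_mid hβ0 hβth (by positivity)
      (fun ξ h1 h2 => ?_)
    · have h3 := R.f_nonneg x
      have h4 := R.f_le x
      rw [abs_le]; constructor <;> linarith
    · show |k0 c ξ * R.F (u + ξ / R.th)| ≤ _
      rw [abs_mul]
      calc _ ≤ (2 * (Real.pi * c)) * 1 :=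
            mul_le_mul (abs_k0_le hc ξ) (hF01 ξ h1) (abs_nonneg _) (by positivity)
        _ = _ := mul_one _
  -- step 3 : replace F
  have s3 : |(∫ ξ in (0:ℝ)..β, k0 c ξ * R.F (u + ξ / R.th)) - J0 R.th c a b x| ≤
      (2 * (Real.pi * c)) * (R.th * δ) := by
    unfold J0
    have hc3 : Continuous fun ξ => k0 c ξ * R.F (u + ξ / R.th) := hkc0.mul hFc
    have hc4 : Continuous fun ξ => k0 c ξ * (a + b * (x - ξ / R.th)) := hkc0.mul (by fun_prop)
    rw [← hβ, ← intervalIntegral.integral_sub (hc3.intervalIntegrable _ _)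
      (hc4.intervalIntegrable _ _)]
    calc _ ≤ ∫ ξ in (0:ℝ)..β, |k0 c ξ * R.F (u + ξ / R.th) - k0 c ξ * (a + b * (x - ξ / R.th))| :=
          intervalIntegral.abs_integral_le_integral_abs hβ0
      _ ≤ ∫ ξ in (0:ℝ)..β, (Set.Icc (R.th * (1 - δ - u)) β).indicator
          (fun _ => 2 * (Real.pi * c)) ξ := by
          apply intervalIntegral.integral_mono_on_of_le_Ioo hβ0
            ((hc3.sub hc4).abs.intervalIntegrable _ _)
          · rw [intervalIntegrable_iff_integrableOn_Ioc_of_le hβ0]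
            exact (integrable_const _).indicator measurableSet_Icc
          · intro ξ hξ
            show |k0 c ξ * R.F (u + ξ / R.th) - k0 c ξ * (a + b * (x - ξ / R.th))| ≤ _
            have h2 : u + ξ / R.th < 1 := by
              have : ξ / R.th < x := by rw [div_lt_iff₀ hth]; linarith [hξ.2]
              linarith
            have h3 : 0 ≤ u + ξ / R.th := by
              have := div_nonneg hξ.1.le hth.le
              linarith
            have e2 : k0 c ξ * R.F (u + ξ / R.th) - k0 c ξ * (a + b * (x - ξ / R.th)) =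
                k0 c ξ * (R.F (u + ξ / R.th) - pf a b (u + ξ / R.th)) := by
              unfold pf
              rw [if_pos h2, hx]
              ring
            rw [e2, abs_mul]
            have h4 := h.abs_sub_le h3
            have h5 := abs_k0_le hc ξ
            by_cases hm : ξ ∈ Set.Icc (R.th * (1 - δ - u)) β
            · rw [Set.indicator_of_mem hm]
              have h6 : ly δ (u + ξ / R.th) ≤ 1 := by
                unfold ly; split_ifs <;> norm_num
              calc _ ≤ (2 * (Real.pi * c)) * 1 :=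
                    mul_le_mul h5 (h4.trans h6) (abs_nonneg _) (by positivity)
                _ = _ := mul_one _
            · rw [Set.indicator_of_notMem hm]
              have h6 : ly δ (u + ξ / R.th) = 0 := by
                unfold ly
                rw [if_neg]
                rintro ⟨h7, _⟩
                apply hm
                refine ⟨?_, hξ.2.le⟩
                have : 1 - δ - u ≤ ξ / R.th := by linarith
                rw [le_div_iff₀ hth] at this
                linarith
              rw [h6] at h4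
              have h8 : |R.F (u + ξ / R.th) - pf a b (u + ξ / R.th)| = 0 :=
                le_antisymm h4 (abs_nonneg _)
              rw [h8, mul_zero]
      _ ≤ _ := by
          rw [intervalIntegral.integral_of_le hβ0, integral_indicator measurableSet_Icc,
            setIntegral_const, smul_eq_mul, mul_comm]
          apply mul_le_mul_of_nonneg_left _ (by positivity)
          have : (volume.restrict (Set.Ioc (0:ℝ) β)).real (Set.Icc (R.th * (1 - δ - u)) β) ≤
              volume.real (Set.Icc (R.th * (1 - δ - u)) β) := by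
            refine ENNReal.toReal_mono ?_ (Measure.restrict_apply_le _ _)
            rw [Real.volume_Icc]; exact ENNReal.ofReal_ne_top
          refine this.trans ?_
          rw [Measure.real, Real.volume_Icc, hβ, hx]
          have e3 : R.th * (1 - u) - R.th * (1 - δ - u) = R.th * δ := by ring
          rw [e3, ENNReal.toReal_ofReal (mul_nonneg hth.le h.hδ)]
  rw [e1]
  have e4 : 2 * (Real.pi * c) * (R.th * δ) ≤ Real.pi * c * δ := by
    have h9 : R.th * δ ≤ 1 / 2 * δ := mul_le_mul_of_nonneg_right hth2.le h.hδ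
    nlinarith
  rw [abs_le] at *
  constructor <;> linarith [s1.1, s1.2, s2.1, s2.2, s3.1, s3.2]

/-- The prime sum is close to its main term. -/
theorem S1_close {a b δ : ℝ} (h : LinProf R a b δ) {k : ℝ → ℝ} {c δk Kk Mk : ℝ} (hc : 0 ≤ c)
    (hKk : 0 ≤ Kk) (hkl : ∀ x y, |k x - k y| ≤ Kk * |x - y|) (hkb : ∀ x, |k x| ≤ Mk)
    (hδk : 0 ≤ δk) (hk : ∀ x, 0 ≤ x → x ≤ 1 → |k x - k0 c x| ≤ δk) {η : ℝ} (hη : 0 < η) :
    ∃ T0 : ℝ, Real.exp 3 ≤ T0 ∧ ∀ T : ℝ, T0 ≤ T →
      |S1 R T k - R.r * br R T (fun u => pf a b u * J0 R.th c a b (1 - u))| ≤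
        |R.r| * ((δk + 4 * (Real.pi * c) * R.ep + Real.pi * c * δ + η) * mom R T 0 +
          Real.pi * c * br R T (ly δ)) := by
  have hp := Real.pi_pos
  have hth := th_pos R
  have hth2 := R.th_lt
  have hep := R.ep_pos
  have hδ := h.hδ
  have hMk : 0 ≤ Mk := (abs_nonneg _).trans (hkb 0)
  have hkc : Continuous k := continuous_of_lip hKk hkl
  obtain ⟨Kf, hKf, hfl⟩ := f_lip R
  obtain ⟨KF, hKF, hFl⟩ := F_lip R
  obtain ⟨MF, hMF⟩ := (continuous_F R).bounded_above_of_compact_support R.F_supp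
  have hMF' : ∀ x, |R.F x| ≤ MF := fun x => by
    have := hMF x; rwa [Real.norm_eq_abs] at this
  have hMF0 : 0 ≤ MF := (abs_nonneg _).trans (hMF' 0)
  obtain ⟨C, hC, T1, hT1, h1⟩ := inner_sum R
  set K := (Kk * 1 + Mk * Kf) * MF + (Mk * 1) * (KF / R.th) with hK
  set M := Mk * MF with hM
  have hK0 : 0 ≤ K := by positivity
  have hM0 : 0 ≤ M := by positivity
  have ev : ∀ᶠ T : ℝ in atTop, C * (K + M) / Real.log T ≤ η :=
    (Real.tendsto_log_atTop.const_div_atTop _).eventually (ge_mem_nhds hη)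
  obtain ⟨T2, hT2⟩ := eventually_atTop.mp ev
  refine ⟨max T1 T2, hT1.trans (le_max_left _ _), fun T hT => ?_⟩
  have hTT1 : T1 ≤ T := (le_max_left _ _).trans hT
  have hTe : Real.exp 3 ≤ T := hT1.trans hTT1
  have h1T : 1 < T := lt_of_lt_of_le (Real.one_lt_exp_iff.mpr (by norm_num)) hTe
  have hTη := hT2 T ((le_max_right _ _).trans hT)
  set E := δk + 4 * (Real.pi * c) * R.ep + Real.pi * c * δ with hE
  have hE0 : 0 ≤ E := by positivity
  have key : ∀ U ⊆ PP T, |R.F (uu R T U) * (R.r * ∑ p ∈ PP T \ U,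
      wt T p * (k (xi T p) * R.f (xi T p) * R.F (uu R T U + xi T p / R.th))) -
      R.r * (pf a b (uu R T U) * J0 R.th c a b (1 - uu R T U))| ≤
      |R.r| * ((E + η) * tp 0 (uu R T U) + Real.pi * c * ly δ (uu R T U)) := by
    intro U hU
    have hu0 : 0 ≤ uu R T U := uu_nonneg h1T U
    set u := uu R T U with hu
    rw [tp_zero]
    by_cases hu1 : u < 1
    · rw [if_pos hu1]
      have m1 := h1 T hTT1 (fun ξ => k ξ * R.f ξ * R.F (u + ξ / R.th)) K M hK0 hM0
        (fun x hx => by simp only [f_off R hx]; ring)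
        (lip_mul (g := fun ξ => k ξ * R.f ξ) (h := fun ξ => R.F (u + ξ / R.th))
          (lip_mul hkl hfl hkb (abs_f_le R))
          (fun x y => by
            refine (hFl _ _).trans ?_
            have e : u + x / R.th - (u + y / R.th) = (x - y) / R.th := by ring
            rw [e, abs_div, abs_of_pos hth]
            apply le_of_eq; ring)
          (fun x => by
            show |k x * R.f x| ≤ Mk * 1
            rw [abs_mul]
            exact mul_le_mul (hkb x) (abs_f_le R x) (abs_nonneg _) hMk)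
          (fun x => hMF' _))
        (fun x => by
          rw [abs_mul, abs_mul]
          calc _ ≤ (Mk * 1) * MF := by
                apply mul_le_mul _ (hMF' _) (abs_nonneg _) (by positivity)
                exact mul_le_mul (hkb x) (abs_f_le R x) (abs_nonneg _) hMk
            _ = M := by rw [hM]; ring) U hU hu1.le
      have m2 := m1.trans hTη
      have m3 := JJ_sub_le h hc hkc hδk hk hu0 hu1
      have m4 := abs_J0_le (a := a) (b := b) (x := 1 - u) hth hth2.le hc h.ha h.hb h.hab (by linarith)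
        (by linarith)
      have m5 := h.abs_sub_le hu0
      have m6 : |R.F u| ≤ 1 := by
        rw [abs_of_nonneg (R.F_nonneg _)]; exact h.F_le_one hu0
      set Sg := ∑ p ∈ PP T \ U,
        wt T p * (k (xi T p) * R.f (xi T p) * R.F (u + xi T p / R.th)) with hSg
      have e : R.F u * (R.r * Sg) - R.r * (pf a b u * J0 R.th c a b (1 - u)) =
        R.r * (R.F u * ((Sg - JJ R k u) + (JJ R k u - J0 R.th c a b (1 - u))) +
          (R.F u - pf a b u) * J0 R.th c a b (1 - u)) := by ring
      rw [e, abs_mul]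
      apply mul_le_mul_of_nonneg_left _ (abs_nonneg _)
      refine (abs_add_le _ _).trans ?_
      rw [abs_mul, abs_mul]
      apply add_le_add
      · calc _ ≤ 1 * (η + E) := by
              apply mul_le_mul m6 _ (abs_nonneg _) zero_le_one
              exact (abs_add_le _ _).trans (add_le_add m2 m3)
          _ = _ := by ring
      · rw [mul_comm (Real.pi * c)]
        exact mul_le_mul m5 m4 (abs_nonneg _) (ly_nonneg _ _)
    · rw [if_neg hu1, R.F_one u (not_lt.mp hu1)]
      have e1 : pf a b u = 0 := by unfold pf; rw [if_neg hu1]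
      have e2 : ly δ u = 0 := by
        unfold ly; rw [if_neg]; exact fun h => hu1 h.2
      rw [e1, e2]
      simp
  rw [S1_eq h1T]
  have e1 : R.r * br R T (fun u => pf a b u * J0 R.th c a b (1 - u)) =
      ∑ U ∈ (PP T).powerset, mu R T U *
        (R.r * (pf a b (uu R T U) * J0 R.th c a b (1 - uu R T U))) := by
    unfold br
    rw [mul_sum]
    exact sum_congr rfl fun _ _ => by ring
  have e2 : |R.r| * ((E + η) * mom R T 0 + Real.pi * c * br R T (ly δ)) =
      ∑ U ∈ (PP T).powerset, mu R T U *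
        (|R.r| * ((E + η) * tp 0 (uu R T U) + Real.pi * c * ly δ (uu R T U))) := by
    unfold mom br
    rw [mul_sum, mul_sum, ← sum_add_distrib, mul_sum]
    exact sum_congr rfl fun _ _ => by ring
  rw [e1, e2, ← sum_sub_distrib]
  refine (abs_sum_le_sum_abs _ _).trans (sum_le_sum fun U hU => ?_)
  rw [mem_powerset] at hU
  rw [← mul_sub, abs_mul, abs_of_nonneg (mu_nonneg U)]
  exact mul_le_mul_of_nonneg_left (key U hU) (mu_nonneg U)

end Pool.Agent.ZGap.Res
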