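import Pool.Agent.ZGap.Res.D1

/-!
# (d2) Moments of the majorant of the local count
-/

namespace Pool.Agent.ZGap.Res.FM

open MeasureTheory Real Set ArithmeticFunction Pool.Agent.Hadamard Pool.Agent.DirPoly

/-- The short prime polynomial controlling the local count. -/
noncomputable def QQ (k : ℕ) (T t : ℝ) : ℝ :=
  1 + ‖primePoly (Gen.bb posData (Real.log T / k)) ⌊Real.exp (Real.log T / k)⌋₊ t‖ /
    (Real.log T / k)

lemma QQ_continuous (k : ℕ) (T : ℝ) : Continuous (QQ k T) := by
  unfold QQ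
  have := primePoly_continuous (Gen.bb posData (Real.log T / k)) ⌊Real.exp (Real.log T / k)⌋₊
  fun_prop

lemma one_le_QQ {k : ℕ} {T : ℝ} (hT : 1 ≤ T) (t : ℝ) : 1 ≤ QQ k T t := by
  unfold QQ
  have h := Real.log_nonneg hT
  have : 0 ≤ ‖primePoly (Gen.bb posData (Real.log T / k)) ⌊Real.exp (Real.log T / k)⌋₊ t‖ /
    (Real.log T / k) := by positivity
  linarith

lemma integrable_primePoly_pow {k x : ℕ} {T : ℝ} (hT : 0 < T) (b : ℕ → ℂ) :
    Integrable (fun t : ℝ => ‖primePoly b x t‖ ^ (2 * k) * fejerW (t / T)) := by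
  have h2 : Integrable (fun t : ℝ => fejerW (t / T)) := fejerW_integrable.comp_div hT.ne'
  have h3 : ∃ M : ℝ, ∀ t, ‖primePoly b x t‖ ≤ M := by
    refine ⟨∑ p ∈ (Finset.Icc 1 x).filter Nat.Prime,
      ‖(Real.log p : ℂ) * b p * (p : ℂ) ^ (-(1 / 2) : ℂ)‖, fun t => ?_⟩
    refine (norm_sum_le _ _).trans (Finset.sum_le_sum fun p hp => ?_)
    rw [norm_mul, Complex.norm_natCast_cpow_of_pos (Finset.mem_filter.mp hp).2.pos]
    simp
  obtain ⟨M, hM⟩ := h3
  refine (h2.const_mul (M ^ (2 * k))).mono' ?_ ?_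
  · have h4 := fejerW_continuous
    have h5 := primePoly_continuous b x
    exact Continuous.aestronglyMeasurable (by fun_prop)
  · refine Filter.Eventually.of_forall fun t => ?_
    rw [norm_mul, norm_pow, norm_norm, Real.norm_of_nonneg (fejerW_nonneg _)]
    have := fejerW_nonneg (t / T)
    gcongr
    exact hM t

theorem QQ_moment {k : ℕ} (hk : 4 ≤ k) : ∃ K : ℝ, 0 < K ∧ ∀ T : ℝ, (2 : ℝ) ^ k ≤ T →
    ∫ t in Set.Icc (T / 4) (4 * T), (QQ k T t) ^ (2 * k) ≤ K * T := by
  have hk0 : (0 : ℝ) < k := by exact_mod_cast (by omega : 0 < k)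
  refine ⟨2 ^ (2 * k - 1) * (4 + 32 * (k.factorial * 24 ^ k)), by positivity, fun T h2k => ?_⟩
  have hT1 : 1 ≤ T := (one_le_pow₀ (by norm_num)).trans h2k
  have hT0 : 0 < T := by linarith
  set L := Real.log T with hL
  set D := L / k with hD
  have hD2 : Real.log 2 ≤ D := by
    rw [hD, le_div_iff₀ hk0, mul_comm, ← Real.log_pow]
    exact Real.log_le_log (by positivity) h2k
  have hl2 := Real.log_two_gt_d9
  have hD0 : 0 < D := by linarith
  have hexpD : 2 ≤ Real.exp D := by
    rw [← Real.log_le_iff_le_exp (by norm_num)]; exact hD2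
  set x := ⌊Real.exp D⌋₊ with hx
  have hx2 : 2 ≤ x := by
    rw [hx]; exact Nat.le_floor (by exact_mod_cast hexpD)
  have hxle : (x : ℝ) ≤ Real.exp D := Nat.floor_le (Real.exp_pos D).le
  have hxk : (x : ℝ) ^ k ≤ 4 * T := by
    calc (x : ℝ) ^ k ≤ (Real.exp D) ^ k := by gcongr
      _ = T := by
        rw [← Real.exp_nat_mul, hD, mul_div_cancel₀ _ hk0.ne', hL, Real.exp_log hT0]
      _ ≤ 4 * T := by linarith
  have hlogx : Real.log x ≤ D := by
    rw [Real.log_le_iff_le_exp (by exact_mod_cast (by omega : 0 < x))]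
    exact hxle
  have hlogx0 : 0 ≤ Real.log x := Real.log_natCast_nonneg x
  set P := primePoly (Gen.bb posData D) x with hP
  have hQ : ∀ t, QQ k T t = 1 + ‖P t‖ / D := fun t => rfl
  have h1 := primePoly_moment (k := k) (x := x) (T := 4 * T) (B := 2) (by positivity) hx2 hxk
    (Gen.bb posData D) (fun n => Gen.norm_bb_le hD0 n)
  have hint := integrable_primePoly_pow (k := k) (x := x) (T := 4 * T) (by positivity)
    (Gen.bb posData D)
  have hPc : Continuous P := primePoly_continuous _ _
  have hvol : volume.real (Set.Icc (T / 4) (4 * T)) ≤ 4 * T := by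
    rw [Real.volume_real_Icc, max_eq_left (by linarith)]
    linarith
  have hmono : ∫ t in Set.Icc (T / 4) (4 * T), ‖P t‖ ^ (2 * k) ≤
      5 / 2 * Real.pi * (4 * T) * (k.factorial * (6 * 2 ^ 2 * Real.log x ^ 2) ^ k) := by
    refine le_trans ?_ h1
    calc _ ≤ ∫ t in Set.Icc (T / 4) (4 * T), ‖P t‖ ^ (2 * k) * fejerW (t / (4 * T)) := by
          refine setIntegral_mono_on ?_ hint.integrableOn measurableSet_Icc fun t ht => ?_
          · exact (by fun_prop : Continuous fun t => ‖P t‖ ^ (2 * k)).integrableOn_Icc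
          · have h7 : 1 ≤ fejerW (t / (4 * T)) := by
              apply fejerW_ge_one
              rw [abs_div, abs_of_pos (by positivity : (0:ℝ) < 4 * T), div_le_one (by positivity),
                abs_le]
              exact ⟨by linarith [ht.1], ht.2⟩
            exact le_mul_of_one_le_right (by positivity) h7
      _ ≤ _ := by
          refine setIntegral_le_integral hint (Filter.Eventually.of_forall fun t => ?_)
          exact mul_nonneg (by positivity) (fejerW_nonneg _)
  have hpi := Real.pi_lt_d2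
  calc ∫ t in Set.Icc (T / 4) (4 * T), (QQ k T t) ^ (2 * k)
      ≤ ∫ t in Set.Icc (T / 4) (4 * T), 2 ^ (2 * k - 1) * (1 + (‖P t‖ / D) ^ (2 * k)) := by
        refine setIntegral_mono_on ?_ ?_ measurableSet_Icc fun t _ => ?_
        · have := QQ_continuous k T
          exact (by fun_prop : Continuous fun t => QQ k T t ^ (2 * k)).integrableOn_Icc
        · exact (by fun_prop : Continuous fun t =>
            2 ^ (2 * k - 1) * (1 + (‖P t‖ / D) ^ (2 * k))).integrableOn_Icc
        · rw [hQ]
          have := add_pow_le (zero_le_one) (by positivity : 0 ≤ ‖P t‖ / D) (2 * k)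
          rwa [one_pow] at this
    _ = 2 ^ (2 * k - 1) * (volume.real (Set.Icc (T / 4) (4 * T)) +
          (∫ t in Set.Icc (T / 4) (4 * T), ‖P t‖ ^ (2 * k)) / D ^ (2 * k)) := by
        rw [integral_const_mul]
        congr 1
        rw [integral_add]
        · congr 1
          · simp
          · rw [← integral_div]
            simp_rw [div_pow]
        · exact (by fun_prop : Continuous fun _ : ℝ => (1:ℝ)).integrableOn_Icc
        · exact (by fun_prop : Continuous fun t => (‖P t‖ / D) ^ (2 * k)).integrableOn_Icc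
    _ ≤ 2 ^ (2 * k - 1) * (4 * T +
          (5 / 2 * Real.pi * (4 * T) * (k.factorial * (6 * 2 ^ 2 * D ^ 2) ^ k)) / D ^ (2 * k)) := by
        gcongr
        refine hmono.trans ?_
        gcongr
    _ = 2 ^ (2 * k - 1) * (4 * T + (10 * Real.pi) * T * (k.factorial * 24 ^ k)) := by
        have e1 : (6 * 2 ^ 2 * D ^ 2) ^ k = 24 ^ k * D ^ (2 * k) := by
          rw [mul_pow, ← pow_mul]; norm_num
        rw [e1]
        field_simp
        ring
    _ ≤ 2 ^ (2 * k - 1) * (4 * T + 32 * T * (k.factorial * 24 ^ k)) := by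
        gcongr
        linarith
    _ = _ := by ring

end Pool.Agent.ZGap.Res.FM
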