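import Pool.Agent.ZGap.Res.Profile

/-!
# The main inequality for the arithmetic sum
-/

namespace Pool.Agent.ZGap.Res

open MeasureTheory Finset ArithmeticFunction Filter Topology

variable {R : ResData} {T : ℝ}

/-- The Taylor coefficients of the kernel. -/
noncomputable def sk (y : ℝ) (k : ℕ) : ℝ := 2 * ((-1) ^ k * y ^ (2 * k + 1) / (2 * k + 1).factorial)

/-- A term of the polynomial minorant. -/
noncomputable def term (a b : ℝ) (k : ℕ) (z : ℕ → ℝ) : ℝ :=
  a ^ 2 / (2 * k + 1) * z (2 * k + 1) +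
    (a * b / (2 * k + 1) + a * b / ((2 * k + 1) * (2 * k + 2))) * z (2 * k + 2) +
    b ^ 2 / ((2 * k + 1) * (2 * k + 2)) * z (2 * k + 3)

/-- The numerator. -/
noncomputable def Num (y a b q : ℝ) (m : ℕ) : ℝ := ∑ k ∈ range (2 * m), sk y k * term a b k (rho q)

/-- The denominator. -/
noncomputable def Den (a b q : ℝ) : ℝ := a ^ 2 + 2 * a * b * rho q 1 + b ^ 2 * rho q 2

lemma integral_mon {θ x a b : ℝ} (hθ : 0 < θ) (k : ℕ) :
    ∫ ξ in (0:ℝ)..(θ * x), ξ ^ (2 * k) * (a + b * (x - ξ / θ)) =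
      θ ^ (2 * k + 1) * (a * x ^ (2 * k + 1) / (2 * k + 1) +
        b * x ^ (2 * k + 2) / ((2 * k + 1) * (2 * k + 2))) := by
  have e : ∀ ξ : ℝ, ξ ^ (2 * k) * (a + b * (x - ξ / θ)) =
      (a + b * x) * ξ ^ (2 * k) - b / θ * ξ ^ (2 * k + 1) := by
    intro ξ; rw [pow_succ]; ring
  simp_rw [e]
  rw [intervalIntegral.integral_sub (Continuous.intervalIntegrable (by fun_prop) _ _)
    (Continuous.intervalIntegrable (by fun_prop) _ _), intervalIntegral.integral_const_mul,
    intervalIntegral.integral_const_mul, integral_pow, integral_pow]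
  have h1 : (2 * (k:ℝ) + 1) ≠ 0 := by positivity
  have h2 : (2 * (k:ℝ) + 2) ≠ 0 := by positivity
  have h3 : (2 * (k:ℝ) + 1 + 1) ≠ 0 := by positivity
  push_cast
  rw [zero_pow (by omega), zero_pow (by omega), mul_pow, mul_pow]
  field_simp
  ring

/-- The polynomial minorant. -/
lemma pf_J0_ge {θ c a b : ℝ} (hθ : 0 < θ) (hc : 0 ≤ c) (ha : 0 ≤ a) (hb : 0 ≤ b) {m : ℕ}
    (hm : m ≠ 0) {u : ℝ} :
    ∑ k ∈ range (2 * m), sk (Real.pi * c * θ) k * term a b k (fun j => tp j u) ≤
      pf a b u * J0 θ c a b (1 - u) := by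
  by_cases hu1 : u < 1
  · set x := 1 - u with hx
    have hx0 : 0 < x := by linarith
    have h1 : ∑ k ∈ range (2 * m), 2 * ((-1) ^ k * (Real.pi * c) ^ (2 * k + 1) /
        (2 * k + 1).factorial) * (θ ^ (2 * k + 1) * (a * x ^ (2 * k + 1) / (2 * k + 1) +
        b * x ^ (2 * k + 2) / ((2 * k + 1) * (2 * k + 2)))) ≤ J0 θ c a b x := by
      have e1 : ∑ k ∈ range (2 * m), 2 * ((-1) ^ k * (Real.pi * c) ^ (2 * k + 1) /
          (2 * k + 1).factorial) * (θ ^ (2 * k + 1) * (a * x ^ (2 * k + 1) / (2 * k + 1) +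
          b * x ^ (2 * k + 2) / ((2 * k + 1) * (2 * k + 2)))) =
          ∫ ξ in (0:ℝ)..(θ * x), (∑ k ∈ range (2 * m), 2 * ((-1) ^ k * (Real.pi * c) ^ (2 * k + 1) /
          (2 * k + 1).factorial) * ξ ^ (2 * k)) * (a + b * (x - ξ / θ)) := by
        have e2 : ∀ ξ : ℝ, (∑ k ∈ range (2 * m), 2 * ((-1) ^ k * (Real.pi * c) ^ (2 * k + 1) /
          (2 * k + 1).factorial) * ξ ^ (2 * k)) * (a + b * (x - ξ / θ)) =
          ∑ k ∈ range (2 * m), 2 * ((-1) ^ k * (Real.pi * c) ^ (2 * k + 1) /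
          (2 * k + 1).factorial) * (ξ ^ (2 * k) * (a + b * (x - ξ / θ))) := by
          intro ξ
          rw [sum_mul]
          exact sum_congr rfl fun k _ => by ring
        simp_rw [e2]
        rw [intervalIntegral.integral_finsetSum]
        · refine sum_congr rfl fun k _ => ?_
          rw [intervalIntegral.integral_const_mul, integral_mon hθ]
        · intro k _
          exact Continuous.intervalIntegrable (by fun_prop) _ _
      rw [e1]
      unfold J0
      have hkc0 := continuous_k0 c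
      apply intervalIntegral.integral_mono_on (by positivity)
        (Continuous.intervalIntegrable (by fun_prop) _ _)
        (Continuous.intervalIntegrable (by fun_prop) _ _)
      intro ξ hξ
      apply mul_le_mul_of_nonneg_right (k0_ge hc hξ.1 hm)
      have h3 : 0 ≤ x - ξ / θ := by
        rw [sub_nonneg, div_le_iff₀ hθ]; linarith [hξ.2]
      positivity
    have e3 : ∑ k ∈ range (2 * m), sk (Real.pi * c * θ) k * term a b k (fun j => tp j u) =
        pf a b u * ∑ k ∈ range (2 * m), 2 * ((-1) ^ k * (Real.pi * c) ^ (2 * k + 1) /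
        (2 * k + 1).factorial) * (θ ^ (2 * k + 1) * (a * x ^ (2 * k + 1) / (2 * k + 1) +
        b * x ^ (2 * k + 2) / ((2 * k + 1) * (2 * k + 2)))) := by
      rw [mul_sum]
      refine sum_congr rfl fun k _ => ?_
      unfold sk term pf tp
      simp only [if_pos hu1]
      rw [← hx, mul_pow]
      ring
    rw [e3]
    exact mul_le_mul_of_nonneg_left h1 (pf_nonneg ha hb u)
  · have e1 : pf a b u = 0 := by unfold pf; rw [if_neg hu1]
    have e2 : ∀ k ∈ range (2 * m), sk (Real.pi * c * θ) k * term a b k (fun j => tp j u) = 0 := by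
      intro k _
      unfold term tp
      simp only [if_neg hu1]
      ring
    rw [e1, sum_eq_zero e2, zero_mul]

/-- All moments up to a given order. -/
lemma mom_ratio_le (R : ResData) (J : ℕ) {η : ℝ} (hη : 0 < η) :
    ∃ T0 : ℝ, Real.exp 3 ≤ T0 ∧ ∀ T : ℝ, T0 ≤ T → ∀ j ≤ J,
      |mom R T j - rho (R.r ^ 2) j * mom R T 0| ≤
        j * (R.r ^ 2 / R.th * (2 * R.ep + η)) * mom R T 0 := by
  induction J with
  | zero =>
    obtain ⟨T0, h0, h⟩ := mom_ratio R 0 hη
    exact ⟨T0, h0, fun T hT j hj => by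
      obtain rfl : j = 0 := by omega
      exact h T hT⟩
  | succ J ih =>
    obtain ⟨T1, h1, h⟩ := ih
    obtain ⟨T2, h2, h'⟩ := mom_ratio R (J + 1) hη
    refine ⟨max T1 T2, h1.trans (le_max_left _ _), fun T hT j hj => ?_⟩
    rcases Nat.lt_or_ge j (J + 1) with hlt | hge
    · exact h T ((le_max_left _ _).trans hT) j (by omega)
    · obtain rfl : j = J + 1 := by omega
      exact h' T ((le_max_right _ _).trans hT)

lemma term_close {a b : ℝ} (ha : 0 ≤ a) (hb : 0 ≤ b) (hab : a + b ≤ 1) (k : ℕ) {z w : ℕ → ℝ}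
    {E : ℝ} (h1 : |z (2 * k + 1) - w (2 * k + 1)| ≤ E) (h2 : |z (2 * k + 2) - w (2 * k + 2)| ≤ E)
    (h3 : |z (2 * k + 3) - w (2 * k + 3)| ≤ E) : |term a b k z - term a b k w| ≤ E := by
  have hE : 0 ≤ E := (abs_nonneg _).trans h1
  set A := a ^ 2 / (2 * (k:ℝ) + 1) with hA
  set B := a * b / (2 * (k:ℝ) + 1) + a * b / ((2 * (k:ℝ) + 1) * (2 * k + 2)) with hB
  set C := b ^ 2 / ((2 * (k:ℝ) + 1) * (2 * k + 2)) with hC
  have k0 : (0:ℝ) ≤ k := Nat.cast_nonneg k
  have hA0 : 0 ≤ A := by positivity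
  have hB0 : 0 ≤ B := by positivity
  have hC0 : 0 ≤ C := by positivity
  have hd : ∀ x y : ℝ, 0 ≤ x → 1 ≤ y → x / y ≤ x := fun x y hx hy => div_le_self hx hy
  have hA1 : A ≤ a ^ 2 := hd _ _ (by positivity) (by linarith)
  have hB1 : B ≤ a * b + a * b := add_le_add (hd _ _ (by positivity) (by linarith))
    (hd _ _ (by positivity) (by nlinarith))
  have hC1 : C ≤ b ^ 2 := hd _ _ (by positivity) (by nlinarith)
  have e : term a b k z - term a b k w = A * (z (2 * k + 1) - w (2 * k + 1)) +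
      B * (z (2 * k + 2) - w (2 * k + 2)) + C * (z (2 * k + 3) - w (2 * k + 3)) := by
    unfold term
    ring
  rw [e]
  calc _ ≤ |A * (z (2 * k + 1) - w (2 * k + 1))| + |B * (z (2 * k + 2) - w (2 * k + 2))| +
        |C * (z (2 * k + 3) - w (2 * k + 3))| := (abs_add_le _ _).trans
          (add_le_add (abs_add_le _ _) le_rfl)
    _ = A * |z (2 * k + 1) - w (2 * k + 1)| + B * |z (2 * k + 2) - w (2 * k + 2)| +
        C * |z (2 * k + 3) - w (2 * k + 3)| := by
        rw [abs_mul, abs_mul, abs_mul, abs_of_nonneg hA0, abs_of_nonneg hB0, abs_of_nonneg hC0]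
    _ ≤ A * E + B * E + C * E := by gcongr
    _ = (A + B + C) * E := by ring
    _ ≤ 1 * E := by
        apply mul_le_mul_of_nonneg_right _ hE
        nlinarith
    _ = E := one_mul E

lemma term_mul (a b : ℝ) (k : ℕ) (z : ℕ → ℝ) (c : ℝ) :
    term a b k (fun j => z j * c) = term a b k z * c := by
  unfold term
  ring

lemma br_term (a b : ℝ) (k : ℕ) : br R T (fun u => term a b k (fun j => tp j u)) =
    term a b k (mom R T) := by
  unfold term
  rw [br_add, br_add, br_mul, br_mul, br_mul]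
  rfl

/-- The main inequality. -/
theorem main_ineq {r θ c a b : ℝ} {m : ℕ} (hm : m ≠ 0) (hθ : 0 < θ) (hθ' : θ ≤ 1 / 2) (hc : 0 ≤ c)
    (ha : 0 ≤ a) (hb : 0 ≤ b) (hab : a + b ≤ 1)
    (hgap : |c - 1| * Den a b (r ^ 2) < 2 / Real.pi * (|r| * Num (Real.pi * c * θ) a b (r ^ 2) m)) :
    ∃ κ : ℝ, 0 < κ ∧ ∃ e : ℝ, 0 < e ∧ ∀ R : ResData, R.r = r → R.th = θ → R.ep ≤ e → ∀ δ ≤ e,
      LinProf R a b δ → ∀ (k : ℝ → ℝ) (Kk Mk δk σ : ℝ), 0 ≤ Kk →
      (∀ x y, |k x - k y| ≤ Kk * |x - y|) → (∀ x, |k x| ≤ Mk) → 0 ≤ δk → δk ≤ e →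
      (∀ x, 0 ≤ x → x ≤ 1 → |k x - k0 c x| ≤ δk) → |σ| ≤ 1 → σ * r = |r| →
      ∃ T0 : ℝ, Real.exp 3 ≤ T0 ∧ ∀ T : ℝ, T0 ≤ T →
        (|c - 1| + κ) * DD R T ≤ 2 / Real.pi * (σ * S1 R T k) := by
  have hp := Real.pi_pos
  set y := Real.pi * c * θ with hy
  set q := r ^ 2 with hq
  have hq0 : 0 ≤ q := sq_nonneg _
  set S := ∑ k ∈ range (2 * m), |sk y k| with hS
  have hS0 : 0 ≤ S := sum_nonneg fun _ _ => abs_nonneg _
  set J : ℝ := 4 * m + 3 with hJ
  have hJ0 : 0 ≤ J := by positivity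
  set A1 := |r| * (S * J * (q / θ) * 3 + 2 + 5 * (Real.pi * c) + 4 * (Real.pi * c) * (q / θ)) with hA1
  set A2 := 14 * (q / θ) with hA2
  have hqθ : 0 ≤ q / θ := div_nonneg hq0 hθ.le
  have hpc : 0 ≤ Real.pi * c := by positivity
  have hA10 : 0 ≤ A1 := by positivity
  have hA20 : 0 ≤ A2 := by positivity
  clear_value A1 A2
  set g := 2 / Real.pi * (|r| * Num y a b q m) - |c - 1| * Den a b q with hg
  have hg0 : 0 < g := by linarith
  clear_value g
  have hDen0 : 0 ≤ Den a b q := by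
    unfold Den
    have := rho_nonneg hq0 1
    have := rho_nonneg hq0 2
    positivity
  set κ := g / (4 * (Den a b q + 1)) with hκ
  have hκ0 : 0 < κ := by positivity
  clear_value κ
  have hκD : κ * Den a b q ≤ g / 4 := by
    rw [hκ, div_mul_eq_mul_div, div_le_div_iff₀ (by positivity) (by norm_num)]
    linarith
  set W := 2 / Real.pi * A1 + (|c - 1| + κ) * A2 + 1 with hW
  have hW0 : 0 < W := by positivity
  clear_value W
  set e := min 1 (g / (4 * W)) with he
  have he0 : 0 < e := lt_min one_pos (by positivity)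
  have he1 : e ≤ 1 := min_le_left _ _
  have heW : e * W ≤ g / 4 := by
    have : e ≤ g / (4 * W) := min_le_right _ _
    rw [le_div_iff₀ (by positivity)] at this
    linarith
  clear_value e
  refine ⟨κ, hκ0, e, he0, fun R hRr hRth hep δ hδ hLP k Kk Mk δk σ hKk hkl hkb hδk hδk' hk hσ hσr => ?_⟩
  have hep0 := R.ep_pos
  have hδ0 := hLP.hδ
  obtain ⟨T1, hT1, h1⟩ := S1_close hLP hc hKk hkl hkb hδk hk he0
  obtain ⟨T2, hT2, h2⟩ := mom_ratio_le R (4 * m + 3) he0
  obtain ⟨T3, hT3, h3⟩ := layer R hδ0 hLP.hδ' he0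
  refine ⟨max T1 (max T2 T3), hT1.trans (le_max_left _ _), fun T hT => ?_⟩
  have t1 : T1 ≤ T := (le_max_left _ _).trans hT
  have t2 : T2 ≤ T := ((le_max_left _ _).trans (le_max_right _ _)).trans hT
  have t3 : T3 ≤ T := ((le_max_right _ _).trans (le_max_right _ _)).trans hT
  have hTe : Real.exp 3 ≤ T := hT1.trans t1
  have h1T : 1 < T := lt_of_lt_of_le (Real.one_lt_exp_iff.mpr (by norm_num)) hTe
  have a1 := h1 T t1
  have a2 := h2 T t2
  have a3 := h3 T t3
  have a4 := DD_le hLP h1T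
  rw [hRr, hRth] at a1 a3
  rw [hRr, hRth] at a2
  set m0 := mom R T 0 with hm0
  have hm0p : 1 ≤ m0 := one_le_mom h1T 0
  set E0 := q / θ * (2 * R.ep + e) with hE0
  have hE0' : E0 ≤ q / θ * (3 * e) := mul_le_mul_of_nonneg_left (by linarith) hqθ
  have hE00 : 0 ≤ E0 := by positivity
  clear_value E0 m0
  have a3' : br R T (ly δ) ≤ 4 * (q / θ) * e * m0 := by
    refine a3.trans ?_
    apply mul_le_mul_of_nonneg_right _ (by linarith)
    have h5 : θ * δ + e ≤ 2 * e := by
      have : θ * δ ≤ 1 * e := mul_le_mul (by linarith) hδ hδ0 zero_le_one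
      linarith
    have h6 := mul_le_mul_of_nonneg_left h5 hqθ
    linarith
  have hly0 : 0 ≤ br R T (ly δ) := br_nonneg h1T fun u _ => ly_nonneg δ u
  -- the lower bound of the main sum
  have b1 : Num y a b q m * m0 - S * J * E0 * m0 ≤
      br R T (fun u => pf a b u * J0 θ c a b (1 - u)) := by
    have c1 : br R T (fun u => ∑ k ∈ range (2 * m), sk y k * term a b k (fun j => tp j u)) ≤
        br R T (fun u => pf a b u * J0 θ c a b (1 - u)) :=
      br_mono h1T fun u _ => pf_J0_ge hθ hc ha hb hm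
    have c2 : br R T (fun u => ∑ k ∈ range (2 * m), sk y k * term a b k (fun j => tp j u)) =
        ∑ k ∈ range (2 * m), sk y k * term a b k (mom R T) := by
      rw [br_sum]
      refine sum_congr rfl fun k _ => ?_
      rw [br_mul, br_term]
    have c3 : Num y a b q m * m0 = ∑ k ∈ range (2 * m), sk y k *
        term a b k (fun j => rho q j * m0) := by
      unfold Num
      rw [sum_mul]
      refine sum_congr rfl fun k _ => ?_
      rw [term_mul]; ring
    have c4 : |∑ k ∈ range (2 * m), sk y k * term a b k (mom R T) -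
        ∑ k ∈ range (2 * m), sk y k * term a b k (fun j => rho q j * m0)| ≤ S * (J * E0 * m0) := by
      rw [← sum_sub_distrib, hS, sum_mul]
      refine (abs_sum_le_sum_abs _ _).trans (sum_le_sum fun k hk => ?_)
      rw [mem_range] at hk
      rw [← mul_sub, abs_mul]
      apply mul_le_mul_of_nonneg_left _ (abs_nonneg _)
      have hj : ∀ j ≤ 4 * m + 3, |mom R T j - rho q j * m0| ≤ J * E0 * m0 := by
        intro j hj
        refine (a2 j hj).trans ?_
        have : (j:ℝ) ≤ J := by rw [hJ]; exact_mod_cast hj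
        gcongr
      exact term_close ha hb hab k (hj _ (by omega)) (hj _ (by omega)) (hj _ (by omega))
    rw [c2] at c1
    rw [← c3] at c4
    rw [abs_le] at c4
    linarith [c4.1]
  -- lower bound for S1
  have b2 : (|r| * Num y a b q m - A1 * e) * m0 ≤ σ * S1 R T k := by
    set Bm := br R T (fun u => pf a b u * J0 θ c a b (1 - u)) with hBm
    have c1 : |σ * S1 R T k - |r| * Bm| ≤ |r| * ((δk + 4 * (Real.pi * c) * R.ep +
        Real.pi * c * δ + e) * m0 + Real.pi * c * br R T (ly δ)) := by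
      have c2 : σ * S1 R T k - |r| * Bm = σ * (S1 R T k - r * Bm) := by
        rw [mul_sub, ← mul_assoc σ r, hσr]
      rw [c2, abs_mul]
      exact (mul_le_of_le_one_left (abs_nonneg _) hσ).trans a1
    have c3 : |r| * ((δk + 4 * (Real.pi * c) * R.ep + Real.pi * c * δ + e) * m0 +
        Real.pi * c * br R T (ly δ)) ≤
        |r| * ((e + 4 * (Real.pi * c) * e + Real.pi * c * e + e) * m0 +
        Real.pi * c * (4 * (q / θ) * e * m0)) := by
      gcongr
    have c4 : |r| * (Num y a b q m * m0 - S * J * E0 * m0) ≤ |r| * Bm :=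
      mul_le_mul_of_nonneg_left b1 (abs_nonneg _)
    have c5 : |r| * (S * J * E0 * m0) ≤ |r| * (S * J * (q / θ * (3 * e)) * m0) := by
      gcongr
    rw [abs_le] at c1
    have c6 : (|r| * Num y a b q m - A1 * e) * m0 = |r| * (Num y a b q m * m0) -
        |r| * (S * J * (q / θ * (3 * e)) * m0) - |r| * ((e + 4 * (Real.pi * c) * e +
          Real.pi * c * e + e) * m0 + Real.pi * c * (4 * (q / θ) * e * m0)) := by
      rw [hA1]; ring
    rw [c6]
    linarith [c1.1]
  -- upper bound for DD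
  have b3 : DD R T ≤ (Den a b q + A2 * e) * m0 := by
    have d1 := a2 1 (by omega)
    have d2 := a2 2 (by omega)
    rw [abs_le] at a4 d1 d2
    have d3 : mom R T 1 ≤ rho q 1 * m0 + q / θ * (3 * e) * m0 := by
      have : E0 * m0 ≤ q / θ * (3 * e) * m0 := mul_le_mul_of_nonneg_right hE0' (by linarith)
      have := d1.2
      push_cast at this
      linarith
    have d4 : mom R T 2 ≤ rho q 2 * m0 + 2 * (q / θ * (3 * e)) * m0 := by
      have : E0 * m0 ≤ q / θ * (3 * e) * m0 := mul_le_mul_of_nonneg_right hE0' (by linarith)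
      have := d2.2
      push_cast at this
      linarith
    have d5 : 2 * a * b * mom R T 1 ≤ 2 * a * b * (rho q 1 * m0 + q / θ * (3 * e) * m0) :=
      mul_le_mul_of_nonneg_left d3 (by positivity)
    have d6 : b ^ 2 * mom R T 2 ≤ b ^ 2 * (rho q 2 * m0 + 2 * (q / θ * (3 * e)) * m0) :=
      mul_le_mul_of_nonneg_left d4 (by positivity)
    have d7 : (2 * a * b + 2 * b ^ 2) * (q / θ * (3 * e) * m0) ≤ 2 * (q / θ * (3 * e) * m0) := by
      apply mul_le_mul_of_nonneg_right _ (by positivity)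
      have : b * (a + b) ≤ 1 * 1 := mul_le_mul (by linarith) hab (by linarith) zero_le_one
      linarith
    have d8 : (Den a b q + A2 * e) * m0 = a ^ 2 * m0 + 2 * a * b * (rho q 1 * m0) +
        b ^ 2 * (rho q 2 * m0) + 14 * (q / θ) * e * m0 := by
      rw [hA2]; unfold Den; ring
    rw [d8]
    linarith [a4.2]
  have b4 : 2 / Real.pi * ((|r| * Num y a b q m - A1 * e) * m0) ≤ 2 / Real.pi * (σ * S1 R T k) :=
    mul_le_mul_of_nonneg_left b2 (by positivity)
  have b5 : (|c - 1| + κ) * DD R T ≤ (|c - 1| + κ) * ((Den a b q + A2 * e) * m0) :=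
    mul_le_mul_of_nonneg_left b3 (by positivity)
  refine b5.trans (le_trans ?_ b4)
  have b6 : (|c - 1| + κ) * (Den a b q + A2 * e) ≤
      2 / Real.pi * (|r| * Num y a b q m - A1 * e) := by
    have f1 : e * (2 / Real.pi * A1 + (|c - 1| + κ) * A2) ≤ g / 4 := by
      have : e * W = e * (2 / Real.pi * A1 + (|c - 1| + κ) * A2) + e := by rw [hW]; ring
      linarith
    have f2 : 2 / Real.pi * (|r| * Num y a b q m) = g + |c - 1| * Den a b q := by rw [hg]; ring
    have f3 : 2 / Real.pi * (|r| * Num y a b q m - A1 * e) =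
        g + |c - 1| * Den a b q - 2 / Real.pi * A1 * e := by rw [← f2]; ring
    rw [f3]
    linarith
  calc _ = (|c - 1| + κ) * (Den a b q + A2 * e) * m0 := by ring
    _ ≤ 2 / Real.pi * (|r| * Num y a b q m - A1 * e) * m0 :=
        mul_le_mul_of_nonneg_right b6 (by linarith)
    _ = _ := by ring

end Pool.Agent.ZGap.Res
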