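import Mathlib

/-!
# The cosine transform of even Schwartz functions
-/

open scoped ContDiff FourierTransform SchwartzMap

namespace Pool.Agent.ZGap.Res

open MeasureTheory Real Set

/-- Cosine transform. -/
noncomputable def chat (g : ℝ → ℝ) (ξ : ℝ) : ℝ := ∫ x : ℝ, g x * Real.cos (x * ξ)

/-- Even real Schwartz functions. -/
structure RS (g : ℝ → ℝ) : Prop where
  ex : ∃ S : 𝓢(ℝ, ℂ), ∀ x, S x = (g x : ℂ)
  even : ∀ x, g (-x) = g x

variable {g : ℝ → ℝ}

lemma RS.of_compact (h1 : ContDiff ℝ ∞ g) (h2 : HasCompactSupport g)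
    (h3 : ∀ x, g (-x) = g x) : RS g := by
  refine ⟨?_, h3⟩
  have h4 : HasCompactSupport (fun x : ℝ => (g x : ℂ)) :=
    h2.comp_left (g := Complex.ofReal) Complex.ofReal_zero
  have h5 : ContDiff ℝ ∞ (fun x : ℝ => (g x : ℂ)) := Complex.ofRealCLM.contDiff.comp h1
  exact ⟨h4.toSchwartzMap h5, fun x => rfl⟩

lemma RS.smooth (h : RS g) : ContDiff ℝ ∞ g := by
  obtain ⟨S, hS⟩ := h.ex
  have h1 : g = fun x => Complex.reCLM (S x) := by
    funext x; rw [hS]; simp
  rw [h1]
  exact Complex.reCLM.contDiff.comp (S.smooth ⊤)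

lemma RS.continuous (h : RS g) : Continuous g := h.smooth.continuous

lemma RS.integrable (h : RS g) : Integrable g := by
  obtain ⟨S, hS⟩ := h.ex
  have h1 : g = fun x => (S x).re := by
    funext x; rw [hS]; simp
  rw [h1]
  exact S.integrable.re

lemma RS.decay (h : RS g) (k n : ℕ) : ∃ C : ℝ, 0 < C ∧ ∀ x, |x| ^ k * |iteratedDeriv n g x| ≤ C := by
  obtain ⟨S, hS⟩ := h.ex
  obtain ⟨C, hC, hb⟩ := S.decay k n
  refine ⟨C, hC, fun x => ?_⟩
  refine le_trans ?_ (hb x)
  have h1 : g = fun x => Complex.reCLM (S x) := by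
    funext x; rw [hS]; simp
  have h2 : ‖iteratedFDeriv ℝ n g x‖ ≤ ‖iteratedFDeriv ℝ n S x‖ := by
    rw [h1]
    have h3 := Complex.reCLM.iteratedFDeriv_comp_left (x := x) (f := (S : ℝ → ℂ))
      (S.smooth n).contDiffAt (i := n) (by exact le_rfl)
    have h4 : (fun x => Complex.reCLM (S x)) = Complex.reCLM ∘ (S : ℝ → ℂ) := rfl
    rw [h4, h3]
    refine (ContinuousLinearMap.norm_compContinuousMultilinearMap_le _ _).trans ?_
    rw [Complex.reCLM_norm, one_mul]
  rw [← Real.norm_eq_abs, ← Real.norm_eq_abs (iteratedDeriv n g x),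
    ← norm_iteratedFDeriv_eq_norm_iteratedDeriv]
  gcongr

lemma RS.decay_two (h : RS g) : ∃ C : ℝ, 0 < C ∧ ∀ x, |g x| ≤ C / (1 + x ^ 2) := by
  obtain ⟨C0, hC0, h0⟩ := h.decay 0 0
  obtain ⟨C2, hC2, h2⟩ := h.decay 2 0
  refine ⟨C0 + C2, by positivity, fun x => ?_⟩
  have h3 := h0 x
  have h4 := h2 x
  simp only [iteratedDeriv_zero, pow_zero, one_mul, sq_abs] at h3 h4
  rw [le_div_iff₀ (by positivity)]
  nlinarith

lemma RS.integrable_mul_cos (h : RS g) (ξ : ℝ) : Integrable (fun x => g x * Real.cos (x * ξ)) := by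
  have hc := h.continuous
  refine h.integrable.norm.mono' (Continuous.aestronglyMeasurable (by fun_prop))
    (Filter.Eventually.of_forall fun x => ?_)
  rw [norm_mul, Real.norm_eq_abs, Real.norm_eq_abs]
  exact mul_le_of_le_one_right (abs_nonneg _) (Real.abs_cos_le_one _)

lemma RS.integrable_mul_sin (h : RS g) (ξ : ℝ) : Integrable (fun x => g x * Real.sin (x * ξ)) := by
  have hc := h.continuous
  refine h.integrable.norm.mono' (Continuous.aestronglyMeasurable (by fun_prop))
    (Filter.Eventually.of_forall fun x => ?_)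
  rw [norm_mul, Real.norm_eq_abs, Real.norm_eq_abs]
  exact mul_le_of_le_one_right (abs_nonneg _) (Real.abs_sin_le_one _)

lemma RS.integral_sin (h : RS g) (ξ : ℝ) : ∫ x : ℝ, g x * Real.sin (x * ξ) = 0 := by
  have h1 := integral_neg_eq_self (fun x : ℝ => g x * Real.sin (x * ξ)) volume
  simp only [h.even, neg_mul, Real.sin_neg, mul_neg] at h1
  rw [MeasureTheory.integral_neg] at h1
  linarith

lemma RS.fourier_eq (h : RS g) (w : ℝ) :
    𝓕 (fun x : ℝ => (g x : ℂ)) w = ((chat g (2 * π * w) : ℝ) : ℂ) := by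
  rw [Real.fourier_real_eq_integral_exp_smul]
  have h1 : ∀ v : ℝ, Complex.exp (↑(-2 * π * v * w) * Complex.I) • (g v : ℂ) =
      ((g v * Real.cos (v * (2 * π * w)) : ℝ) : ℂ) -
        ((g v * Real.sin (v * (2 * π * w)) : ℝ) : ℂ) * Complex.I := by
    intro v
    rw [Complex.exp_mul_I, ← Complex.ofReal_cos, ← Complex.ofReal_sin, smul_eq_mul]
    have h2 : -2 * π * v * w = -(v * (2 * π * w)) := by ring
    rw [h2, Real.cos_neg, Real.sin_neg]
    push_cast
    ring
  simp_rw [h1]
  rw [integral_sub (h.integrable_mul_cos _).ofReal ((h.integrable_mul_sin _).ofReal.mul_const _),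
    integral_mul_const, integral_complex_ofReal, integral_complex_ofReal, h.integral_sin]
  simp [chat]

/-- The cosine transform of an even Schwartz function is an even Schwartz function. -/
theorem RS.chat (h : RS g) : RS (chat g) := by
  refine ⟨?_, fun x => ?_⟩
  · obtain ⟨S, hS⟩ := h.ex
    have hfun : (S : ℝ → ℂ) = fun x => (g x : ℂ) := funext hS
    have hpi : (2 * π)⁻¹ ≠ 0 := by positivity
    refine ⟨SchwartzMap.compCLMOfContinuousLinearEquiv ℂ
      (ContinuousLinearEquiv.unitsEquivAut ℝ (Units.mk0 _ hpi)) (𝓕 S), fun x => ?_⟩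
    rw [SchwartzMap.compCLMOfContinuousLinearEquiv_apply, Function.comp_apply,
      SchwartzMap.fourier_coe, hfun, h.fourier_eq]
    congr 2
    simp
    field_simp
  · unfold Res.chat
    simp only [mul_neg, Real.cos_neg]

/-- Fourier inversion for the cosine transform. -/
theorem RS.chat_chat (h : RS g) (x : ℝ) : Res.chat (Res.chat g) x = 2 * π * g x := by
  have h1 := h.chat
  obtain ⟨S, hS⟩ := h.ex
  have hfun : (S : ℝ → ℂ) = fun x => (g x : ℂ) := funext hS
  have hF : 𝓕 (fun x : ℝ => (g x : ℂ)) = fun w => ((Res.chat g (2 * π * w) : ℝ) : ℂ) :=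
    funext fun w => h.fourier_eq w
  have hint : Integrable (𝓕 (fun x : ℝ => (g x : ℂ))) := by
    rw [hF]
    exact (h1.integrable.comp_mul_left' (by positivity)).ofReal
  have hc := h.continuous
  have h2 := Continuous.fourierInv_fourier_eq (f := fun x : ℝ => (g x : ℂ))
    (by fun_prop) h.integrable.ofReal hint
  have h3 := congrFun h2 x
  rw [hF, Real.fourierInv_eq'] at h3
  have h4 := Measure.integral_comp_mul_left
    (fun u : ℝ => Complex.exp ((u * x : ℝ) * Complex.I) * ((Res.chat g u : ℝ) : ℂ)) (2 * π)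
  have h5 : ∀ w : ℝ, Complex.exp (↑(2 * π * inner ℝ w x) * Complex.I) •
      ((Res.chat g (2 * π * w) : ℝ) : ℂ) = Complex.exp ((2 * π * w * x : ℝ) * Complex.I) *
        ((Res.chat g (2 * π * w) : ℝ) : ℂ) := by
    intro w
    rw [smul_eq_mul]
    congr 3
    simp only [RCLike.inner_apply, conj_trivial]
    push_cast
    ring
  simp_rw [h5] at h3
  rw [h3] at h4
  rw [abs_of_pos (by positivity), Complex.real_smul] at h4
  have h6 : ∀ u : ℝ, Complex.exp ((u * x : ℝ) * Complex.I) * ((Res.chat g u : ℝ) : ℂ) =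
      ((Res.chat g u * Real.cos (u * x) : ℝ) : ℂ) +
        ((Res.chat g u * Real.sin (u * x) : ℝ) : ℂ) * Complex.I := by
    intro u
    rw [Complex.exp_mul_I, ← Complex.ofReal_cos, ← Complex.ofReal_sin]
    push_cast
    ring
  simp_rw [h6] at h4
  rw [integral_add (h1.integrable_mul_cos _).ofReal ((h1.integrable_mul_sin _).ofReal.mul_const _),
    integral_mul_const, integral_complex_ofReal, integral_complex_ofReal, h1.integral_sin] at h4
  have h7 : g x = (2 * π)⁻¹ * ∫ u : ℝ, Res.chat g u * Real.cos (u * x) := by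
    have h8 := congrArg Complex.re h4
    rw [Complex.re_ofReal_mul] at h8
    simpa using h8
  have h9 : Res.chat (Res.chat g) x = ∫ u : ℝ, Res.chat g u * Real.cos (u * x) := rfl
  rw [h7, h9]
  set J := ∫ u : ℝ, Res.chat g u * Real.cos (u * x) with hJ
  have := Real.pi_pos
  field_simp

end Pool.Agent.ZGap.Res
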