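import Pool.Agent.ZGap.Res.Mom

/-!
# The limits of the moments and the boundary layer
-/

namespace Pool.Agent.ZGap.Res

open MeasureTheory Finset ArithmeticFunction Filter Topology

variable {R : ResData} {T : ℝ}

/-- The limits of the normalised moments. -/
noncomputable def rho (q : ℝ) : ℕ → ℝ
  | 0 => 1
  | (j + 1) => ((j : ℝ) + 1) / (q + ((j : ℝ) + 1)) * rho q j

lemma rho_zero (q : ℝ) : rho q 0 = 1 := rfl

lemma rho_succ (q : ℝ) (j : ℕ) : rho q (j + 1) = ((j : ℝ) + 1) / (q + ((j : ℝ) + 1)) * rho q j := rfl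

lemma rho_nonneg {q : ℝ} (hq : 0 ≤ q) (j : ℕ) : 0 ≤ rho q j := by
  induction j with
  | zero => exact zero_le_one
  | succ j ih =>
    rw [rho_succ]
    positivity

/-- The limits of the moments. -/
theorem mom_ratio (R : ResData) (j : ℕ) {η : ℝ} (hη : 0 < η) :
    ∃ T0 : ℝ, Real.exp 3 ≤ T0 ∧ ∀ T : ℝ, T0 ≤ T →
      |mom R T j - rho (R.r ^ 2) j * mom R T 0| ≤
        j * (R.r ^ 2 / R.th * (2 * R.ep + η)) * mom R T 0 := by
  induction j with
  | zero =>
    refine ⟨Real.exp 3, le_rfl, fun T hT => ?_⟩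
    simp [rho]
  | succ j ih =>
    obtain ⟨T1, hT1, h1⟩ := ih
    obtain ⟨T2, hT2, h2⟩ := mom_rec R j hη
    refine ⟨max T1 T2, hT1.trans (le_max_left _ _), fun T hT => ?_⟩
    have a1 := h1 T ((le_max_left _ _).trans hT)
    have a2 := h2 T ((le_max_right _ _).trans hT)
    set m0 := mom R T 0
    set mj := mom R T j
    set mj1 := mom R T (j + 1)
    set E := R.r ^ 2 / R.th * (2 * R.ep + η) with hE
    set q := R.r ^ 2 with hq
    have hq0 : 0 ≤ q := sq_nonneg _
    have hj : (0:ℝ) < (j:ℝ) + 1 := by positivity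
    have e1 : mj1 - rho q (j + 1) * m0 = ((j:ℝ) + 1) / (q + ((j:ℝ) + 1)) *
        ((mj - rho q j * m0) - (mj - mj1 - q / (j + 1) * mj1)) := by
      rw [rho_succ]
      field_simp
      ring
    have h3 : 0 ≤ ((j:ℝ) + 1) / (q + ((j:ℝ) + 1)) := by positivity
    have h4 : ((j:ℝ) + 1) / (q + ((j:ℝ) + 1)) ≤ 1 := by
      rw [div_le_one (by positivity)]; linarith
    rw [e1, abs_mul, abs_of_nonneg h3]
    calc _ ≤ 1 * (|mj - rho q j * m0| + |mj - mj1 - q / (j + 1) * mj1|) :=
          mul_le_mul h4 (abs_sub _ _) (abs_nonneg _) zero_le_one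
      _ ≤ 1 * (j * E * m0 + E * m0) := by gcongr
      _ = _ := by push_cast; ring

/-- The indicator of the boundary layer. -/
noncomputable def ly (δ u : ℝ) : ℝ := if 1 - δ ≤ u ∧ u < 1 then 1 else 0

lemma ly_nonneg (δ u : ℝ) : 0 ≤ ly δ u := by
  unfold ly; split_ifs <;> norm_num

/-- The boundary layer is thin. -/
theorem layer (R : ResData) {δ η : ℝ} (hδ : 0 ≤ δ) (hδ' : δ ≤ 1 / 2) (hη : 0 < η) :
    ∃ T0 : ℝ, Real.exp 3 ≤ T0 ∧ ∀ T : ℝ, T0 ≤ T →
      br R T (ly δ) ≤ 2 * (R.r ^ 2 / R.th * (R.th * δ + η)) * mom R T 0 := by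
  obtain ⟨K, hK, hlip⟩ := fsq_lip R
  have hth := th_pos R
  have hth2 := R.th_lt
  obtain ⟨T0, hT0, h1⟩ := sharp_sum R K 1 (η / 2) hK zero_le_one (half_pos hη)
  refine ⟨T0, hT0, fun T hT => ?_⟩
  have hTe : Real.exp 3 ≤ T := hT0.trans hT
  have h1T : 1 < T := lt_of_lt_of_le (Real.one_lt_exp_iff.mpr (by norm_num)) hTe
  have hf2 : ∀ x, |R.f x ^ 2| ≤ 1 := fun x => by
    rw [abs_of_nonneg (sq_nonneg _)]; exact f_sq_le R x
  have key : ∀ V ⊆ PP T, uu R T V < 1 →
      ∑ p ∈ PP T \ V, wt T p * (R.f (xi T p) ^ 2 * ly δ (uu R T V + xi T p / R.th)) ≤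
        R.th * δ + η := by
    intro V hV hu
    set u := uu R T V with hu'
    have hu0 : 0 ≤ u := uu_nonneg h1T V
    set β1 := R.th * (1 - u) with hβ1
    set β2 := max 0 (R.th * (1 - δ - u)) with hβ2
    have b1 : 0 ≤ β1 := by apply mul_nonneg hth.le; linarith
    have b1' : β1 ≤ 1 := by nlinarith
    have b2 : 0 ≤ β2 := le_max_left _ _
    have b21 : β2 ≤ β1 := max_le b1 (by nlinarith)
    have m1 := h1 T hT (fun x => R.f x ^ 2) (fun x hx => by simp only [f_off R hx]; norm_num)
      hlip hf2 V hV hu.le β1 b1 b1'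
    have m2 := h1 T hT (fun x => R.f x ^ 2) (fun x hx => by simp only [f_off R hx]; norm_num)
      hlip hf2 V hV hu.le β2 b2 (b21.trans b1')
    have e1 : ∑ p ∈ PP T \ V, wt T p * (R.f (xi T p) ^ 2 * ly δ (u + xi T p / R.th)) =
        ∑ p ∈ PP T \ V, wt T p * (if xi T p < β1 then R.f (xi T p) ^ 2 else 0) -
        ∑ p ∈ PP T \ V, wt T p * (if xi T p < β2 then R.f (xi T p) ^ 2 else 0) := by
      rw [← sum_sub_distrib]
      refine sum_congr rfl fun p _ => ?_
      have hx := xi_nonneg h1T p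
      have hiff1 : u + xi T p / R.th < 1 ↔ xi T p < β1 := by
        rw [hβ1]
        constructor
        · intro h
          have : xi T p / R.th < 1 - u := by linarith
          rw [div_lt_iff₀ hth] at this
          linarith
        · intro h
          have : xi T p / R.th < 1 - u := by
            rw [div_lt_iff₀ hth]; linarith
          linarith
      have hiff2 : 1 - δ ≤ u + xi T p / R.th ↔ β2 ≤ xi T p := by
        rw [hβ2, max_le_iff]
        constructor
        · intro h
          refine ⟨hx, ?_⟩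
          have : 1 - δ - u ≤ xi T p / R.th := by linarith
          rw [le_div_iff₀ hth] at this
          linarith
        · rintro ⟨_, h⟩
          have : 1 - δ - u ≤ xi T p / R.th := by
            rw [le_div_iff₀ hth]; linarith
          linarith
      unfold ly
      by_cases c1 : xi T p < β1
      · by_cases c2 : β2 ≤ xi T p
        · rw [if_pos ⟨hiff2.mpr c2, hiff1.mpr c1⟩, if_pos c1, if_neg (not_lt.mpr c2)]; ring
        · rw [if_neg (fun h => c2 (hiff2.mp h.1)), if_pos c1, if_pos (not_le.mp c2)]; ring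
      · have c2 : ¬ xi T p < β2 := fun h => c1 (h.trans_le b21)
        rw [if_neg (fun h => c1 (hiff1.mp h.2)), if_neg c1, if_neg c2]; ring
    have hfc : Continuous fun x => R.f x ^ 2 := (continuous_f R).pow 2
    have e2 : (∫ x in (0:ℝ)..β1, R.f x ^ 2) - ∫ x in (0:ℝ)..β2, R.f x ^ 2 ≤ R.th * δ := by
      rw [intervalIntegral.integral_interval_sub_left (hfc.intervalIntegrable _ _)
        (hfc.intervalIntegrable _ _)]
      calc ∫ x in β2..β1, R.f x ^ 2 ≤ ∫ x in β2..β1, (1:ℝ) :=
            intervalIntegral.integral_mono_on b21 (hfc.intervalIntegrable _ _)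
              (by simp) (fun x _ => f_sq_le R x)
        _ = β1 - β2 := by simp
        _ ≤ R.th * δ := by
            have := le_max_right 0 (R.th * (1 - δ - u))
            rw [← hβ2] at this
            rw [hβ1]
            nlinarith
    rw [e1]
    rw [abs_le] at m1 m2
    linarith [m1.1, m1.2, m2.1, m2.2]
  -- the adjoint identity
  have adj := adjoint (R := R) h1T (ly δ)
  have e1 : (1 / 2) * br R T (ly δ) ≤
      ∑ U ∈ (PP T).powerset, mu R T U * (uu R T U * ly δ (uu R T U)) := by
    unfold br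
    rw [mul_sum]
    refine sum_le_sum fun U _ => ?_
    have h3 := mu_nonneg (R := R) (T := T) U
    unfold ly
    split_ifs with h
    · have : 1 / 2 ≤ uu R T U := by linarith [h.1]
      nlinarith
    · simp
  rw [adj] at e1
  have e2 : ∑ V ∈ (PP T).powerset, mu R T V * (R.r ^ 2 / R.th * ∑ p ∈ PP T \ V,
        wt T p * (R.f (xi T p) ^ 2 * ly δ (uu R T V + xi T p / R.th))) ≤
      R.r ^ 2 / R.th * (R.th * δ + η) * mom R T 0 := by
    unfold mom br
    rw [mul_sum]
    refine sum_le_sum fun V hV => ?_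
    rw [mem_powerset] at hV
    have h3 := mu_nonneg (R := R) (T := T) V
    have h4 : 0 ≤ R.r ^ 2 / R.th := div_nonneg (sq_nonneg R.r) hth.le
    rw [tp_zero]
    by_cases hu : uu R T V < 1
    · rw [if_pos hu, mul_one]
      have h5 := key V hV hu
      calc _ ≤ mu R T V * (R.r ^ 2 / R.th * (R.th * δ + η)) := by gcongr
        _ = _ := by ring
    · rw [if_neg hu, mul_zero, mul_zero]
      have h5 : ∀ p ∈ PP T \ V, wt T p * (R.f (xi T p) ^ 2 *
          ly δ (uu R T V + xi T p / R.th)) = 0 := by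
        intro p _
        have hx := div_nonneg (xi_nonneg h1T p) hth.le
        have : ly δ (uu R T V + xi T p / R.th) = 0 := by
          unfold ly
          rw [if_neg]
          intro h
          exact hu (by linarith [h.2])
        rw [this]
        ring
      rw [sum_eq_zero h5]
      simp
  linarith

end Pool.Agent.ZGap.Res
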