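import Pool.Agent.ZGap.Res.Sharp

/-!
# The moments and their recursion
-/

namespace Pool.Agent.ZGap.Res

open MeasureTheory Finset ArithmeticFunction Filter Topology

variable {R : ResData} {T : ℝ}

/-- The weighted sum. -/
noncomputable def br (R : ResData) (T : ℝ) (G : ℝ → ℝ) : ℝ :=
  ∑ U ∈ (PP T).powerset, mu R T U * G (uu R T U)

/-- The truncated powers. -/
noncomputable def tp (j : ℕ) (u : ℝ) : ℝ := if u < 1 then (1 - u) ^ j else 0

/-- The moments. -/
noncomputable def mom (R : ResData) (T : ℝ) (j : ℕ) : ℝ := br R T (tp j)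

lemma br_add (G H : ℝ → ℝ) : br R T (fun u => G u + H u) = br R T G + br R T H := by
  unfold br
  rw [← sum_add_distrib]
  exact sum_congr rfl fun _ _ => by ring

lemma br_sub (G H : ℝ → ℝ) : br R T (fun u => G u - H u) = br R T G - br R T H := by
  unfold br
  rw [← sum_sub_distrib]
  exact sum_congr rfl fun _ _ => by ring

lemma br_mul (c : ℝ) (G : ℝ → ℝ) : br R T (fun u => c * G u) = c * br R T G := by
  unfold br
  rw [mul_sum]
  exact sum_congr rfl fun _ _ => by ring

lemma br_sum {ι : Type*} (s : Finset ι) (G : ι → ℝ → ℝ) :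
    br R T (fun u => ∑ i ∈ s, G i u) = ∑ i ∈ s, br R T (G i) := by
  unfold br
  rw [sum_comm]
  exact sum_congr rfl fun _ _ => by rw [mul_sum]

lemma br_mono (hT : 1 < T) {G H : ℝ → ℝ} (h : ∀ u, 0 ≤ u → G u ≤ H u) : br R T G ≤ br R T H :=
  sum_le_sum fun U _ => mul_le_mul_of_nonneg_left (h _ (uu_nonneg hT U)) (mu_nonneg U)

lemma br_nonneg (hT : 1 < T) {G : ℝ → ℝ} (h : ∀ u, 0 ≤ u → 0 ≤ G u) : 0 ≤ br R T G :=
  sum_nonneg fun U _ => mul_nonneg (mu_nonneg U) (h _ (uu_nonneg hT U))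

lemma abs_br_le (hT : 1 < T) {G H : ℝ → ℝ} (h : ∀ u, 0 ≤ u → |G u| ≤ H u) :
    |br R T G| ≤ br R T H := by
  refine (abs_sum_le_sum_abs _ _).trans (sum_le_sum fun U _ => ?_)
  rw [abs_mul, abs_of_nonneg (mu_nonneg U)]
  exact mul_le_mul_of_nonneg_left (h _ (uu_nonneg hT U)) (mu_nonneg U)

lemma tp_nonneg (j : ℕ) (u : ℝ) : 0 ≤ tp j u := by
  unfold tp
  split_ifs with h
  · exact pow_nonneg (by linarith) j
  · exact le_rfl

lemma tp_zero (u : ℝ) : tp 0 u = if u < 1 then 1 else 0 := by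
  unfold tp
  simp

lemma tp_le_tp_zero (j : ℕ) {u : ℝ} (hu : 0 ≤ u) : tp j u ≤ tp 0 u := by
  unfold tp
  split_ifs with h
  · rw [pow_zero]
    exact pow_le_one₀ (by linarith) (by linarith)
  · exact le_rfl

lemma mom_nonneg (hT : 1 < T) (j : ℕ) : 0 ≤ mom R T j := br_nonneg hT fun u _ => tp_nonneg j u

lemma mom_le_zero (hT : 1 < T) (j : ℕ) : mom R T j ≤ mom R T 0 :=
  br_mono hT fun _ hu => tp_le_tp_zero j hu

lemma uu_empty : uu R T ∅ = 0 := by
  unfold uu ell
  simp

lemma one_le_mom (hT : 1 < T) (j : ℕ) : 1 ≤ mom R T j := by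
  unfold mom br
  have h := single_le_sum (f := fun U => mu R T U * tp j (uu R T U))
    (fun U _ => mul_nonneg (mu_nonneg U) (tp_nonneg j _)) (empty_mem_powerset (PP T))
  refine le_trans ?_ h
  simp only [uu_empty, mu_empty, tp]
  norm_num

lemma f_lip (R : ResData) : ∃ K : ℝ, 0 ≤ K ∧ ∀ x y, |R.f x - R.f y| ≤ K * |x - y| := by
  have hs : HasCompactSupport R.f := by
    apply HasCompactSupport.of_support_subset_isCompact (isCompact_Icc (a := R.ep)
      (b := (R.th + 1 / 2) / 2))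
    intro x hx
    rw [Function.mem_support] at hx
    constructor
    · by_contra h
      exact hx (R.f_low x (not_le.mp h).le)
    · by_contra h
      exact hx (R.f_high x (not_le.mp h).le)
  obtain ⟨K, hK⟩ := ContDiff.lipschitzWith_of_hasCompactSupport hs R.f_smooth (by simp)
  refine ⟨K, K.2, fun x y => ?_⟩
  have := hK.dist_le_mul x y
  rwa [Real.dist_eq, Real.dist_eq] at this

lemma F_lip (R : ResData) : ∃ K : ℝ, 0 ≤ K ∧ ∀ x y, |R.F x - R.F y| ≤ K * |x - y| := by
  obtain ⟨K, hK⟩ := ContDiff.lipschitzWith_of_hasCompactSupport R.F_supp R.F_smooth (by simp)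
  refine ⟨K, K.2, fun x y => ?_⟩
  have := hK.dist_le_mul x y
  rwa [Real.dist_eq, Real.dist_eq] at this

lemma continuous_f (R : ResData) : Continuous R.f := R.f_smooth.continuous

lemma continuous_F (R : ResData) : Continuous R.F := R.F_smooth.continuous

lemma abs_f_le (R : ResData) (x : ℝ) : |R.f x| ≤ 1 := by
  rw [abs_of_nonneg (R.f_nonneg x)]; exact R.f_le x

lemma f_off (R : ResData) {x : ℝ} (hx : x ∉ Set.Ioo R.ep ((R.th + 1 / 2) / 2)) : R.f x = 0 := by
  rw [Set.mem_Ioo, not_and_or, not_lt, not_lt] at hx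
  rcases hx with h | h
  · exact R.f_low x h
  · exact R.f_high x h

lemma fsq_lip (R : ResData) : ∃ K : ℝ, 0 ≤ K ∧ ∀ x y, |R.f x ^ 2 - R.f y ^ 2| ≤ K * |x - y| := by
  obtain ⟨K, hK, h⟩ := f_lip R
  refine ⟨K * 1 + 1 * K, by positivity, fun x y => ?_⟩
  rw [sq, sq]
  exact lip_mul h h (abs_f_le R) (abs_f_le R) x y

/-- Removing a cutoff equal to one outside of a short interval. -/
lemma cut_le (R : ResData) {ω φ : ℝ → ℝ} (hω : Continuous ω) (hφ : Continuous φ)
    (h1 : ∀ x, 0 ≤ x → |ω x - 1| ≤ 1) (h2 : ∀ x, 2 * R.ep ≤ x → x ≤ R.th → ω x = 1)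
    {β B : ℝ} (hβ : 0 ≤ β) (hβ' : β ≤ R.th) (hB : 0 ≤ B) (hφB : ∀ x, 0 ≤ x → x ≤ β → |φ x| ≤ B) :
    |(∫ x in (0:ℝ)..β, ω x * φ x) - ∫ x in (0:ℝ)..β, φ x| ≤ 2 * R.ep * B := by
  have hep := R.ep_pos
  have hωφ : Continuous fun x => ω x * φ x := hω.mul hφ
  rw [← intervalIntegral.integral_sub (hωφ.intervalIntegrable _ _)
    (hφ.intervalIntegrable _ _)]
  calc |∫ x in (0:ℝ)..β, (ω x * φ x - φ x)| ≤ ∫ x in (0:ℝ)..β, |ω x * φ x - φ x| :=
        intervalIntegral.abs_integral_le_integral_abs hβ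
    _ ≤ ∫ x in (0:ℝ)..β, (Set.Icc 0 (2 * R.ep)).indicator (fun _ => B) x := by
        apply intervalIntegral.integral_mono_on hβ
          (((hω.mul hφ).sub hφ).abs.intervalIntegrable _ _)
        · rw [intervalIntegrable_iff_integrableOn_Ioc_of_le hβ]
          exact (integrable_const B).indicator measurableSet_Icc
        · intro x hx
          show |ω x * φ x - φ x| ≤ _
          have e : ω x * φ x - φ x = (ω x - 1) * φ x := by ring
          rw [e, abs_mul]
          by_cases hx' : x ∈ Set.Icc 0 (2 * R.ep)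
          · rw [Set.indicator_of_mem hx']
            calc _ ≤ 1 * B := mul_le_mul (h1 x hx.1) (hφB x hx.1 hx.2) (abs_nonneg _) zero_le_one
              _ = B := one_mul B
          · rw [Set.indicator_of_notMem hx']
            have h3 : 2 * R.ep ≤ x := by
              by_contra h
              exact hx' ⟨hx.1, (not_le.mp h).le⟩
            rw [h2 x h3 (hx.2.trans hβ'), sub_self, abs_zero, zero_mul]
    _ ≤ 2 * R.ep * B := by
        rw [intervalIntegral.integral_of_le hβ, integral_indicator measurableSet_Icc,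
          setIntegral_const, smul_eq_mul]
        apply mul_le_mul_of_nonneg_right _ hB
        have : (volume.restrict (Set.Ioc (0:ℝ) β)).real (Set.Icc 0 (2 * R.ep)) ≤
            volume.real (Set.Icc 0 (2 * R.ep)) := by
          refine ENNReal.toReal_mono ?_ (Measure.restrict_apply_le _ _)
          rw [Real.volume_Icc]; exact ENNReal.ofReal_ne_top
        refine this.trans ?_
        rw [Measure.real, Real.volume_Icc, ENNReal.toReal_ofReal (by linarith)]
        linarith

lemma integral_pow_cut {θ x : ℝ} (hθ : 0 < θ) (j : ℕ) :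
    ∫ ξ in (0:ℝ)..(θ * x), (x - ξ / θ) ^ j = θ * x ^ (j + 1) / (j + 1) := by
  have h1 : ∀ ξ ∈ Set.uIcc (0:ℝ) (θ * x), HasDerivAt
      (fun ξ => -(θ * (x - ξ / θ) ^ (j + 1) / (j + 1))) ((x - ξ / θ) ^ j) ξ := by
    intro ξ _
    have h2 : HasDerivAt (fun ξ : ℝ => x - ξ / θ) (-(1 / θ)) ξ := by
      have := (hasDerivAt_id ξ).div_const θ
      simpa using this.const_sub x
    have h3 : HasDerivAt (fun ξ : ℝ => (x - ξ / θ) ^ (j + 1))
        (((j + 1 : ℕ) : ℝ) * (x - ξ / θ) ^ j * -(1 / θ)) ξ := h2.pow (j + 1)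
    have h4 : HasDerivAt (fun ξ : ℝ => -(θ * (x - ξ / θ) ^ (j + 1) / (j + 1)))
        (-(θ * (((j + 1 : ℕ) : ℝ) * (x - ξ / θ) ^ j * -(1 / θ)) / (j + 1))) ξ :=
      ((h3.const_mul θ).div_const ((j:ℝ) + 1)).neg
    have h5 : -(θ * (((j + 1 : ℕ) : ℝ) * (x - ξ / θ) ^ j * -(1 / θ)) / (j + 1)) =
        (x - ξ / θ) ^ j := by
      have : (j:ℝ) + 1 ≠ 0 := by positivity
      push_cast
      field_simp
    rwa [h5] at h4
  rw [intervalIntegral.integral_eq_sub_of_hasDerivAt h1
    (Continuous.intervalIntegrable (by fun_prop) _ _)]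
  have h5 : x - θ * x / θ = 0 := by field_simp; ring
  rw [h5, zero_pow (by omega)]
  simp

lemma cl_eq {x : ℝ} (h0 : 0 ≤ x) (h1 : x ≤ 1) : cl x = x := by
  unfold cl
  rw [min_eq_right h1, max_eq_right h0]

lemma abs_cl_le (x : ℝ) : |cl x| ≤ 1 := by
  rw [abs_of_nonneg (cl_nonneg x)]; exact cl_le_one x

lemma cl_pow_lip (j : ℕ) (x y : ℝ) : |cl x ^ j - cl y ^ j| ≤ j * |x - y| := by
  induction j with
  | zero => simp
  | succ j ih =>
    have e : cl x ^ (j + 1) - cl y ^ (j + 1) = (cl x ^ j - cl y ^ j) * cl x +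
      cl y ^ j * (cl x - cl y) := by ring
    rw [e]
    refine (abs_add_le _ _).trans ?_
    rw [abs_mul, abs_mul]
    have h1 : |cl y ^ j| ≤ 1 := by
      rw [abs_pow]; exact pow_le_one₀ (abs_nonneg _) (abs_cl_le y)
    have h2 := abs_cl_sub x y
    have h3 := abs_cl_le x
    calc _ ≤ (j * |x - y|) * 1 + 1 * |x - y| := by
          apply add_le_add
          · exact mul_le_mul ih h3 (abs_nonneg _) (by positivity)
          · exact mul_le_mul h1 h2 (abs_nonneg _) zero_le_one
      _ = _ := by push_cast; ring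

/-- The adjoint of a sharp truncated power. -/
theorem adj_tp (R : ResData) (j : ℕ) {η : ℝ} (hη : 0 < η) :
    ∃ T0 : ℝ, Real.exp 3 ≤ T0 ∧ ∀ T : ℝ, T0 ≤ T → ∀ U ⊆ PP T, uu R T U < 1 →
      |∑ p ∈ PP T \ U, wt T p * (R.f (xi T p) ^ 2 * tp j (uu R T U + xi T p / R.th)) -
        R.th * (1 - uu R T U) ^ (j + 1) / (j + 1)| ≤ 2 * R.ep + η := by
  obtain ⟨K, hK, hlip⟩ := fsq_lip R
  have hth := th_pos R
  have hth2 := R.th_lt
  obtain ⟨T0, hT0, h1⟩ := sharp_sum R (K * 1 + 1 * (j / R.th)) 1 η (by positivity) zero_le_one hη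
  refine ⟨T0, hT0, fun T hT U hU hu => ?_⟩
  have hTe : Real.exp 3 ≤ T := hT0.trans hT
  have h1T : 1 < T := lt_of_lt_of_le (Real.one_lt_exp_iff.mpr (by norm_num)) hTe
  set u := uu R T U with hu'
  have hu0 : 0 ≤ u := uu_nonneg h1T U
  set g : ℝ → ℝ := fun ξ => R.f ξ ^ 2 * cl (1 - u - ξ / R.th) ^ j with hg
  have hf2 : ∀ x, |R.f x ^ 2| ≤ 1 := fun x => by
    rw [abs_of_nonneg (sq_nonneg _)]; exact f_sq_le R x
  have hcl : ∀ x, |cl (1 - u - x / R.th) ^ j| ≤ 1 := fun x => by
    rw [abs_pow]; exact pow_le_one₀ (abs_nonneg _) (abs_cl_le _)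
  have hcl2 : ∀ x y, |cl (1 - u - x / R.th) ^ j - cl (1 - u - y / R.th) ^ j| ≤
      (j / R.th) * |x - y| := by
    intro x y
    refine (cl_pow_lip j _ _).trans ?_
    have e : 1 - u - x / R.th - (1 - u - y / R.th) = -((x - y) / R.th) := by ring
    rw [e, abs_neg, abs_div, abs_of_pos hth]
    apply le_of_eq
    ring
  have main := h1 T hT g (fun x hx => by simp only [hg, f_off R hx]; ring)
    (lip_mul hlip hcl2 hf2 hcl) (fun x => by
      simp only [hg]
      rw [abs_mul]
      calc _ ≤ 1 * (1:ℝ) := mul_le_mul (hf2 x) (hcl x) (abs_nonneg _) zero_le_one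
        _ = 1 := one_mul 1) U hU hu.le (R.th * (1 - u)) (by
          apply mul_nonneg hth.le; linarith) (by nlinarith)
  have e1 : ∑ p ∈ PP T \ U, wt T p * (R.f (xi T p) ^ 2 * tp j (u + xi T p / R.th)) =
      ∑ p ∈ PP T \ U, wt T p * (if xi T p < R.th * (1 - u) then g (xi T p) else 0) := by
    refine sum_congr rfl fun p _ => ?_
    have hx := xi_nonneg h1T p
    unfold tp
    have hiff : u + xi T p / R.th < 1 ↔ xi T p < R.th * (1 - u) := by
      constructor
      · intro h
        have : xi T p / R.th < 1 - u := by linarith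
        rw [div_lt_iff₀ hth] at this
        linarith
      · intro h
        have : xi T p / R.th < 1 - u := by
          rw [div_lt_iff₀ hth]; linarith
        linarith
    by_cases h : u + xi T p / R.th < 1
    · rw [if_pos h, if_pos (hiff.mp h)]
      simp only [hg]
      have h3 : 0 ≤ xi T p / R.th := div_nonneg hx hth.le
      rw [cl_eq (by linarith) (by linarith)]
      ring
    · rw [if_neg h, if_neg (fun h' => h (hiff.mpr h')), mul_zero]
  have e2 : |(∫ x in (0:ℝ)..(R.th * (1 - u)), g x) -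
      R.th * (1 - u) ^ (j + 1) / (j + 1)| ≤ 2 * R.ep := by
    have h3 := cut_le R (ω := fun x => R.f x ^ 2) (φ := fun x => cl (1 - u - x / R.th) ^ j)
      ((continuous_f R).pow 2) ((continuous_cl.comp (by fun_prop)).pow j) (fun x _ => by
        have h4 := hf2 x
        rw [abs_of_nonneg (sq_nonneg _)] at h4
        have h5 := sq_nonneg (R.f x)
        rw [abs_le]; constructor <;> linarith)
      (fun x hx1 hx2 => by simp only [R.f_mid x hx1 hx2]; norm_num) (β := R.th * (1 - u)) (B := 1)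
      (by apply mul_nonneg hth.le; linarith) (by nlinarith) zero_le_one (fun x _ _ => hcl x)
    have h4 : ∫ x in (0:ℝ)..(R.th * (1 - u)), cl (1 - u - x / R.th) ^ j =
        R.th * (1 - u) ^ (j + 1) / (j + 1) := by
      rw [← integral_pow_cut hth j]
      apply intervalIntegral.integral_congr
      intro x hx
      rw [Set.uIcc_of_le (by apply mul_nonneg hth.le; linarith)] at hx
      have h5 : x / R.th ≤ 1 - u := by
        rw [div_le_iff₀ hth]; linarith [hx.2]
      have h6 : 0 ≤ x / R.th := div_nonneg hx.1 hth.le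
      simp only
      rw [cl_eq (by linarith) (by linarith)]
    rw [h4, mul_one] at h3
    exact h3
  rw [e1]
  rw [abs_le] at *
  constructor <;> linarith [main.1, main.2, e2.1, e2.2]

/-- The recursion of the moments. -/
theorem mom_rec (R : ResData) (j : ℕ) {η : ℝ} (hη : 0 < η) :
    ∃ T0 : ℝ, Real.exp 3 ≤ T0 ∧ ∀ T : ℝ, T0 ≤ T →
      |mom R T j - mom R T (j + 1) - R.r ^ 2 / (j + 1) * mom R T (j + 1)| ≤
        R.r ^ 2 / R.th * (2 * R.ep + η) * mom R T 0 := by
  obtain ⟨T0, hT0, h1⟩ := adj_tp R j hη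
  refine ⟨T0, hT0, fun T hT => ?_⟩
  have hTe : Real.exp 3 ≤ T := hT0.trans hT
  have h1T : 1 < T := lt_of_lt_of_le (Real.one_lt_exp_iff.mpr (by norm_num)) hTe
  have hth := th_pos R
  have hep := R.ep_pos
  have adj := adjoint (R := R) h1T (tp j)
  have e1 : ∑ U ∈ (PP T).powerset, mu R T U * (uu R T U * tp j (uu R T U)) =
      mom R T j - mom R T (j + 1) := by
    unfold mom
    rw [← br_sub]
    unfold br
    refine sum_congr rfl fun U _ => ?_
    congr 1
    simp only [tp]
    split_ifs <;> ring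
  rw [← e1, adj]
  have e2 : R.r ^ 2 / (j + 1) * mom R T (j + 1) = ∑ V ∈ (PP T).powerset,
      mu R T V * (R.r ^ 2 / R.th * (if uu R T V < 1 then
        R.th * (1 - uu R T V) ^ (j + 1) / (j + 1) else 0)) := by
    unfold mom br
    rw [mul_sum]
    refine sum_congr rfl fun U _ => ?_
    unfold tp
    split_ifs
    · field_simp
    · simp
  rw [e2, ← sum_sub_distrib]
  unfold mom br
  rw [mul_sum]
  refine (abs_sum_le_sum_abs _ _).trans (sum_le_sum fun V hV => ?_)
  rw [mem_powerset] at hV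
  rw [← mul_sub, ← mul_sub, abs_mul, abs_mul, abs_of_nonneg (mu_nonneg V),
    abs_of_nonneg (div_nonneg (sq_nonneg R.r) hth.le), tp_zero]
  by_cases hu : uu R T V < 1
  · rw [if_pos hu, if_pos hu, mul_one]
    have h2 := h1 T hT V hV hu
    have h3 := mu_nonneg (R := R) (T := T) V
    calc _ ≤ mu R T V * (R.r ^ 2 / R.th * (2 * R.ep + η)) := by gcongr
      _ = _ := by ring
  · rw [if_neg hu, if_neg hu, mul_zero, mul_zero]
    have h3 : ∀ p ∈ PP T \ V, wt T p * (R.f (xi T p) ^ 2 *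
        tp j (uu R T V + xi T p / R.th)) = 0 := by
      intro p _
      have hx := div_nonneg (xi_nonneg h1T p) hth.le
      have : tp j (uu R T V + xi T p / R.th) = 0 := by
        unfold tp
        rw [if_neg]
        intro h
        exact hu (by linarith)
      rw [this]
      ring
    rw [sum_eq_zero h3]
    simp

end Pool.Agent.ZGap.Res
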