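import Pool.Agent.ZGap.Res.Count

/-!
# The smooth band-limited weight concentrated on `[T, 2T]`
-/

open scoped ContDiff

namespace Pool.Agent.ZGap.Res

open MeasureTheory Real Set

/-- Transfer of the cosine transform. -/
lemma RS.transfer {a h : ℝ → ℝ} (ha : RS a) (hh : RS h) :
    ∫ s : ℝ, Res.chat a s * h s = ∫ x : ℝ, a x * Res.chat h x := by
  have hac := ha.continuous
  have hhc := hh.continuous
  have e1 : ∀ s : ℝ, Res.chat a s * h s = ∫ x : ℝ, (a x * Real.cos (x * s)) * h s := fun s =>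
    (MeasureTheory.integral_mul_const _ _).symm
  have e2 : ∀ x : ℝ, a x * Res.chat h x = ∫ s : ℝ, (a x * Real.cos (x * s)) * h s := by
    intro x
    unfold Res.chat
    rw [← MeasureTheory.integral_const_mul]
    refine integral_congr_ae (Filter.Eventually.of_forall fun s => ?_)
    simp only
    rw [mul_comm s x]
    ring
  simp_rw [e1, e2]
  rw [integral_integral_swap]
  have h3 := hh.integrable.mul_prod ha.integrable
  refine h3.norm.mono' ?_ (Filter.Eventually.of_forall fun z => ?_)
  · apply Continuous.aestronglyMeasurable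
    simp only [Function.uncurry_def]
    fun_prop
  · simp only [Function.uncurry_def]
    rw [norm_mul, norm_mul, norm_mul, Real.norm_eq_abs (Real.cos _)]
    have := Real.abs_cos_le_one (z.2 * z.1)
    calc ‖a z.2‖ * |Real.cos (z.2 * z.1)| * ‖h z.1‖
        ≤ ‖a z.2‖ * 1 * ‖h z.1‖ := by gcongr
      _ = _ := by ring

/-- Parseval. -/
lemma RS.parseval {a b : ℝ → ℝ} (ha : RS a) (hb : RS b) :
    ∫ s : ℝ, Res.chat a s * Res.chat b s = 2 * π * ∫ x : ℝ, a x * b x := by
  rw [ha.transfer hb.chat, ← MeasureTheory.integral_const_mul]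
  refine integral_congr_ae (Filter.Eventually.of_forall fun x => ?_)
  simp only
  rw [hb.chat_chat]
  ring

/-- The basic bump. -/
noncomputable def bmp : ContDiffBump (0:ℝ) := ⟨1 / 4, 1 / 2, by norm_num, by norm_num⟩

lemma bmp_RS : RS (bmp : ℝ → ℝ) :=
  RS.of_compact bmp.contDiff bmp.hasCompactSupport fun x => bmp.neg x

lemma bmp_zero {x : ℝ} (h : 1 / 2 ≤ |x|) : bmp x = 0 := by
  have : x ∉ Function.support bmp := by
    rw [bmp.support_eq]
    simp only [Metric.mem_ball, dist_zero_right, Real.norm_eq_abs, not_lt]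
    exact h
  simpa [Function.mem_support] using this

lemma bmp_sq_pos : 0 < ∫ x : ℝ, bmp x * bmp x := by
  have hc : Continuous (fun x : ℝ => bmp x * bmp x) := bmp.continuous.mul bmp.continuous
  have hs : HasCompactSupport (fun x : ℝ => bmp x * bmp x) := bmp.hasCompactSupport.mul_left
  rw [integral_pos_iff_support_of_nonneg (fun x => mul_self_nonneg _)
    (hc.integrable_of_hasCompactSupport hs)]
  have h1 : Metric.ball (0:ℝ) (1 / 2) ⊆ Function.support (fun x : ℝ => bmp x * bmp x) := by
    intro x hx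
    rw [Function.mem_support]
    have : 0 < bmp x := bmp.pos_of_mem_ball hx
    positivity
  refine lt_of_lt_of_le ?_ (measure_mono h1)
  rw [Real.volume_ball]
  simp

/-- The normalising constant. -/
noncomputable def cW : ℝ := ∫ s : ℝ, chat bmp s * chat bmp s

lemma cW_pos : 0 < cW := by
  unfold cW
  rw [bmp_RS.parseval bmp_RS]
  have := bmp_sq_pos
  have := Real.pi_pos
  positivity

/-- The profile of the weight: nonnegative, Schwartz, integral `1`, spectrum in `[-1, 1]`. -/
noncomputable def WW (s : ℝ) : ℝ := cW⁻¹ * (chat bmp s * chat bmp s)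

lemma WW_nonneg (s : ℝ) : 0 ≤ WW s :=
  mul_nonneg (inv_nonneg.mpr cW_pos.le) (mul_self_nonneg _)

lemma WW_continuous : Continuous WW := by
  unfold WW
  have := bmp_RS.chat.continuous
  fun_prop

lemma WW_even (s : ℝ) : WW (-s) = WW s := by
  unfold WW
  rw [bmp_RS.chat.even]

lemma WW_decay (m : ℕ) : ∃ C : ℝ, 0 < C ∧ ∀ s, |s| ^ m * WW s ≤ C := by
  obtain ⟨C0, hC0, h0⟩ := bmp_RS.chat.decay 0 0
  obtain ⟨Cm, hCm, hm⟩ := bmp_RS.chat.decay m 0
  have hc := cW_pos
  refine ⟨cW⁻¹ * (Cm * C0), by positivity, fun s => ?_⟩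
  have h1 := h0 s
  have h2 := hm s
  simp only [iteratedDeriv_zero, pow_zero, one_mul] at h1 h2
  unfold WW
  have h3 : chat bmp s * chat bmp s = |chat bmp s| * |chat bmp s| := (abs_mul_abs_self _).symm
  rw [h3]
  calc |s| ^ m * (cW⁻¹ * (|chat bmp s| * |chat bmp s|)) =
      cW⁻¹ * ((|s| ^ m * |chat bmp s|) * |chat bmp s|) := by ring
    _ ≤ _ := by gcongr

lemma WW_bound : ∃ C : ℝ, 0 < C ∧ ∀ s, WW s ≤ C / (1 + s ^ 2) := by
  obtain ⟨C0, hC0, h0⟩ := WW_decay 0
  obtain ⟨C2, hC2, h2⟩ := WW_decay 2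
  refine ⟨C0 + C2, by positivity, fun s => ?_⟩
  have h3 := h0 s
  have h4 := h2 s
  simp only [pow_zero, one_mul, sq_abs] at h3 h4
  rw [le_div_iff₀ (by positivity)]
  nlinarith

lemma WW_integrable : Integrable WW := by
  obtain ⟨C, hC, h⟩ := WW_bound
  refine (integrable_inv_one_add_sq.const_mul C).mono' WW_continuous.aestronglyMeasurable
    (Filter.Eventually.of_forall fun s => ?_)
  rw [Real.norm_of_nonneg (WW_nonneg s), ← div_eq_mul_inv]
  exact h s

lemma WW_integral : ∫ s : ℝ, WW s = 1 := by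
  unfold WW
  rw [MeasureTheory.integral_const_mul]
  exact inv_mul_cancel₀ cW_pos.ne'

lemma WW_cos {l : ℝ} (hl : 1 ≤ |l|) : ∫ s : ℝ, WW s * Real.cos (l * s) = 0 := by
  -- the modulated bump
  set b : ℝ → ℝ := fun v => 1 / 2 * (bmp (v - l) + bmp (v + l)) with hb
  have hbs : ContDiff ℝ ∞ b := by
    have h0 : ContDiff ℝ ∞ (bmp : ℝ → ℝ) := bmp.contDiff
    have h1 : ContDiff ℝ ∞ (fun v : ℝ => bmp (v - l)) := h0.comp (by fun_prop)
    have h2 : ContDiff ℝ ∞ (fun v : ℝ => bmp (v + l)) := h0.comp (by fun_prop)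
    exact contDiff_const.mul (h1.add h2)
  have hbc : HasCompactSupport b := by
    refine HasCompactSupport.of_support_subset_isCompact
      (K := Icc (-(|l| + 1)) (|l| + 1)) isCompact_Icc fun v hv => ?_
    rw [Function.mem_support] at hv
    by_contra hv2
    apply hv
    rw [mem_Icc, ← abs_le, not_le] at hv2
    simp only [hb]
    have h1 : |v| ≤ |v - l| + |l| := by
      have := abs_add_le (v - l) l
      rwa [sub_add_cancel] at this
    have h2 : |v| ≤ |v + l| + |l| := by
      have := abs_add_le (v + l) (-l)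
      rwa [add_neg_cancel_right, abs_neg] at this
    have z1 : bmp (v - l) = 0 := bmp_zero (by linarith)
    have z2 : bmp (v + l) = 0 := bmp_zero (by linarith)
    rw [z1, z2]
    ring
  have hbe : ∀ v, b (-v) = b v := by
    intro v
    simp only [hb]
    have e1 : -v - l = -(v + l) := by ring
    have e2 : -v + l = -(v - l) := by ring
    rw [e1, e2, bmp.neg, bmp.neg]
    ring
  have hbRS : RS b := RS.of_compact hbs hbc hbe
  have hmod : ∀ s : ℝ, chat b s = chat bmp s * Real.cos (l * s) := by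
    intro s
    have i0 : ∀ c : ℝ, Integrable (fun x : ℝ => bmp (x + c) * Real.cos (x * s)) := by
      intro c
      have h1 : Continuous (fun x : ℝ => bmp (x + c)) := bmp.continuous.comp (by fun_prop)
      refine (bmp_RS.integrable.comp_add_right c).norm.mono'
        (h1.mul (by fun_prop)).aestronglyMeasurable (Filter.Eventually.of_forall fun x => ?_)
      rw [norm_mul, Real.norm_eq_abs (Real.cos _)]
      exact mul_le_of_le_one_right (norm_nonneg _) (Real.abs_cos_le_one _)
    have hsh : ∀ c : ℝ, ∫ x : ℝ, bmp (x + c) * Real.cos (x * s) =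
        chat bmp s * Real.cos (c * s) := by
      intro c
      have h1 := integral_add_right_eq_self (fun x : ℝ => bmp x * Real.cos ((x - c) * s)) c
        (μ := volume)
      simp only [add_sub_cancel_right] at h1
      rw [h1]
      have h2 : ∀ x : ℝ, bmp x * Real.cos ((x - c) * s) =
          (bmp x * Real.cos (x * s)) * Real.cos (c * s) +
            (bmp x * Real.sin (x * s)) * Real.sin (c * s) := by
        intro x
        rw [sub_mul, Real.cos_sub]
        ring
      simp_rw [h2]
      rw [integral_add ((bmp_RS.integrable_mul_cos s).mul_const _)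
        ((bmp_RS.integrable_mul_sin s).mul_const _), MeasureTheory.integral_mul_const,
        MeasureTheory.integral_mul_const, bmp_RS.integral_sin, zero_mul, add_zero]
      rfl
    have e1 : ∀ x : ℝ, b x * Real.cos (x * s) =
        1 / 2 * (bmp (x + -l) * Real.cos (x * s)) + 1 / 2 * (bmp (x + l) * Real.cos (x * s)) := by
      intro x
      simp only [hb, sub_eq_add_neg]
      ring
    have e0 : chat b s = ∫ x : ℝ, b x * Real.cos (x * s) := rfl
    rw [e0]
    simp_rw [e1]
    rw [integral_add ((i0 _).const_mul _) ((i0 _).const_mul _), MeasureTheory.integral_const_mul,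
      MeasureTheory.integral_const_mul, hsh, hsh, neg_mul, Real.cos_neg]
    ring
  have e2 : ∀ s : ℝ, WW s * Real.cos (l * s) = cW⁻¹ * (chat bmp s * chat b s) := by
    intro s
    rw [hmod]
    unfold WW
    ring
  simp_rw [e2]
  rw [MeasureTheory.integral_const_mul, bmp_RS.parseval hbRS]
  have e3 : ∀ x : ℝ, bmp x * b x = 0 := by
    intro x
    rcases le_or_gt (1 / 2) |x| with h | h
    · rw [bmp_zero h, zero_mul]
    · have h1 : |l| ≤ |x - l| + |x| := by
        have := abs_add_le (l - x) x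
        rwa [sub_add_cancel, abs_sub_comm] at this
      have h2 : |l| ≤ |x + l| + |x| := by
        have := abs_add_le (x + l) (-x)
        have e : x + l + -x = l := by ring
        rwa [e, abs_neg] at this
      have z1 : bmp (x - l) = 0 := bmp_zero (by linarith)
      have z2 : bmp (x + l) = 0 := bmp_zero (by linarith)
      simp only [hb]
      rw [z1, z2]
      ring
  simp_rw [e3]
  simp

lemma WW_sin (l : ℝ) : ∫ s : ℝ, WW s * Real.sin (l * s) = 0 := by
  have h1 := integral_neg_eq_self (fun x : ℝ => WW x * Real.sin (l * x)) volume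
  simp only [WW_even, mul_neg, Real.sin_neg] at h1
  rw [MeasureTheory.integral_neg] at h1
  linarith

/-- The weight. -/
noncomputable def Om (H T t : ℝ) : ℝ := H⁻¹ * ∫ t0 in T..(2 * T), WW ((t - t0) / H)

lemma Om_nonneg {H T : ℝ} (hH : 0 < H) (hT : 0 < T) (t : ℝ) : 0 ≤ Om H T t := by
  unfold Om
  apply mul_nonneg (by positivity)
  apply intervalIntegral.integral_nonneg (by linarith)
  intro u _
  exact WW_nonneg _

lemma Om_continuous (H T : ℝ) : Continuous (Om H T) := by
  unfold Om
  refine continuous_const.mul ?_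
  apply intervalIntegral.continuous_parametric_intervalIntegral_of_continuous'
  have := WW_continuous
  simp only [Function.uncurry_def]
  fun_prop

lemma Om_le_one {H T : ℝ} (hH : 0 < H) (hT : 0 < T) (t : ℝ) : Om H T t ≤ 1 := by
  have hi : Integrable (fun t0 : ℝ => WW ((t - t0) / H)) := by
    have h1 := WW_integrable.comp_div hH.ne'
    exact (h1.comp_sub_left t)
  have h1 : ∫ t0 in T..(2 * T), WW ((t - t0) / H) ≤ ∫ t0 : ℝ, WW ((t - t0) / H) := by
    rw [intervalIntegral.integral_of_le (by linarith)]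
    exact setIntegral_le_integral hi (Filter.Eventually.of_forall fun u => WW_nonneg _)
  have h2 : ∫ t0 : ℝ, WW ((t - t0) / H) = H := by
    rw [integral_sub_left_eq_self (fun u => WW (u / H)) volume t]
    rw [Measure.integral_comp_div WW H, WW_integral, abs_of_pos hH]
    simp
  unfold Om
  rw [h2] at h1
  calc H⁻¹ * ∫ t0 in T..(2 * T), WW ((t - t0) / H) ≤ H⁻¹ * H := by gcongr
    _ = 1 := inv_mul_cancel₀ hH.ne'

/-- Swapping for the weight against a bounded continuous function. -/
lemma Om_swap {H T : ℝ} (hH : 0 < H) (hT : 0 < T) {G : ℝ → ℝ} (hG : Continuous G)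
    (hb : ∀ t, |G t| ≤ 1) :
    ∫ t : ℝ, Om H T t * G t = ∫ t0 in T..(2 * T), ∫ s : ℝ, WW s * G (t0 + H * s) := by
  have hWc := WW_continuous
  have e1 : ∀ t : ℝ, Om H T t * G t =
      ∫ t0 in Ioc T (2 * T), H⁻¹ * WW ((t - t0) / H) * G t := by
    intro t
    unfold Om
    rw [intervalIntegral.integral_of_le (by linarith), ← MeasureTheory.integral_const_mul,
      ← MeasureTheory.integral_mul_const]
  simp_rw [e1]
  rw [integral_integral_swap]
  · rw [intervalIntegral.integral_of_le (by linarith)]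
    refine integral_congr_ae (Filter.Eventually.of_forall fun t0 => ?_)
    simp only
    have h1 := Measure.integral_comp_mul_left
      (fun u : ℝ => H⁻¹ * WW (u / H) * G (t0 + u)) H
    have h2 := integral_sub_right_eq_self (fun u : ℝ => H⁻¹ * WW (u / H) * G (t0 + u)) t0
      (μ := volume)
    have e3 : ∀ x : ℝ, H⁻¹ * WW ((x - t0) / H) * G (t0 + (x - t0)) =
        H⁻¹ * WW ((x - t0) / H) * G x := by
      intro x
      congr 2
      ring
    simp_rw [e3] at h2
    rw [h2]
    rw [abs_of_pos (by positivity : 0 < H⁻¹), smul_eq_mul] at h1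
    have e4 : ∀ x : ℝ, H⁻¹ * WW (H * x / H) * G (t0 + H * x) =
        H⁻¹ * (WW x * G (t0 + H * x)) := by
      intro x
      rw [mul_div_cancel_left₀ _ hH.ne']
      ring
    simp_rw [e4] at h1
    rw [MeasureTheory.integral_const_mul] at h1
    exact (mul_left_cancel₀ (inv_ne_zero hH.ne') h1).symm
  · -- integrability on the product
    have hi : Integrable (fun u : ℝ => WW (u / H)) := WW_integrable.comp_div hH.ne'
    have : IsFiniteMeasure (volume.restrict (Ioc T (2 * T))) :=
      ⟨by rw [Measure.restrict_apply_univ, Real.volume_Ioc]; exact ENNReal.ofReal_lt_top⟩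
    have hc : Continuous (Function.uncurry fun (t t0 : ℝ) => H⁻¹ * WW ((t - t0) / H) * G t) := by
      simp only [Function.uncurry_def]
      fun_prop
    rw [integrable_prod_iff' hc.aestronglyMeasurable]
    constructor
    · refine Filter.Eventually.of_forall fun t0 => ?_
      have h1 : Integrable (fun t : ℝ => WW ((t - t0) / H)) := hi.comp_sub_right t0
      refine (h1.const_mul H⁻¹).norm.mono' ?_ (Filter.Eventually.of_forall fun t => ?_)
      · exact Continuous.aestronglyMeasurable (by fun_prop)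
      · simp only [Function.uncurry_apply_pair]
        rw [norm_mul, Real.norm_eq_abs (G t)]
        exact mul_le_of_le_one_right (norm_nonneg _) (hb t)
    · have hbound : ∀ t0 : ℝ, ∫ t : ℝ, ‖Function.uncurry
          (fun (t t0 : ℝ) => H⁻¹ * WW ((t - t0) / H) * G t) (t, t0)‖ ≤ 1 := by
        intro t0
        have h1 : Integrable (fun t : ℝ => WW ((t - t0) / H)) := hi.comp_sub_right t0
        calc _ ≤ ∫ t : ℝ, H⁻¹ * WW ((t - t0) / H) := by
              refine integral_mono_of_nonneg (Filter.Eventually.of_forall fun t => norm_nonneg _)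
                (h1.const_mul _) (Filter.Eventually.of_forall fun t => ?_)
              simp only [Function.uncurry_apply_pair]
              rw [norm_mul, norm_mul, Real.norm_of_nonneg (by positivity : 0 ≤ H⁻¹),
                Real.norm_of_nonneg (WW_nonneg _), Real.norm_eq_abs]
              have := WW_nonneg ((t - t0) / H)
              exact mul_le_of_le_one_right (by positivity) (hb t)
          _ = 1 := by
              rw [MeasureTheory.integral_const_mul,
                integral_sub_right_eq_self (fun u => WW (u / H)) t0,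
                Measure.integral_comp_div WW H, WW_integral, abs_of_pos hH]
              simp [hH.ne']
      refine (integrable_const (1:ℝ)).mono' ?_ (Filter.Eventually.of_forall fun t0 => ?_)
      · exact (hc.norm.stronglyMeasurable.integral_prod_left').aestronglyMeasurable
      · rw [Real.norm_of_nonneg (integral_nonneg fun t => norm_nonneg _)]
        exact hbound t0

/-- (O3) -/
lemma Om_integral {H T : ℝ} (hH : 0 < H) (hT : 0 < T) : ∫ t : ℝ, Om H T t = T := by
  have h1 := Om_swap hH hT (G := fun _ => 1) continuous_const (fun t => by simp)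
  simp only [mul_one] at h1
  rw [h1, WW_integral]
  simp
  ring

/-- (O2) -/
lemma Om_cos {H T l : ℝ} (hH : 0 < H) (hT : 0 < T) (hl : 1 ≤ |l * H|) :
    ∫ t : ℝ, Om H T t * Real.cos (l * t) = 0 := by
  rw [Om_swap hH hT (by fun_prop) (fun t => Real.abs_cos_le_one _)]
  have hin : ∀ t0 : ℝ, ∫ s : ℝ, WW s * Real.cos (l * (t0 + H * s)) = 0 := by
    intro t0
    have e : ∀ s : ℝ, WW s * Real.cos (l * (t0 + H * s)) =
        Real.cos (l * t0) * (WW s * Real.cos ((l * H) * s)) -
          Real.sin (l * t0) * (WW s * Real.sin ((l * H) * s)) := by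
      intro s
      have : l * (t0 + H * s) = l * t0 + (l * H) * s := by ring
      rw [this, Real.cos_add]
      ring
    simp_rw [e]
    have hc := WW_continuous
    have i1 : Integrable (fun s => WW s * Real.cos ((l * H) * s)) := by
      refine WW_integrable.norm.mono' (Continuous.aestronglyMeasurable (by fun_prop))
        (Filter.Eventually.of_forall fun x => ?_)
      rw [norm_mul, Real.norm_eq_abs (Real.cos _)]
      exact mul_le_of_le_one_right (norm_nonneg _) (Real.abs_cos_le_one _)
    have i2 : Integrable (fun s => WW s * Real.sin ((l * H) * s)) := by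
      refine WW_integrable.norm.mono' (Continuous.aestronglyMeasurable (by fun_prop))
        (Filter.Eventually.of_forall fun x => ?_)
      rw [norm_mul, Real.norm_eq_abs (Real.sin _)]
      exact mul_le_of_le_one_right (norm_nonneg _) (Real.abs_sin_le_one _)
    rw [integral_sub (i1.const_mul _) (i2.const_mul _), MeasureTheory.integral_const_mul,
      MeasureTheory.integral_const_mul, WW_cos hl, WW_sin]
    ring
  simp_rw [hin]
  simp

/-- (O2) -/
lemma Om_sin {H T l : ℝ} (hH : 0 < H) (hT : 0 < T) (hl : 1 ≤ |l * H|) :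
    ∫ t : ℝ, Om H T t * Real.sin (l * t) = 0 := by
  rw [Om_swap hH hT (by fun_prop) (fun t => Real.abs_sin_le_one _)]
  have hin : ∀ t0 : ℝ, ∫ s : ℝ, WW s * Real.sin (l * (t0 + H * s)) = 0 := by
    intro t0
    have e : ∀ s : ℝ, WW s * Real.sin (l * (t0 + H * s)) =
        Real.sin (l * t0) * (WW s * Real.cos ((l * H) * s)) +
          Real.cos (l * t0) * (WW s * Real.sin ((l * H) * s)) := by
      intro s
      have : l * (t0 + H * s) = l * t0 + (l * H) * s := by ring
      rw [this, Real.sin_add]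
      ring
    simp_rw [e]
    have hc := WW_continuous
    have i1 : Integrable (fun s => WW s * Real.cos ((l * H) * s)) := by
      refine WW_integrable.norm.mono' (Continuous.aestronglyMeasurable (by fun_prop))
        (Filter.Eventually.of_forall fun x => ?_)
      rw [norm_mul, Real.norm_eq_abs (Real.cos _)]
      exact mul_le_of_le_one_right (norm_nonneg _) (Real.abs_cos_le_one _)
    have i2 : Integrable (fun s => WW s * Real.sin ((l * H) * s)) := by
      refine WW_integrable.norm.mono' (Continuous.aestronglyMeasurable (by fun_prop))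
        (Filter.Eventually.of_forall fun x => ?_)
      rw [norm_mul, Real.norm_eq_abs (Real.sin _)]
      exact mul_le_of_le_one_right (norm_nonneg _) (Real.abs_sin_le_one _)
    rw [integral_add (i1.const_mul _) (i2.const_mul _), MeasureTheory.integral_const_mul,
      MeasureTheory.integral_const_mul, WW_cos hl, WW_sin]
    ring
  simp_rw [hin]
  simp

lemma far_facts {T t t0 : ℝ} (hT : 8 ≤ T) (ht : t ∉ Icc (T / 2) (3 * T)) (h1 : T ≤ t0)
    (h2 : t0 ≤ 2 * T) : T / 2 ≤ |t - t0| ∧ (1 + t ^ 2) / 18 ≤ |t - t0| ^ 2 := by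
  rw [mem_Icc, not_and_or, not_le, not_le] at ht
  have hmain : T / 2 ≤ |t - t0| ∧ |t| / 3 ≤ |t - t0| := by
    rcases ht with ht | ht
    · have h3 : |t - t0| = t0 - t := by rw [abs_sub_comm, abs_of_nonneg (by linarith)]
      rw [h3]
      refine ⟨by linarith, ?_⟩
      rcases abs_cases t with ⟨h, _⟩ | ⟨h, _⟩ <;> rw [h] <;> linarith
    · have h3 : |t - t0| = t - t0 := abs_of_nonneg (by linarith)
      rw [h3, abs_of_pos (by linarith)]
      constructor <;> linarith
  refine ⟨hmain.1, ?_⟩
  have h3 : t ^ 2 / 9 ≤ |t - t0| ^ 2 := by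
    calc t ^ 2 / 9 = (|t| / 3) ^ 2 := by rw [div_pow, sq_abs]; norm_num
      _ ≤ _ := by
        have := hmain.2
        gcongr
  have h4 : 16 ≤ |t - t0| ^ 2 := by
    have : (4:ℝ) ≤ |t - t0| := by linarith [hmain.1]
    nlinarith
  linarith

/-- (O4) -/
theorem Om_decay {δ : ℝ} (hδ : 0 < δ) (hδ1 : δ ≤ 1) (K : ℕ) : ∃ C : ℝ, 0 < C ∧ ∀ T : ℝ, 8 ≤ T →
    ∀ t, t ∉ Icc (T / 2) (3 * T) → Om (T ^ (1 - δ)) T t ≤ C * (T ^ K)⁻¹ / (1 + t ^ 2) ^ 2 := by
  obtain ⟨n, hn⟩ := exists_nat_ge ((K + 5 : ℝ) / δ)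
  rw [div_le_iff₀ hδ] at hn
  obtain ⟨C, hC, hdec⟩ := WW_decay (n + 4)
  refine ⟨C * 2 ^ n * 324, by positivity, fun T hT t ht => ?_⟩
  have hT0 : 0 < T := by linarith
  have hT1 : 1 ≤ T := by linarith
  set H := T ^ (1 - δ) with hH
  have hH1 : 1 ≤ H := Real.one_le_rpow hT1 (by linarith)
  have hH0 : 0 < H := by linarith
  have hHT : H ≤ T := by
    calc H ≤ T ^ (1:ℝ) := Real.rpow_le_rpow_of_exponent_le hT1 (by linarith)
      _ = T := Real.rpow_one T
  have hHd : H / T = T ^ (-δ) := by
    rw [hH, Real.rpow_sub hT0, Real.rpow_one, Real.rpow_neg hT0.le]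
    field_simp
  have hpt : ∀ t0 ∈ Icc T (2 * T), WW ((t - t0) / H) ≤
      C * (2 ^ n * (T ^ (-δ)) ^ n * (T ^ 4 * 324)) / (1 + t ^ 2) ^ 2 := by
    intro t0 ht0
    obtain ⟨h1, h2⟩ := far_facts hT ht ht0.1 ht0.2
    set u := |t - t0| with hu
    have hu0 : 0 < u := by linarith
    have h3 := hdec ((t - t0) / H)
    rw [abs_div, abs_of_pos hH0, ← hu] at h3
    have h4 : WW ((t - t0) / H) ≤ C * (H / u) ^ (n + 4) := by
      have h5 : 0 < (u / H) ^ (n + 4) := by positivity
      rw [mul_comm, ← le_div_iff₀ h5] at h3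
      refine h3.trans (le_of_eq ?_)
      rw [div_eq_mul_inv, ← inv_pow, inv_div]
    refine h4.trans ?_
    rw [mul_div_assoc]
    refine mul_le_mul_of_nonneg_left ?_ hC.le
    rw [pow_add]
    have h6 : (H / u) ^ n ≤ 2 ^ n * (T ^ (-δ)) ^ n := by
      rw [← mul_pow]
      apply pow_le_pow_left₀ (by positivity)
      rw [← hHd, div_le_iff₀ hu0]
      calc H = 2 * (H / T) * (T / 2) := by field_simp
        _ ≤ 2 * (H / T) * u := by gcongr
    have h7 : (H / u) ^ 4 ≤ (T ^ 4 * 324) / (1 + t ^ 2) ^ 2 := by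
      rw [div_pow, div_le_div_iff₀ (by positivity) (by positivity)]
      have h8 : (1 + t ^ 2) ^ 2 ≤ 324 * u ^ 4 := by
        have h9 : 1 + t ^ 2 ≤ 18 * u ^ 2 := by linarith
        calc (1 + t ^ 2) ^ 2 ≤ (18 * u ^ 2) ^ 2 := by gcongr
          _ = _ := by ring
      calc H ^ 4 * (1 + t ^ 2) ^ 2 ≤ T ^ 4 * (324 * u ^ 4) := by gcongr
        _ = _ := by ring
    calc (H / u) ^ n * (H / u) ^ 4 ≤ (2 ^ n * (T ^ (-δ)) ^ n) *
          ((T ^ 4 * 324) / (1 + t ^ 2) ^ 2) := by gcongr
      _ = _ := by ring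
  have hint : ∫ t0 in T..(2 * T), WW ((t - t0) / H) ≤
      T * (C * (2 ^ n * (T ^ (-δ)) ^ n * (T ^ 4 * 324)) / (1 + t ^ 2) ^ 2) := by
    have hc := WW_continuous
    calc ∫ t0 in T..(2 * T), WW ((t - t0) / H) ≤ ∫ _t0 in T..(2 * T),
        C * (2 ^ n * (T ^ (-δ)) ^ n * (T ^ 4 * 324)) / (1 + t ^ 2) ^ 2 := by
          apply intervalIntegral.integral_mono_on (by linarith)
          · exact Continuous.intervalIntegrable (by fun_prop) _ _
          · exact Continuous.intervalIntegrable (by fun_prop) _ _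
          · exact hpt
      _ = _ := by
          rw [intervalIntegral.integral_const, smul_eq_mul]
          ring
  have hpow : T ^ 5 * (T ^ (-δ)) ^ n ≤ (T ^ K)⁻¹ := by
    have e1 : (T ^ (-δ)) ^ n = T ^ (-(δ * n)) := by
      rw [← Real.rpow_natCast (T ^ (-δ)) n, ← Real.rpow_mul hT0.le]
      congr 1; ring
    have e2 : T ^ 5 * T ^ (-(δ * n)) = T ^ (5 - δ * n) := by
      rw [← Real.rpow_natCast T 5, ← Real.rpow_add hT0]
      congr 1
    have e3 : (T ^ K)⁻¹ = T ^ (-(K:ℝ)) := by
      rw [Real.rpow_neg hT0.le, Real.rpow_natCast]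
    rw [e1, e2, e3]
    apply Real.rpow_le_rpow_of_exponent_le hT1
    linarith
  unfold Om
  have hinv : H⁻¹ ≤ 1 := inv_le_one_of_one_le₀ hH1
  have hnn : 0 ≤ T * (C * (2 ^ n * (T ^ (-δ)) ^ n * (T ^ 4 * 324)) / (1 + t ^ 2) ^ 2) := by
    positivity
  calc H⁻¹ * ∫ t0 in T..(2 * T), WW ((t - t0) / H)
      ≤ H⁻¹ * (T * (C * (2 ^ n * (T ^ (-δ)) ^ n * (T ^ 4 * 324)) / (1 + t ^ 2) ^ 2)) := by
        gcongr
    _ ≤ 1 * (T * (C * (2 ^ n * (T ^ (-δ)) ^ n * (T ^ 4 * 324)) / (1 + t ^ 2) ^ 2)) := by
        gcongr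
    _ = C * 2 ^ n * 324 * (T ^ 5 * (T ^ (-δ)) ^ n) / (1 + t ^ 2) ^ 2 := by ring
    _ ≤ C * 2 ^ n * 324 * (T ^ K)⁻¹ / (1 + t ^ 2) ^ 2 := by gcongr

/-- A global bound of the weight, for fixed `T`. -/
theorem Om_bound {δ : ℝ} (hδ : 0 < δ) (hδ1 : δ ≤ 1) {T : ℝ} (hT : 8 ≤ T) :
    ∃ M : ℝ, 0 < M ∧ ∀ t, Om (T ^ (1 - δ)) T t ≤ M / (1 + t ^ 2) ^ 2 := by
  obtain ⟨C, hC, h⟩ := Om_decay hδ hδ1 0
  have hT0 : 0 < T := by linarith
  refine ⟨C + (1 + (3 * T) ^ 2) ^ 2, by positivity, fun t => ?_⟩
  by_cases ht : t ∈ Icc (T / 2) (3 * T)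
  · refine (Om_le_one (by positivity) hT0 t).trans ?_
    rw [le_div_iff₀ (by positivity), one_mul]
    have h1 : t ^ 2 ≤ (3 * T) ^ 2 := by
      have h2 : 0 ≤ t := by linarith [ht.1]
      have := ht.2
      gcongr
    have h2 : (1 + t ^ 2) ^ 2 ≤ (1 + (3 * T) ^ 2) ^ 2 := by gcongr
    linarith
  · have h1 := h T hT t ht
    rw [pow_zero, inv_one, mul_one] at h1
    refine h1.trans ?_
    gcongr
    have : 0 ≤ (1 + (3 * T) ^ 2) ^ 2 := by positivity
    linarith

end Pool.Agent.ZGap.Res
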