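import Pool.Agent.ZGap.Res.Moments

/-!
# Sums over primes with a sharp cut
-/

namespace Pool.Agent.ZGap.Res

open MeasureTheory Finset ArithmeticFunction Filter Topology

variable {R : ResData} {T : ℝ}

/-- Truncation to `[0,1]`. -/
noncomputable def cl (x : ℝ) : ℝ := max 0 (min 1 x)

lemma cl_nonneg (x : ℝ) : 0 ≤ cl x := le_max_left _ _

lemma cl_le_one (x : ℝ) : cl x ≤ 1 := max_le zero_le_one (min_le_left _ _)

lemma cl_of_le {x : ℝ} (h : x ≤ 0) : cl x = 0 := by
  unfold cl
  exact max_eq_left ((min_le_right _ _).trans h)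

lemma cl_of_ge {x : ℝ} (h : 1 ≤ x) : cl x = 1 := by
  unfold cl
  rw [min_eq_left h]
  exact max_eq_right zero_le_one

lemma cl_mono {x y : ℝ} (h : x ≤ y) : cl x ≤ cl y := max_le_max le_rfl (min_le_min le_rfl h)

lemma abs_cl_sub (x y : ℝ) : |cl x - cl y| ≤ |x - y| := by
  unfold cl
  refine (abs_max_sub_max_le_max _ _ _ _).trans ?_
  rw [sub_self, abs_zero]
  refine max_le (abs_nonneg _) ?_
  refine (abs_min_sub_min_le_max _ _ _ _).trans ?_
  rw [sub_self, abs_zero]
  exact max_le (abs_nonneg _) le_rfl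

lemma continuous_cl : Continuous cl := by
  unfold cl
  fun_prop

lemma continuous_of_lip {g : ℝ → ℝ} {K : ℝ} (hK : 0 ≤ K) (h : ∀ x y, |g x - g y| ≤ K * |x - y|) :
    Continuous g := by
  have : LipschitzWith (Real.toNNReal K) g := by
    refine LipschitzWith.of_dist_le_mul fun x y => ?_
    rw [Real.dist_eq, Real.dist_eq, Real.coe_toNNReal _ hK]
    exact h x y
  exact this.continuous

/-- product of Lipschitz functions -/
lemma lip_mul {g h : ℝ → ℝ} {K M K' M' : ℝ} (hg : ∀ x y, |g x - g y| ≤ K * |x - y|)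
    (hh : ∀ x y, |h x - h y| ≤ K' * |x - y|) (bg : ∀ x, |g x| ≤ M) (bh : ∀ x, |h x| ≤ M')
    (x y : ℝ) : |g x * h x - g y * h y| ≤ (K * M' + M * K') * |x - y| := by
  have hK : 0 ≤ K * |x - y| := (abs_nonneg _).trans (hg x y)
  have hM : 0 ≤ M := (abs_nonneg _).trans (bg 0)
  calc |g x * h x - g y * h y| = |(g x - g y) * h x + g y * (h x - h y)| := by ring_nf
    _ ≤ |(g x - g y) * h x| + |g y * (h x - h y)| := abs_add_le _ _
    _ = |g x - g y| * |h x| + |g y| * |h x - h y| := by rw [abs_mul, abs_mul]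
    _ ≤ (K * |x - y|) * M' + M * (K' * |x - y|) := by
        have h1 := mul_le_mul (hg x y) (bh x) (abs_nonneg _) hK
        have h2 := mul_le_mul (bg y) (hh x y) (abs_nonneg _) hM
        exact add_le_add h1 h2
    _ = _ := by ring

/-- Sums over primes with a sharp cut. -/
theorem sharp_sum (R : ResData) (K M η : ℝ) (hK : 0 ≤ K) (hM : 0 ≤ M) (hη : 0 < η) :
    ∃ T0 : ℝ, Real.exp 3 ≤ T0 ∧ ∀ T : ℝ, T0 ≤ T → ∀ (g : ℝ → ℝ),
      (∀ x, x ∉ Set.Ioo R.ep ((R.th + 1 / 2) / 2) → g x = 0) →
      (∀ x y, |g x - g y| ≤ K * |x - y|) → (∀ x, |g x| ≤ M) → ∀ U ⊆ PP T, uu R T U ≤ 1 →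
      ∀ β : ℝ, 0 ≤ β → β ≤ 1 →
      |∑ p ∈ PP T \ U, wt T p * (if xi T p < β then g (xi T p) else 0) -
        ∫ x in (0:ℝ)..β, g x| ≤ η := by
  obtain ⟨C, hC, T1, hT1, h1⟩ := inner_sum R
  -- choose δ
  obtain ⟨δ, hδ, hδ'⟩ : ∃ δ : ℝ, 0 < δ ∧ 4 * M * δ ≤ η / 2 := by
    refine ⟨η / (8 * M + 1), by positivity, ?_⟩
    rw [mul_div_assoc', div_le_div_iff₀ (by positivity) (by norm_num)]
    nlinarith
  set Q : ℝ := 2 * C * ((K * 1 + M * (2 / δ)) + M) with hQ
  have ev : ∀ᶠ T : ℝ in atTop, Q / Real.log T ≤ η / 2 := by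
    have := Real.tendsto_log_atTop.const_div_atTop Q
    exact this.eventually (ge_mem_nhds (by positivity))
  obtain ⟨T2, hT2⟩ := eventually_atTop.mp ev
  refine ⟨max T1 T2, hT1.trans (le_max_left _ _), fun T hT g hsupp hlip hbd U hU hu β hβ0 hβ1 => ?_⟩
  have hTT1 : T1 ≤ T := (le_max_left _ _).trans hT
  have hTe : Real.exp 3 ≤ T := hT1.trans hTT1
  have h1T : 1 < T := lt_of_lt_of_le (Real.one_lt_exp_iff.mpr (by norm_num)) hTe
  have hL : 0 < Real.log T := Real.log_pos h1T
  have hQT := hT2 T ((le_max_right _ _).trans hT)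
  set χ : ℝ → ℝ := fun x => cl ((β - x) / δ) with hχ
  set χ' : ℝ → ℝ := fun x => cl ((β - x) / δ + 1) - cl ((β - x) / δ) with hχ'
  have lipχ : ∀ x y, |χ x - χ y| ≤ (2 / δ) * |x - y| := by
    intro x y
    refine (abs_cl_sub _ _).trans ?_
    rw [← sub_div, abs_div, abs_of_pos hδ]
    have : β - x - (β - y) = -(x - y) := by ring
    rw [this, abs_neg]
    have h0 : 0 ≤ |x - y| := abs_nonneg _
    calc |x - y| / δ = (1 / δ) * |x - y| := by ring
      _ ≤ _ := by gcongr; norm_num
  have lipχ' : ∀ x y, |χ' x - χ' y| ≤ (2 / δ) * |x - y| := by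
    intro x y
    have e : χ' x - χ' y = (cl ((β - x) / δ + 1) - cl ((β - y) / δ + 1)) -
      (cl ((β - x) / δ) - cl ((β - y) / δ)) := by simp only [hχ']; ring
    rw [e]
    refine (abs_sub _ _).trans ?_
    have a1 := abs_cl_sub ((β - x) / δ + 1) ((β - y) / δ + 1)
    have a2 := abs_cl_sub ((β - x) / δ) ((β - y) / δ)
    have e1 : (β - x) / δ + 1 - ((β - y) / δ + 1) = -(x - y) / δ := by ring
    have e2 : (β - x) / δ - (β - y) / δ = -(x - y) / δ := by ring
    rw [e1, abs_div, abs_neg, abs_of_pos hδ] at a1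
    rw [e2, abs_div, abs_neg, abs_of_pos hδ] at a2
    calc _ ≤ |x - y| / δ + |x - y| / δ := add_le_add a1 a2
      _ = _ := by ring
  have bχ : ∀ x, |χ x| ≤ 1 := fun x => by
    rw [abs_of_nonneg (cl_nonneg _)]; exact cl_le_one _
  have nχ' : ∀ x, 0 ≤ χ' x := fun x => by
    simp only [hχ']
    exact sub_nonneg.mpr (cl_mono (by linarith))
  have bχ' : ∀ x, |χ' x| ≤ 1 := fun x => by
    rw [abs_of_nonneg (nχ' x)]
    simp only [hχ']
    linarith [cl_le_one ((β - x) / δ + 1), cl_nonneg ((β - x) / δ)]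
  -- main sums
  have m1 := h1 T hTT1 (fun x => g x * χ x) (K * 1 + M * (2 / δ)) M (by positivity) hM
    (fun x hx => by simp only [hsupp x hx, zero_mul]) (lip_mul hlip lipχ hbd bχ)
    (fun x => by
      rw [abs_mul]
      calc |g x| * |χ x| ≤ M * 1 := mul_le_mul (hbd x) (bχ x) (abs_nonneg _) hM
        _ = M := mul_one M) U hU hu
  have m2 := h1 T hTT1 (fun x => |g x| * χ' x) (K * 1 + M * (2 / δ)) M (by positivity) hM
    (fun x hx => by simp only [hsupp x hx, abs_zero, zero_mul])
    (lip_mul (g := fun x => |g x|) (fun x y => (abs_abs_sub_abs_le_abs_sub _ _).trans (hlip x y))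
      lipχ' (fun x => by rw [abs_abs]; exact hbd x) bχ')
    (fun x => by
      rw [abs_mul, abs_abs]
      calc |g x| * |χ' x| ≤ M * 1 := mul_le_mul (hbd x) (bχ' x) (abs_nonneg _) hM
        _ = M := mul_one M) U hU hu
  have hgc := continuous_of_lip hK hlip
  have hχc : Continuous χ := continuous_cl.comp (by fun_prop)
  have hχc' : Continuous χ' := by
    have h3 : Continuous fun x : ℝ => cl ((β - x) / δ + 1) := continuous_cl.comp (by fun_prop)
    have h4 : Continuous fun x : ℝ => cl ((β - x) / δ) := continuous_cl.comp (by fun_prop)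
    exact h3.sub h4
  -- pointwise comparison
  have pw : ∀ x, |(if x < β then g x else 0) - g x * χ x| ≤ |g x| * χ' x := by
    intro x
    by_cases hx : x < β
    · rw [if_pos hx]
      have e : g x - g x * χ x = g x * (1 - χ x) := by ring
      have h3 : cl ((β - x) / δ + 1) = 1 := cl_of_ge (by
        have : 0 ≤ (β - x) / δ := div_nonneg (by linarith) hδ.le
        linarith)
      have h4 : 1 - χ x = χ' x := by simp only [hχ, hχ', h3]
      rw [e, abs_mul, h4, abs_of_nonneg (nχ' x)]
    · rw [if_neg hx]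
      have h3 : χ x = 0 := by
        simp only [hχ]
        exact cl_of_le (div_nonpos_of_nonpos_of_nonneg (by linarith) hδ.le)
      rw [h3, mul_zero, sub_zero, abs_zero]
      exact mul_nonneg (abs_nonneg _) (nχ' x)
  -- integrals
  have i1 : |∫ x in (0:ℝ)..1, |g x| * χ' x| ≤ M * (2 * δ) := by
    have hnn : ∀ x, 0 ≤ |g x| * χ' x := fun x => mul_nonneg (abs_nonneg _) (nχ' x)
    have hc : Continuous fun x => |g x| * χ' x := hgc.abs.mul hχc'
    rw [abs_of_nonneg (intervalIntegral.integral_nonneg zero_le_one fun x _ => hnn x)]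
    have h3 : ∫ x in (0:ℝ)..1, |g x| * χ' x ≤ ∫ x in (0:ℝ)..1,
        (Set.Icc (β - δ) (β + δ)).indicator (fun _ => M) x := by
      apply intervalIntegral.integral_mono_on zero_le_one (hc.intervalIntegrable _ _)
      · rw [intervalIntegrable_iff_integrableOn_Ioc_of_le zero_le_one]
        exact (integrable_const M).indicator measurableSet_Icc
      · intro x _
        by_cases hx : x ∈ Set.Icc (β - δ) (β + δ)
        · rw [Set.indicator_of_mem hx]
          have h5 := bχ' x
          rw [abs_of_nonneg (nχ' x)] at h5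
          calc |g x| * χ' x ≤ M * 1 := mul_le_mul (hbd x) h5 (nχ' x) hM
            _ = M := mul_one M
        · rw [Set.indicator_of_notMem hx]
          have h5 : χ' x = 0 := by
            rw [Set.mem_Icc, not_and_or, not_le, not_le] at hx
            simp only [hχ']
            rcases hx with h | h
            · rw [cl_of_ge, cl_of_ge, sub_self]
              · rw [le_div_iff₀ hδ]; linarith
              · have : 0 ≤ (β - x) / δ := div_nonneg (by linarith) hδ.le
                linarith
            · rw [cl_of_le, cl_of_le, sub_self]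
              · exact div_nonpos_of_nonpos_of_nonneg (by linarith) hδ.le
              · have : (β - x) / δ ≤ -1 := by
                  rw [div_le_iff₀ hδ]; linarith
                linarith
          rw [h5, mul_zero]
    refine h3.trans ?_
    rw [intervalIntegral.integral_of_le zero_le_one, integral_indicator measurableSet_Icc,
      setIntegral_const, smul_eq_mul, mul_comm]
    apply mul_le_mul_of_nonneg_left _ hM
    have : (volume.restrict (Set.Ioc (0:ℝ) 1)).real (Set.Icc (β - δ) (β + δ)) ≤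
        volume.real (Set.Icc (β - δ) (β + δ)) := by
      refine ENNReal.toReal_mono ?_ (Measure.restrict_apply_le _ _)
      rw [Real.volume_Icc]; exact ENNReal.ofReal_ne_top
    refine this.trans ?_
    rw [Measure.real, Real.volume_Icc, ENNReal.toReal_ofReal (by linarith)]
    linarith
  have i2 : |(∫ x in (0:ℝ)..1, g x * χ x) - ∫ x in (0:ℝ)..β, g x| ≤ M * (2 * δ) := by
    have hgχ : Continuous fun x => g x * χ x := hgc.mul hχc
    have hc' : Continuous fun x => |g x| * χ' x := hgc.abs.mul hχc'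
    have h3 : ∫ x in (0:ℝ)..1, g x * χ x = ∫ x in (0:ℝ)..β, g x * χ x := by
      have h4 : ∫ x in β..1, g x * χ x = 0 := by
        rw [intervalIntegral.integral_congr (g := fun _ => (0:ℝ))]
        · simp
        · intro x hx
          rw [Set.uIcc_of_le hβ1] at hx
          have h5 : χ x = 0 := by
            simp only [hχ]
            exact cl_of_le (div_nonpos_of_nonpos_of_nonneg (by linarith [hx.1]) hδ.le)
          simp only [h5, mul_zero]
      rw [← intervalIntegral.integral_add_adjacent_intervals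
        (hgχ.intervalIntegrable 0 β) (hgχ.intervalIntegrable β 1), h4, add_zero]
    rw [h3, ← intervalIntegral.integral_sub (hgχ.intervalIntegrable _ _)
      (hgc.intervalIntegrable _ _)]
    rw [abs_of_nonneg (intervalIntegral.integral_nonneg zero_le_one fun x _ =>
      mul_nonneg (abs_nonneg _) (nχ' x))] at i1
    calc |∫ x in (0:ℝ)..β, (g x * χ x - g x)| ≤ ∫ x in (0:ℝ)..β, |g x * χ x - g x| :=
          intervalIntegral.abs_integral_le_integral_abs hβ0
      _ ≤ ∫ x in (0:ℝ)..β, |g x| * χ' x := by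
          apply intervalIntegral.integral_mono_on hβ0 ((hgχ.sub hgc).abs.intervalIntegrable _ _)
            (hc'.intervalIntegrable _ _)
          intro x hx
          have h5 : 1 - χ x = χ' x := by
            simp only [hχ, hχ']
            rw [cl_of_ge (x := (β - x) / δ + 1)]
            have : 0 ≤ (β - x) / δ := div_nonneg (by linarith [hx.2]) hδ.le
            linarith
          have h6 : g x * χ x - g x = -(g x * χ' x) := by rw [← h5]; ring
          show |g x * χ x - g x| ≤ |g x| * χ' x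
          rw [h6, abs_neg, abs_mul, abs_of_nonneg (nχ' x)]
      _ ≤ ∫ x in (0:ℝ)..1, |g x| * χ' x := by
          apply intervalIntegral.integral_mono_interval le_rfl hβ0 hβ1
          · exact Filter.Eventually.of_forall fun x => mul_nonneg (abs_nonneg _) (nχ' x)
          · exact hc'.intervalIntegrable _ _
      _ ≤ _ := i1
  -- the sums
  have s1 : |∑ p ∈ PP T \ U, wt T p * (if xi T p < β then g (xi T p) else 0) -
      ∑ p ∈ PP T \ U, wt T p * (g (xi T p) * χ (xi T p))| ≤
      ∑ p ∈ PP T \ U, wt T p * (|g (xi T p)| * χ' (xi T p)) := by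
    rw [← sum_sub_distrib]
    refine (abs_sum_le_sum_abs _ _).trans (sum_le_sum fun p _ => ?_)
    rw [← mul_sub, abs_mul, abs_of_nonneg (wt_nonneg h1T p)]
    exact mul_le_mul_of_nonneg_left (pw _) (wt_nonneg h1T p)
  have hQ2 : C * (K * 1 + M * (2 / δ) + M) / Real.log T = Q / Real.log T / 2 := by
    simp only [hQ]
    ring
  rw [hQ2] at m1 m2
  rw [abs_le] at *
  constructor <;> linarith [m1.1, m1.2, m2.1, m2.2, i1.1, i1.2, i2.1, i2.2, s1.1, s1.2]

end Pool.Agent.ZGap.Res
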