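import Pool.Agent.ZGap.Res.SmallGaps

/-!
# A positive proportion of the normalised gaps is below `0.5042` (RH)
-/

namespace Pool.Agent.ZGap.Res

open Pool.Agent.ZetaGaps

theorem num_small : |(504198 / 1000000 : ℝ) - 1| * Den (100 / 113) (13 / 113) ((-(53 / 50)) ^ 2) <
    2 / Real.pi * (|(-(53 / 50) : ℝ)| * Num (Real.pi * (504198 / 1000000) * (49999 / 100000))
      (100 / 113) (13 / 113) ((-(53 / 50)) ^ 2) 2) := by
  have hpi := Real.pi_pos
  have e : 2 / Real.pi * (|(-(53 / 50) : ℝ)| * Num (Real.pi * (504198 / 1000000) * (49999 / 100000))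
      (100 / 113) (13 / 113) ((-(53 / 50)) ^ 2) 2) = (53 / 50) *
      (4 * ((504198 / 1000000) * (49999 / 100000)) * term (100 / 113) (13 / 113) 0 (rho ((-(53 / 50)) ^ 2)) -
      2 / 3 * Real.pi ^ 2 * ((504198 / 1000000) * (49999 / 100000)) ^ 3 *
        term (100 / 113) (13 / 113) 1 (rho ((-(53 / 50)) ^ 2)) +
      1 / 30 * Real.pi ^ 4 * ((504198 / 1000000) * (49999 / 100000)) ^ 5 *
        term (100 / 113) (13 / 113) 2 (rho ((-(53 / 50)) ^ 2)) -
      1 / 1260 * Real.pi ^ 6 * ((504198 / 1000000) * (49999 / 100000)) ^ 7 *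
        term (100 / 113) (13 / 113) 3 (rho ((-(53 / 50)) ^ 2))) := by
    have h1 : |(-(53 / 50) : ℝ)| = 53 / 50 := by norm_num [abs_of_pos]
    rw [h1]
    unfold Num sk
    simp only [Finset.sum_range_succ, Finset.sum_range_zero, Nat.factorial, show 2 * 2 = 4 from rfl]
    field_simp
    ring
  rw [e]
  have b1 := Real.pi_gt_d6
  have b2 := Real.pi_lt_d6
  have p2 : Real.pi ^ 2 < 3.141593 ^ 2 := by gcongr
  have p4 : 3.141592 ^ 4 < Real.pi ^ 4 := by gcongr
  have p6 : Real.pi ^ 6 < 3.141593 ^ 6 := by gcongr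
  have habs : |(504198 / 1000000 : ℝ) - 1| = 1 - 504198 / 1000000 := by
    rw [abs_of_neg (by norm_num)]; ring
  rw [habs]
  unfold Den term
  simp only [rho, Nat.cast_ofNat, Nat.cast_zero, Nat.cast_one, mul_zero, mul_one, zero_add]
  norm_num
  nlinarith [p2, p4, p6]

/-- **Positive proportion of small gaps** (RH). -/
theorem small_gaps (hRH : RiemannHypothesis) : ∃ κ : ℝ, 0 < κ ∧ ∃ N0 : ℕ, ∀ N : ℕ, N0 ≤ N →
    κ * N ≤ ({n ∈ Finset.Icc 1 N | gap n < 0.5042}.card : ℝ) :=
  small_gaps_of_num hRH (r := -(53 / 50)) (θ := 49999 / 100000) (c := 504198 / 1000000)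
    (a := 100 / 113) (b := 13 / 113) (m := 2) (by norm_num) (by norm_num) (by norm_num)
    (by norm_num) (by norm_num) (by norm_num) (by norm_num) (by norm_num) (by norm_num)
    (by norm_num) num_small (by norm_num)

end Pool.Agent.ZGap.Res
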