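import Pool.Agent.ZGap.Res.Hat
import Pool.Agent.ZGap.NonLattice.A
import Pool.Agent.ZGap.Gen.Eval

/-!
# Explicit formula for a smooth band-limited even test function at scale `1 / log T`
-/

open scoped ContDiff

namespace Pool.Agent.ZGap.Res

open MeasureTheory Real Set Pool.Agent.Hadamard Pool.Agent.DirPoly Pool.Agent.ZGap.OneSided
open ArithmeticFunction

/-- All derivatives of order at most `4` are bounded by `K`. -/
def BD (K : ℝ) (f : ℝ → ℝ) : Prop := ∀ n : ℕ, n ≤ 4 → ∀ x, |iteratedDeriv n f x| ≤ K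

lemma BD.nonneg {K : ℝ} {f : ℝ → ℝ} (h : BD K f) : 0 ≤ K :=
  (abs_nonneg _).trans (h 0 (by norm_num) 0)

lemma BD.mul {K K' : ℝ} {f g : ℝ → ℝ} (hf : ContDiff ℝ ∞ f) (hg : ContDiff ℝ ∞ g)
    (h : BD K f) (h' : BD K' g) : BD (16 * (K * K')) (fun x => f x * g x) := by
  intro n hn x
  have hK := h.nonneg
  have hK' := h'.nonneg
  have hle : (n : WithTop ℕ∞) ≤ ∞ := by exact_mod_cast le_top
  rw [iteratedDeriv_fun_mul (hf.of_le hle).contDiffAt (hg.of_le hle).contDiffAt]
  calc |∑ i ∈ Finset.range (n + 1), (n.choose i : ℝ) * iteratedDeriv i f x *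
        iteratedDeriv (n - i) g x|
      ≤ ∑ i ∈ Finset.range (n + 1), |(n.choose i : ℝ) * iteratedDeriv i f x *
        iteratedDeriv (n - i) g x| := Finset.abs_sum_le_sum_abs _ _
    _ ≤ ∑ i ∈ Finset.range (n + 1), (n.choose i : ℝ) * (K * K') := by
        refine Finset.sum_le_sum fun i hi => ?_
        rw [Finset.mem_range] at hi
        rw [abs_mul, abs_mul, abs_of_nonneg (by positivity : (0:ℝ) ≤ (n.choose i : ℝ)), mul_assoc]
        have h1 := h i (by omega) x
        have h2 := h' (n - i) (by omega) x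
        gcongr
    _ = (2:ℝ) ^ n * (K * K') := by
        rw [← Finset.sum_mul]
        congr 1
        exact_mod_cast Nat.sum_range_choose n
    _ ≤ 16 * (K * K') := by
        have : (2:ℝ) ^ n ≤ 2 ^ 4 := pow_le_pow_right₀ (by norm_num) hn
        have h16 : (2:ℝ) ^ 4 = 16 := by norm_num
        rw [h16] at this
        gcongr

lemma BD.comp_mul {K c : ℝ} {f : ℝ → ℝ} (hf : ContDiff ℝ ∞ f) (h : BD K f) (hc : |c| ≤ 1) :
    BD K (fun x => f (c * x)) := by
  intro n hn x
  have hle : (n : WithTop ℕ∞) ≤ ∞ := by exact_mod_cast le_top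
  rw [iteratedDeriv_comp_const_mul (hf.of_le hle)]
  simp only
  rw [abs_mul, abs_pow]
  have h1 : |c| ^ n ≤ 1 := pow_le_one₀ (abs_nonneg _) hc
  calc |c| ^ n * |iteratedDeriv n f (c * x)| ≤ 1 * K := by
        have := h n hn (c * x)
        gcongr
    _ = K := one_mul K

lemma RS.bd {g : ℝ → ℝ} (h : RS g) : ∃ K : ℝ, 0 < K ∧ BD K g := by
  choose C hC hb using fun n => h.decay 0 n
  have hpos : 0 < C 0 + C 1 + C 2 + C 3 + C 4 := by
    have := hC 0; have := hC 1; have := hC 2; have := hC 3; have := hC 4; positivity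
  refine ⟨C 0 + C 1 + C 2 + C 3 + C 4, hpos, fun n hn x => ?_⟩
  have h1 := hb n x
  rw [pow_zero, one_mul] at h1
  have := hC 0; have := hC 1; have := hC 2; have := hC 3; have := hC 4
  interval_cases n <;> linarith

/-- A smooth transition from `0` (left of `1/8`) to `1` (right of `1/4`). -/
noncomputable def sg (v : ℝ) : ℝ := Real.smoothTransition (8 * v - 1)

lemma sg_smooth : ContDiff ℝ ∞ sg := by
  unfold sg
  exact Real.smoothTransition.contDiff.comp (by fun_prop)

lemma sg_zero {v : ℝ} (h : v ≤ 1 / 8) : sg v = 0 :=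
  Real.smoothTransition.zero_of_nonpos (by linarith)

lemma sg_one {v : ℝ} (h : 1 / 4 ≤ v) : sg v = 1 :=
  Real.smoothTransition.one_of_one_le (by linarith)

lemma sg_bd : ∃ K : ℝ, 0 < K ∧ BD K sg := by
  have h1 : ∀ n : ℕ, ∃ C : ℝ, 0 < C ∧ ∀ x, |iteratedDeriv n sg x| ≤ C := by
    intro n
    rcases Nat.eq_zero_or_pos n with h0 | h0
    · refine ⟨1, one_pos, fun x => ?_⟩
      have h3 : 0 ≤ sg x := Real.smoothTransition.nonneg _
      rw [h0, iteratedDeriv_zero, abs_of_nonneg h3]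
      exact Real.smoothTransition.le_one _
    · obtain ⟨m, rfl⟩ := Nat.exists_eq_succ_of_ne_zero (by omega : n ≠ 0)
      have hzero : ∀ x, x ∉ Icc (0:ℝ) 1 → iteratedDeriv (m + 1) sg x = 0 := by
        intro x hx
        rw [mem_Icc, not_and_or, not_le, not_le] at hx
        rcases hx with hx | hx
        · have hev : sg =ᶠ[nhds x] fun _ => 0 := by
            filter_upwards [isOpen_Iio.mem_nhds hx] with y hy
            exact sg_zero (by have : y < 0 := hy; linarith)
          rw [hev.iteratedDeriv_eq]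
          simp [iteratedDeriv_const]
        · have hev : sg =ᶠ[nhds x] fun _ => 1 := by
            filter_upwards [isOpen_Ioi.mem_nhds hx] with y hy
            exact sg_one (by have : 1 < y := hy; linarith)
          rw [hev.iteratedDeriv_eq]
          simp [iteratedDeriv_const]
      have hcont : Continuous (iteratedDeriv (m + 1) sg) := by
        apply (sg_smooth.of_le (m := (m + 1 : ℕ)) (by exact_mod_cast le_top)).continuous_iteratedDeriv
        exact le_rfl
      obtain ⟨C, hC⟩ := isCompact_Icc.exists_bound_of_continuousOn (s := Icc (0:ℝ) 1)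
        hcont.continuousOn
      refine ⟨|C| + 1, by positivity, fun x => ?_⟩
      by_cases hx : x ∈ Icc (0:ℝ) 1
      · have := hC x hx
        rw [Real.norm_eq_abs] at this
        have h2 := le_abs_self C
        linarith
      · rw [hzero x hx, abs_zero]
        positivity
  choose C hC hb using h1
  have hpos : 0 < C 0 + C 1 + C 2 + C 3 + C 4 := by
    have := hC 0; have := hC 1; have := hC 2; have := hC 3; have := hC 4; positivity
  refine ⟨C 0 + C 1 + C 2 + C 3 + C 4, hpos, fun n hn x => ?_⟩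
  have h1 := hb n x
  have := hC 0; have := hC 1; have := hC 2; have := hC 3; have := hC 4
  interval_cases n <;> linarith

/-- Repeated integration by parts. -/
lemma pow_mul_laplace {f : ℝ → ℝ} (hf : ContDiff ℝ ∞ f) (hs : HasCompactSupport f) (z : ℂ) (n : ℕ) :
    z ^ n * ∫ v : ℝ, (f v : ℂ) * Complex.exp (z * v) =
      (-1) ^ n * ∫ v : ℝ, ((iteratedDeriv n f v : ℝ) : ℂ) * Complex.exp (z * v) := by
  induction n generalizing f with
  | zero => simp
  | succ n ih =>
    have hfd : ContDiff ℝ ∞ (deriv f) := (contDiff_infty_iff_deriv.mp hf).2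
    have hsd : HasCompactSupport (deriv f) := hs.deriv
    have h1 := ih hfd hsd
    have hstep : z * ∫ v : ℝ, (f v : ℂ) * Complex.exp (z * v) =
        - ∫ v : ℝ, ((deriv f v : ℝ) : ℂ) * Complex.exp (z * v) := by
      have hcf : Continuous f := hf.continuous
      have hcd : Continuous (deriv f) := hfd.continuous
      have hsc : HasCompactSupport (fun v : ℝ => (f v : ℂ)) :=
        hs.comp_left (g := Complex.ofReal) Complex.ofReal_zero
      have hsc' : HasCompactSupport (fun v : ℝ => ((deriv f v : ℝ) : ℂ)) :=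
        hsd.comp_left (g := Complex.ofReal) Complex.ofReal_zero
      have hd : ∀ v : ℝ, HasDerivAt (fun v : ℝ => (f v : ℂ)) ((deriv f v : ℝ) : ℂ) v := fun v =>
        ((hf.differentiable (by simp)) v).hasDerivAt.ofReal_comp
      have he : ∀ v : ℝ, HasDerivAt (fun v : ℝ => Complex.exp (z * v))
          (z * Complex.exp (z * v)) v := by
        intro v
        have h2 : HasDerivAt (fun v : ℝ => z * (v : ℂ)) (z * 1) v :=
          ((hasDerivAt_id v).ofReal_comp).const_mul z
        refine h2.cexp.congr_deriv ?_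
        ring
      have h3 := integral_mul_deriv_eq_deriv_mul_of_integrable
        (u := fun v : ℝ => (f v : ℂ)) (v := fun v : ℝ => Complex.exp (z * v))
        (u' := fun v : ℝ => ((deriv f v : ℝ) : ℂ)) (v' := fun v : ℝ => z * Complex.exp (z * v))
        (fun v _ => hd v) (fun v _ => he v) ?_ ?_ ?_
      · have h4 : ∀ v : ℝ, (f v : ℂ) * (z * Complex.exp (z * v)) =
            z * ((f v : ℂ) * Complex.exp (z * v)) := fun v => by ring
        simp_rw [h4] at h3
        rw [MeasureTheory.integral_const_mul] at h3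
        exact h3
      · refine Continuous.integrable_of_hasCompactSupport ?_ hsc.mul_right
        fun_prop
      · refine Continuous.integrable_of_hasCompactSupport ?_ hsc'.mul_right
        fun_prop
      · refine Continuous.integrable_of_hasCompactSupport ?_ hsc.mul_right
        fun_prop
    rw [pow_succ, mul_assoc, hstep, mul_neg, h1, iteratedDeriv_succ', pow_succ]
    ring

/-- Bound for the one-sided Laplace transform. -/
lemma norm_hh_le {f : ℝ → ℝ} {D K : ℝ} (hf : ContDiff ℝ ∞ f) (hD : 0 ≤ D)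
    (h0 : ∀ v, v ≤ 0 → f v = 0) (h1 : ∀ v, D ≤ v → f v = 0)
    (hK : ∀ v, |iteratedDeriv 4 f v| ≤ K) (u : ℝ) :
    ‖hh (fun v => (f v : ℂ)) u‖ ≤ K * Real.exp D / (1 + u ^ 2) ^ 2 := by
  have hK0 : 0 ≤ K := (abs_nonneg _).trans (hK 0)
  have hs : HasCompactSupport f := by
    refine HasCompactSupport.of_support_subset_isCompact (K := Icc 0 D) isCompact_Icc ?_
    intro ξ hξ
    rw [Function.mem_support] at hξ
    constructor
    · by_contra h2
      push Not at h2
      exact hξ (h0 ξ h2.le)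
    · by_contra h2
      push Not at h2
      exact hξ (h1 ξ h2.le)
  have hz := pow_mul_laplace hf hs (1 - u * Complex.I) 4
  have e1 : hh (fun v => (f v : ℂ)) u =
      ∫ v : ℝ, (f v : ℂ) * Complex.exp ((1 - u * Complex.I) * v) := by
    unfold hh
    refine integral_congr_ae (Filter.Eventually.of_forall fun v => ?_)
    simp only
    congr 2
    push_cast; ring
  rw [← e1] at hz
  have hn : ‖(1 - u * Complex.I : ℂ)‖ ^ 2 = 1 + u ^ 2 := by
    have := norm_one_add_sq (-u)
    rw [neg_sq] at this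
    rw [← this]
    congr 2
    push_cast; ring
  have hsub : ∀ v, v ∉ Ioc 0 D → iteratedDeriv 4 f v = 0 := by
    intro v hv
    rw [mem_Ioc, not_and_or, not_lt, not_le] at hv
    have hcont' : ∀ n : ℕ, Continuous (iteratedDeriv n f) := fun n =>
      (hf.of_le (m := (n : WithTop ℕ∞)) (by exact_mod_cast le_top)).continuous_iteratedDeriv n le_rfl
    have hcont := hcont' 4
    rcases hv with hv | hv
    · -- on the closed half line, by continuity from the open one
      have hlt : ∀ w, w < 0 → iteratedDeriv 4 f w = 0 := by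
        intro w hw
        have hev : f =ᶠ[nhds w] fun _ => 0 := by
          filter_upwards [isOpen_Iio.mem_nhds hw] with y hy
          exact h0 y (le_of_lt hy)
        rw [hev.iteratedDeriv_eq]
        simp
      rcases hv.lt_or_eq with h2 | h2
      · exact hlt v h2
      · have hcl : IsClosed {w | iteratedDeriv 4 f w = 0} := isClosed_eq hcont continuous_const
        have hmem : v ∈ closure (Iio (0:ℝ)) := by
          rw [closure_Iio, h2]
          exact mem_Iic.mpr le_rfl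
        exact (closure_minimal (fun w hw => hlt w hw) hcl) hmem
    · have hev : f =ᶠ[nhds v] fun _ => 0 := by
        filter_upwards [isOpen_Ioi.mem_nhds hv] with y hy
        exact h1 y (le_of_lt hy)
      rw [hev.iteratedDeriv_eq]
      simp
  have hb : ‖∫ v : ℝ, ((iteratedDeriv 4 f v : ℝ) : ℂ) * Complex.exp ((1 - u * Complex.I) * v)‖ ≤
      K * Real.exp D := by
    have e2 : ∫ v : ℝ, ((iteratedDeriv 4 f v : ℝ) : ℂ) * Complex.exp ((1 - u * Complex.I) * v) =
        ∫ v in (0:ℝ)..D, ((iteratedDeriv 4 f v : ℝ) : ℂ) * Complex.exp ((1 - u * Complex.I) * v) := by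
      rw [intervalIntegral.integral_of_le hD]
      symm
      apply setIntegral_eq_integral_of_forall_compl_eq_zero
      intro v hv
      rw [hsub v hv]
      simp
    rw [e2]
    have h3 : ∀ v ∈ Ioc (0:ℝ) D, ‖((iteratedDeriv 4 f v : ℝ) : ℂ) *
        Complex.exp ((1 - u * Complex.I) * v)‖ ≤ K * Real.exp v := by
      intro v hv
      rw [norm_mul, Complex.norm_real, Real.norm_eq_abs, Complex.norm_exp]
      have : ((1 - u * Complex.I) * v : ℂ).re = v := by simp
      rw [this]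
      have := hK v
      gcongr
    refine (intervalIntegral.norm_integral_le_of_norm_le hD
      (Filter.Eventually.of_forall h3) (by
        exact Continuous.intervalIntegrable (by fun_prop) _ _)).trans ?_
    rw [intervalIntegral.integral_const_mul, integral_exp]
    have : Real.exp D - Real.exp 0 ≤ Real.exp D := by linarith [Real.exp_pos 0]
    gcongr
  have hfin : (1 + u ^ 2) ^ 2 * ‖hh (fun v => (f v : ℂ)) u‖ ≤ K * Real.exp D := by
    have h4 := congrArg norm hz
    rw [norm_mul, norm_mul, norm_pow, norm_pow, norm_neg, norm_one, one_pow, one_mul] at h4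
    have h5 : ‖(1 - u * Complex.I : ℂ)‖ ^ 4 = (1 + u ^ 2) ^ 2 := by
      rw [← hn, ← pow_mul]
    rw [h5] at h4
    rw [h4]
    exact hb
  rw [le_div_iff₀ (by positivity), mul_comm]
  exact hfin

lemma BD.const_mul {K : ℝ} {f : ℝ → ℝ} (c : ℝ) (h : BD K f) :
    BD (|c| * K) (fun x => c * f x) := by
  intro n hn x
  rw [iteratedDeriv_const_mul_field, abs_mul]
  have := h n hn x
  gcongr

lemma BD.one_sub {K : ℝ} {f : ℝ → ℝ} (hf : ContDiff ℝ ∞ f) (h : BD K f) :
    BD (1 + K) (fun x => 1 - f x) := by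
  intro n hn x
  have hle : (n : WithTop ℕ∞) ≤ ∞ := by exact_mod_cast le_top
  have h1 : (fun x => 1 - f x) = (fun _ : ℝ => (1:ℝ)) - f := by funext x; simp
  rw [h1, iteratedDeriv_sub (contDiff_const.contDiffAt) (hf.of_le hle).contDiffAt]
  have h2 := h n hn x
  have h3 : |iteratedDeriv n (fun _ : ℝ => (1:ℝ)) x| ≤ 1 := by
    rw [iteratedDeriv_const]
    split_ifs <;> simp
  refine (abs_sub _ _).trans ?_
  linarith

/-- The Phi data of the low frequency part. -/
noncomputable def lowData (g : ℝ → ℝ) (hg : ContDiff ℝ ∞ g) (h1 : g 1 = 0) (hb : BD 1 g) :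
    Gen.PhiData where
  f0 := g
  f1 := deriv g
  f2 := deriv (deriv g)
  c0 := hg.continuous
  c1 := (contDiff_infty_iff_deriv.mp hg).2.continuous
  c2 := (contDiff_infty_iff_deriv.mp (contDiff_infty_iff_deriv.mp hg).2).2.continuous
  d0 := fun v => ((hg.differentiable (by simp)) v).hasDerivAt
  d1 := fun v => (((contDiff_infty_iff_deriv.mp hg).2.differentiable (by simp)) v).hasDerivAt
  one := h1
  b0 := fun v _ _ => by
    have := hb 0 (by norm_num) v
    rw [iteratedDeriv_zero] at this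
    linarith
  b1 := fun v _ _ => by
    have := hb 1 (by norm_num) v
    rw [iteratedDeriv_one] at this
    linarith
  b2 := fun v _ _ => by
    have := hb 2 (by norm_num) v
    rw [iteratedDeriv_succ, iteratedDeriv_one] at this
    linarith

/-- `star Ψ x = (2π)⁻¹ ∫ Ψ(ξ) cos(x ξ) dξ`. -/
noncomputable def star (Ψ : ℝ → ℝ) (x : ℝ) : ℝ := (2 * π)⁻¹ * chat Ψ x

lemma integral_even_half {G : ℝ → ℝ} (he : ∀ v, G (-v) = G v) :
    ∫ v : ℝ, G v = 2 * ∫ v in Ioi (0:ℝ), G v := by
  have h1 : ∀ v : ℝ, G v = G |v| := by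
    intro v
    rcases abs_cases v with ⟨h, _⟩ | ⟨h, _⟩
    · rw [h]
    · rw [h, he]
  calc ∫ v : ℝ, G v = ∫ v : ℝ, G |v| := integral_congr_ae (Filter.Eventually.of_forall h1)
    _ = _ := integral_comp_abs (f := G)

/-- Splitting of the test function into low and high frequencies. -/
lemma star_split {Ψ : ℝ → ℝ} (hΨ : RS Ψ) {L : ℝ} (hL : 0 < L) (y : ℝ) :
    star Ψ (y * L) = (π * L)⁻¹ * ((∫ v in (0:ℝ)..(1 / 2),
      (Ψ (L⁻¹ * v) * (1 - sg v)) * Real.cos (y * v)) +
      (ff (fun v => ((Ψ (L⁻¹ * v) * sg v : ℝ) : ℂ)) y).re) := by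
  have hpi := Real.pi_pos
  have hΨc := hΨ.continuous
  have hsgc : Continuous sg := sg_smooth.continuous
  have hi0 : Integrable (fun v : ℝ => Ψ (L⁻¹ * v)) := hΨ.integrable.comp_mul_left' (by positivity)
  have hcos : ∀ h : ℝ → ℝ, Continuous h → (∀ v, |h v| ≤ |Ψ (L⁻¹ * v)|) →
      Integrable (fun v : ℝ => h v * Real.cos (y * v)) := by
    intro h hc hb
    refine hi0.norm.mono' (Continuous.aestronglyMeasurable (by fun_prop))
      (Filter.Eventually.of_forall fun v => ?_)
    rw [norm_mul, Real.norm_eq_abs, Real.norm_eq_abs, Real.norm_eq_abs]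
    calc |h v| * |Real.cos (y * v)| ≤ |Ψ (L⁻¹ * v)| * 1 := by
          have := hb v
          have := Real.abs_cos_le_one (y * v)
          gcongr
      _ = _ := mul_one _
  have hsg01 : ∀ v, 0 ≤ sg v ∧ sg v ≤ 1 := fun v =>
    ⟨Real.smoothTransition.nonneg _, Real.smoothTransition.le_one _⟩
  have hI1 := hcos (fun v => Ψ (L⁻¹ * v) * (1 - sg v)) (by fun_prop) (fun v => by
    rw [abs_mul, abs_of_nonneg (by linarith [(hsg01 v).2] : 0 ≤ 1 - sg v)]
    exact mul_le_of_le_one_right (abs_nonneg _) (by linarith [(hsg01 v).1]))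
  have hI2 := hcos (fun v => Ψ (L⁻¹ * v) * sg v) (by fun_prop) (fun v => by
    rw [abs_mul, abs_of_nonneg (hsg01 v).1]
    exact mul_le_of_le_one_right (abs_nonneg _) (hsg01 v).2)
  -- the change of variables
  have h1 : chat Ψ (y * L) = L⁻¹ * (2 * ∫ v in Ioi (0:ℝ), Ψ (L⁻¹ * v) * Real.cos (y * v)) := by
    rw [← integral_even_half (G := fun v => Ψ (L⁻¹ * v) * Real.cos (y * v))]
    · have h2 := Measure.integral_comp_mul_left
        (fun v : ℝ => Ψ (L⁻¹ * v) * Real.cos (y * v)) L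
      rw [abs_of_pos (by positivity), smul_eq_mul] at h2
      rw [← h2]
      unfold chat
      refine integral_congr_ae (Filter.Eventually.of_forall fun x => ?_)
      simp only
      have e1 : L⁻¹ * (L * x) = x := by field_simp
      rw [e1]
      congr 2
      ring
    · intro v
      rw [mul_neg, hΨ.even, mul_neg, Real.cos_neg]
  have h2 : ∫ v in Ioi (0:ℝ), Ψ (L⁻¹ * v) * Real.cos (y * v) =
      (∫ v in Ioi (0:ℝ), (Ψ (L⁻¹ * v) * (1 - sg v)) * Real.cos (y * v)) +
      ∫ v in Ioi (0:ℝ), (Ψ (L⁻¹ * v) * sg v) * Real.cos (y * v) := by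
    rw [← integral_add hI1.integrableOn hI2.integrableOn]
    refine integral_congr_ae (Filter.Eventually.of_forall fun v => ?_)
    simp only
    ring
  have h3 : ∫ v in Ioi (0:ℝ), (Ψ (L⁻¹ * v) * (1 - sg v)) * Real.cos (y * v) =
      ∫ v in (0:ℝ)..(1 / 2), (Ψ (L⁻¹ * v) * (1 - sg v)) * Real.cos (y * v) := by
    rw [intervalIntegral.integral_of_le (by norm_num)]
    apply setIntegral_eq_of_subset_of_forall_sdiff_eq_zero measurableSet_Ioi Ioc_subset_Ioi_self
    intro v hv
    have hv2 : 1 / 2 < v := by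
      by_contra h
      push Not at h
      exact hv.2 ⟨hv.1, h⟩
    rw [sg_one (by linarith)]
    ring
  have h4 : ∫ v in Ioi (0:ℝ), (Ψ (L⁻¹ * v) * sg v) * Real.cos (y * v) =
      ∫ v : ℝ, (Ψ (L⁻¹ * v) * sg v) * Real.cos (y * v) := by
    apply setIntegral_eq_integral_of_forall_compl_eq_zero
    intro v hv
    have hv2 : v ≤ 0 := by
      by_contra h
      push Not at h
      exact hv h
    rw [sg_zero (by linarith)]
    ring
  have h5 : (ff (fun v => ((Ψ (L⁻¹ * v) * sg v : ℝ) : ℂ)) y).re =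
      ∫ v : ℝ, (Ψ (L⁻¹ * v) * sg v) * Real.cos (y * v) := by
    unfold ff
    have hi : Integrable (fun ξ : ℝ => ((Ψ (L⁻¹ * ξ) * sg ξ : ℝ) : ℂ) *
        Complex.exp (-((ξ * y : ℝ) : ℂ) * Complex.I)) := by
      have hi1 : Integrable (fun ξ : ℝ => Ψ (L⁻¹ * ξ) * sg ξ) := by
        refine hi0.norm.mono' (Continuous.aestronglyMeasurable (by fun_prop))
          (Filter.Eventually.of_forall fun v => ?_)
        rw [norm_mul, Real.norm_eq_abs (sg v), abs_of_nonneg (hsg01 v).1]
        exact mul_le_of_le_one_right (norm_nonneg _) (hsg01 v).2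
      refine hi1.norm.mono' (Continuous.aestronglyMeasurable (by fun_prop))
        (Filter.Eventually.of_forall fun v => ?_)
      rw [norm_mul, Complex.norm_real, ← Complex.ofReal_neg, Complex.norm_exp_ofReal_mul_I, mul_one]
    have h6 := integral_re (𝕜 := ℂ) hi
    simp only [RCLike.re_eq_complex_re] at h6
    rw [← h6]
    refine integral_congr_ae (Filter.Eventually.of_forall fun v => ?_)
    simp only
    rw [Complex.re_ofReal_mul, ← Complex.ofReal_neg, Complex.exp_ofReal_mul_I_re, Real.cos_neg]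
    congr 2
    ring
  unfold star
  rw [h1, h2, h3, h4, h5]
  set J1 := ∫ v in (0:ℝ)..(1 / 2), (Ψ (L⁻¹ * v) * (1 - sg v)) * Real.cos (y * v)
  set J2 := ∫ v : ℝ, (Ψ (L⁻¹ * v) * sg v) * Real.cos (y * v)
  field_simp

lemma one_add_log_le {t : ℝ} (ht : 1 ≤ t) :
    (1 + Real.log t) / Real.sqrt t ≤ 5 * t ^ (-(1 / 4) : ℝ) := by
  have ht0 : 0 < t := by linarith
  have h1 : Real.log t ≤ 4 * t ^ (1 / 4 : ℝ) := by
    have := Real.log_le_rpow_div ht0.le (show (0:ℝ) < 1 / 4 by norm_num)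
    linarith
  have h2 : 1 ≤ t ^ (1 / 4 : ℝ) := Real.one_le_rpow ht (by norm_num)
  rw [div_le_iff₀ (Real.sqrt_pos.mpr ht0), Real.sqrt_eq_rpow, mul_assoc, ← Real.rpow_add ht0]
  have h3 : (-(1 / 4) + 1 / 2 : ℝ) = 1 / 4 := by norm_num
  rw [h3]
  linarith

/-- **Explicit formula** for a band-limited even function at scale `1/log T` (RH). -/
theorem exists_star_explicit (hRH : RiemannHypothesis) {Ψ : ℝ → ℝ} (hΨ : RS Ψ) {β : ℝ}
    (hβ0 : 0 < β) (hsupp : ∀ ξ, β ≤ |ξ| → Ψ ξ = 0) :
    ∃ C : ℝ, 0 < C ∧ ∀ T : ℝ, 8 ≤ T → ∀ x : ℕ, Real.exp (β * Real.log T) ≤ x + 1 →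
      ∀ t : ℝ, T / 2 ≤ t → ∃ S : ℝ,
        HasSum (fun ρ : ntz => (mult ρ : ℝ) * star Ψ ((t - (ρ : ℂ).im) * Real.log T)) S ∧
        |S - (Ψ 0 / (2 * π * Real.log T) * Real.log (t / (2 * π)) -
          (π * Real.log T)⁻¹ * (vmPoly (fun n => (Ψ (Real.log n / Real.log T) : ℂ)) x t).re)| ≤
          C * (T ^ (β - 1) + T ^ (-(1 / 4) : ℝ)) := by
  obtain ⟨K, hK, hKb⟩ := hΨ.bd
  obtain ⟨Ks, hKs, hKsb⟩ := sg_bd
  obtain ⟨C1, hC1, hlow⟩ := Gen.exists_explicit hRH
  have hpi := Real.pi_pos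
  set K1 : ℝ := 16 * (K * (1 + Ks)) with hK1
  have hK1pos : 0 < K1 := by positivity
  set K2 : ℝ := 16 * (K * Ks) with hK2
  have hK2pos : 0 < K2 := by positivity
  refine ⟨10 * K1 * C1 * Real.exp (1 / 2) + 64 * K2, by positivity, fun T hT x hx t ht => ?_⟩
  have hT0 : 0 < T := by linarith
  have ht1 : 1 ≤ t := by linarith
  have ht0 : 0 < t := by linarith
  set L := Real.log T with hL
  have hL1 : 1 ≤ L := by
    rw [hL, Real.le_log_iff_exp_le hT0]
    have := Real.exp_one_lt_d9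
    linarith
  have hL0 : 0 < L := by linarith
  have hLinv : |L⁻¹| ≤ 1 := by
    rw [abs_of_pos (by positivity)]
    exact inv_le_one_of_one_le₀ hL1
  -- low part
  have hΨs : ContDiff ℝ ∞ (fun v => Ψ (L⁻¹ * v)) := hΨ.smooth.comp (by fun_prop)
  have hΨb := hKb.comp_mul hΨ.smooth hLinv
  have hgs : ContDiff ℝ ∞ (fun v => Ψ (L⁻¹ * v) * (1 - sg v)) :=
    hΨs.mul (contDiff_const.sub sg_smooth)
  have hgb : BD K1 (fun v => Ψ (L⁻¹ * v) * (1 - sg v)) :=
    BD.mul hΨs (contDiff_const.sub sg_smooth) hΨb (hKsb.one_sub sg_smooth)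
  set g : ℝ → ℝ := fun v => Ψ (L⁻¹ * v) * (1 - sg v) with hg
  have hg2s : ContDiff ℝ ∞ (fun w => g (1 / 2 * w)) := hgs.comp (by fun_prop)
  have hg2b : BD K1 (fun w => g (1 / 2 * w)) :=
    hgb.comp_mul hgs (by rw [abs_of_pos (by norm_num)]; norm_num)
  have hg3s : ContDiff ℝ ∞ (fun w => K1⁻¹ * g (1 / 2 * w)) := contDiff_const.mul hg2s
  have hg3b : BD 1 (fun w => K1⁻¹ * g (1 / 2 * w)) := by
    have := hg2b.const_mul K1⁻¹
    rw [abs_of_pos (by positivity), inv_mul_cancel₀ hK1pos.ne'] at this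
    exact this
  have hg31 : (fun w => K1⁻¹ * g (1 / 2 * w)) 1 = 0 := by
    simp only [hg]
    rw [sg_one (by norm_num)]
    ring
  set P := lowData (fun w => K1⁻¹ * g (1 / 2 * w)) hg3s hg31 hg3b with hP
  obtain ⟨S1, hS1, hS1b⟩ := hlow P (1 / 2) 1 t le_rfl (by
    have := Real.exp_one_lt_d9
    have h2 : Real.exp (1 / 2) ≤ Real.exp 1 := Real.exp_le_exp.mpr (by norm_num)
    have h3 : Real.exp (1 / 2) ^ 2 = Real.exp 1 := by rw [← Real.exp_nat_mul]; norm_num
    push_cast
    nlinarith [Real.exp_pos (1 / 2)]) ht1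
  have hvm : vmPoly (Gen.bb P (1 / 2)) 1 t = 0 := by
    unfold vmPoly
    simp
  have hf00 : P.f0 0 = K1⁻¹ * Ψ 0 := by
    show K1⁻¹ * g (1 / 2 * 0) = _
    simp only [hg, mul_zero]
    rw [sg_zero (by norm_num)]
    ring
  rw [hvm, hf00, Complex.zero_re, sub_zero] at hS1b
  have hFF : ∀ y : ℝ, Gen.FF P (1 / 2) y =
      K1⁻¹ * ∫ v in (0:ℝ)..(1 / 2), g v * Real.cos (y * v) := by
    intro y
    rw [← intervalIntegral.integral_const_mul]
    unfold Gen.FF
    refine intervalIntegral.integral_congr fun v _ => ?_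
    show K1⁻¹ * g (1 / 2 * (v / (1 / 2))) * Real.cos (y * v) = _
    have e1 : (1 / 2 * (v / (1 / 2)) : ℝ) = v := by ring
    rw [e1]
    ring
  -- high part
  have hfs : ContDiff ℝ ∞ (fun v => Ψ (L⁻¹ * v) * sg v) := hΨs.mul sg_smooth
  have hfb : BD K2 (fun v => Ψ (L⁻¹ * v) * sg v) := BD.mul hΨs sg_smooth hΨb hKsb
  set D : ℝ := β * L with hD
  have hD0 : 0 ≤ D := by positivity
  have hf0 : ∀ v, v ≤ 0 → Ψ (L⁻¹ * v) * sg v = 0 := by
    intro v hv
    rw [sg_zero (by linarith), mul_zero]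
  have hf1 : ∀ v, D ≤ v → Ψ (L⁻¹ * v) * sg v = 0 := by
    intro v hv
    rw [hsupp, zero_mul]
    refine le_trans ?_ (le_abs_self _)
    rw [inv_mul_eq_div, le_div_iff₀ hL0]
    exact hv
  have hadm : Adm (fun v => ((Ψ (L⁻¹ * v) * sg v : ℝ) : ℂ)) D (K2 * Real.exp D) := by
    refine ⟨?_, ?_, ?_, ?_⟩
    · have := hfs.continuous
      fun_prop
    · intro v hv
      rw [hf0 v hv, Complex.ofReal_zero]
    · intro v hv
      rw [hf1 v hv, Complex.ofReal_zero]
    · intro u
      exact norm_hh_le hfs hD0 hf0 hf1 (hfb 4 le_rfl) u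
  obtain ⟨S2, hS2, hS2b⟩ := hadm.explicit hRH hx ht1
  have hS2r := (Complex.hasSum_iff _ _).mp hS2 |>.1
  have hvm2 : vmPoly (fun n => ((Ψ (L⁻¹ * Real.log n) * sg (Real.log n) : ℝ) : ℂ)) x t =
      vmPoly (fun n => (Ψ (Real.log n / L) : ℂ)) x t := by
    unfold vmPoly
    refine Finset.sum_congr rfl fun n hn => ?_
    rcases Nat.lt_or_ge n 2 with h | h
    · have : n = 1 := by
        rw [Finset.mem_Icc] at hn
        omega
      rw [this]
      simp
    · have h2 : 1 / 4 ≤ Real.log n := by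
        have h3 : Real.log 2 ≤ Real.log n := Real.log_le_log (by norm_num) (by exact_mod_cast h)
        have := Real.log_two_gt_d9
        linarith
      simp only
      rw [sg_one h2, mul_one, inv_mul_eq_div]
  rw [hvm2] at hS2b
  -- combination
  have hcomb := ((hS1.mul_left K1).add hS2r).mul_left (π * L)⁻¹
  refine ⟨(π * L)⁻¹ * (K1 * S1 + S2.re), ?_, ?_⟩
  · have e5 : (fun ρ : ntz => (π * L)⁻¹ *
        (K1 * ((mult ρ : ℝ) * Gen.FF P (1 / 2) (t - (ρ : ℂ).im)) +
          ((mult ρ : ℂ) * ff (fun v => ((Ψ (L⁻¹ * v) * sg v : ℝ) : ℂ)) (t - (ρ : ℂ).im)).re)) =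
        fun ρ : ntz => (mult ρ : ℝ) * star Ψ ((t - (ρ : ℂ).im) * L) := by
      funext ρ
      have e6 : star Ψ ((t - (ρ : ℂ).im) * L) = (π * L)⁻¹ * ((∫ v in (0:ℝ)..(1 / 2),
          g v * Real.cos ((t - (ρ : ℂ).im) * v)) +
          (ff (fun v => ((Ψ (L⁻¹ * v) * sg v : ℝ) : ℂ)) (t - (ρ : ℂ).im)).re) :=
        star_split hΨ hL0 _
      rw [e6, hFF, ← Complex.ofReal_natCast, Complex.re_ofReal_mul]
      generalize (ff (fun v => ((Ψ (L⁻¹ * v) * sg v : ℝ) : ℂ)) (t - (ρ : ℂ).im)).re = J2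
      generalize (∫ v in (0:ℝ)..(1 / 2), g v * Real.cos ((t - (ρ : ℂ).im) * v)) = J1
      field_simp
    rw [← e5]
    exact hcomb
  · set Q := vmPoly (fun n => (Ψ (Real.log n / L) : ℂ)) x t with hQ
    have e1 : (π * L)⁻¹ * (K1 * S1 + S2.re) - (Ψ 0 / (2 * π * L) * Real.log (t / (2 * π)) -
        (π * L)⁻¹ * Q.re) = (π * L)⁻¹ * (K1 * (S1 - K1⁻¹ * Ψ 0 / 2 * Real.log (t / (2 * π))) +
          (S2 + Q).re) := by
      rw [Complex.add_re]
      field_simp
      ring
    rw [e1, abs_mul, abs_of_pos (by positivity : 0 < (π * L)⁻¹)]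
    have h1 : (π * L)⁻¹ ≤ 1 := by
      apply inv_le_one_of_one_le₀
      have := Real.pi_gt_three
      exact one_le_mul_of_one_le_of_one_le (by linarith) hL1
    have h2 : |K1 * (S1 - K1⁻¹ * Ψ 0 / 2 * Real.log (t / (2 * π))) + (S2 + Q).re| ≤
        K1 * (C1 * Real.exp (1 / 2) * (1 + Real.log t) / Real.sqrt t) +
          32 * (K2 * Real.exp D) / t := by
      refine (abs_add_le _ _).trans ?_
      rw [abs_mul, abs_of_pos hK1pos]
      have := (Complex.abs_re_le_norm (S2 + Q)).trans hS2b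
      gcongr
    have h3 : K1 * (C1 * Real.exp (1 / 2) * (1 + Real.log t) / Real.sqrt t) ≤
        10 * K1 * C1 * Real.exp (1 / 2) * T ^ (-(1 / 4) : ℝ) := by
      have h4 := one_add_log_le ht1
      have h5 : t ^ (-(1 / 4) : ℝ) ≤ 2 * T ^ (-(1 / 4) : ℝ) := by
        have h6 : t ^ (-(1 / 4) : ℝ) ≤ (T / 2) ^ (-(1 / 4) : ℝ) :=
          Real.rpow_le_rpow_of_nonpos (by positivity) ht (by norm_num)
        have h7 : (T / 2) ^ (-(1 / 4) : ℝ) = T ^ (-(1 / 4) : ℝ) * (2:ℝ) ^ (1 / 4 : ℝ) := by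
          rw [Real.div_rpow hT0.le (by norm_num), Real.rpow_neg (by norm_num : (0:ℝ) ≤ 2),
            div_inv_eq_mul]
        have h8 : (2:ℝ) ^ (1 / 4 : ℝ) ≤ 2 := by
          calc (2:ℝ) ^ (1 / 4 : ℝ) ≤ (2:ℝ) ^ (1 : ℝ) :=
                Real.rpow_le_rpow_of_exponent_le (by norm_num) (by norm_num)
            _ = 2 := Real.rpow_one 2
        rw [h7] at h6
        have h9 : 0 < T ^ (-(1 / 4) : ℝ) := by positivity
        exact h6.trans (by linarith only [mul_le_mul_of_nonneg_left h8 h9.le])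
      calc K1 * (C1 * Real.exp (1 / 2) * (1 + Real.log t) / Real.sqrt t)
          = K1 * C1 * Real.exp (1 / 2) * ((1 + Real.log t) / Real.sqrt t) := by ring
        _ ≤ K1 * C1 * Real.exp (1 / 2) * (5 * (2 * T ^ (-(1 / 4) : ℝ))) := by
            gcongr
            linarith
        _ = _ := by ring
    have h4 : 32 * (K2 * Real.exp D) / t ≤ 64 * K2 * T ^ (β - 1) := by
      have h5 : Real.exp D = T ^ β := by
        rw [Real.rpow_def_of_pos hT0, hD, mul_comm]
      have h6 : T ^ (β - 1) = T ^ β / T := by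
        rw [Real.rpow_sub hT0, Real.rpow_one]
      rw [h5, h6, div_le_iff₀ ht0]
      have h7 : 0 < T ^ β := by positivity
      calc 32 * (K2 * T ^ β) = 64 * K2 * (T ^ β / T) * (T / 2) := by field_simp; norm_num
        _ ≤ 64 * K2 * (T ^ β / T) * t := by gcongr
    have h5 : 0 ≤ |K1 * (S1 - K1⁻¹ * Ψ 0 / 2 * Real.log (t / (2 * π))) + (S2 + Q).re| :=
      abs_nonneg _
    have h6 : 0 < T ^ (β - 1) := by positivity
    have h7 : 0 < T ^ (-(1 / 4) : ℝ) := by positivity
    have h8 : 0 ≤ 10 * K1 * C1 * Real.exp (1 / 2) * T ^ (β - 1) := by positivity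
    have h9 : 0 ≤ 64 * K2 * T ^ (-(1 / 4) : ℝ) := by positivity
    calc (π * L)⁻¹ * |K1 * (S1 - K1⁻¹ * Ψ 0 / 2 * Real.log (t / (2 * π))) + (S2 + Q).re|
        ≤ 1 * |K1 * (S1 - K1⁻¹ * Ψ 0 / 2 * Real.log (t / (2 * π))) + (S2 + Q).re| := by gcongr
      _ ≤ 10 * K1 * C1 * Real.exp (1 / 2) * T ^ (-(1 / 4) : ℝ) + 64 * K2 * T ^ (β - 1) := by
          rw [one_mul]; linarith
      _ ≤ _ := by
          have e2 : (10 * K1 * C1 * Real.exp (1 / 2) + 64 * K2) * (T ^ (β - 1) +
              T ^ (-(1 / 4) : ℝ)) = 10 * K1 * C1 * Real.exp (1 / 2) * T ^ (-(1 / 4) : ℝ) +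
              64 * K2 * T ^ (β - 1) + (10 * K1 * C1 * Real.exp (1 / 2) * T ^ (β - 1) +
              64 * K2 * T ^ (-(1 / 4) : ℝ)) := by ring
          rw [e2]
          linarith

end Pool.Agent.ZGap.Res
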