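import Pool.Agent.ZGap.Res.Crowd

/-!
# Void windows have positive measure (R6), and a positive proportion of large gaps
-/

open scoped ContDiff

namespace Pool.Agent.ZGap.Res

open MeasureTheory Real Set Pool.Agent.Hadamard Pool.Agent.ZetaGaps

/-- The set of centres of void windows is measurable. -/
lemma measurableSet_void (r : ℝ) : MeasurableSet {t : ℝ | ∀ ρ ∈ ntz, r < |ρ.im - t|} := by
  have h1 : {t : ℝ | ∀ ρ ∈ ntz, r < |ρ.im - t|} = ⋂ ρ ∈ ntz, {t : ℝ | r < |ρ.im - t|} := by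
    ext t; simp
  rw [h1]
  refine MeasurableSet.biInter ntz_countable fun ρ _ => ?_
  have : IsOpen {t : ℝ | r < |ρ.im - t|} := isOpen_lt continuous_const (by fun_prop)
  exact this.measurableSet

/-- The smoothed count is at least `1` if there is a zero in the window. -/
lemma one_le_NC {ψ : ℝ → ℝ} {c T t : ℝ} (hL : 1 ≤ Real.log T)
    (hψ00 : ∀ x, 0 ≤ ψ x) {K : ℝ} (hK : ∀ x, |ψ x| ≤ K / (1 + x ^ 2))
    (hψ1 : ∀ x, |x| ≤ π * c → ψ x = 1) {ρ : ℂ} (hρ : ρ ∈ ntz)
    (ht : |ρ.im - t| ≤ π * c / Real.log T) : 1 ≤ NC ψ T t := by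
  have hL0 : 0 < Real.log T := by linarith
  have hsum := NC_summable hK hL t
  unfold NC
  have h1 := hsum.le_tsum (⟨ρ, hρ⟩ : ntz) (fun ρ' _ => mul_nonneg (Nat.cast_nonneg _) (hψ00 _))
  refine le_trans ?_ h1
  have h2 : ψ ((t - ρ.im) * Real.log T) = 1 := by
    apply hψ1
    rw [abs_mul, abs_of_pos hL0, abs_sub_comm]
    rwa [le_div_iff₀ hL0] at ht
  show (1:ℝ) ≤ (mult ρ : ℝ) * ψ ((t - ρ.im) * Real.log T)
  rw [h2, mul_one]
  exact_mod_cast mult_pos hρ

/-- **Void windows**, from the arithmetic inequality. -/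
theorem void_of_arith (hRH : RiemannHypothesis) (R : ResData) (hF : ∀ x, 0 ≤ x → R.F x ≤ 1)
    (hF0 : 0 < R.F 0) {c κ e : ℝ} (hκ : 0 < κ) {ψ : ℝ → ℝ} (hψ : RS ψ)
    (hψ00 : ∀ x, 0 ≤ ψ x) (hψle : ∀ x, ψ x ≤ 1) (hψ1 : ∀ x, |x| ≤ π * c → ψ x = 1)
    (hψ0 : ∀ x, e ≤ |x| → ψ x = 0)
    (hψc : chat ψ 0 / (2 * π) ≤ c + κ / 2) {T1 : ℝ}
    (harith : ∀ T : ℝ, T1 ≤ T → (c - 1 + κ) * Sig R T ≤ (π * Real.log T)⁻¹ *
      ∑ n ∈ Finset.Icc 1 ⌊T⌋₊, ArithmeticFunction.vonMangoldt n / Real.sqrt n *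
        chat ψ (Real.log n / Real.log T) * CC R T n) :
    ∃ c0 T0 : ℝ, 0 < c0 ∧ ∀ T : ℝ, T0 ≤ T → c0 * T ≤ volume.real {t : ℝ |
      t ∈ Set.Icc (T / 2) (3 * T) ∧ ∀ ρ ∈ ntz, Real.pi * c / Real.log T < |ρ.im - t|} := by
  have hpi := Real.pi_pos
  obtain ⟨C2, T2, hC2, hT2, hcount⟩ := exists_VV_count hRH R hF hψ
  obtain ⟨T3, hT3, hV⟩ := exists_VV R hF
  obtain ⟨K1, T4, hK1, hT4, hfour⟩ := FM.fourth_moment hRH R
  obtain ⟨C6, hC6, hNCle⟩ := exists_NC_le
  set K : ℝ := 1 + e ^ 2 with hK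
  have hK0 : 0 < K := by positivity
  have hψK : ∀ x, |ψ x| ≤ K / (1 + x ^ 2) := by
    intro x
    rw [abs_of_nonneg (hψ00 x), le_div_iff₀ (by positivity)]
    by_cases hx : e ≤ |x|
    · rw [hψ0 x hx, zero_mul]; exact hK0.le
    · have h1 : x ^ 2 ≤ e ^ 2 := by
        rw [← sq_abs x]
        exact pow_le_pow_left₀ (abs_nonneg _) (not_le.mp hx).le 2
      calc ψ x * (1 + x ^ 2) ≤ 1 * (1 + e ^ 2) :=
            mul_le_mul (hψle x) (by linarith) (by positivity) zero_le_one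
        _ = K := by rw [hK, one_mul]
  set s0 : ℝ := R.F 0 ^ 4 with hs0
  have hs0p : 0 < s0 := by positivity
  set μ : ℝ := s0 * κ / (8 * K1) with hμ
  have hμ0 : 0 < μ := by positivity
  refine ⟨2 * μ * (s0 * κ / 4), max (max (max T1 T2) (max T3 T4)) (max 8
    (max (Real.exp (16 * C2 / (s0 * κ))) (16 * π / (s0 * κ)))), by positivity,
    fun T hT => ?_⟩
  have hTT1 : T1 ≤ T := (le_max_left _ _).trans ((le_max_left _ _).trans ((le_max_left _ _).trans hT))
  have hTT2 : T2 ≤ T := (le_max_right _ _).trans ((le_max_left _ _).trans ((le_max_left _ _).trans hT))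
  have hTT3 : T3 ≤ T := (le_max_left _ _).trans ((le_max_right _ _).trans ((le_max_left _ _).trans hT))
  have hTT4 : T4 ≤ T := (le_max_right _ _).trans ((le_max_right _ _).trans ((le_max_left _ _).trans hT))
  have hTT7 : Real.exp (16 * C2 / (s0 * κ)) ≤ T :=
    (le_max_left _ _).trans ((le_max_right _ _).trans ((le_max_right _ _).trans hT))
  have hTT8 : 16 * π / (s0 * κ) ≤ T :=
    (le_max_right _ _).trans ((le_max_right _ _).trans ((le_max_right _ _).trans hT))
  have hTe : Real.exp 3 ≤ T := hT2.trans hTT2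
  have h1T : 1 < T := lt_of_lt_of_le (Real.one_lt_exp_iff.mpr (by norm_num)) hTe
  have hTp : 0 < T := by linarith
  have hL3 : 3 ≤ Real.log T := by rw [Real.le_log_iff_exp_le hTp]; exact hTe
  have hL1 : 1 ≤ Real.log T := by linarith
  have hL : 0 < Real.log T := by linarith
  set r := π * c / Real.log T with hr
  set E : Set ℝ := {t : ℝ | t ∈ Set.Icc (T / 2) (3 * T) ∧ ∀ ρ ∈ ntz, r < |ρ.im - t|} with hE
  have hEmeas : MeasurableSet E := measurableSet_Icc.inter (measurableSet_void r)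
  have hEfin : volume E ≠ ⊤ := by
    refine ne_top_of_le_ne_top ?_ (measure_mono (show E ⊆ Set.Icc (T / 2) (3 * T) from
      fun t ht => ht.1))
    rw [Real.volume_Icc]; exact ENNReal.ofReal_ne_top
  obtain ⟨⟨M, hWt⟩, hdec, -, hint, -⟩ := hV T hTT3
  -- upper bound of the mean
  have hup : ∫ t : ℝ, VV R T t * NC ψ T t ≤ T * (Sig R T * (1 - κ / 2)) + C2 * T / Real.log T := by
    have h1 := (abs_le.mp (hcount T hTT2)).2
    have h2 := harith T hTT1
    have hS : 0 ≤ Sig R T := Finset.sum_nonneg fun _ _ => sq_nonneg _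
    have h3 : chat ψ 0 / (2 * π) * Sig R T - (π * Real.log T)⁻¹ *
        ∑ n ∈ Finset.Icc 1 ⌊T⌋₊, ArithmeticFunction.vonMangoldt n / Real.sqrt n *
          chat ψ (Real.log n / Real.log T) * CC R T n ≤ Sig R T * (1 - κ / 2) := by
      have h4 : chat ψ 0 / (2 * π) * Sig R T ≤ (c + κ / 2) * Sig R T :=
        mul_le_mul_of_nonneg_right hψc hS
      linarith
    have h5 := mul_le_mul_of_nonneg_left h3 hTp.le
    linarith
  have hSig : s0 ≤ Sig R T := le_Sig
  -- pointwise bound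
  set B : ℝ → ℝ := fun t => (T ^ 3)⁻¹ * (1 + t ^ 2)⁻¹ with hB
  set Q : ℝ → ℝ := fun t => μ / 2 * ‖Amp R T t‖ ^ 4 with hQdef
  have hNCnn : ∀ t, 0 ≤ NC ψ T t := fun t =>
    tsum_nonneg fun ρ => mul_nonneg (Nat.cast_nonneg _) (hψ00 _)
  have hpt : ∀ t, VV R T t ≤ VV R T t * NC ψ T t + (Icc (T / 2) (3 * T)).indicator Q t +
      E.indicator (fun _ => 1 / (2 * μ)) t + B t := by
    intro t
    have hVnn := VV_nonneg R hTp t
    have hVN : 0 ≤ VV R T t * NC ψ T t := mul_nonneg hVnn (hNCnn t)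
    have hBnn : 0 ≤ B t := by simp only [hB]; positivity
    have hQnn : 0 ≤ Q t := by simp only [hQdef]; positivity
    have hnn1 : 0 ≤ (Icc (T / 2) (3 * T)).indicator Q t := by
      by_cases h : t ∈ Icc (T / 2) (3 * T)
      · rw [Set.indicator_of_mem h]; exact hQnn
      · rw [Set.indicator_of_notMem h]
    have hnn2 : 0 ≤ E.indicator (fun _ => 1 / (2 * μ)) t :=
      Set.indicator_nonneg (fun _ _ => by positivity) t
    by_cases htI : t ∈ Icc (T / 2) (3 * T)
    · by_cases htE : ∀ ρ ∈ ntz, r < |ρ.im - t|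
      · rw [Set.indicator_of_mem htI, Set.indicator_of_mem (show t ∈ E from ⟨htI, htE⟩)]
        have h1 : VV R T t ≤ ‖Amp R T t‖ ^ 2 := by
          unfold VV
          exact mul_le_of_le_one_left (by positivity) (Om_le_one (by positivity) hTp t)
        have h2 : ‖Amp R T t‖ ^ 2 ≤ μ / 2 * ‖Amp R T t‖ ^ 4 + 1 / (2 * μ) := by
          have h3 : 0 ≤ (μ * ‖Amp R T t‖ ^ 2 - 1) ^ 2 / (2 * μ) := by positivity
          have h4 : (μ * ‖Amp R T t‖ ^ 2 - 1) ^ 2 / (2 * μ) =
              μ / 2 * ‖Amp R T t‖ ^ 4 + 1 / (2 * μ) - ‖Amp R T t‖ ^ 2 := by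
            field_simp
            ring
          linarith
        simp only [hQdef]
        linarith
      · push Not at htE
        obtain ⟨ρ, hρ, hρt⟩ := htE
        have h1 := one_le_NC hL1 hψ00 hψK hψ1 hρ hρt
        have h2 : VV R T t ≤ VV R T t * NC ψ T t := le_mul_of_one_le_right hVnn h1
        linarith
    · have h1 : VV R T t ≤ B t := by
        refine (hdec t htI).trans ?_
        simp only [hB]
        rw [div_eq_mul_inv]
        apply mul_le_mul_of_nonneg_left _ (by positivity)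
        apply inv_anti₀ (by positivity)
        have : 1 ≤ 1 + t ^ 2 := by linarith only [sq_nonneg t]
        exact le_self_pow₀ this (by norm_num)
      linarith
  -- integrability
  have hiV : Integrable (VV R T) := hWt.integrable
  have hiQ : Integrable ((Icc (T / 2) (3 * T)).indicator Q) := by
    rw [integrable_indicator_iff measurableSet_Icc]
    have h1 := Amp_continuous R T
    have h3 : Continuous Q := by simp only [hQdef]; fun_prop
    exact h3.integrableOn_Icc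
  have hiE : Integrable (E.indicator (fun _ => 1 / (2 * μ))) :=
    (integrable_indicator_iff hEmeas).mpr (integrableOn_const hEfin)
  have hiB : Integrable B := integrable_inv_one_add_sq.const_mul _
  have hiVN : Integrable (fun t => VV R T t * NC ψ T t) := by
    have hcont : Continuous (NC ψ T) := NC_continuous hψ.continuous hψK hL1
    refine hWt.integrable_mul (A := C6 * K * 2) hcont fun t => ?_
    refine (hNCle ψ K T hψK hL1 t).trans ?_
    have := log_abs_add_two_le t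
    calc C6 * K * Real.log (|t| + 2) ≤ C6 * K * (2 * (1 + t ^ 2)) :=
          mul_le_mul_of_nonneg_left this (by positivity)
      _ = _ := by ring
  have hi1 : Integrable (fun t => VV R T t * NC ψ T t +
      (Icc (T / 2) (3 * T)).indicator Q t) := hiVN.add hiQ
  have hi2 : Integrable (fun t => VV R T t * NC ψ T t + (Icc (T / 2) (3 * T)).indicator Q t +
      E.indicator (fun _ => 1 / (2 * μ)) t) := hi1.add hiE
  have hi3 : Integrable (fun t => VV R T t * NC ψ T t + (Icc (T / 2) (3 * T)).indicator Q t +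
      E.indicator (fun _ => 1 / (2 * μ)) t + B t) := hi2.add hiB
  have hkey : T * Sig R T ≤ (T * (Sig R T * (1 - κ / 2)) + C2 * T / Real.log T) +
      s0 * κ / 16 * T + 1 / (2 * μ) * volume.real E + (T ^ 3)⁻¹ * π := by
    have h1 : ∫ t : ℝ, VV R T t ≤ ∫ t : ℝ, (VV R T t * NC ψ T t +
        (Icc (T / 2) (3 * T)).indicator Q t + E.indicator (fun _ => 1 / (2 * μ)) t + B t) :=
      integral_mono hiV hi3 hpt
    have e1 : ∫ t : ℝ, (VV R T t * NC ψ T t + (Icc (T / 2) (3 * T)).indicator Q t +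
        E.indicator (fun _ => 1 / (2 * μ)) t + B t) =
        (∫ t : ℝ, VV R T t * NC ψ T t) + (∫ t : ℝ, (Icc (T / 2) (3 * T)).indicator Q t) +
        (∫ t : ℝ, E.indicator (fun _ => 1 / (2 * μ)) t) + ∫ t : ℝ, B t := by
      rw [integral_add hi2 hiB, integral_add hi1 hiE, integral_add hiVN hiQ]
    have e2 : ∫ t : ℝ, E.indicator (fun _ => 1 / (2 * μ)) t =
        1 / (2 * μ) * volume.real E := by
      rw [integral_indicator hEmeas, setIntegral_const, smul_eq_mul, mul_comm]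
    have e3 : ∫ t : ℝ, B t = (T ^ 3)⁻¹ * π := by
      simp only [hB]
      rw [integral_const_mul, integral_univ_inv_one_add_sq]
    have e4 : ∫ t : ℝ, (Icc (T / 2) (3 * T)).indicator Q t ≤ s0 * κ / 16 * T := by
      rw [integral_indicator measurableSet_Icc]
      simp only [hQdef]
      rw [integral_const_mul]
      have f1 : ∫ t in Icc (T / 2) (3 * T), ‖Amp R T t‖ ^ 4 ≤ K1 * T := by
        have := hfour T hTT4
        rwa [intervalIntegral.integral_of_le (by linarith), ← integral_Icc_eq_integral_Ioc] at this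
      calc _ ≤ μ / 2 * (K1 * T) := mul_le_mul_of_nonneg_left f1 (by positivity)
        _ = _ := by rw [hμ]; field_simp; ring
    rw [e1, hint, e2, e3] at h1
    linarith
  -- the two small terms
  have hsm1 : C2 * T / Real.log T ≤ s0 * κ / 16 * T := by
    have h1 : 16 * C2 / (s0 * κ) ≤ Real.log T := by
      rw [Real.le_log_iff_exp_le hTp]; exact hTT7
    rw [div_le_iff₀ (by positivity)] at h1
    rw [div_le_iff₀ hL]
    linarith only [mul_le_mul_of_nonneg_right h1 hTp.le]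
  have hsm2 : (T ^ 3)⁻¹ * π ≤ s0 * κ / 16 * T := by
    have h1 : (T ^ 3)⁻¹ ≤ 1 := inv_le_one_of_one_le₀ (one_le_pow₀ h1T.le)
    have h2 : 16 * π ≤ s0 * κ * T := by
      rw [div_le_iff₀ (by positivity)] at hTT8
      linarith
    calc (T ^ 3)⁻¹ * π ≤ 1 * π := by gcongr
      _ ≤ _ := by linarith
  have hmain : s0 * κ / 4 * T ≤ 1 / (2 * μ) * volume.real E := by
    have h1 : T * (s0 * (κ / 2)) ≤ T * (Sig R T * (κ / 2)) := by gcongr
    have h2 : T * (Sig R T * (1 - κ / 2)) = T * Sig R T - T * (Sig R T * (κ / 2)) := by ring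
    have h3 : 0 ≤ s0 * κ * T := by positivity
    linarith
  have hfin : 2 * μ * (s0 * κ / 4 * T) ≤ volume.real E := by
    have h1 := mul_le_mul_of_nonneg_left hmain (show 0 ≤ 2 * μ by positivity)
    have h2 : 2 * μ * (1 / (2 * μ) * volume.real E) = volume.real E := by
      field_simp
    linarith
  calc 2 * μ * (s0 * κ / 4) * T = 2 * μ * (s0 * κ / 4 * T) := by ring
    _ ≤ _ := hfin

/-- **Positive proportion of large gaps**, given the numerical inequality. -/
theorem large_gaps_of_num (hRH : RiemannHypothesis) {r θ c a b : ℝ} {m : ℕ} (hm : m ≠ 0)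
    (hθ : 0 < θ) (hθ' : θ < 1 / 2) (hc1 : 1 ≤ c) (ha : 0 ≤ a) (hb : 0 ≤ b)
    (hab : a + b ≤ 1) (h0 : 0 < a + b) (hr : 0 ≤ r)
    (hgap : |c - 1| * Den a b (r ^ 2) < 2 / Real.pi * (|r| * Num (Real.pi * c * θ) a b (r ^ 2) m))
    {d : ℝ} (hd : d < c) :
    ∃ κ : ℝ, 0 < κ ∧ ∃ N0 : ℕ, ∀ N : ℕ, N0 ≤ N →
      κ * N ≤ ({n ∈ Finset.Icc 1 N | d < gap n}.card : ℝ) := by
  have hpi := Real.pi_pos
  have hc : 0 < c := by linarith
  obtain ⟨κ, hκ, e, he, main⟩ := arith_sum hm hθ hθ'.le hc.le ha hb hab h0 hgap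
  set ep := min e (θ / 4) with hep
  have hep0 : 0 < ep := lt_min he (by linarith)
  have hep1 : ep ≤ θ / 4 := min_le_right _ _
  set δ := min e (1 / 2) with hδ
  have hδ0 : 0 < δ := lt_min he (by norm_num)
  obtain ⟨R, hRth, hRep, hRr, hLP⟩ := exists_linProf (th := θ) (ep := ep) (δ := δ) r hep0
    (by linarith) hθ' ha hb hab hδ0 (min_le_right _ _)
  set e' := min e (π * κ) with he'
  have he'0 : 0 < e' := lt_min he (by positivity)
  obtain ⟨ψ, hψ, hψ00, hψle, hψ1, hψ0, ⟨K, M, hK, hlip, hbd⟩, hclose⟩ := exists_majorant hc he'0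
  obtain ⟨T1, hT1, harith⟩ := main R hRr hRth (by rw [hRep]; exact min_le_left _ _) δ
    (min_le_left _ _) hLP (chat ψ) K M e' 1 hK hlip hbd he'0.le (min_le_left _ _)
    (fun x _ _ => hclose x) (by norm_num) (by rw [abs_of_nonneg hr]; ring)
  have hF : ∀ x, 0 ≤ x → R.F x ≤ 1 := fun x hx => hLP.F_le_one hx
  have hF0 : 0 < R.F 0 := by
    rw [hLP.eq 0 le_rfl (by linarith [hLP.hδ'])]
    linarith
  have hψc : chat ψ 0 / (2 * π) ≤ c + κ / 2 := by
    have h1 := (abs_le.mp (hclose 0)).2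
    have h2 : k0 c 0 = 2 * (π * c) := by unfold k0; simp
    have h3 : e' ≤ π * κ := min_le_right _ _
    rw [div_le_iff₀ (by positivity)]
    rw [h2] at h1
    linarith only [h1, h3]
  obtain ⟨c0, T0, hc0, hvol⟩ := void_of_arith hRH R hF hF0 hκ hψ hψ00 hψle hψ1 hψ0 hψc
    (T1 := T1) (fun T hT => by
      have h1 := harith T hT ⌊T⌋₊ le_rfl
      rw [abs_of_nonneg (by linarith)] at h1
      linarith)
  exact count_of_void hRH hc hd hc0 hvol

end Pool.Agent.ZGap.Res
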